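import Pool.Agent.PLR.Defs

/-!
# PLR.ChiL: lower bound for the modulus and the argument of `exp(-i p s) chi p s` for `|s| ≤ 1/2`

`τ = 2p - 1`, `u = s/2`: `chi p s = exp(i u) (cos u + i τ sin u)`, `exp(-i p s) = exp(-i u - i τ u)`. So the number is
`exp(-i τ u)(cos u + i τ sin u) = |..| exp(i b)`, `b = arctan(τ tan u) - τ u`, `b' (in u) = τ(1-τ^2) sin^2 u/(cos^2 u + τ^2 sin^2 u)`,
`τ(1-τ^2) u^3/3 = τ(1-τ^2) s^3/24`. Modulus: `cos^2 u + τ^2 sin^2 u ≥ exp(-(1-τ^2) u^2 - 2 (2u)^4)` (very crude).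
-/

set_option autoImplicit false

namespace PLR

private theorem chiL_eq (p u : ℝ) : chi p (2 * u) = Complex.exp ((u : ℂ) * Complex.I) *
    ((Real.cos u : ℂ) + Complex.I * (((2 * p - 1) * Real.sin u : ℝ) : ℂ)) := by
  unfold chi
  have h1 : Complex.exp (((2 * u : ℝ) : ℂ) * Complex.I) =
      Complex.exp ((u : ℂ) * Complex.I) * Complex.exp ((u : ℂ) * Complex.I) := by
    rw [← Complex.exp_add]
    congr 1
    push_cast
    ring
  rw [h1]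
  push_cast
  rw [Complex.cos, Complex.sin]
  have hE : Complex.exp ((u : ℂ) * Complex.I) * Complex.exp (-(u : ℂ) * Complex.I) = 1 := by
    rw [← Complex.exp_add]
    rw [show (u : ℂ) * Complex.I + -(u : ℂ) * Complex.I = 0 by ring, Complex.exp_zero]
  generalize Complex.exp ((u : ℂ) * Complex.I) = E at hE ⊢
  generalize Complex.exp (-(u : ℂ) * Complex.I) = E' at hE ⊢
  have hI := Complex.I_sq
  linear_combination ((p : ℂ) - 1) * hE - (2 * (p : ℂ) - 1) * E * (E' - E) / 2 * hI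

private theorem chiL_norm (p u : ℝ) : ‖chi p (2 * u)‖ =
    ‖(Real.cos u : ℂ) + Complex.I * (((2 * p - 1) * Real.sin u : ℝ) : ℂ)‖ := by
  rw [chiL_eq, norm_mul, Complex.norm_exp_ofReal_mul_I, one_mul]

private theorem chiL_sin {x : ℝ} (hx : |x| ≤ 1 / 4) :
    31 / 32 ≤ Real.cos x ∧ Real.sin x ^ 2 ≤ x ^ 2 ∧ x ^ 2 - (x ^ 2) ^ 2 / 2 ≤ Real.sin x ^ 2 ∧ x ^ 2 ≤ 1 / 16 := by
  have h1 : x ^ 2 ≤ 1 / 16 := by
    rw [← sq_abs]
    nlinarith [abs_nonneg x]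
  have h2 := Real.one_sub_sq_div_two_le_cos (x := x)
  have h3 : Real.sin x ^ 2 ≤ x ^ 2 := by
    rw [sq_le_sq]
    exact Real.abs_sin_le_abs
  have h4 := Real.cos_bound (x := x) (by linarith)
  have h5 : |x| ^ 4 = (x ^ 2) ^ 2 := by
    rw [← sq_abs x]
    ring
  rw [h5] at h4
  have h6 := (abs_le.1 h4).2
  have h7 := Real.sin_sq_add_cos_sq x
  have h8 := sq_nonneg x
  refine ⟨by linarith, h3, ?_, h1⟩
  have h9 : Real.cos x ≤ 1 - x ^ 2 / 2 + (x ^ 2) ^ 2 * (5 / 96) := by linarith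
  have h10 : Real.cos x ^ 2 ≤ (1 - x ^ 2 / 2 + (x ^ 2) ^ 2 * (5 / 96)) ^ 2 :=
    pow_le_pow_left₀ (by linarith) h9 2
  have h11 : Real.sin x ^ 2 = 1 - Real.cos x ^ 2 := by linarith
  rw [h11]
  generalize x ^ 2 = w at *
  nlinarith [mul_nonneg h8 h8, mul_nonneg (mul_nonneg h8 h8) h8,
    mul_nonneg (mul_nonneg h8 h8) (sub_nonneg.2 h1)]

private theorem chiL_db {τ x : ℝ} (hτ : |τ| ≤ 1) (hx : |x| ≤ 1 / 4) :
    |1 / (1 + (τ * Real.tan x) ^ 2) * (τ * (1 / Real.cos x ^ 2)) - τ * 1 -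
      τ * (1 - τ ^ 2) / 3 * (3 * x ^ 2)| ≤ 2 * |τ| * x ^ 4 := by
  obtain ⟨hc, h1, h2, h3⟩ := chiL_sin hx
  have hcs := Real.sin_sq_add_cos_sq x
  rw [Real.tan_eq_sin_div_cos]
  have hc0 : (0 : ℝ) < Real.cos x := by linarith
  have hτ2 : τ ^ 2 ≤ 1 := by
    rw [← sq_abs]
    nlinarith [abs_nonneg τ]
  have hτ0 := sq_nonneg τ
  generalize Real.cos x = c at *
  generalize Real.sin x = s at *
  have hs0 := sq_nonneg s
  have hD : 0 < c ^ 2 + τ ^ 2 * s ^ 2 := by positivity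
  have e1 : 1 / (1 + (τ * (s / c)) ^ 2) * (τ * (1 / c ^ 2)) = τ / (c ^ 2 + τ ^ 2 * s ^ 2) := by
    have h5 : (1 + (τ * (s / c)) ^ 2) = (c ^ 2 + τ ^ 2 * s ^ 2) / c ^ 2 := by
      field_simp
    rw [h5]
    field_simp
  have e2 : τ / (c ^ 2 + τ ^ 2 * s ^ 2) - τ * 1 - τ * (1 - τ ^ 2) / 3 * (3 * x ^ 2) =
      τ * ((1 - τ ^ 2) * ((s ^ 2 - x ^ 2 * (c ^ 2 + τ ^ 2 * s ^ 2)) / (c ^ 2 + τ ^ 2 * s ^ 2))) := by
    have h6 : τ / (c ^ 2 + τ ^ 2 * s ^ 2) - τ * 1 =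
        τ * ((1 - τ ^ 2) * (s ^ 2 / (c ^ 2 + τ ^ 2 * s ^ 2))) := by
      field_simp
      have : c ^ 2 = 1 - s ^ 2 := by linarith
      rw [this]
      ring
    rw [h6, sub_div, mul_div_assoc (x ^ 2), div_self hD.ne']
    ring
  rw [e1, e2, abs_mul, abs_mul, abs_div, abs_of_pos hD, abs_of_nonneg (by linarith : (0 : ℝ) ≤ 1 - τ ^ 2)]
  have hN : |s ^ 2 - x ^ 2 * (c ^ 2 + τ ^ 2 * s ^ 2)| ≤ (x ^ 2) ^ 2 := by
    have h7 : c ^ 2 + τ ^ 2 * s ^ 2 = 1 - (1 - τ ^ 2) * s ^ 2 := by linarith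
    rw [h7]
    have h8 : 0 ≤ 1 - τ ^ 2 := by linarith
    have hx0 := sq_nonneg x
    have h9 : (1 - τ ^ 2) * s ^ 2 ≤ x ^ 2 := by nlinarith
    have h10 : 0 ≤ (1 - τ ^ 2) * s ^ 2 := mul_nonneg h8 hs0
    rw [abs_le]
    constructor
    · nlinarith [mul_nonneg hx0 h10]
    · nlinarith [mul_le_mul_of_nonneg_left h9 hx0]
  have hD2 : 15 / 16 ≤ c ^ 2 + τ ^ 2 * s ^ 2 := by nlinarith
  have h11 : |s ^ 2 - x ^ 2 * (c ^ 2 + τ ^ 2 * s ^ 2)| / (c ^ 2 + τ ^ 2 * s ^ 2) ≤ 2 * (x ^ 2) ^ 2 := by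
    rw [div_le_iff₀ hD]
    refine hN.trans ?_
    nlinarith [mul_le_mul_of_nonneg_left hD2 (sq_nonneg (x ^ 2))]
  have h12 : (1 - τ ^ 2) * (|s ^ 2 - x ^ 2 * (c ^ 2 + τ ^ 2 * s ^ 2)| / (c ^ 2 + τ ^ 2 * s ^ 2)) ≤
      1 * (2 * (x ^ 2) ^ 2) :=
    mul_le_mul (by linarith) h11 (by positivity) (by norm_num)
  calc |τ| * ((1 - τ ^ 2) * (|s ^ 2 - x ^ 2 * (c ^ 2 + τ ^ 2 * s ^ 2)| / (c ^ 2 + τ ^ 2 * s ^ 2)))
      ≤ |τ| * (1 * (2 * (x ^ 2) ^ 2)) := mul_le_mul_of_nonneg_left h12 (abs_nonneg _)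
    _ = 2 * |τ| * x ^ 4 := by ring

private theorem chiL_arctan {τ u : ℝ} (hτ : |τ| ≤ 1) (hu : |u| ≤ 1 / 4) :
    |Real.arctan (τ * Real.tan u) - τ * u - τ * (1 - τ ^ 2) / 3 * u ^ 3| ≤ 2 * |τ| * |u| ^ 5 := by
  have hd : ∀ x ∈ Set.Icc (-|u|) |u|, HasDerivWithinAt
      (fun x : ℝ => Real.arctan (τ * Real.tan x) - τ * x - τ * (1 - τ ^ 2) / 3 * x ^ 3)
      (1 / (1 + (τ * Real.tan x) ^ 2) * (τ * (1 / Real.cos x ^ 2)) - τ * 1 -
        τ * (1 - τ ^ 2) / 3 * (3 * x ^ 2)) (Set.Icc (-|u|) |u|) x := by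
    intro x hx
    have hx1 : |x| ≤ |u| := abs_le.2 hx
    obtain ⟨hc, -, -, -⟩ := chiL_sin (hx1.trans hu)
    have hc0 : Real.cos x ≠ 0 := by
      intro h
      linarith
    have h1 := ((Real.hasDerivAt_tan hc0).const_mul τ).arctan
    have h2 := (hasDerivAt_id x).const_mul τ
    have h3 := (hasDerivAt_pow 3 x).const_mul (τ * (1 - τ ^ 2) / 3)
    have h4 := ((h1.sub h2).sub h3).hasDerivWithinAt (s := Set.Icc (-|u|) |u|)
    have h5 : ((3 : ℕ) : ℝ) * x ^ (3 - 1) = 3 * x ^ 2 := by norm_num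
    rw [h5] at h4
    exact h4
  have hb : ∀ x ∈ Set.Icc (-|u|) |u|, ‖1 / (1 + (τ * Real.tan x) ^ 2) * (τ * (1 / Real.cos x ^ 2)) - τ * 1 -
        τ * (1 - τ ^ 2) / 3 * (3 * x ^ 2)‖ ≤ 2 * |τ| * |u| ^ 4 := by
    intro x hx
    have hx1 : |x| ≤ |u| := abs_le.2 hx
    rw [Real.norm_eq_abs]
    refine (chiL_db hτ (hx1.trans hu)).trans ?_
    have h1 : x ^ 4 = |x| ^ 4 := by
      rw [← abs_pow, abs_of_nonneg (by positivity)]
    rw [h1]
    have h2 : |x| ^ 4 ≤ |u| ^ 4 := pow_le_pow_left₀ (abs_nonneg _) hx1 4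
    exact mul_le_mul_of_nonneg_left h2 (by positivity)
  have h := (convex_Icc (-|u|) |u|).norm_image_sub_le_of_norm_hasDerivWithin_le hd hb
    (x := 0) (y := u) ⟨by simp, abs_nonneg u⟩ ⟨neg_abs_le u, le_abs_self u⟩
  simp only [Real.tan_zero, mul_zero, Real.arctan_zero, sub_zero, ne_eq, OfNat.ofNat_ne_zero,
    not_false_eq_true, zero_pow, Real.norm_eq_abs] at h
  calc _ ≤ _ := h
    _ = 2 * |τ| * |u| ^ 5 := by ring

theorem chi_arg {p s : ℝ} (hp : |2 * p - 1| ≤ 1 / 10) (hs : |s| ≤ 1 / 2) :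
    ∃ b : ℝ, Complex.exp (-(Complex.I * (p : ℂ) * (s : ℂ))) * chi p s = (‖chi p s‖ : ℂ) * Complex.exp (Complex.I * (b : ℂ)) ∧
      |b - (2 * p - 1) * (1 - (2 * p - 1) ^ 2) / 24 * s ^ 3| ≤ |2 * p - 1| * |s| ^ 5 := by
  obtain ⟨u, rfl⟩ : ∃ u, s = 2 * u := ⟨s / 2, by ring⟩
  have hu : |u| ≤ 1 / 4 := by
    rw [abs_mul, abs_two] at hs
    linarith
  refine ⟨Real.arctan ((2 * p - 1) * Real.tan u) - (2 * p - 1) * u, ?_, ?_⟩
  · rw [chiL_norm]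
    have hz := chiL_eq p u
    obtain ⟨hc, -, -, -⟩ := chiL_sin hu
    have hc0 : (0 : ℝ) < Real.cos u := by linarith
    have hre : ((Real.cos u : ℂ) + Complex.I * (((2 * p - 1) * Real.sin u : ℝ) : ℂ)).re = Real.cos u := by
      rw [Complex.add_re, Complex.ofReal_re, Complex.mul_re, Complex.I_re, Complex.I_im, Complex.ofReal_re,
        Complex.ofReal_im]
      ring
    have him : ((Real.cos u : ℂ) + Complex.I * (((2 * p - 1) * Real.sin u : ℝ) : ℂ)).im =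
        (2 * p - 1) * Real.sin u := by
      rw [Complex.add_im, Complex.ofReal_im, Complex.mul_im, Complex.I_re, Complex.I_im, Complex.ofReal_re,
        Complex.ofReal_im]
      ring
    generalize (Real.cos u : ℂ) + Complex.I * (((2 * p - 1) * Real.sin u : ℝ) : ℂ) = z at hz hre him ⊢
    have harg : Complex.arg z = Real.arctan ((2 * p - 1) * Real.tan u) := by
      have h1 : Real.tan (Complex.arg z) = z.im / z.re := Complex.tan_arg z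
      have h2 : |Complex.arg z| < Real.pi / 2 :=
        Complex.abs_arg_lt_pi_div_two_iff.2 (Or.inl (by rw [hre]; exact hc0))
      have h3 := Real.arctan_tan (abs_lt.1 h2).1 (abs_lt.1 h2).2
      rw [← h3, h1, hre, him, Real.tan_eq_sin_div_cos]
      congr 1
      ring
    have hz2 := Complex.norm_mul_exp_arg_mul_I z
    rw [hz, ← harg]
    nth_rewrite 1 [← hz2]
    have e1 : Complex.exp (Complex.I * ((Complex.arg z - (2 * p - 1) * u : ℝ) : ℂ)) =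
        Complex.exp (-(Complex.I * (p : ℂ) * ((2 * u : ℝ) : ℂ))) * Complex.exp ((u : ℂ) * Complex.I) *
          Complex.exp ((Complex.arg z : ℂ) * Complex.I) := by
      rw [← Complex.exp_add, ← Complex.exp_add]
      congr 1
      push_cast
      ring
    rw [e1]
    ring
  · have h := chiL_arctan (τ := 2 * p - 1) (u := u) (by linarith) hu
    have e1 : (2 * p - 1) * (1 - (2 * p - 1) ^ 2) / 24 * (2 * u) ^ 3 =
        (2 * p - 1) * (1 - (2 * p - 1) ^ 2) / 3 * u ^ 3 := by ring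
    rw [e1]
    refine h.trans ?_
    rw [abs_mul 2 u, abs_two]
    have h1 : 0 ≤ |2 * p - 1| * |u| ^ 5 := by positivity
    nlinarith

theorem chi_lower {p s : ℝ} (hp : |2 * p - 1| ≤ 1 / 10) (hs : |s| ≤ 1 / 2) :
    Real.exp (-(p * (1 - p) * s ^ 2 / 2) - s ^ 4) ≤ ‖chi p s‖ := by
  obtain ⟨u, rfl⟩ : ∃ u, s = 2 * u := ⟨s / 2, by ring⟩
  have hu : |u| ≤ 1 / 4 := by
    rw [abs_mul, abs_two] at hs
    linarith
  obtain ⟨hc, h1, h2, h3⟩ := chiL_sin hu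
  have hcs := Real.sin_sq_add_cos_sq u
  have hn : ‖chi p (2 * u)‖ ^ 2 = 1 - 4 * (p * (1 - p)) * Real.sin u ^ 2 := by
    rw [chiL_norm, ← Complex.normSq_eq_norm_sq, Complex.normSq_apply]
    have hre : ((Real.cos u : ℂ) + Complex.I * (((2 * p - 1) * Real.sin u : ℝ) : ℂ)).re = Real.cos u := by
      rw [Complex.add_re, Complex.ofReal_re, Complex.mul_re, Complex.I_re, Complex.I_im, Complex.ofReal_re,
        Complex.ofReal_im]
      ring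
    have him : ((Real.cos u : ℂ) + Complex.I * (((2 * p - 1) * Real.sin u : ℝ) : ℂ)).im =
        (2 * p - 1) * Real.sin u := by
      rw [Complex.add_im, Complex.ofReal_im, Complex.mul_im, Complex.I_re, Complex.I_im, Complex.ofReal_re,
        Complex.ofReal_im]
      ring
    rw [hre, him]
    linear_combination hcs
  have hp1 : (2 * p - 1) ^ 2 ≤ 1 / 100 := by
    rw [← sq_abs]
    nlinarith [abs_nonneg (2 * p - 1)]
  have hq0 : 0 ≤ 4 * (p * (1 - p)) := by nlinarith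
  have hq1 : 4 * (p * (1 - p)) ≤ 1 := by nlinarith [sq_nonneg (2 * p - 1)]
  have hu0 := sq_nonneg u
  generalize hq : 4 * (p * (1 - p)) = q at hn hq0 hq1
  have hY0 : 0 ≤ q * u ^ 2 := mul_nonneg hq0 hu0
  have hY1 : q * u ^ 2 ≤ 1 / 16 := by nlinarith
  have hY2 : (q * u ^ 2) ^ 2 ≤ (u ^ 2) ^ 2 := pow_le_pow_left₀ hY0 (by nlinarith) 2
  have k1 : 1 - q * u ^ 2 ≤ ‖chi p (2 * u)‖ ^ 2 := by
    rw [hn]
    nlinarith [mul_le_mul_of_nonneg_left h1 hq0]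
  have k2 : Real.exp (-(q * u ^ 2) - 2 * (q * u ^ 2) ^ 2) ≤ 1 - q * u ^ 2 := by
    have hpos : 0 < 1 - q * u ^ 2 := by linarith
    rw [← Real.le_log_iff_exp_le hpos]
    refine le_trans ?_ (Real.one_sub_inv_le_log_of_pos hpos)
    generalize q * u ^ 2 = Y at *
    have e1 : 1 - (1 - Y)⁻¹ = -(Y / (1 - Y)) := by
      field_simp
      ring
    rw [e1]
    have e2 : Y / (1 - Y) ≤ Y + 2 * Y ^ 2 := by
      rw [div_le_iff₀ hpos]
      nlinarith [mul_nonneg hY0 hY0]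
    linarith
  have k3 : Real.exp (-(p * (1 - p) * (2 * u) ^ 2 / 2) - (2 * u) ^ 4) ^ 2 ≤ ‖chi p (2 * u)‖ ^ 2 := by
    refine le_trans ?_ (k2.trans k1)
    rw [← Real.exp_nat_mul, Real.exp_le_exp]
    have e3 : ((2 : ℕ) : ℝ) * (-(p * (1 - p) * (2 * u) ^ 2 / 2) - (2 * u) ^ 4) =
        -(q * u ^ 2) - 32 * (u ^ 2) ^ 2 := by
      rw [← hq]
      push_cast
      ring
    rw [e3]
    nlinarith [sq_nonneg (u ^ 2)]
  exact le_of_sq_le_sq k3 (norm_nonneg _)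

end PLR
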