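import Pool.Agent.PLR.Nrm

/-!
# PLR.ChiU: upper bound for the characteristic function of a nearly fair coin

`τ = 2p - 1`, `u = nrm(s)/2 ∈ [0, π/2]` (by periodicity and symmetry of the modulus): `|chi p s|^2 = cos(u)^2 + τ^2 sin(u)^2`, `p(1-p) = (1-τ^2)/4`,
so the claim is `cos(u)^2 + τ^2 sin(u)^2 ≤ exp(-(1-τ^2) u^2)`, `ζ = τ^2 ≤ 1/100`.
Known: `cos u ≤ exp(-u^2/2 - u^4/12)` on `[0, π/2]` (derivative of `log cos u + u^2/2 + u^4/12` is `-tan u + u + u^3/3 ≤ 0`).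
Then `exp(-u^2)(1 + ζ u^2) ≥ exp(-u^2 - u^4/6) + ζ sin(u)^2` since `exp(-u^2)(1 - exp(-u^4/6)) ≥ (1/100)(sin^2 u - u^2 exp(-u^2))`
(`sin^2 u ≤ u^2`, `1 - exp(-u^2) ≤ u^2`: the right side is at most `u^4/100`; the left side is at least `exp(-u^2) (u^4/6)/(1+u^4/6)`, `u ≤ π/2`: exp(-u^2) ≥ 0.08, 1+u^4/6 ≤ 2.02: at least `u^4 * 0.0066`; if this is
too tight use `sin^2 u - u^2 exp(-u^2) ≤ min(u^4, 1)`: for `u ≥ 1` the left side is at least `0.08 * 0.15 = 0.012 ≥ 1/100`, for `u ≤ 1` it is at least `0.36 * u^4/7`).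
-/

set_option autoImplicit false

namespace PLR


private theorem chiu_sin_ge {u : ℝ} (h0 : 0 ≤ u) (h1 : u ≤ Real.pi / 2) : u * Real.cos u ≤ Real.sin u := by
  rcases h0.eq_or_lt with h0 | h0
  · rw [← h0]; simp
  rcases h1.eq_or_lt with h1 | h1
  · rw [h1, Real.cos_pi_div_two, Real.sin_pi_div_two]; simp
  · have h2 := Real.lt_tan h0 h1
    have h3 : 0 < Real.cos u := Real.cos_pos_of_mem_Ioo ⟨by linarith, h1⟩
    rw [Real.tan_eq_sin_div_cos, lt_div_iff₀ h3] at h2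
    exact h2.le

private theorem chiu_k_deriv (u : ℝ) : HasDerivAt (fun u : ℝ => Real.sin u - (u + u ^ 3 / 3) * Real.cos u)
    (Real.cos u - ((1 + 3 * u ^ 2 / 3) * Real.cos u + (u + u ^ 3 / 3) * (-Real.sin u))) u := by
  have h1 : HasDerivAt (fun u : ℝ => u + u ^ 3 / 3) (1 + 3 * u ^ 2 / 3) u := by
    have h2 : HasDerivAt (fun u : ℝ => u ^ 3) (3 * u ^ 2) u := by
      have h3 := hasDerivAt_pow 3 u
      simpa using h3
    exact (hasDerivAt_id u).add (h2.div_const 3)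
  exact (Real.hasDerivAt_sin u).sub (h1.mul (Real.hasDerivAt_cos u))

private theorem chiu_k_nonneg {u : ℝ} (h0 : 0 ≤ u) (h1 : u ≤ Real.pi / 2) :
    (u + u ^ 3 / 3) * Real.cos u ≤ Real.sin u := by
  have hm : MonotoneOn (fun u : ℝ => Real.sin u - (u + u ^ 3 / 3) * Real.cos u) (Set.Icc 0 (Real.pi / 2)) := by
    apply monotoneOn_of_deriv_nonneg (convex_Icc _ _)
    · exact (continuous_iff_continuousAt.2 fun u => (chiu_k_deriv u).continuousAt).continuousOn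
    · exact fun u _ => (chiu_k_deriv u).differentiableAt.differentiableWithinAt
    · intro v hv
      rw [interior_Icc] at hv
      rw [(chiu_k_deriv v).deriv]
      have h2 := chiu_sin_ge hv.1.le hv.2.le
      have h3 : 0 ≤ Real.cos v := (Real.cos_pos_of_mem_Ioo ⟨by linarith [hv.1], hv.2⟩).le
      have h4 : 0 ≤ Real.sin v := (mul_nonneg hv.1.le h3).trans h2
      have h5 : v * (v * Real.cos v) ≤ v * Real.sin v := mul_le_mul_of_nonneg_left h2 hv.1.le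
      have h6 : 0 ≤ v ^ 3 / 3 * Real.sin v := by
        have := hv.1.le
        positivity
      nlinarith
  have h2 := hm (Set.left_mem_Icc.2 (by linarith)) ⟨h0, h1⟩ h0
  simp only [Real.sin_zero] at h2
  have h3 : (0 : ℝ) - (0 + 0 ^ 3 / 3) * Real.cos 0 = 0 := by norm_num
  rw [h3] at h2
  linarith

private theorem chiu_h_deriv (u : ℝ) : HasDerivAt (fun u : ℝ => Real.cos u * Real.exp (u ^ 2 / 2 + u ^ 4 / 12))
    (-Real.sin u * Real.exp (u ^ 2 / 2 + u ^ 4 / 12) +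
      Real.cos u * (Real.exp (u ^ 2 / 2 + u ^ 4 / 12) * (2 * u / 2 + 4 * u ^ 3 / 12))) u := by
  have h1 : HasDerivAt (fun u : ℝ => u ^ 2 / 2 + u ^ 4 / 12) (2 * u / 2 + 4 * u ^ 3 / 12) u := by
    have h2 : HasDerivAt (fun u : ℝ => u ^ 2) (2 * u) u := by
      have h3 := hasDerivAt_pow 2 u
      simpa using h3
    have h4 : HasDerivAt (fun u : ℝ => u ^ 4) (4 * u ^ 3) u := by
      have h3 := hasDerivAt_pow 4 u
      simpa using h3
    exact (h2.div_const 2).add (h4.div_const 12)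
  exact (Real.hasDerivAt_cos u).mul h1.exp

private theorem chiu_cos_le {u : ℝ} (h0 : 0 ≤ u) (h1 : u ≤ Real.pi / 2) :
    Real.cos u * Real.exp (u ^ 2 / 2 + u ^ 4 / 12) ≤ 1 := by
  have hm : AntitoneOn (fun u : ℝ => Real.cos u * Real.exp (u ^ 2 / 2 + u ^ 4 / 12)) (Set.Icc 0 (Real.pi / 2)) := by
    apply antitoneOn_of_deriv_nonpos (convex_Icc _ _)
    · exact (continuous_iff_continuousAt.2 fun u => (chiu_h_deriv u).continuousAt).continuousOn
    · exact fun u _ => (chiu_h_deriv u).differentiableAt.differentiableWithinAt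
    · intro v hv
      rw [interior_Icc] at hv
      rw [(chiu_h_deriv v).deriv]
      have h2 := chiu_k_nonneg hv.1.le hv.2.le
      have h3 : 0 < Real.exp (v ^ 2 / 2 + v ^ 4 / 12) := Real.exp_pos _
      have h4 : -Real.sin v * Real.exp (v ^ 2 / 2 + v ^ 4 / 12) +
          Real.cos v * (Real.exp (v ^ 2 / 2 + v ^ 4 / 12) * (2 * v / 2 + 4 * v ^ 3 / 12)) =
          Real.exp (v ^ 2 / 2 + v ^ 4 / 12) * ((v + v ^ 3 / 3) * Real.cos v - Real.sin v) := by ring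
      rw [h4]
      exact mul_nonpos_of_nonneg_of_nonpos h3.le (by linarith)
  have h2 := hm (Set.left_mem_Icc.2 (by linarith)) ⟨h0, h1⟩ h0
  simpa using h2

private theorem chiu_cos_sq_le {u : ℝ} (h0 : 0 ≤ u) (h1 : u ≤ Real.pi / 2) :
    Real.cos u ^ 2 ≤ Real.exp (-(u ^ 2) - (u ^ 2) ^ 2 / 6) := by
  have h2 := chiu_cos_le h0 h1
  have h3 : 0 ≤ Real.cos u := Real.cos_nonneg_of_mem_Icc ⟨by linarith [Real.pi_pos], h1⟩
  have h4 : Real.cos u ≤ Real.exp (-(u ^ 2 / 2 + u ^ 4 / 12)) := by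
    rw [Real.exp_neg, ← one_div, le_div_iff₀ (Real.exp_pos _)]
    exact h2
  calc Real.cos u ^ 2 ≤ Real.exp (-(u ^ 2 / 2 + u ^ 4 / 12)) ^ 2 := pow_le_pow_left₀ h3 h4 2
    _ = Real.exp (-(u ^ 2) - (u ^ 2) ^ 2 / 6) := by
        rw [← Real.exp_nat_mul]
        congr 1
        push_cast
        ring

private theorem chiu_exp_le (x : ℝ) (hx : 0 ≤ x) : Real.exp x - 1 - x ≤ x ^ 2 * Real.exp x := by
  have h1 := Real.add_one_le_exp (-x)
  have h2 : Real.exp x * Real.exp (-x) = 1 := by rw [← Real.exp_add]; simp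
  have h3 : 0 < Real.exp x := Real.exp_pos x
  have h4 : Real.exp x * ((-x + 1) * (1 + x)) ≤ Real.exp x * (Real.exp (-x) * (1 + x)) :=
    mul_le_mul_of_nonneg_left (mul_le_mul_of_nonneg_right h1 (by linarith)) h3.le
  have h5 : Real.exp x * (Real.exp (-x) * (1 + x)) = 1 + x := by
    rw [← mul_assoc, h2, one_mul]
  nlinarith

private theorem chiu_key {ζ x : ℝ} (_hz0 : 0 ≤ ζ) (hz1 : ζ ≤ 1 / 100) (hx0 : 0 ≤ x) (hx1 : x ≤ 5 / 2) :
    ζ * (Real.exp x - 1 - x) * (6 + x ^ 2) ≤ (1 - ζ) * x ^ 2 := by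
  have he : Real.exp 1 ≤ 2.7182818286 := Real.exp_one_lt_d9.le
  have he0 : 0 < Real.exp 1 := Real.exp_pos 1
  have h0 : 0 ≤ Real.exp x - 1 - x := by linarith [Real.add_one_le_exp x]
  rcases le_total x 2 with hx | hx
  · have h1 : Real.exp x ≤ 7.4 := by
      have h2 : Real.exp x ≤ Real.exp 2 := Real.exp_le_exp.2 hx
      have h3 : Real.exp 2 = Real.exp 1 ^ 2 := by
        rw [← Real.exp_nat_mul]; norm_num
      nlinarith
    have h2 := chiu_exp_le x hx0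
    have h3 : Real.exp x - 1 - x ≤ x ^ 2 * 7.4 := h2.trans (mul_le_mul_of_nonneg_left h1 (sq_nonneg x))
    have h4 : 6 + x ^ 2 ≤ 10 := by nlinarith
    have h5 : (Real.exp x - 1 - x) * (6 + x ^ 2) ≤ (x ^ 2 * 7.4) * 10 :=
      mul_le_mul h3 h4 (by positivity) (by positivity)
    have h6 : ζ * ((Real.exp x - 1 - x) * (6 + x ^ 2)) ≤ (1 / 100) * ((x ^ 2 * 7.4) * 10) :=
      mul_le_mul hz1 h5 (by positivity) (by norm_num)
    nlinarith [sq_nonneg x]
  · have h1 : Real.exp x ≤ 20.1 := by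
      have h2 : Real.exp x ≤ Real.exp 3 := Real.exp_le_exp.2 (by linarith)
      have h3 : Real.exp 3 = Real.exp 1 ^ 3 := by
        rw [← Real.exp_nat_mul]; norm_num
      have h4 : Real.exp 1 ^ 3 ≤ 2.7182818286 ^ 3 := pow_le_pow_left₀ he0.le he 3
      rw [h3] at h2
      refine h2.trans (h4.trans ?_)
      norm_num
    have h3 : Real.exp x - 1 - x ≤ 17.1 := by linarith
    have h4 : 6 + x ^ 2 ≤ 12.25 := by nlinarith
    have h5 : (Real.exp x - 1 - x) * (6 + x ^ 2) ≤ 17.1 * 12.25 :=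
      mul_le_mul h3 h4 (by positivity) (by norm_num)
    have h6 : ζ * ((Real.exp x - 1 - x) * (6 + x ^ 2)) ≤ (1 / 100) * (17.1 * 12.25) :=
      mul_le_mul hz1 h5 (by positivity) (by norm_num)
    have h7 : 4 ≤ x ^ 2 := by nlinarith
    nlinarith

private theorem chiu_scalar {ζ x : ℝ} (hz0 : 0 ≤ ζ) (hz1 : ζ ≤ 1 / 100) (hx0 : 0 ≤ x) (hx1 : x ≤ 5 / 2) :
    ζ + (1 - ζ) * Real.exp (-x - x ^ 2 / 6) ≤ Real.exp (-((1 - ζ) * x)) := by
  have h1 : Real.exp (-x - x ^ 2 / 6) = Real.exp (-x) * Real.exp (-(x ^ 2 / 6)) := by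
    rw [← Real.exp_add]; congr 1
  have h2 : Real.exp (-((1 - ζ) * x)) = Real.exp (-x) * Real.exp (ζ * x) := by
    rw [← Real.exp_add]; congr 1; ring
  have h3 : Real.exp (-x) * Real.exp x = 1 := by rw [← Real.exp_add]; simp
  have h4 : Real.exp (-(x ^ 2 / 6)) ≤ 6 / (6 + x ^ 2) := by
    rw [Real.exp_neg, le_div_iff₀ (by positivity), inv_mul_le_iff₀ (Real.exp_pos _)]
    have h5 := Real.add_one_le_exp (x ^ 2 / 6)
    linarith
  have h5 : 1 + ζ * x ≤ Real.exp (ζ * x) := by linarith [Real.add_one_le_exp (ζ * x)]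
  have h6 : 0 < Real.exp (-x) := Real.exp_pos _
  have h7 := chiu_key hz0 hz1 hx0 hx1
  have h8 : ζ * Real.exp x + (1 - ζ) * (6 / (6 + x ^ 2)) ≤ 1 + ζ * x := by
    have h9 : (1 - ζ) * (6 / (6 + x ^ 2)) = (1 - ζ) - (1 - ζ) * x ^ 2 / (6 + x ^ 2) := by
      field_simp
      ring
    have h10 : ζ * (Real.exp x - 1 - x) ≤ (1 - ζ) * x ^ 2 / (6 + x ^ 2) := by
      rw [le_div_iff₀ (by positivity)]
      exact h7
    rw [h9]
    linarith
  rw [h1, h2]
  calc ζ + (1 - ζ) * (Real.exp (-x) * Real.exp (-(x ^ 2 / 6)))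
      = Real.exp (-x) * (ζ * Real.exp x + (1 - ζ) * Real.exp (-(x ^ 2 / 6))) := by
        calc _ = ζ * 1 + (1 - ζ) * (Real.exp (-x) * Real.exp (-(x ^ 2 / 6))) := by ring
          _ = ζ * (Real.exp (-x) * Real.exp x) + (1 - ζ) * (Real.exp (-x) * Real.exp (-(x ^ 2 / 6))) := by rw [h3]
          _ = _ := by ring
    _ ≤ Real.exp (-x) * (ζ * Real.exp x + (1 - ζ) * (6 / (6 + x ^ 2))) := by
        apply mul_le_mul_of_nonneg_left _ h6.le
        have h11 : (1 - ζ) * Real.exp (-(x ^ 2 / 6)) ≤ (1 - ζ) * (6 / (6 + x ^ 2)) :=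
          mul_le_mul_of_nonneg_left h4 (by linarith)
        linarith
    _ ≤ Real.exp (-x) * (1 + ζ * x) := mul_le_mul_of_nonneg_left h8 h6.le
    _ ≤ Real.exp (-x) * Real.exp (ζ * x) := mul_le_mul_of_nonneg_left h5 h6.le

private theorem chiu_norm_sq (p s : ℝ) : ‖chi p s‖ ^ 2 = 1 - 2 * p * (1 - p) * (1 - Real.cos s) := by
  have hre : (chi p s).re = 1 - p + p * Real.cos s := by
    unfold chi
    simp only [Complex.add_re, Complex.sub_re, Complex.one_re, Complex.ofReal_re, Complex.re_ofReal_mul,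
      Complex.exp_ofReal_mul_I_re]
  have him : (chi p s).im = p * Real.sin s := by
    unfold chi
    simp only [Complex.add_im, Complex.sub_im, Complex.one_im, Complex.ofReal_im, Complex.im_ofReal_mul,
      Complex.exp_ofReal_mul_I_im]
    ring
  rw [Complex.sq_norm, Complex.normSq_apply, hre, him]
  have h := Real.sin_sq_add_cos_sq s
  have h1 : Real.sin s ^ 2 = 1 - Real.cos s ^ 2 := by linarith
  have h2 : p * Real.sin s * (p * Real.sin s) = p ^ 2 * Real.sin s ^ 2 := by ring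
  rw [h2, h1]
  ring

private theorem chiu_cos_nrm (s : ℝ) : Real.cos (nrm s) = Real.cos s := by
  obtain ⟨z, hz⟩ := exists_nrm s
  rw [hz, Real.cos_abs]
  have h1 : s - 2 * Real.pi * z = s - z * (2 * Real.pi) := by ring
  rw [h1, Real.cos_sub_int_mul_two_pi]

theorem norm_chi_le {p : ℝ} (hp : |2 * p - 1| ≤ 1 / 10) (s : ℝ) :
    ‖chi p s‖ ≤ Real.exp (-(p * (1 - p) * nrm s ^ 2 / 2)) := by
  have hn0 := nrm_nonneg s
  have hn1 := nrm_le_pi s
  have hpi := Real.pi_lt_d2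
  have hpi0 := Real.pi_pos
  set n := nrm s with hn
  have hz1 : (2 * p - 1) ^ 2 ≤ 1 / 100 := by
    have h1 := abs_le.1 hp
    nlinarith [h1.1, h1.2]
  have hu0 : 0 ≤ n / 2 := by linarith
  have hu1 : n / 2 ≤ Real.pi / 2 := by linarith
  have hx1 : (n / 2) ^ 2 ≤ 5 / 2 := by nlinarith
  have h1 := chiu_cos_sq_le hu0 hu1
  have h2 := chiu_scalar (sq_nonneg (2 * p - 1)) hz1 (sq_nonneg (n / 2)) hx1
  have h3 : Real.cos s = 2 * Real.cos (n / 2) ^ 2 - 1 := by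
    rw [← chiu_cos_nrm s, ← hn, ← Real.cos_two_mul]
    congr 1
    ring
  have h4 : ‖chi p s‖ ^ 2 = (2 * p - 1) ^ 2 + (1 - (2 * p - 1) ^ 2) * Real.cos (n / 2) ^ 2 := by
    rw [chiu_norm_sq, h3]
    ring
  have h5 : ‖chi p s‖ ^ 2 ≤ Real.exp (-(p * (1 - p) * n ^ 2 / 2)) ^ 2 := by
    rw [h4]
    calc _ ≤ (2 * p - 1) ^ 2 + (1 - (2 * p - 1) ^ 2) * Real.exp (-((n / 2) ^ 2) - ((n / 2) ^ 2) ^ 2 / 6) := by
          have h6 := mul_le_mul_of_nonneg_left h1 (show 0 ≤ 1 - (2 * p - 1) ^ 2 by linarith)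
          linarith
      _ ≤ Real.exp (-((1 - (2 * p - 1) ^ 2) * (n / 2) ^ 2)) := h2
      _ = Real.exp (-(p * (1 - p) * n ^ 2 / 2)) ^ 2 := by
          rw [← Real.exp_nat_mul]
          congr 1
          push_cast
          ring
  exact le_of_sq_le_sq h5 (Real.exp_pos _).le

end PLR
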