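import Pool.Agent.PLR.Defs

/-!
# PLR.PairM: conditioning on the common part

`Ex p s` over `h` splits over `s ∩ (B ∩ B')` and the rest (`s = (s ∩ K) ∪ (s \ K)`, product formula for `Ex` on a disjoint union, by induction from `Ex_insert`): given the part `A` inside `K = B ∩ B'`, `F` depends on `s ∩ (B \ K)` and `F'` on `s ∩ (B' \ K)`, disjoint, so the conditional expectation of the product is the product.
-/

set_option autoImplicit false

namespace PLR

open Finset Smo

variable {V : Type*} [DecidableEq V]

private theorem cond_aux {p : Sym2 V → ℝ} {B B' : Finset (Sym2 V)} : ∀ s : Finset (Sym2 V),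
    (∀ e ∈ s, 0 ≤ p e ∧ p e ≤ 1) → ∀ F F' : Finset (Sym2 V) → ℝ, Dep B F → Dep B' F' →
    (∀ h, 0 ≤ F h) → (∀ h, 0 ≤ F' h) → ∀ K : ℝ,
    (∀ A ⊆ (B ∩ B') ∩ s, Ex p (s \ (B ∩ B')) (fun h => F' (A ∪ h)) ≤ K) →
    Ex p s (fun h => F h * F' h) ≤ Ex p s F * K := by
  intro s
  induction s using Finset.induction_on with
  | empty =>
    intro hp F F' hF hF' h0 h0' K hK
    have h1 := hK ∅ (empty_subset _)
    rw [empty_sdiff, Ex_empty, empty_union] at h1
    rw [Ex_empty, Ex_empty]
    exact mul_le_mul_of_nonneg_left h1 (h0 _)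
  | insert e s he ih =>
    intro hp F F' hF hF' h0 h0' K hK
    have hps : ∀ x ∈ s, 0 ≤ p x ∧ p x ≤ 1 := fun x hx => hp x (mem_insert_of_mem hx)
    have hpe := hp e (mem_insert_self e s)
    have hq : 0 ≤ 1 - p e := by linarith [hpe.2]
    rw [Ex_insert p he, Ex_insert p he F]
    have hG0 : ∀ h, 0 ≤ F (insert e h) := fun h => h0 _
    have hG0' : ∀ h, 0 ≤ F' (insert e h) := fun h => h0' _
    by_cases heC : e ∈ B ∩ B'
    · rw [insert_sdiff_of_mem _ heC] at hK
      have i1 := ih hps F F' hF hF' h0 h0' K (fun A hA =>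
        hK A (hA.trans (inter_subset_inter_left (subset_insert e s))))
      have i2 := ih hps (fun h => F (insert e h)) (fun h => F' (insert e h)) (hF.insert e)
        (hF'.insert e) hG0 hG0' K (fun A hA => by
          have h1 := hK (insert e A) (by
            intro x hx
            rcases mem_insert.1 hx with rfl | hx
            · exact mem_inter.2 ⟨heC, mem_insert_self _ _⟩
            · have h2 := mem_inter.1 (hA hx)
              exact mem_inter.2 ⟨h2.1, mem_insert_of_mem h2.2⟩)
          simpa only [insert_union] using h1)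
      have j1 := mul_le_mul_of_nonneg_left i1 hq
      have j2 := mul_le_mul_of_nonneg_left i2 hpe.1
      calc (1 - p e) * Ex p s (fun h => F h * F' h) +
            p e * Ex p s (fun h => F (insert e h) * F' (insert e h))
          ≤ (1 - p e) * (Ex p s F * K) + p e * (Ex p s (fun h => F (insert e h)) * K) :=
            add_le_add j1 j2
        _ = _ := by ring
    · have heS : e ∉ s \ (B ∩ B') := fun h => he (mem_sdiff.1 h).1
      rw [insert_sdiff_of_notMem _ heC] at hK
      have hK1 : ∀ A ⊆ (B ∩ B') ∩ s, (1 - p e) * Ex p (s \ (B ∩ B')) (fun h => F' (A ∪ h)) +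
          p e * Ex p (s \ (B ∩ B')) (fun h => F' (insert e (A ∪ h))) ≤ K := by
        intro A hA
        have h1 := hK A (hA.trans (inter_subset_inter_left (subset_insert e s)))
        rw [Ex_insert p heS] at h1
        simpa only [union_insert] using h1
      rcases not_and_or.1 (fun h => heC (mem_inter.2 h)) with heB | heB'
      · have e1 : ∀ h, F (insert e h) = F h := hF.insert_of_notMem heB
        have hd : Dep B' (fun h => (1 - p e) * F' h + p e * F' (insert e h)) := by
          intro h
          show (1 - p e) * F' h + p e * F' (insert e h) =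
            (1 - p e) * F' (h ∩ B') + p e * F' (insert e (h ∩ B'))
          rw [← hF' h]
          have h2 := hF'.insert e h
          have h3 : F' (insert e h) = F' (insert e (h ∩ B')) := h2
          rw [← h3]
        have i1 := ih hps F (fun h => (1 - p e) * F' h + p e * F' (insert e h)) hF hd h0
          (fun h => add_nonneg (mul_nonneg hq (h0' _)) (mul_nonneg hpe.1 (h0' _))) K (by
            intro A hA
            have h2 := hK1 A hA
            rw [← Ex_mul_left, ← Ex_mul_left, ← Ex_add] at h2
            exact h2)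
        have e2 : Ex p s (fun h => F h * ((1 - p e) * F' h + p e * F' (insert e h))) =
            (1 - p e) * Ex p s (fun h => F h * F' h) +
            p e * Ex p s (fun h => F (insert e h) * F' (insert e h)) := by
          rw [← Ex_mul_left, ← Ex_mul_left, ← Ex_add]
          refine Ex_congr p s fun h _ => ?_
          rw [e1]
          ring
        have e3 : (1 - p e) * Ex p s F + p e * Ex p s (fun h => F (insert e h)) = Ex p s F := by
          have h4 : Ex p s (fun h => F (insert e h)) = Ex p s F := Ex_congr p s fun h _ => e1 h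
          rw [h4]
          ring
        rw [e3, ← e2]
        exact i1
      · have e1 : ∀ h, F' (insert e h) = F' h := hF'.insert_of_notMem heB'
        have hK2 : ∀ A ⊆ (B ∩ B') ∩ s, Ex p (s \ (B ∩ B')) (fun h => F' (A ∪ h)) ≤ K := by
          intro A hA
          have h2 := hK1 A hA
          have h3 : Ex p (s \ (B ∩ B')) (fun h => F' (insert e (A ∪ h))) =
              Ex p (s \ (B ∩ B')) (fun h => F' (A ∪ h)) := Ex_congr p _ fun h _ => e1 _
          rw [h3] at h2
          linarith
        have i1 := ih hps F F' hF hF' h0 h0' K hK2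
        have i2 := ih hps (fun h => F (insert e h)) F' (hF.insert e) hF' hG0 h0' K hK2
        have e2 : Ex p s (fun h => F (insert e h) * F' (insert e h)) =
            Ex p s (fun h => F (insert e h) * F' h) := Ex_congr p s fun h _ => by rw [e1]
        rw [e2]
        have j1 := mul_le_mul_of_nonneg_left i1 hq
        have j2 := mul_le_mul_of_nonneg_left i2 hpe.1
        calc (1 - p e) * Ex p s (fun h => F h * F' h) + p e * Ex p s (fun h => F (insert e h) * F' h)
            ≤ (1 - p e) * (Ex p s F * K) + p e * (Ex p s (fun h => F (insert e h)) * K) :=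
              add_le_add j1 j2
          _ = _ := by ring

theorem Ex_mul_cond {p : Sym2 V → ℝ} {s B B' : Finset (Sym2 V)} (hp : ∀ e ∈ s, 0 ≤ p e ∧ p e ≤ 1)
    {F F' : Finset (Sym2 V) → ℝ} (hF : Dep B F) (hF' : Dep B' F') (h0 : ∀ h, 0 ≤ F h) (h0' : ∀ h, 0 ≤ F' h) {K : ℝ}
    (hK : ∀ A ⊆ (B ∩ B') ∩ s, Ex p (s \ (B ∩ B')) (fun h => F' (A ∪ h)) ≤ K) :
    Ex p s (fun h => F h * F' h) ≤ Ex p s F * K :=
  cond_aux s hp F F' hF hF' h0 h0' K hK

private theorem indep_aux {p : Sym2 V → ℝ} {B B' : Finset (Sym2 V)} (hBB : B ∩ B' = ∅) :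
    ∀ s : Finset (Sym2 V), ∀ F F' : Finset (Sym2 V) → ℝ, Dep B F → Dep B' F' →
    Ex p s (fun h => F h * F' h) = Ex p s F * Ex p s F' := by
  intro s
  induction s using Finset.induction_on with
  | empty =>
    intro F F' _ _
    rw [Ex_empty, Ex_empty, Ex_empty]
  | insert e s he ih =>
    intro F F' hF hF'
    have i1 := ih F F' hF hF'
    have i2 := ih (fun h => F (insert e h)) (fun h => F' (insert e h)) (hF.insert e) (hF'.insert e)
    rw [Ex_insert p he, Ex_insert p he F, Ex_insert p he F', i1, i2]
    have heC : e ∉ B ∩ B' := by rw [hBB]; exact notMem_empty e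
    rcases not_and_or.1 (fun h => heC (mem_inter.2 h)) with heB | heB'
    · have h4 : Ex p s (fun h => F (insert e h)) = Ex p s F :=
        Ex_congr p s fun h _ => hF.insert_of_notMem heB h
      rw [h4]
      ring
    · have h4 : Ex p s (fun h => F' (insert e h)) = Ex p s F' :=
        Ex_congr p s fun h _ => hF'.insert_of_notMem heB' h
      rw [h4]
      ring

/-- independence if the common part is empty -/
theorem Ex_mul_indep {p : Sym2 V → ℝ} {s B B' : Finset (Sym2 V)} {F F' : Finset (Sym2 V) → ℝ} (hF : Dep B F) (hF' : Dep B' F')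
    (hBB : B ∩ B' = ∅) : Ex p s (fun h => F h * F' h) = Ex p s F * Ex p s F' :=
  indep_aux hBB s F F' hF hF'

end PLR
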