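import Pool.Agent.PLR.Tr

/-!
# PLR.DnS: the restriction of a dense `r` to a good set is dense

`btw (Es S r) A B` corresponds to `btw r (A.map val) (B.map val)`; `dgE_Es`.
-/

set_option autoImplicit false

namespace PLR

open Finset Smo

variable {V : Type*} [DecidableEq V]

private theorem btw_map_le {r : Finset (Sym2 V)} {S : Finset V} {A B : Finset {v // v ∈ S}}
    (hAB : Disjoint A B) :
    (btw r (A.map (Function.Embedding.subtype _)) (B.map (Function.Embedding.subtype _))).card ≤
      (btw (Es S r) A B).card := by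
  classical
  refine (card_le_card (t := (btw (Es S r) A B).image (Sym2.map Subtype.val)) ?_).trans card_image_le
  intro e he
  obtain ⟨h1, a, ha, b, hb, h2⟩ := mem_filter.1 he
  obtain ⟨a0, ha0, rfl⟩ := mem_map.1 ha
  obtain ⟨b0, hb0, rfl⟩ := mem_map.1 hb
  subst h2
  refine mem_image.2 ⟨s(a0, b0), ?_, rfl⟩
  refine mem_filter.2 ⟨mem_filter.2 ⟨mem_univ _, h1, ?_⟩, a0, ha0, b0, hb0, rfl⟩
  intro h3
  rw [Sym2.mk_isDiag_iff] at h3
  subst h3
  exact disjoint_left.1 hAB ha0 hb0

theorem dn_of_good {r c : Finset (Sym2 V)} {δ β s X : ℝ} {L k : ℕ} {S : Finset V} (hD : DenseR δ L r)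
    (hr : ∀ e ∈ r, ¬ e.IsDiag) (hβ : β ≤ δ) (hS : GoodS c r s X β k S) (hL : (L : ℝ) ≤ β / 16 * S.card) :
    DN β (β / 16) (Es S r) := by
  have hcard : Fintype.card {v // v ∈ S} = S.card := Fintype.card_coe S
  refine ⟨?_, ?_, ?_⟩
  · intro e he
    exact (mem_filter.1 he).2.2
  · intro i
    rw [hcard, dgE_Es]
    exact hS.2.2.2 i.1 i.2
  · intro A B hAB hA hB
    rw [hcard] at hA hB
    have hLA : L ≤ (A.map (Function.Embedding.subtype (fun v => v ∈ S))).card := by
      rw [card_map]
      exact_mod_cast hL.trans hA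
    have hLB : L ≤ (B.map (Function.Embedding.subtype (fun v => v ∈ S))).card := by
      rw [card_map]
      exact_mod_cast hL.trans hB
    have h1 := hD _ _ ((disjoint_map (Function.Embedding.subtype (fun v => v ∈ S))).2 hAB) hLA hLB
    rw [card_map, card_map] at h1
    have h2 : β * A.card * B.card ≤ δ * A.card * B.card := by
      have h3 : (0 : ℝ) ≤ A.card := Nat.cast_nonneg _
      have h4 : (0 : ℝ) ≤ B.card := Nat.cast_nonneg _
      exact mul_le_mul_of_nonneg_right (mul_le_mul_of_nonneg_right hβ h3) h4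
    have h5 : ((btw r (A.map (Function.Embedding.subtype _)) (B.map (Function.Embedding.subtype _))).card : ℝ) ≤
        ((btw (Es S r) A B).card : ℝ) := by
      exact_mod_cast btw_map_le hAB
    exact h2.trans (h1.trans h5)

end PLR
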