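import Pool.Agent.PLR.Defs

/-!
# PLR.DnCut: removing the pairs inside a small set `T`: degrees drop by at most `|T|`, the number of removed pairs is at most `|T|^2/2`. `c₁ = (δ/2)(δ/16)^2` (or smaller) works.
-/

set_option autoImplicit false

namespace PLR

open Finset Smo

private theorem dnc_deg {ι : Type} [DecidableEq ι] (T : Finset ι) (i : ι) :
    ((prs T).filter fun e => i ∈ e).card ≤ T.card := by
  have h1 : ((prs T).filter fun e => i ∈ e) ⊆ T.image fun j => s(i, j) := by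
    intro e he
    rw [mem_filter] at he
    obtain ⟨j, rfl⟩ := he.2
    have h2 := (mem_prs.1 he.1).2.1
    exact mem_image.2 ⟨j, h2, rfl⟩
  exact (card_le_card h1).trans card_image_le

private theorem dnc_dgE {ι : Type} [DecidableEq ι] (E : Finset (Sym2 ι)) (T : Finset ι) (i : ι) :
    (dgE E i : ℝ) - T.card ≤ dgE (cutT E T) i := by
  have h1 : (E.filter fun e => i ∈ e) \ ((prs T).filter fun e => i ∈ e) ⊆
      (cutT E T).filter fun e => i ∈ e := by
    intro e he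
    rw [mem_sdiff, mem_filter, mem_filter] at he
    rw [mem_filter, cutT, mem_sdiff]
    exact ⟨⟨he.1.1, fun h => he.2 ⟨h, he.1.2⟩⟩, he.1.2⟩
  have h2 := (Finset.le_card_sdiff ((prs T).filter fun e => i ∈ e) (E.filter fun e => i ∈ e)).trans
    (card_le_card h1)
  have h3 := dnc_deg T i
  have h4 : dgE E i ≤ dgE (cutT E T) i + T.card := by
    unfold dgE
    omega
  have h5 : (dgE E i : ℝ) ≤ (dgE (cutT E T) i : ℝ) + T.card := by exact_mod_cast h4
  linarith

private theorem dnc_btw {ι : Type} [DecidableEq ι] (E : Finset (Sym2 ι)) (T A B : Finset ι) :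
    ((btw E A B).card : ℝ) - (T.card : ℝ) ^ 2 ≤ (btw (cutT E T) A B).card := by
  have h1 : btw E A B \ prs T ⊆ btw (cutT E T) A B := by
    intro e he
    rw [mem_sdiff, btw, mem_filter] at he
    rw [btw, mem_filter, cutT, mem_sdiff]
    exact ⟨⟨he.1.1, he.2⟩, he.1.2⟩
  have h2 := (Finset.le_card_sdiff (prs T) (btw E A B)).trans (card_le_card h1)
  have h3 := card_prs_le T
  have h4 : (btw E A B).card ≤ (btw (cutT E T) A B).card + T.card ^ 2 := by omega
  have h5 : ((btw E A B).card : ℝ) ≤ ((btw (cutT E T) A B).card : ℝ) + (T.card : ℝ) ^ 2 := by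
    exact_mod_cast h4
  linarith

theorem dn_cut (δ : ℝ) (hδ : 0 < δ) (hδ1 : δ ≤ 1) : ∃ c₁ : ℝ, 0 < c₁ ∧ c₁ ≤ 1 / 2 ∧
    ∀ (ι : Type) [Fintype ι] [DecidableEq ι] (E : Finset (Sym2 ι)) (T : Finset ι), DN δ (δ / 16) E →
      (T.card : ℝ) ≤ c₁ * Fintype.card ι → DN (δ / 2) (δ / 16) (cutT E T) := by

  have hc : 0 < δ / 2 * (δ / 16) ^ 2 := by positivity
  have hc2 : δ / 2 * (δ / 16) ^ 2 ≤ δ / 2 := by
    have h1 : (δ / 16) ^ 2 ≤ 1 := by nlinarith
    calc δ / 2 * (δ / 16) ^ 2 ≤ δ / 2 * 1 := mul_le_mul_of_nonneg_left h1 (by positivity)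
      _ = δ / 2 := mul_one _
  refine ⟨δ / 2 * (δ / 16) ^ 2, hc, hc2.trans (by linarith), fun ι _ _ E T h hT => ?_⟩
  have hm : (0 : ℝ) ≤ Fintype.card ι := Nat.cast_nonneg _
  refine ⟨fun e he => h.nd e (mem_sdiff.1 he).1, fun i => ?_, fun A B hAB hA hB => ?_⟩
  · have h1 := h.deg i
    have h2 := dnc_dgE E T i
    have h3 : (T.card : ℝ) ≤ δ / 2 * Fintype.card ι :=
      hT.trans (mul_le_mul_of_nonneg_right hc2 hm)
    linarith
  · have h1 := h.den A B hAB hA hB
    have h2 := dnc_btw E T A B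
    have h3 : (δ / 16 * Fintype.card ι) * (δ / 16 * Fintype.card ι) ≤ (A.card : ℝ) * B.card :=
      mul_le_mul hA hB (by positivity) (by positivity)
    have h4 : (T.card : ℝ) ^ 2 ≤ (δ / 2 * (δ / 16) ^ 2 * Fintype.card ι) ^ 2 :=
      pow_le_pow_left₀ (Nat.cast_nonneg _) hT 2
    have h5 : (δ / 2 * (δ / 16) ^ 2 * (Fintype.card ι : ℝ)) ^ 2 ≤ δ / 2 * ((A.card : ℝ) * B.card) := by
      have h6 : (δ / 2 * (δ / 16) ^ 2 * (Fintype.card ι : ℝ)) ^ 2 =
          (δ / 2 * (δ / 16) ^ 2) * (δ / 2 * ((δ / 16 * Fintype.card ι) * (δ / 16 * Fintype.card ι))) := by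
        ring
      rw [h6]
      have h7 : δ / 2 * (δ / 16) ^ 2 ≤ 1 := by linarith
      have h8 : 0 ≤ δ / 2 * ((δ / 16 * (Fintype.card ι : ℝ)) * (δ / 16 * Fintype.card ι)) := by
        positivity
      calc (δ / 2 * (δ / 16) ^ 2) *
            (δ / 2 * ((δ / 16 * (Fintype.card ι : ℝ)) * (δ / 16 * Fintype.card ι)))
          ≤ 1 * (δ / 2 * ((δ / 16 * (Fintype.card ι : ℝ)) * (δ / 16 * Fintype.card ι))) :=
            mul_le_mul_of_nonneg_right h7 h8
        _ = δ / 2 * ((δ / 16 * (Fintype.card ι : ℝ)) * (δ / 16 * Fintype.card ι)) := one_mul _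
        _ ≤ δ / 2 * ((A.card : ℝ) * B.card) := mul_le_mul_of_nonneg_left h3 (by positivity)
    have h9 : δ * (A.card : ℝ) * B.card = 2 * (δ / 2 * ((A.card : ℝ) * B.card)) := by ring
    have h10 : δ / 2 * (A.card : ℝ) * B.card = δ / 2 * ((A.card : ℝ) * B.card) := by ring
    rw [h9] at h1
    rw [h10]
    linarith

theorem dn_mono {ι : Type} [Fintype ι] [DecidableEq ι] {δ β β' : ℝ} {E : Finset (Sym2 ι)} (h : DN δ β E) (hβ : β ≤ β') :
    DN δ β' E := by
  refine ⟨h.nd, h.deg, fun A B hAB hA hB => h.den A B hAB ?_ ?_⟩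
  · exact le_trans (mul_le_mul_of_nonneg_right hβ (Nat.cast_nonneg _)) hA
  · exact le_trans (mul_le_mul_of_nonneg_right hβ (Nat.cast_nonneg _)) hB

end PLR
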