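import Pool.Agent.PLR.Nrm

/-!
# PLR.QRd: dense graphs expand

Take `β = δ/8`. For every `i`: the neighbourhood has at least `δ m` vertices; split it into two disjoint sets `A_i, B_i` of size at least `δ m/2 - 1 ≥ δ m/8`: at least `δ |A_i||B_i| ≥ δ (δ m/4)^2` pairs `{j,k}` between them, so `i` lies in at least
`δ^3 m^2/16` triangles `i j k` (`j ∈ A_i, k ∈ B_i`), and every pair of `E` lies in at most `m` triangles. `2|x_i| ≤ |x_i+x_j| + |x_j+x_k| + |x_i+x_k|`, `4 x_i^2 ≤ 3 (...)`, `nrm (2x_i) ≤ nrm(x_i+x_j) + nrm(x_j+x_k) + nrm(x_i+x_k)` (`nrm^2 ≤ 3 (..)`): sum over `i` and its triangles; each pair is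
used at most `3m` times. Cut: `|M| ≤ m/2` w.l.o.g. (the cut is symmetric; otherwise exchange `M` and `Mᶜ`): if `|M| ≤ δ m/2` every `i ∈ M` has at least `δ m/2` neighbours outside; otherwise `den` for `M`, `Mᶜ`. Small `m` (`δ m/2 < 2`): excluded by `16 ≤ δ m`.
-/

set_option autoImplicit false

namespace PLR

open Finset Smo

private theorem fib_le {ι : Type} [Fintype ι] [DecidableEq ι] (e : Sym2 ι) :
    ((univ : Finset (ι × ι)).filter fun q => s(q.1, q.2) = e).card ≤ 2 := by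
  induction e with
  | h u v =>
    refine (Finset.card_le_card (t := {(u, v), (v, u)}) ?_).trans Finset.card_le_two
    rintro ⟨a, b⟩ hq
    have h := (Finset.mem_filter.1 hq).2
    rcases Sym2.eq_iff.1 h with ⟨h1, h2⟩ | ⟨h1, h2⟩
    · have h1' : a = u := h1
      have h2' : b = v := h2
      subst h1' h2'
      exact Finset.mem_insert_self _ _
    · have h1' : a = v := h1
      have h2' : b = u := h2
      subst h1' h2'
      exact Finset.mem_insert_of_mem (Finset.mem_singleton_self _)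

private theorem pair_sum {ι : Type} [Fintype ι] [DecidableEq ι] (E : Finset (Sym2 ι))
    (f : Sym2 ι → ℝ) (hf : ∀ e, 0 ≤ f e) :
    ∑ q : ι × ι, (if s(q.1, q.2) ∈ E then f s(q.1, q.2) else 0) ≤ 2 * ∑ e ∈ E, f e := by
  rw [← Finset.sum_filter, ← Finset.sum_fiberwise_of_maps_to
    (s := univ.filter fun q : ι × ι => s(q.1, q.2) ∈ E) (t := E)
    (g := fun q => s(q.1, q.2)) (fun q hq => (Finset.mem_filter.1 hq).2), Finset.mul_sum]
  refine Finset.sum_le_sum fun e _ => ?_
  have h1 : ∑ q ∈ (univ.filter fun q : ι × ι => s(q.1, q.2) ∈ E).filter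
      (fun q => s(q.1, q.2) = e), f s(q.1, q.2) =
      ∑ _q ∈ (univ.filter fun q : ι × ι => s(q.1, q.2) ∈ E).filter
      (fun q => s(q.1, q.2) = e), f e :=
    Finset.sum_congr rfl fun q hq => by rw [(Finset.mem_filter.1 hq).2]
  rw [h1, Finset.sum_const, nsmul_eq_mul]
  refine mul_le_mul_of_nonneg_right ?_ (hf e)
  have h2 : ((univ.filter fun q : ι × ι => s(q.1, q.2) ∈ E).filter
      (fun q => s(q.1, q.2) = e)).card ≤ 2 :=
    (Finset.card_le_card (Finset.filter_subset_filter _ (Finset.filter_subset _ _))).trans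
      (fib_le e)
  exact_mod_cast h2

private theorem nb_card {ι : Type} [Fintype ι] [DecidableEq ι] (E : Finset (Sym2 ι)) (i : ι) :
    dgE E i ≤ (univ.filter fun j => s(i, j) ∈ E).card := by
  unfold dgE
  have h1 : E.filter (fun e => i ∈ e) ⊆
      (univ.filter fun j => s(i, j) ∈ E).image fun j : ι => s(i, j) := by
    intro e he
    obtain ⟨j, hj⟩ := Sym2.mem_iff_exists.1 (Finset.mem_filter.1 he).2
    exact Finset.mem_image.2 ⟨j, Finset.mem_filter.2
      ⟨Finset.mem_univ _, hj ▸ (Finset.mem_filter.1 he).1⟩, hj.symm⟩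
  exact (Finset.card_le_card h1).trans Finset.card_image_le

private theorem tri_card {δ : ℝ} (hδ : 0 < δ) {ι : Type} [Fintype ι] [DecidableEq ι]
    {E : Finset (Sym2 ι)} (h : DN δ (δ / 8) E) (hm : 16 ≤ δ * Fintype.card ι) (i : ι) :
    δ ^ 3 * (Fintype.card ι : ℝ) ^ 2 / 16 ≤ (((univ : Finset (ι × ι)).filter
      fun q => s(i, q.1) ∈ E ∧ s(q.1, q.2) ∈ E ∧ s(i, q.2) ∈ E).card : ℝ) := by
  set N : Finset ι := univ.filter fun j => s(i, j) ∈ E with hN
  have hNc : δ * Fintype.card ι ≤ N.card := (h.deg i).trans (by exact_mod_cast nb_card E i)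
  obtain ⟨A, hAN, hAc⟩ := Finset.exists_subset_card_eq (s := N) (n := N.card / 2) (by omega)
  have hBc : (N \ A).card + A.card = N.card := Finset.card_sdiff_add_card_eq_card hAN
  have hA : δ * Fintype.card ι / 4 ≤ A.card := by
    have h1 : (N.card : ℝ) ≤ 2 * A.card + 1 := by
      exact_mod_cast (by omega : N.card ≤ 2 * A.card + 1)
    linarith
  have hB : δ * Fintype.card ι / 4 ≤ (N \ A).card := by
    have h1 : (N.card : ℝ) ≤ 2 * (N \ A).card := by
      exact_mod_cast (by omega : N.card ≤ 2 * (N \ A).card)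
    linarith
  have h1 := h.den A (N \ A) Finset.disjoint_sdiff (by linarith) (by linarith)
  have h2 : (btw E A (N \ A)).card ≤ ((univ : Finset (ι × ι)).filter
      fun q => s(i, q.1) ∈ E ∧ s(q.1, q.2) ∈ E ∧ s(i, q.2) ∈ E).card := by
    have h3 : btw E A (N \ A) ⊆ ((univ : Finset (ι × ι)).filter
        fun q => s(i, q.1) ∈ E ∧ s(q.1, q.2) ∈ E ∧ s(i, q.2) ∈ E).image
        fun q => s(q.1, q.2) := by
      intro e he
      unfold btw at he
      obtain ⟨he1, a, ha, b, hb, rfl⟩ := Finset.mem_filter.1 he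
      refine Finset.mem_image.2 ⟨(a, b), Finset.mem_filter.2 ⟨Finset.mem_univ _, ?_, he1, ?_⟩,
        rfl⟩
      · exact (Finset.mem_filter.1 (hAN ha)).2
      · exact (Finset.mem_filter.1 (Finset.mem_sdiff.1 hb).1).2
    exact (Finset.card_le_card h3).trans Finset.card_image_le
  have h3 : ((btw E A (N \ A)).card : ℝ) ≤ (((univ : Finset (ι × ι)).filter
      fun q => s(i, q.1) ∈ E ∧ s(q.1, q.2) ∈ E ∧ s(i, q.2) ∈ E).card : ℝ) := by
    exact_mod_cast h2
  refine le_trans ?_ (h1.trans h3)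
  have h4 : 0 ≤ δ * (Fintype.card ι : ℝ) / 4 := by linarith
  calc δ ^ 3 * (Fintype.card ι : ℝ) ^ 2 / 16
      = δ * ((δ * Fintype.card ι / 4) * (δ * Fintype.card ι / 4)) := by ring
    _ ≤ δ * ((A.card : ℝ) * ((N \ A).card : ℝ)) :=
      mul_le_mul_of_nonneg_left (mul_le_mul hA hB h4 (Nat.cast_nonneg _)) hδ.le
    _ = δ * A.card * (N \ A).card := by ring

private theorem tri_sum {δ : ℝ} (hδ : 0 < δ) {ι : Type} [Fintype ι] [DecidableEq ι]
    {E : Finset (Sym2 ι)} (h : DN δ (δ / 8) E) (hm : 16 ≤ δ * Fintype.card ι)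
    (f : Sym2 ι → ℝ) (hf : ∀ e, 0 ≤ f e) (g : ι → ℝ) (hg0 : ∀ i, 0 ≤ g i)
    (hg : ∀ i j k, g i ≤ 3 * (f s(i, j) + f s(j, k) + f s(i, k))) :
    δ ^ 3 / 288 * Fintype.card ι * ∑ i, g i ≤ ∑ e ∈ E, f e := by
  have hm0 : (0 : ℝ) < Fintype.card ι := by
    by_contra hcon
    have h1 : (Fintype.card ι : ℝ) ≤ 0 := not_lt.1 hcon
    have h2 : δ * (Fintype.card ι : ℝ) ≤ 0 := mul_nonpos_of_nonneg_of_nonpos hδ.le h1
    linarith
  set F : ι → ι → ℝ := fun a b => if s(a, b) ∈ E then f s(a, b) else 0 with hF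
  have hF0 : ∀ a b, 0 ≤ F a b := fun a b => by
    simp only [hF]
    split_ifs
    · exact hf _
    · exact le_rfl
  have hFs : ∑ a, ∑ b, F a b ≤ 2 * ∑ e ∈ E, f e := by
    rw [← Fintype.sum_prod_type' F]
    exact pair_sum E f hf
  have h1 : ∀ i, δ ^ 3 * (Fintype.card ι : ℝ) ^ 2 / 16 * g i ≤
      ∑ j, ∑ k, 3 * (F i j + F j k + F i k) := by
    intro i
    calc δ ^ 3 * (Fintype.card ι : ℝ) ^ 2 / 16 * g i
        ≤ (((univ : Finset (ι × ι)).filter
          fun q => s(i, q.1) ∈ E ∧ s(q.1, q.2) ∈ E ∧ s(i, q.2) ∈ E).card : ℝ) * g i :=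
          mul_le_mul_of_nonneg_right (tri_card hδ h hm i) (hg0 i)
      _ = ∑ _q ∈ (univ : Finset (ι × ι)).filter
          fun q => s(i, q.1) ∈ E ∧ s(q.1, q.2) ∈ E ∧ s(i, q.2) ∈ E, g i := by
          rw [Finset.sum_const, nsmul_eq_mul]
      _ ≤ ∑ q ∈ (univ : Finset (ι × ι)).filter
          fun q => s(i, q.1) ∈ E ∧ s(q.1, q.2) ∈ E ∧ s(i, q.2) ∈ E,
          3 * (F i q.1 + F q.1 q.2 + F i q.2) := by
          refine Finset.sum_le_sum fun q hq => ?_
          obtain ⟨-, hq1, hq2, hq3⟩ := Finset.mem_filter.1 hq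
          simp only [hF]
          rw [if_pos hq1, if_pos hq2, if_pos hq3]
          exact hg i q.1 q.2
      _ ≤ ∑ q : ι × ι, 3 * (F i q.1 + F q.1 q.2 + F i q.2) := by
          refine Finset.sum_le_sum_of_subset_of_nonneg (Finset.filter_subset _ _)
            fun q _ _ => ?_
          have := hF0 i q.1
          have := hF0 q.1 q.2
          have := hF0 i q.2
          positivity
      _ = ∑ j, ∑ k, 3 * (F i j + F j k + F i k) :=
          Fintype.sum_prod_type (fun q : ι × ι => 3 * (F i q.1 + F q.1 q.2 + F i q.2))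
  have h2 : ∑ i, ∑ j, ∑ k, 3 * (F i j + F j k + F i k) =
      9 * Fintype.card ι * ∑ a, ∑ b, F a b := by
    have e1 : ∀ i j, ∑ k, 3 * (F i j + F j k + F i k) =
        3 * (Fintype.card ι * F i j + ∑ k, F j k + ∑ k, F i k) := by
      intro i j
      rw [← Finset.mul_sum, Finset.sum_add_distrib, Finset.sum_add_distrib, Finset.sum_const,
        nsmul_eq_mul, Finset.card_univ]
    simp only [e1]
    have e2 : ∀ i, ∑ j, 3 * (Fintype.card ι * F i j + ∑ k, F j k + ∑ k, F i k) =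
        3 * (Fintype.card ι * ∑ j, F i j + ∑ j, ∑ k, F j k + Fintype.card ι * ∑ k, F i k) := by
      intro i
      rw [← Finset.mul_sum, Finset.sum_add_distrib, Finset.sum_add_distrib, Finset.sum_const,
        nsmul_eq_mul, Finset.card_univ, ← Finset.mul_sum]
    simp only [e2]
    rw [← Finset.mul_sum, Finset.sum_add_distrib, Finset.sum_add_distrib, Finset.sum_const,
        nsmul_eq_mul, Finset.card_univ, ← Finset.mul_sum]
    ring
  have h3 : δ ^ 3 * (Fintype.card ι : ℝ) ^ 2 / 16 * ∑ i, g i ≤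
      9 * Fintype.card ι * (2 * ∑ e ∈ E, f e) := by
    rw [Finset.mul_sum]
    refine (Finset.sum_le_sum fun i _ => h1 i).trans ?_
    rw [h2]
    exact mul_le_mul_of_nonneg_left hFs (by positivity)
  have h4 : (18 * (Fintype.card ι : ℝ)) * (δ ^ 3 / 288 * Fintype.card ι * ∑ i, g i) ≤
      (18 * (Fintype.card ι : ℝ)) * ∑ e ∈ E, f e := by
    calc (18 * (Fintype.card ι : ℝ)) * (δ ^ 3 / 288 * Fintype.card ι * ∑ i, g i)
        = δ ^ 3 * (Fintype.card ι : ℝ) ^ 2 / 16 * ∑ i, g i := by ring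
      _ ≤ 9 * Fintype.card ι * (2 * ∑ e ∈ E, f e) := h3
      _ = (18 * (Fintype.card ι : ℝ)) * ∑ e ∈ E, f e := by ring
  exact le_of_mul_le_mul_left h4 (by positivity)

private theorem cut_half {δ : ℝ} (hδ : 0 < δ) {ι : Type} [Fintype ι] [DecidableEq ι]
    {E : Finset (Sym2 ι)} (h : DN δ (δ / 8) E) (M : Finset ι) (hM : M.card ≤ Mᶜ.card) :
    δ / 2 * Fintype.card ι * M.card ≤ (btw E M Mᶜ).card := by
  have hcard : M.card + Mᶜ.card = Fintype.card ι := Finset.card_add_card_compl M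
  have hcard' : (M.card : ℝ) + Mᶜ.card = Fintype.card ι := by exact_mod_cast hcard
  have hM' : (M.card : ℝ) ≤ Mᶜ.card := by exact_mod_cast hM
  have hm0 : (0 : ℝ) ≤ Fintype.card ι := Nat.cast_nonneg _
  have hM0 : (0 : ℝ) ≤ M.card := Nat.cast_nonneg _
  by_cases hs : (M.card : ℝ) ≤ δ * Fintype.card ι / 2
  · have h1 : ((M ×ˢ Mᶜ).filter fun q => s(q.1, q.2) ∈ E).card ≤ (btw E M Mᶜ).card := by
      refine Finset.card_le_card_of_injOn (fun q => s(q.1, q.2)) ?_ ?_
      · intro q hq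
        obtain ⟨hq1, hq2⟩ := Finset.mem_filter.1 (Finset.mem_coe.1 hq)
        obtain ⟨hq3, hq4⟩ := Finset.mem_product.1 hq1
        exact Finset.mem_coe.2 (Finset.mem_filter.2 ⟨hq2, q.1, hq3, q.2, hq4, rfl⟩)
      · intro q hq q' hq' hqq
        obtain ⟨hq1, -⟩ := Finset.mem_filter.1 (Finset.mem_coe.1 hq)
        obtain ⟨hq3, -⟩ := Finset.mem_product.1 hq1
        obtain ⟨hq1', -⟩ := Finset.mem_filter.1 (Finset.mem_coe.1 hq')
        obtain ⟨-, hq4'⟩ := Finset.mem_product.1 hq1'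
        rcases Sym2.eq_iff.1 hqq with ⟨e1, e2⟩ | ⟨e1, e2⟩
        · exact Prod.ext e1 e2
        · rw [e1] at hq3
          exact absurd hq3 (Finset.mem_compl.1 hq4')
    have h2 : ∀ i ∈ M, δ * Fintype.card ι / 2 ≤
        ((Mᶜ.filter fun j => s(i, j) ∈ E).card : ℝ) := by
      intro i _
      have h3 : δ * Fintype.card ι ≤ ((univ.filter fun j => s(i, j) ∈ E).card : ℝ) :=
        (h.deg i).trans (by exact_mod_cast nb_card E i)
      have h4 : (univ.filter fun j => s(i, j) ∈ E) ⊆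
          (Mᶜ.filter fun j => s(i, j) ∈ E) ∪ M := by
        intro j hj
        by_cases hjM : j ∈ M
        · exact Finset.mem_union_right _ hjM
        · exact Finset.mem_union_left _ (Finset.mem_filter.2
            ⟨Finset.mem_compl.2 hjM, (Finset.mem_filter.1 hj).2⟩)
      have h5 := (Finset.card_le_card h4).trans (Finset.card_union_le _ _)
      have h6 : ((univ.filter fun j => s(i, j) ∈ E).card : ℝ) ≤
          ((Mᶜ.filter fun j => s(i, j) ∈ E).card : ℝ) + M.card := by exact_mod_cast h5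
      linarith
    have h3 : (((M ×ˢ Mᶜ).filter fun q => s(q.1, q.2) ∈ E).card : ℝ) =
        ∑ i ∈ M, ((Mᶜ.filter fun j => s(i, j) ∈ E).card : ℝ) := by
      have h4 : ((M ×ˢ Mᶜ).filter fun q => s(q.1, q.2) ∈ E).card =
          ∑ i ∈ M, (Mᶜ.filter fun j => s(i, j) ∈ E).card := by
        rw [Finset.card_filter, Finset.sum_product]
        refine Finset.sum_congr rfl fun i _ => ?_
        rw [Finset.card_filter]
      rw [h4]
      push_cast
      rfl
    have h4 : (((M ×ˢ Mᶜ).filter fun q => s(q.1, q.2) ∈ E).card : ℝ) ≤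
        (btw E M Mᶜ).card := by exact_mod_cast h1
    refine le_trans ?_ h4
    rw [h3]
    calc δ / 2 * Fintype.card ι * M.card = ∑ _i ∈ M, δ * (Fintype.card ι : ℝ) / 2 := by
          rw [Finset.sum_const, nsmul_eq_mul]
          ring
      _ ≤ _ := Finset.sum_le_sum h2
  · push Not at hs
    have h0 : 0 ≤ δ * (Fintype.card ι : ℝ) := by positivity
    have h1 := h.den M Mᶜ disjoint_compl_right (by linarith) (by linarith)
    refine le_trans ?_ h1
    have h2 : (Fintype.card ι : ℝ) / 2 ≤ Mᶜ.card := by linarith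
    calc δ / 2 * Fintype.card ι * M.card = δ * M.card * (Fintype.card ι / 2) := by ring
      _ ≤ δ * M.card * Mᶜ.card := mul_le_mul_of_nonneg_left h2 (by positivity)

private theorem btw_comm {ι : Type} [DecidableEq ι] (E : Finset (Sym2 ι)) (A B : Finset ι) :
    btw E A B = btw E B A := by
  unfold btw
  refine Finset.filter_congr fun e _ => ?_
  constructor
  · rintro ⟨a, ha, b, hb, rfl⟩
    exact ⟨b, hb, a, ha, Sym2.eq_swap⟩
  · rintro ⟨a, ha, b, hb, rfl⟩
    exact ⟨b, hb, a, ha, Sym2.eq_swap⟩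

theorem qr_of_dn (δ : ℝ) (hδ : 0 < δ) : ∃ c : ℝ, 0 < c ∧
    ∀ (ι : Type) [Fintype ι] [DecidableEq ι] (E : Finset (Sym2 ι)), DN δ (δ / 8) E → 16 ≤ δ * Fintype.card ι → QR c E := by
  refine ⟨min (δ / 2) (δ ^ 3 / 288), by positivity, ?_⟩
  intro ι _ _ E h hm
  have hc1 : min (δ / 2) (δ ^ 3 / 288) ≤ δ / 2 := min_le_left _ _
  have hc2 : min (δ / 2) (δ ^ 3 / 288) ≤ δ ^ 3 / 288 := min_le_right _ _
  have hm0 : (0 : ℝ) ≤ Fintype.card ι := Nat.cast_nonneg _
  generalize min (δ / 2) (δ ^ 3 / 288) = c at hc1 hc2 ⊢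
  have gen : ∀ (f : Sym2 ι → ℝ) (g : ι → ℝ), (∀ e, 0 ≤ f e) → (∀ i, 0 ≤ g i) →
      (∀ i j k, g i ≤ 3 * (f s(i, j) + f s(j, k) + f s(i, k))) →
      c * Fintype.card ι * ∑ i, g i ≤ ∑ e ∈ E, f e := by
    intro f g hf hg0 hg
    refine le_trans ?_ (tri_sum hδ h hm f hf g hg0 hg)
    exact mul_le_mul_of_nonneg_right (mul_le_mul_of_nonneg_right hc2 hm0)
      (Finset.sum_nonneg fun i _ => hg0 i)
  refine ⟨h.nd, ?_, ?_, ?_, ?_, ?_⟩
  · intro i
    refine le_trans (mul_le_mul_of_nonneg_right ?_ hm0) (h.deg i)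
    linarith
  · intro x
    refine gen (fun e => |sm x e|) (fun i => |x i|) (fun e => abs_nonneg _)
      (fun i => abs_nonneg _) ?_
    intro i j k
    simp only [sm_mk]
    have h1 : 2 * |x i| ≤ |x i + x j| + |x j + x k| + |x i + x k| := by
      have h2 : 2 * x i = (x i + x j) - (x j + x k) + (x i + x k) := by ring
      calc 2 * |x i| = |2 * x i| := by rw [abs_mul, abs_two]
        _ = |(x i + x j) - (x j + x k) + (x i + x k)| := by rw [← h2]
        _ ≤ |(x i + x j) - (x j + x k)| + |x i + x k| := abs_add_le _ _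
        _ ≤ |x i + x j| + |x j + x k| + |x i + x k| := by
          have := abs_sub (x i + x j) (x j + x k)
          linarith
    have := abs_nonneg (x i)
    linarith
  · intro x
    refine gen (fun e => sm x e ^ 2) (fun i => x i ^ 2) (fun e => sq_nonneg _)
      (fun i => sq_nonneg _) ?_
    intro i j k
    simp only [sm_mk]
    nlinarith [sq_nonneg (x i + x j + (x j + x k)), sq_nonneg (x i + x j - (x i + x k)),
      sq_nonneg (x j + x k + (x i + x k)), sq_nonneg (x i)]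
  · intro x
    refine gen (fun e => nrm (sm x e) ^ 2) (fun i => nrm (2 * x i) ^ 2) (fun e => sq_nonneg _)
      (fun i => sq_nonneg _) ?_
    intro i j k
    simp only [sm_mk]
    have h1 : nrm (2 * x i) ≤ nrm (x i + x j) + nrm (x j + x k) + nrm (x i + x k) := by
      have h2 : 2 * x i = (x i + x j) - (x j + x k) + (x i + x k) := by ring
      rw [h2]
      exact (nrm_add_le _ _).trans (by
        have := nrm_sub_le (x i + x j) (x j + x k)
        linarith)
    have h0 := nrm_nonneg (2 * x i)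
    have ha := nrm_nonneg (x i + x j)
    have hb := nrm_nonneg (x j + x k)
    have hd := nrm_nonneg (x i + x k)
    calc nrm (2 * x i) ^ 2 ≤ (nrm (x i + x j) + nrm (x j + x k) + nrm (x i + x k)) ^ 2 :=
          pow_le_pow_left₀ h0 h1 2
      _ ≤ 3 * (nrm (x i + x j) ^ 2 + nrm (x j + x k) ^ 2 + nrm (x i + x k) ^ 2) := by
          nlinarith [sq_nonneg (nrm (x i + x j) - nrm (x j + x k)),
            sq_nonneg (nrm (x i + x j) - nrm (x i + x k)),
            sq_nonneg (nrm (x j + x k) - nrm (x i + x k))]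
  · intro M
    rcases le_total M.card Mᶜ.card with hM | hM
    · have h1 := cut_half hδ h M hM
      refine le_trans ?_ h1
      have h2 : min (M.card : ℝ) (Mᶜ.card : ℝ) ≤ M.card := min_le_left _ _
      have h3 : (0 : ℝ) ≤ min (M.card : ℝ) (Mᶜ.card : ℝ) :=
        le_min (Nat.cast_nonneg _) (Nat.cast_nonneg _)
      calc c * Fintype.card ι * min (M.card : ℝ) (Mᶜ.card : ℝ)
          ≤ δ / 2 * Fintype.card ι * min (M.card : ℝ) (Mᶜ.card : ℝ) :=
            mul_le_mul_of_nonneg_right (mul_le_mul_of_nonneg_right hc1 hm0) h3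
        _ ≤ δ / 2 * Fintype.card ι * M.card := mul_le_mul_of_nonneg_left h2 (by positivity)
    · have h1 := cut_half hδ h Mᶜ (by rw [compl_compl]; exact hM)
      rw [compl_compl, btw_comm] at h1
      refine le_trans ?_ h1
      have h2 : min (M.card : ℝ) (Mᶜ.card : ℝ) ≤ Mᶜ.card := min_le_right _ _
      have h3 : (0 : ℝ) ≤ min (M.card : ℝ) (Mᶜ.card : ℝ) :=
        le_min (Nat.cast_nonneg _) (Nat.cast_nonneg _)
      calc c * Fintype.card ι * min (M.card : ℝ) (Mᶜ.card : ℝ)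
          ≤ δ / 2 * Fintype.card ι * min (M.card : ℝ) (Mᶜ.card : ℝ) :=
            mul_le_mul_of_nonneg_right (mul_le_mul_of_nonneg_right hc1 hm0) h3
        _ ≤ δ / 2 * Fintype.card ι * Mᶜ.card := mul_le_mul_of_nonneg_left h2 (by positivity)

end PLR
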