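import Pool.Agent.PLR.Defs

/-!
# PLR.Tilt: existence of the tilt

`Ψ y = ∑_e log cosh(sm y e / 2) + ∑_i x_i y_i` is continuous (differentiable) and coercive: `log cosh u ≥ |u| - log 2` and `QR.l1`: `Ψ y ≥ (c m/2 - X) ∑ |y_i| - |E| log 2`. At a minimiser the partial derivatives vanish:
`∑_(e at i) tanh(sm y e/2)/2 + x_i = 0`. (Derivative along the coordinate line `y + t e_i`.)
-/

set_option autoImplicit false

namespace PLR

open Finset Smo

variable {ι : Type*} [Fintype ι] [DecidableEq ι]

omit [Fintype ι] in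
private theorem tl_sm {E : Finset (Sym2 ι)} (hnd : ∀ e ∈ E, ¬ e.IsDiag) (y : ι → ℝ) (i : ι) (t : ℝ) :
    ∀ e ∈ E, sm (fun j => y j + t * (if j = i then 1 else 0)) e =
      sm y e + t * (if i ∈ e then 1 else 0) := by
  intro e
  induction e using Sym2.ind with
  | _ a b =>
    intro he
    have hab : a ≠ b := fun h => hnd _ he (by rw [h]; exact Sym2.mk_isDiag_iff.2 rfl)
    simp only [sm_mk, Sym2.mem_iff]
    by_cases ha : a = i
    · have hb : b ≠ i := fun hb => hab (ha.trans hb.symm)
      rw [if_pos ha, if_neg hb, if_pos (Or.inl ha.symm)]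
      ring
    · by_cases hb : b = i
      · rw [if_neg ha, if_pos hb, if_pos (Or.inr hb.symm)]
        ring
      · have hn : ¬ (i = a ∨ i = b) := by
          rintro (h | h)
          · exact ha h.symm
          · exact hb h.symm
        rw [if_neg ha, if_neg hb, if_neg hn]
        ring

private theorem tl_der (S k : ℝ) : HasDerivAt (fun t : ℝ => Real.log (Real.cosh ((S + t * k) / 2)))
    (Real.tanh (S / 2) * (k / 2)) 0 := by
  have h1 : HasDerivAt (fun t : ℝ => (S + t * k) / 2) (k / 2) 0 := by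
    have h2 := (((hasDerivAt_id (0 : ℝ)).mul_const k).const_add S).div_const 2
    simpa using h2
  have h3 : HasDerivAt (fun t : ℝ => Real.cosh ((S + t * k) / 2))
      (Real.sinh ((S + 0 * k) / 2) * (k / 2)) 0 := h1.cosh
  have h4 := h3.log (Real.cosh_pos _).ne'
  refine h4.congr_deriv ?_
  rw [Real.tanh_eq_sinh_div_cosh, zero_mul, add_zero]
  ring

private theorem tl_low (w : ℝ) : |w| - Real.log 2 ≤ Real.log (Real.cosh w) := by
  have h1 : Real.exp |w| / 2 ≤ Real.cosh w := by
    rw [← Real.cosh_abs, Real.cosh_eq]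
    have := Real.exp_pos (-|w|)
    linarith
  have h2 : Real.log (Real.exp |w| / 2) = |w| - Real.log 2 := by
    rw [Real.log_div (Real.exp_pos _).ne' two_ne_zero, Real.log_exp]
  rw [← h2]
  exact Real.log_le_log (by positivity) h1

omit [Fintype ι] [DecidableEq ι] in
private theorem tl_sm_cont (e : Sym2 ι) : Continuous fun y : ι → ℝ => sm y e := by
  induction e using Sym2.ind with
  | _ a b =>
    simp only [sm_mk]
    exact (continuous_apply a).add (continuous_apply b)

theorem tilt_exists {c : ℝ} {E : Finset (Sym2 ι)} (h : QR c E) {x : ι → ℝ} {X : ℝ}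
    (hx : ∀ i, |x i| ≤ X) (hX : X < c * Fintype.card ι / 2) :
    ∃ y : ι → ℝ, ∀ i, sw E (fun e => Real.tanh (sm y e / 2) / 2) i = -x i := by
  obtain ⟨Ψ, hΨ⟩ : ∃ Ψ : (ι → ℝ) → ℝ, Ψ = fun y =>
      ∑ e ∈ E, Real.log (Real.cosh (sm y e / 2)) + ∑ i, x i * y i := ⟨_, rfl⟩
  have hcont : Continuous Ψ := by
    rw [hΨ]
    refine Continuous.add (continuous_finsetSum _ fun e _ => ?_)
      (continuous_finsetSum _ fun i _ => continuous_const.mul (continuous_apply i))
    exact (Real.continuous_cosh.comp ((tl_sm_cont e).div_const 2)).log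
      fun y => (Real.cosh_pos _).ne'
  have ha : 0 < c * Fintype.card ι / 2 - X := by linarith
  have hlow : ∀ y : ι → ℝ,
      (c * Fintype.card ι / 2 - X) * ‖y‖ + (-(E.card * Real.log 2)) ≤ Ψ y := by
    intro y
    have h1 : ‖y‖ ≤ ∑ i, |y i| := by
      rw [pi_norm_le_iff_of_nonneg (Finset.sum_nonneg fun i _ => abs_nonneg _)]
      intro i
      rw [Real.norm_eq_abs]
      exact Finset.single_le_sum (f := fun i => |y i|) (fun i _ => abs_nonneg _) (Finset.mem_univ i)
    have h2 : ∑ e ∈ E, (|sm y e| / 2 - Real.log 2) ≤ ∑ e ∈ E, Real.log (Real.cosh (sm y e / 2)) := by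
      refine Finset.sum_le_sum fun e _ => ?_
      have h3 := tl_low (sm y e / 2)
      rw [abs_div, abs_two] at h3
      exact h3
    rw [Finset.sum_sub_distrib, ← Finset.sum_div, Finset.sum_const, nsmul_eq_mul] at h2
    have h3 := h.l1 y
    have h4 : -(X * ∑ i, |y i|) ≤ ∑ i, x i * y i := by
      rw [Finset.mul_sum, ← Finset.sum_neg_distrib]
      refine Finset.sum_le_sum fun i _ => ?_
      have h5 : |x i * y i| ≤ X * |y i| := by
        rw [abs_mul]
        exact mul_le_mul_of_nonneg_right (hx i) (abs_nonneg _)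
      exact (abs_le.1 h5).1
    have h5 : (c * Fintype.card ι / 2 - X) * ‖y‖ ≤ (c * Fintype.card ι / 2 - X) * ∑ i, |y i| :=
      mul_le_mul_of_nonneg_left h1 ha.le
    rw [hΨ]
    simp only
    nlinarith
  have hlim : Filter.Tendsto Ψ (Filter.cocompact (ι → ℝ)) Filter.atTop := by
    refine Filter.tendsto_atTop_mono hlow ?_
    exact Filter.tendsto_atTop_add_const_right _ _
      ((tendsto_norm_cocompact_atTop (E := ι → ℝ)).const_mul_atTop ha)
  obtain ⟨y, hy⟩ := hcont.exists_forall_le hlim
  refine ⟨y, fun i => ?_⟩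
  obtain ⟨g, hg⟩ : ∃ g : ℝ → ℝ, g = fun t =>
      ∑ e ∈ E, Real.log (Real.cosh ((sm y e + t * (if i ∈ e then 1 else 0)) / 2)) +
        ∑ j, x j * (y j + t * (if j = i then 1 else 0)) := ⟨_, rfl⟩
  have hgΨ : ∀ t, g t = Ψ (fun j => y j + t * (if j = i then 1 else 0)) := by
    intro t
    rw [hg, hΨ]
    simp only
    congr 1
    refine Finset.sum_congr rfl fun e he => ?_
    rw [tl_sm h.nd y i t e he]
  have hmin : IsLocalMin g 0 := by
    refine Filter.Eventually.of_forall fun t => ?_
    rw [hgΨ 0, hgΨ t]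
    simp only [zero_mul, add_zero]
    exact hy _
  have hder : HasDerivAt g (∑ e ∈ E, Real.tanh (sm y e / 2) * ((if i ∈ e then 1 else 0) / 2) +
      ∑ j, x j * (if j = i then 1 else 0)) 0 := by
    rw [hg]
    refine HasDerivAt.add (HasDerivAt.fun_sum fun e _ => tl_der _ _) (HasDerivAt.fun_sum fun j _ => ?_)
    have h2 := (((hasDerivAt_id (0 : ℝ)).mul_const (if j = i then (1 : ℝ) else 0)).const_add
      (y j)).const_mul (x j)
    simpa using h2
  have h0 := hmin.hasDerivAt_eq_zero hder
  have h1 : ∑ j, x j * (if j = i then (1 : ℝ) else 0) = x i := by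
    simp
  have h2 : sw E (fun e => Real.tanh (sm y e / 2) / 2) i =
      ∑ e ∈ E, Real.tanh (sm y e / 2) * ((if i ∈ e then 1 else 0) / 2) := by
    unfold sw
    rw [Finset.sum_filter]
    refine Finset.sum_congr rfl fun e _ => ?_
    by_cases hie : i ∈ e
    · rw [if_pos hie, if_pos hie]
      ring
    · rw [if_neg hie, if_neg hie]
      ring
  rw [h2]
  rw [h1] at h0
  linarith

end PLR
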