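import Pool.Agent.PLR.Defs

/-!
# PLR.TiltB: bounds for the tilt

`∑_e u_e tanh u_e = -∑ x_i y_i ≤ X ∑ |y_i|`, `u_e = sm y e/2` (sum the equation times `y_i`). `u tanh u ≥ τ|u| - τ^2` for `0 ≤ τ ≤ 3/4` (`tanh u ≥ (76/100) u` for `0 ≤ u ≤ 1`). `QR.l1`: `∑ |u_e| ≥ (c m/2) ∑ |y_i|`, `|E| ≤ m^2/2` (or `≤ m^2`).
With `τ = 4X/(c m)`: `∑ |y_i| ≤ C X` (for `X = 0` let `τ → 0`). Then for `y_i ≥ 0`: `2X ≥ |∑_(j~i) tanh((y_i+y_j)/2)| ≥ deg(i) tanh(y_i/2) - ∑ |y_j|/2` (`tanh` is 1-Lipschitz), so `tanh(y_i/2) ≤ C X/m ≤ 1/2` and `|y_i| ≤ C' X/m`.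
-/

set_option autoImplicit false

namespace PLR

open Finset Smo

private lemma tb_tanh {u : ℝ} (hu : 0 ≤ u) : u / (1 + u) ≤ Real.tanh u := by
  rw [Real.tanh_eq, div_le_div_iff₀ (by positivity) (by positivity)]
  have h1 : Real.exp u = Real.exp (2 * u) * Real.exp (-u) := by
    rw [← Real.exp_add]
    congr 1
    ring
  have h2 := Real.add_one_le_exp (2 * u)
  have h3 := Real.exp_pos (-u)
  have h4 : (2 * u + 1) * Real.exp (-u) ≤ Real.exp u := by
    rw [h1]
    exact mul_le_mul_of_nonneg_right h2 h3.le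
  nlinarith

private lemma tb_lip {a b : ℝ} (h : b ≤ a) : Real.tanh a - Real.tanh b ≤ 4 * (a - b) := by
  have hp := Real.exp_pos a
  have hq := Real.exp_pos (-a)
  have hr := Real.exp_pos b
  have hs := Real.exp_pos (-b)
  rw [Real.tanh_eq, Real.tanh_eq, div_sub_div _ _ (by positivity) (by positivity),
    div_le_iff₀ (by positivity)]
  have h1 : Real.exp (-a) * Real.exp b =
      Real.exp a * Real.exp (-b) * Real.exp (-(2 * (a - b))) := by
    rw [← Real.exp_add, ← Real.exp_add, ← Real.exp_add]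
    congr 1
    ring
  have h2 := Real.add_one_le_exp (-(2 * (a - b)))
  have h3 : 0 < Real.exp a * Real.exp (-b) := mul_pos hp hs
  have h4 : Real.exp a * Real.exp (-b) - Real.exp (-a) * Real.exp b ≤
      2 * (a - b) * (Real.exp a * Real.exp (-b)) := by
    rw [h1]
    nlinarith
  have h5 : Real.exp a * Real.exp (-b) ≤
      (Real.exp a + Real.exp (-a)) * (Real.exp b + Real.exp (-b)) := by
    nlinarith [mul_pos hp hr, mul_pos hq hr, mul_pos hq hs]
  have h6 : 4 * (a - b) * (Real.exp a * Real.exp (-b)) ≤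
      4 * (a - b) * ((Real.exp a + Real.exp (-a)) * (Real.exp b + Real.exp (-b))) :=
    mul_le_mul_of_nonneg_left h5 (by linarith)
  nlinarith

private lemma tb_abs (u : ℝ) : u * Real.tanh u = |u| * Real.tanh |u| := by
  rcases abs_cases u with ⟨h, _⟩ | ⟨h, _⟩
  · rw [h]
  · rw [h, Real.tanh_neg]
    ring

private lemma tb_q (u : ℝ) {τ : ℝ} (h0 : 0 ≤ τ) (h1 : τ ≤ 1 / 2) :
    τ * |u| - τ ^ 2 ≤ u * Real.tanh u := by
  rw [tb_abs]
  have hv := abs_nonneg u
  obtain ⟨v, hvd⟩ : ∃ v, v = |u| := ⟨_, rfl⟩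
  rw [← hvd] at hv ⊢
  have h2 := tb_tanh hv
  rcases le_total v 1 with h3 | h3
  · have h4 : v / 2 ≤ v / (1 + v) := by
      apply div_le_div_of_nonneg_left hv (by positivity) (by linarith)
    have h5 : v * (v / 2) ≤ v * Real.tanh v := mul_le_mul_of_nonneg_left (h4.trans h2) hv
    nlinarith [sq_nonneg (v - τ)]
  · have h4 : 1 / 2 ≤ v / (1 + v) := by
      rw [div_le_div_iff₀ (by norm_num) (by positivity)]
      linarith
    have h5 : v * (1 / 2) ≤ v * Real.tanh v := mul_le_mul_of_nonneg_left (h4.trans h2) hv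
    nlinarith [mul_le_mul_of_nonneg_right h1 hv]

private lemma tb_nonneg (u : ℝ) : 0 ≤ u * Real.tanh u := by
  have := tb_q u (le_refl (0 : ℝ)) (by norm_num)
  simpa using this

section comb

variable {ι : Type} [Fintype ι] [DecidableEq ι]

private lemma tb_two (y : ι → ℝ) (e : Sym2 ι) (he : ¬ e.IsDiag) :
    ∑ i, (if i ∈ e then y i else 0) = sm y e := by
  induction e using Sym2.inductionOn with
  | _ a b =>
    have hab : a ≠ b := fun h => he (Sym2.mk_isDiag_iff.2 h)
    rw [sm_mk, ← Finset.sum_filter]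
    have h1 : (Finset.univ.filter fun i => i ∈ s(a, b)) = {a, b} := by
      ext i
      simp [Sym2.mem_iff]
    rw [h1, Finset.sum_pair hab]

private lemma tb_swap (E : Finset (Sym2 ι)) (hE : ∀ e ∈ E, ¬ e.IsDiag) (w : Sym2 ι → ℝ)
    (y : ι → ℝ) : ∑ i, y i * sw E w i = ∑ e ∈ E, w e * sm y e := by
  have h1 : ∀ i, y i * sw E w i = ∑ e ∈ E, w e * (if i ∈ e then y i else 0) := by
    intro i
    rw [sw, Finset.sum_filter, Finset.mul_sum]
    refine Finset.sum_congr rfl fun e _ => ?_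
    split_ifs <;> ring
  rw [Finset.sum_congr rfl fun i _ => h1 i, Finset.sum_comm]
  refine Finset.sum_congr rfl fun e he => ?_
  rw [← Finset.mul_sum, tb_two y e (hE e he)]

private lemma tb_nb (E : Finset (Sym2 ι)) (i : ι) :
    E.filter (fun e => i ∈ e) =
      (Finset.univ.filter fun j => s(i, j) ∈ E).image (fun j => s(i, j)) := by
  ext e
  rw [Finset.mem_filter, Finset.mem_image]
  constructor
  · rintro ⟨he, hi⟩
    obtain ⟨j, rfl⟩ := Sym2.mem_iff_exists.1 hi
    exact ⟨j, by simp [he], rfl⟩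
  · rintro ⟨j, hj, rfl⟩
    rw [Finset.mem_filter] at hj
    exact ⟨hj.2, Sym2.mem_mk_left i j⟩

private lemma tb_inj (i : ι) : Function.Injective fun j : ι => s(i, j) := fun j k h =>
  Sym2.congr_right.1 h

private lemma tb_sw (E : Finset (Sym2 ι)) (w : Sym2 ι → ℝ) (i : ι) :
    sw E w i = ∑ j ∈ Finset.univ.filter (fun j => s(i, j) ∈ E), w s(i, j) := by
  rw [sw, tb_nb, Finset.sum_image fun j _ k _ h => tb_inj i h]

private lemma tb_dg (E : Finset (Sym2 ι)) (i : ι) :
    dgE E i = (Finset.univ.filter (fun j => s(i, j) ∈ E)).card := by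
  rw [dgE, tb_nb, Finset.card_image_of_injective _ (tb_inj i)]

private lemma tb_card (E : Finset (Sym2 ι)) : (E.card : ℝ) ≤ (Fintype.card ι : ℝ) ^ 2 := by
  have h1 : E.card ≤ Fintype.card (ι × ι) :=
    (Finset.card_le_univ E).trans
      (Fintype.card_le_of_surjective (fun p : ι × ι => s(p.1, p.2)) fun e => by
        induction e using Sym2.inductionOn with
        | _ a b => exact ⟨(a, b), rfl⟩)
  rw [Fintype.card_prod] at h1
  have h2 : ((E.card : ℕ) : ℝ) ≤ ((Fintype.card ι * Fintype.card ι : ℕ) : ℝ) := by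
    exact_mod_cast h1
  rw [Nat.cast_mul, ← sq] at h2
  exact h2

private lemma tb_sum {c : ℝ} (hc : 0 < c) {E : Finset (Sym2 ι)} {x y : ι → ℝ} {X : ℝ} (hQ : QR c E)
    (hX : 0 ≤ X) (hm : 0 < Fintype.card ι) (hXm : X ≤ c / 8 * Fintype.card ι) (hx : ∀ i, |x i| ≤ X)
    (hy : ∀ i, sw E (fun e => Real.tanh (sm y e / 2) / 2) i = -x i) :
    ∑ i, |y i| ≤ 16 / c ^ 2 * X := by
  have hm' : (0 : ℝ) < Fintype.card ι := by exact_mod_cast hm
  obtain ⟨m, hmd⟩ : ∃ m : ℝ, m = Fintype.card ι := ⟨_, rfl⟩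
  obtain ⟨S, hS⟩ : ∃ S : ℝ, S = ∑ i, |y i| := ⟨_, rfl⟩
  have hS0 : 0 ≤ S := by
    rw [hS]
    exact Finset.sum_nonneg fun i _ => abs_nonneg _
  have hswap := tb_swap E hQ.nd (fun e => Real.tanh (sm y e / 2) / 2) y
  have h1 : ∑ e ∈ E, sm y e / 2 * Real.tanh (sm y e / 2) ≤ X * S := by
    have e1 : ∑ e ∈ E, sm y e / 2 * Real.tanh (sm y e / 2) = ∑ i, y i * -x i := by
      have e0 : ∑ i, y i * -x i = ∑ i, y i * sw E (fun e => Real.tanh (sm y e / 2) / 2) i :=
        Finset.sum_congr rfl fun i _ => by rw [hy i]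
      rw [e0, hswap]
      refine Finset.sum_congr rfl fun e _ => ?_
      ring
    rw [e1, hS, Finset.mul_sum]
    refine Finset.sum_le_sum fun i _ => ?_
    calc y i * -x i ≤ |y i * -x i| := le_abs_self _
      _ = |x i| * |y i| := by rw [abs_mul, abs_neg, mul_comm]
      _ ≤ X * |y i| := mul_le_mul_of_nonneg_right (hx i) (abs_nonneg _)
  have hl1 := hQ.l1 y
  rw [← hS, ← hmd] at hl1
  rw [← hmd] at hXm hm'
  rw [← hS]
  rcases hX.eq_or_lt with hX0 | hX0
  · -- `X = 0`
    rw [← hX0, zero_mul] at h1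
    rw [← hX0, mul_zero]
    have h2 : ∀ e ∈ E, sm y e / 2 * Real.tanh (sm y e / 2) = 0 := by
      have h3 : ∑ e ∈ E, sm y e / 2 * Real.tanh (sm y e / 2) = 0 :=
        le_antisymm h1 (Finset.sum_nonneg fun e _ => tb_nonneg _)
      exact (Finset.sum_eq_zero_iff_of_nonneg fun e _ => tb_nonneg _).1 h3
    have h3 : ∀ e ∈ E, |sm y e| = 0 := by
      intro e he
      by_contra hne
      have h4 : 0 < |sm y e / 2| := by
        rw [abs_pos]
        intro h5
        apply hne
        rw [abs_eq_zero]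
        linarith
      have h5 := h2 e he
      rw [tb_abs] at h5
      have h6 := tb_tanh h4.le
      have h7 : 0 < |sm y e / 2| / (1 + |sm y e / 2|) := by positivity
      have h8 := mul_pos h4 (h7.trans_le h6)
      linarith
    rw [Finset.sum_eq_zero h3] at hl1
    have h4 : 0 < c * m := by positivity
    by_contra hcon
    push Not at hcon
    have := mul_pos h4 hcon
    linarith
  · -- `X > 0`
    obtain ⟨τ, hτ⟩ : ∃ τ, τ = 4 * X / (c * m) := ⟨_, rfl⟩
    have hcm : 0 < c * m := by positivity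
    have hτ0 : 0 ≤ τ := by
      rw [hτ]
      positivity
    have hτ1 : τ ≤ 1 / 2 := by
      rw [hτ, div_le_iff₀ hcm]
      linarith
    have h2 : τ * ((c * m / 2) * S) - τ ^ 2 * m ^ 2 ≤ X * S := by
      refine le_trans ?_ h1
      have h3 : ∑ e ∈ E, (τ * |sm y e / 2| - τ ^ 2) ≤
          ∑ e ∈ E, sm y e / 2 * Real.tanh (sm y e / 2) :=
        Finset.sum_le_sum fun e _ => tb_q _ hτ0 hτ1
      refine le_trans ?_ h3
      rw [Finset.sum_sub_distrib, ← Finset.mul_sum, Finset.sum_const, nsmul_eq_mul]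
      have h4 : ∑ e ∈ E, |sm y e / 2| = (∑ e ∈ E, |sm y e|) / 2 := by
        rw [Finset.sum_div]
        refine Finset.sum_congr rfl fun e _ => ?_
        rw [abs_div, abs_two]
      rw [h4]
      have h5 : (c * m / 2) * S ≤ (∑ e ∈ E, |sm y e|) / 2 := by linarith
      have h6 := mul_le_mul_of_nonneg_left h5 hτ0
      have h7 := tb_card E
      rw [← hmd] at h7
      have h8 := mul_le_mul_of_nonneg_right h7 (sq_nonneg τ)
      linarith
    have e1 : τ * ((c * m / 2) * S) = 2 * X * S := by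
      rw [hτ]
      field_simp
      ring
    have e2 : τ ^ 2 * m ^ 2 = 16 * X ^ 2 / c ^ 2 := by
      rw [hτ]
      field_simp
      ring
    rw [e1, e2] at h2
    have h3 : X * S ≤ X * (16 / c ^ 2 * X) := by
      have e3 : X * (16 / c ^ 2 * X) = 16 * X ^ 2 / c ^ 2 := by ring
      rw [e3]
      linarith
    exact le_of_mul_le_mul_left h3 hX0

private lemma tb_up {c B : ℝ} (hc : 0 < c) (hB : B = (2 + 2 * (16 / c ^ 2)) / c)
    {E : Finset (Sym2 ι)} {x y : ι → ℝ} {X : ℝ} (hQ : QR c E)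
    (hX : 0 ≤ X) (hm : 0 < Fintype.card ι) (hXm : X ≤ c / 8 * Fintype.card ι)
    (hXB : B * X ≤ 1 / 4 * Fintype.card ι) (hx : ∀ i, |x i| ≤ X)
    (hy : ∀ i, sw E (fun e => Real.tanh (sm y e / 2) / 2) i = -x i) (i : ι) :
    y i ≤ 4 * B * X / Fintype.card ι := by
  have hS := tb_sum hc hQ hX hm hXm hx hy
  have hm' : (0 : ℝ) < Fintype.card ι := by exact_mod_cast hm
  obtain ⟨m, hmd⟩ : ∃ m : ℝ, m = Fintype.card ι := ⟨_, rfl⟩
  have hB0 : 0 < B := by
    rw [hB]
    positivity
  rcases le_total (y i) 0 with hi | hi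
  · refine hi.trans ?_
    positivity
  have h1 := hy i
  rw [tb_sw] at h1
  have h2 : ((Finset.univ.filter (fun j => s(i, j) ∈ E)).card : ℝ) * Real.tanh (y i / 2) -
      2 * ∑ j, |y j| ≤
      ∑ j ∈ Finset.univ.filter (fun j => s(i, j) ∈ E), Real.tanh (sm y s(i, j) / 2) := by
    have h3 : ∑ j ∈ Finset.univ.filter (fun j => s(i, j) ∈ E), (Real.tanh (y i / 2) - 2 * |y j|) ≤
        ∑ j ∈ Finset.univ.filter (fun j => s(i, j) ∈ E), Real.tanh (sm y s(i, j) / 2) := by
      refine Finset.sum_le_sum fun j _ => ?_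
      rw [sm_mk]
      rcases le_total 0 (y j) with hj | hj
      · rw [abs_of_nonneg hj]
        have h4 : Real.tanh (y i / 2) ≤ Real.tanh ((y i + y j) / 2) + 0 := by
          have h5 : 0 ≤ Real.tanh ((y i + y j) / 2) - Real.tanh (y i / 2) := by
            rw [Real.tanh_eq, Real.tanh_eq, div_sub_div _ _ (by positivity) (by positivity)]
            apply div_nonneg _ (by positivity)
            have h6 : Real.exp (-((y i + y j) / 2)) * Real.exp (y i / 2) ≤
                Real.exp ((y i + y j) / 2) * Real.exp (-(y i / 2)) := by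
              rw [← Real.exp_add, ← Real.exp_add]
              exact Real.exp_le_exp.2 (by linarith)
            nlinarith
          linarith
        linarith
      · rw [abs_of_nonpos hj]
        have h4 := tb_lip (show (y i + y j) / 2 ≤ y i / 2 by linarith)
        linarith
    refine le_trans ?_ h3
    rw [Finset.sum_sub_distrib, Finset.sum_const, nsmul_eq_mul, ← Finset.mul_sum]
    have h4 : ∑ j ∈ Finset.univ.filter (fun j => s(i, j) ∈ E), |y j| ≤ ∑ j, |y j| :=
      Finset.sum_le_sum_of_subset_of_nonneg (Finset.subset_univ _) fun j _ _ => abs_nonneg _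
    linarith
  have h3 : ∑ j ∈ Finset.univ.filter (fun j => s(i, j) ∈ E), Real.tanh (sm y s(i, j) / 2) ≤
      2 * X := by
    rw [← Finset.sum_div] at h1
    have h4 := (abs_le.1 (hx i)).1
    linarith
  have h4 := hQ.deg i
  rw [tb_dg] at h4
  have h5 : 0 ≤ Real.tanh (y i / 2) := by
    have h6 := tb_tanh (show (0 : ℝ) ≤ y i / 2 by linarith)
    refine le_trans ?_ h6
    positivity
  have h6 := mul_le_mul_of_nonneg_right h4 h5
  rw [← hmd] at h6 hXB hm' ⊢
  have h7 : c * m * Real.tanh (y i / 2) ≤ (2 + 2 * (16 / c ^ 2)) * X := by linarith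
  have h8 : Real.tanh (y i / 2) ≤ B * X / m := by
    rw [le_div_iff₀ hm', hB]
    have e1 : (2 + 2 * (16 / c ^ 2)) / c * X = (2 + 2 * (16 / c ^ 2)) * X / c := by ring
    rw [e1, le_div_iff₀ hc]
    linarith
  have h9 : B * X / m ≤ 1 / 4 := by
    rw [div_le_iff₀ hm']
    exact hXB
  have h10 := tb_tanh (show (0 : ℝ) ≤ y i / 2 by linarith)
  have h11 : y i / 2 < 1 := by
    by_contra hcon
    push Not at hcon
    have h12 : 1 / 2 ≤ y i / 2 / (1 + y i / 2) := by
      rw [div_le_div_iff₀ (by norm_num) (by positivity)]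
      linarith
    linarith
  have h12 : y i / 2 / 2 ≤ y i / 2 / (1 + y i / 2) :=
    div_le_div_of_nonneg_left (by linarith) (by positivity) (by linarith)
  have e2 : 4 * B * X / m = 4 * (B * X / m) := by ring
  rw [e2]
  linarith

end comb

theorem tilt_bound (c : ℝ) (hc : 0 < c) : ∃ C η : ℝ, 0 < C ∧ 0 < η ∧
    ∀ (ι : Type) [Fintype ι] [DecidableEq ι] (E : Finset (Sym2 ι)) (x y : ι → ℝ) (X : ℝ), QR c E → 0 ≤ X →
      X ≤ η * Fintype.card ι → (∀ i, |x i| ≤ X) → (∀ i, sw E (fun e => Real.tanh (sm y e / 2) / 2) i = -x i) →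
      (∀ i, |y i| ≤ C * X / Fintype.card ι) ∧ ∑ i, |y i| ≤ C * X := by
  obtain ⟨B, hB⟩ : ∃ B, B = (2 + 2 * (16 / c ^ 2)) / c := ⟨_, rfl⟩
  have hB0 : 0 < B := by
    rw [hB]
    positivity
  refine ⟨16 / c ^ 2 + 4 * B, min (c / 8) (1 / (4 * B)), by positivity,
    lt_min (by positivity) (by positivity), ?_⟩
  intro ι _ _ E x y X hQ hX hXm hx hy
  rcases Nat.eq_zero_or_pos (Fintype.card ι) with hm | hm
  · haveI := Fintype.card_eq_zero_iff.1 hm
    refine ⟨fun i => isEmptyElim i, ?_⟩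
    rw [Finset.univ_eq_empty, Finset.sum_empty]
    positivity
  have hm' : (0 : ℝ) < Fintype.card ι := by exact_mod_cast hm
  have h1 : X ≤ c / 8 * Fintype.card ι :=
    hXm.trans (mul_le_mul_of_nonneg_right (min_le_left _ _) hm'.le)
  have h2 : B * X ≤ 1 / 4 * Fintype.card ι := by
    have h3 := hXm.trans (mul_le_mul_of_nonneg_right (min_le_right _ _) hm'.le)
    have h4 := mul_le_mul_of_nonneg_left h3 hB0.le
    have e1 : B * (1 / (4 * B) * (Fintype.card ι : ℝ)) = 1 / 4 * Fintype.card ι := by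
      field_simp
    rw [e1] at h4
    exact h4
  have h5 := tb_up hc hB hQ hX hm h1 h2 hx hy
  have h6 : ∀ i, -y i ≤ 4 * B * X / Fintype.card ι := by
    refine tb_up (x := fun i => -x i) (y := fun i => -y i) hc hB hQ hX hm h1 h2
      (fun i => by rw [abs_neg]; exact hx i) ?_
    intro i
    have h7 := hy i
    have h8 : ∀ e : Sym2 ι, sm (fun i => -y i) e = -sm y e := by
      intro e
      induction e using Sym2.inductionOn with
      | _ a b =>
        rw [sm_mk, sm_mk]
        ring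
    have h9 : (fun e => Real.tanh (sm (fun i => -y i) e / 2) / 2) =
        fun e => -(Real.tanh (sm y e / 2) / 2) := by
      funext e
      rw [h8, neg_div, Real.tanh_neg, neg_div]
    rw [h9]
    unfold sw at h7 ⊢
    rw [Finset.sum_neg_distrib, h7]
  have h7 : 4 * B * X ≤ (16 / c ^ 2 + 4 * B) * X := by
    apply mul_le_mul_of_nonneg_right _ hX
    have : 0 < 16 / c ^ 2 := by positivity
    linarith
  have h8 := div_le_div_of_nonneg_right h7 hm'.le
  refine ⟨fun i => ?_, ?_⟩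
  · rw [abs_le]
    constructor
    · have := h6 i
      linarith
    · exact (h5 i).trans h8
  · refine (tb_sum hc hQ hX hm h1 hx hy).trans ?_
    apply mul_le_mul_of_nonneg_right _ hX
    linarith

end PLR
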