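import Pool.Agent.PLR.Four

/-!
# PLR.TiltId: the tilting identity

For `h ⊆ E`: `(1/2)^|E| = ∏ cosh(s_e/2) ∏_(e in h) (e^(-s_e/2) tp/…)`: with `p_e = (1 + tanh(s_e/2))/2 = e^(s_e/2)/(2 cosh(s_e/2))`, `1 - p_e = e^(-s_e/2)/(2 cosh(s_e/2))`, so
`∏_(e in h) p_e ∏_(e not in h) (1-p_e) = 2^(-|E|) ∏ cosh(s_e/2)^(-1) exp(∑_(e in h) s_e - ∑_(e in E) s_e/2)` and `∑_(e in h) s_e = ∑ dgE h i y_i` (`sum_sm`).
-/

set_option autoImplicit false

namespace PLR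

open Finset Smo

variable {ι : Type*} [Fintype ι] [DecidableEq ι]

private theorem tanh_one_add (x : ℝ) : Real.cosh x * ((1 + Real.tanh x) / 2) = Real.exp x / 2 := by
  have h := Real.cosh_pos x
  rw [Real.tanh_eq_sinh_div_cosh]
  have h2 := Real.cosh_add_sinh x
  field_simp
  linarith

private theorem tanh_one_sub (x : ℝ) : Real.cosh x * (1 - (1 + Real.tanh x) / 2) = Real.exp (-x) / 2 := by
  have h := Real.cosh_pos x
  rw [Real.tanh_eq_sinh_div_cosh]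
  have h2 := Real.cosh_sub_sinh x
  field_simp
  linarith

private theorem wt_id {E h : Finset (Sym2 ι)} (hE : ∀ e ∈ E, ¬ e.IsDiag) (hh : h ⊆ E) (y : ι → ℝ) (t : ι → ℤ)
    (ht : ∀ i, (dgE h i : ℤ) = t i) :
    (∏ e ∈ E, (if e ∈ h then (1 / 2 : ℝ) else 1 - 1 / 2)) = (∏ e ∈ E, Real.cosh (sm y e / 2)) *
      Real.exp (∑ i, y i * ((dgE E i : ℝ) / 2 - t i)) * ∏ e ∈ E, (if e ∈ h then tp y e else 1 - tp y e) := by
  have h1 : (∏ e ∈ E, Real.cosh (sm y e / 2)) * (∏ e ∈ E, (if e ∈ h then tp y e else 1 - tp y e)) =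
      ∏ e ∈ E, ((1 / 2 : ℝ) * Real.exp ((if e ∈ h then sm y e else 0) - sm y e / 2)) := by
    rw [← prod_mul_distrib]
    refine prod_congr rfl fun e _ => ?_
    unfold tp
    split_ifs
    · rw [tanh_one_add, show sm y e - sm y e / 2 = sm y e / 2 by ring]
      ring
    · rw [tanh_one_sub, show (0 : ℝ) - sm y e / 2 = -(sm y e / 2) by ring]
      ring
  have h2 : ∑ e ∈ E, ((if e ∈ h then sm y e else 0) - sm y e / 2) = ∑ i, y i * ((t i : ℝ) - (dgE E i : ℝ) / 2) := by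
    rw [sum_sub_distrib, ← sum_filter, filter_mem_eq_inter, inter_eq_right.mpr hh, ← sum_div,
      sum_sm (fun e he => hE e (hh he)), sum_sm hE, sum_div, ← sum_sub_distrib]
    refine sum_congr rfl fun i _ => ?_
    have h3 : (dgE h i : ℝ) = (t i : ℝ) := by
      rw [← ht i]
      norm_cast
    rw [h3]
    ring
  have h4 : (∏ e ∈ E, Real.cosh (sm y e / 2)) * Real.exp (∑ i, y i * ((dgE E i : ℝ) / 2 - t i)) *
      (∏ e ∈ E, (if e ∈ h then tp y e else 1 - tp y e)) = Real.exp (∑ i, y i * ((dgE E i : ℝ) / 2 - t i)) *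
      ((∏ e ∈ E, Real.cosh (sm y e / 2)) * (∏ e ∈ E, (if e ∈ h then tp y e else 1 - tp y e))) := by
    ring
  rw [h4, h1, prod_mul_distrib, ← Real.exp_sum, h2]
  have h5 : ∑ i, y i * ((dgE E i : ℝ) / 2 - t i) = -∑ i, y i * ((t i : ℝ) - (dgE E i : ℝ) / 2) := by
    rw [← sum_neg_distrib]
    exact sum_congr rfl fun i _ => by ring
  rw [h5, Real.exp_neg]
  have h6 : Real.exp (∑ i, y i * ((t i : ℝ) - (dgE E i : ℝ) / 2)) ≠ 0 := Real.exp_ne_zero _
  rw [mul_comm (∏ e ∈ E, (1 / 2 : ℝ)), ← mul_assoc, inv_mul_cancel₀ h6, one_mul]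
  refine prod_congr rfl fun e _ => ?_
  split_ifs <;> norm_num

theorem tilt_id {E : Finset (Sym2 ι)} (hE : ∀ e ∈ E, ¬ e.IsDiag) (y : ι → ℝ) (t : ι → ℤ) :
    PD E (fun _ => 1 / 2) t = (∏ e ∈ E, Real.cosh (sm y e / 2)) *
      Real.exp (∑ i, y i * ((dgE E i : ℝ) / 2 - t i)) * PD E (tp y) t := by
  unfold PD Ex
  rw [mul_sum]
  refine sum_congr rfl fun h hh => ?_
  rw [mem_powerset] at hh
  beta_reduce
  by_cases ht : ∀ i, (dgE h i : ℤ) = t i
  · rw [ind_of ht, mul_one, mul_one]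
    exact wt_id hE hh y t ht
  · rw [ind_not ht, mul_zero, mul_zero, mul_zero]

end PLR
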