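import Pool.Agent.PLR.Lower
import Pool.Agent.PLR.Tilt
import Pool.Agent.PLR.TiltB
import Pool.Agent.PLR.TiltId
import Pool.Agent.PLR.QRd
import Pool.Agent.PLR.DnCut

/-!
# PLR.Triv: crude lower bound for the probability

`tilt_id`: `PD E (1/2) t = ∏ cosh(..) exp(∑ y_i x_i) PD E (tp y) t ≥ exp(-X ∑|y_i|) c' GF E (tp y) ≥ exp(-C X^2) c' (√(2π m/4))^(-m)`; `lower`, `tilt_exists`, `tilt_bound` (`∑ |y_i| ≤ C X`), `QR` from `qr_of_dn` and `dn_mono`.
-/

set_option autoImplicit false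

namespace PLR

open Finset Smo

private theorem tv_dgE_le {ι : Type} [Fintype ι] [DecidableEq ι] (E : Finset (Sym2 ι)) (i : ι) :
    dgE E i ≤ Fintype.card ι := by
  have h1 : (E.filter fun e => i ∈ e) ⊆ (univ : Finset ι).image fun j => s(i, j) := by
    intro e he
    rw [mem_filter] at he
    obtain ⟨j, rfl⟩ := he.2
    exact mem_image.2 ⟨j, mem_univ _, rfl⟩
  exact (card_le_card h1).trans card_image_le

private theorem tv_tanh (x : ℝ) : |Real.tanh x| ≤ |x| := by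
  have key : ∀ x : ℝ, 0 ≤ x → |Real.tanh x| ≤ |x| := by
    intro x hx
    have h1 : 0 ≤ Real.sinh x := Real.sinh_nonneg_iff.2 hx
    have h2 := Real.cosh_pos x
    have h3 : Real.sinh x ≤ x * Real.cosh x := by
      have hm : MonotoneOn (fun u : ℝ => u * Real.cosh u - Real.sinh u) (Set.Ici 0) := by
        refine monotoneOn_of_deriv_nonneg (convex_Ici 0) (by fun_prop) (by fun_prop) ?_
        intro u hu
        rw [interior_Ici] at hu
        have hd : HasDerivAt (fun u : ℝ => u * Real.cosh u - Real.sinh u) (1 * Real.cosh u + u * Real.sinh u - Real.cosh u) u :=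
          ((hasDerivAt_id u).mul (Real.hasDerivAt_cosh u)).sub (Real.hasDerivAt_sinh u)
        rw [hd.deriv]
        have h4 : 0 ≤ u * Real.sinh u := mul_nonneg (le_of_lt hu) (Real.sinh_nonneg_iff.2 (le_of_lt hu))
        linarith
      have h5 := hm (Set.mem_Ici.2 le_rfl) (Set.mem_Ici.2 hx) hx
      simp only [zero_mul, Real.sinh_zero, sub_zero] at h5
      linarith
    rw [Real.tanh_eq_sinh_div_cosh, abs_of_nonneg (div_nonneg h1 h2.le), abs_of_nonneg hx, div_le_iff₀ h2]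
    exact h3
  rcases le_total 0 x with hx | hx
  · exact key x hx
  · have h := key (-x) (by linarith)
    rwa [Real.tanh_neg, abs_neg, abs_neg] at h

theorem triv (δ : ℝ) (hδ : 0 < δ) (hδ1 : δ ≤ 1) : ∃ C η : ℝ, ∃ m₀ : ℕ, 1 ≤ C ∧ 0 < η ∧
    ∀ (ι : Type) [Fintype ι] [DecidableEq ι] (E : Finset (Sym2 ι)) (t : ι → ℤ) (X : ℝ),
      DN δ (δ / 16) E → m₀ ≤ Fintype.card ι → Even (∑ i, t i) → (∀ i, |(dgE E i : ℝ) / 2 - t i| ≤ X) →
      0 ≤ X → X ≤ η * Fintype.card ι →
      1 ≤ (C * Fintype.card ι) ^ Fintype.card ι * Real.exp (C * X ^ 2) * PD E (fun _ => 1 / 2) t := by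
  obtain ⟨c, hc, hqr⟩ := qr_of_dn δ hδ
  obtain ⟨c', η₀, m₁, hc', hη₀, hη₀1, hlow⟩ := lower c hc
  obtain ⟨C₂, η₂, hC₂, hη₂, htb⟩ := tilt_bound c hc
  have hCpos : 0 < 2 / c' := by positivity
  refine ⟨2 + 2 / c' + C₂, min η₂ (min (η₀ / C₂) (c / 4)), max m₁ (max 1 ⌈16 / δ⌉₊), by linarith,
    lt_min hη₂ (lt_min (by positivity) (by positivity)), fun ι _ _ E t X hE hm hev hx hX0 hX => ?_⟩
  have hm₁ : m₁ ≤ Fintype.card ι := le_trans (le_max_left _ _) hm
  have hm1 : 1 ≤ Fintype.card ι := le_trans (le_trans (le_max_left _ _) (le_max_right _ _)) hm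
  have hm16 : ⌈16 / δ⌉₊ ≤ Fintype.card ι := le_trans (le_trans (le_max_right _ _) (le_max_right _ _)) hm
  have hM1 : (1 : ℝ) ≤ Fintype.card ι := by exact_mod_cast hm1
  have hM0 : (0 : ℝ) < Fintype.card ι := by linarith
  have hM16 : 16 ≤ δ * Fintype.card ι := by
    have h1 : 16 / δ ≤ (Fintype.card ι : ℝ) := (Nat.le_ceil _).trans (by exact_mod_cast hm16)
    rw [div_le_iff₀ hδ] at h1
    linarith
  have hQ : QR c E := hqr ι E (dn_mono hE (by linarith)) hM16
  have hX2 : X ≤ η₂ * Fintype.card ι := hX.trans (mul_le_mul_of_nonneg_right (min_le_left _ _) hM0.le)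
  have hX3 : X ≤ (η₀ / C₂) * Fintype.card ι :=
    hX.trans (mul_le_mul_of_nonneg_right ((min_le_right _ _).trans (min_le_left _ _)) hM0.le)
  have hX4 : X ≤ (c / 4) * Fintype.card ι :=
    hX.trans (mul_le_mul_of_nonneg_right ((min_le_right _ _).trans (min_le_right _ _)) hM0.le)
  have hX5 : X < c * Fintype.card ι / 2 := by nlinarith [mul_pos hc hM0]
  obtain ⟨y, hy⟩ := tilt_exists hQ (x := fun i => (dgE E i : ℝ) / 2 - t i) hx hX5
  obtain ⟨hyb, hys⟩ := htb ι E (fun i => (dgE E i : ℝ) / 2 - t i) y X hQ hX0 hX2 hx hy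
  have hyη : ∀ i, |y i| ≤ η₀ := by
    intro i
    refine (hyb i).trans ?_
    rw [div_le_iff₀ hM0]
    calc C₂ * X ≤ C₂ * ((η₀ / C₂) * Fintype.card ι) := mul_le_mul_of_nonneg_left hX3 hC₂.le
      _ = η₀ * Fintype.card ι := by field_simp
  -- the tilted probabilities are near 1/2
  have hsm : ∀ e : Sym2 ι, |sm y e / 2| ≤ η₀ := by
    intro e
    induction e using Sym2.ind with
    | _ a b =>
      rw [sm_mk, abs_div, abs_of_pos (by norm_num : (0 : ℝ) < 2), div_le_iff₀ (by norm_num : (0 : ℝ) < 2)]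
      have h1 := abs_add_le (y a) (y b)
      have h2 := hyη a
      have h3 := hyη b
      linarith
  have hp : ∀ e ∈ E, |2 * tp y e - 1| ≤ η₀ := by
    intro e _
    have h1 : 2 * tp y e - 1 = Real.tanh (sm y e / 2) := by
      unfold tp
      ring
    rw [h1]
    exact (tv_tanh _).trans (hsm e)
  have hsw : ∀ i, sw E (tp y) i = t i := by
    intro i
    have h1 := hy i
    unfold sw at h1 ⊢
    have h2 : ∑ e ∈ E.filter (fun e => i ∈ e), tp y e =
        ∑ e ∈ E.filter (fun e => i ∈ e), (1 / 2 + Real.tanh (sm y e / 2) / 2) := by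
      refine sum_congr rfl fun e _ => ?_
      unfold tp
      ring
    rw [h2, sum_add_distrib, h1, sum_const, nsmul_eq_mul]
    change (dgE E i : ℝ) * (1 / 2) + -((dgE E i : ℝ) / 2 - t i) = t i
    ring
  have hL := hlow ι E (tp y) t hQ hm₁ hp hsw hev
  -- the Gaussian factor
  have hV : ∀ i, 0 < Vr E (tp y) i ∧ Vr E (tp y) i ≤ Fintype.card ι / 4 := by
    intro i
    have hd : (dgE E i : ℝ) ≤ Fintype.card ι := by exact_mod_cast tv_dgE_le E i
    have hd2 := hE.deg i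
    have hd3 : 0 < (dgE E i : ℝ) := lt_of_lt_of_le (mul_pos hδ hM0) hd2
    have hpq : ∀ e ∈ E.filter (fun e => i ∈ e), 1 / 5 ≤ tp y e * (1 - tp y e) ∧ tp y e * (1 - tp y e) ≤ 1 / 4 := by
      intro e he
      have h1 := hp e (mem_filter.1 he).1
      have h2 : (2 * tp y e - 1) ^ 2 ≤ (1 / 10) ^ 2 := by
        rw [← sq_abs]
        exact pow_le_pow_left₀ (abs_nonneg _) (h1.trans hη₀1) 2
      constructor <;> nlinarith [sq_nonneg (2 * tp y e - 1)]
    unfold Vr sw
    constructor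
    · have h3 : ((E.filter (fun e => i ∈ e)).card : ℝ) * (1 / 5) ≤
          ∑ e ∈ E.filter (fun e => i ∈ e), tp y e * (1 - tp y e) := by
        rw [← nsmul_eq_mul]
        exact card_nsmul_le_sum _ _ _ fun e he => (hpq e he).1
      have h4 : ((E.filter (fun e => i ∈ e)).card : ℝ) = dgE E i := rfl
      rw [h4] at h3
      linarith
    · have h3 : ∑ e ∈ E.filter (fun e => i ∈ e), tp y e * (1 - tp y e) ≤
          ((E.filter (fun e => i ∈ e)).card : ℝ) * (1 / 4) := by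
        rw [← nsmul_eq_mul]
        exact sum_le_card_nsmul _ _ _ fun e he => (hpq e he).2
      have h4 : ((E.filter (fun e => i ∈ e)).card : ℝ) = dgE E i := rfl
      rw [h4] at h3
      linarith
  have hG : ((2 * (Fintype.card ι : ℝ)) ^ Fintype.card ι)⁻¹ ≤ GF E (tp y) := by
    unfold GF
    rw [← inv_pow, ← Finset.card_univ (α := ι), ← prod_const]
    refine prod_le_prod (fun i _ => by positivity) fun i _ => ?_
    obtain ⟨h1, h2⟩ := hV i
    have h3 : 0 < Real.sqrt (2 * Real.pi * Vr E (tp y) i) := Real.sqrt_pos.2 (by positivity)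
    refine inv_anti₀ h3 ?_
    rw [Finset.card_univ]
    rw [Real.sqrt_le_left (by positivity)]
    have h4 := Real.pi_lt_four
    have h5 := Real.pi_pos
    calc 2 * Real.pi * Vr E (tp y) i ≤ 2 * 4 * (Fintype.card ι / 4) := by
          refine mul_le_mul (by linarith) h2 h1.le (by norm_num)
      _ ≤ (2 * (Fintype.card ι : ℝ)) ^ 2 := by nlinarith
  -- conclusion
  have hid := tilt_id hQ.nd y t
  have hcosh : 1 ≤ ∏ e ∈ E, Real.cosh (sm y e / 2) := by
    have h1 : ∏ _e ∈ E, (1 : ℝ) ≤ ∏ e ∈ E, Real.cosh (sm y e / 2) :=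
      prod_le_prod (fun _ _ => zero_le_one) fun e _ => Real.one_le_cosh _
    rwa [prod_const_one] at h1
  have hsum : -(C₂ * X ^ 2) ≤ ∑ i, y i * ((dgE E i : ℝ) / 2 - t i) := by
    have h1 : |∑ i, y i * ((dgE E i : ℝ) / 2 - t i)| ≤ ∑ i, |y i| * X := by
      refine (abs_sum_le_sum_abs _ _).trans (sum_le_sum fun i _ => ?_)
      rw [abs_mul]
      exact mul_le_mul_of_nonneg_left (hx i) (abs_nonneg _)
    rw [← sum_mul] at h1
    have h2 : (∑ i, |y i|) * X ≤ C₂ * X * X := mul_le_mul_of_nonneg_right hys hX0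
    have h3 := neg_abs_le (∑ i, y i * ((dgE E i : ℝ) / 2 - t i))
    have h4 : C₂ * X * X = C₂ * X ^ 2 := by ring
    linarith
  have hGpos : 0 < ((2 * (Fintype.card ι : ℝ)) ^ Fintype.card ι)⁻¹ := by positivity
  have hPD : Real.exp (-(C₂ * X ^ 2)) * (c' * ((2 * (Fintype.card ι : ℝ)) ^ Fintype.card ι)⁻¹) ≤
      PD E (fun _ => 1 / 2) t := by
    rw [hid]
    have h1 : c' * ((2 * (Fintype.card ι : ℝ)) ^ Fintype.card ι)⁻¹ ≤ PD E (tp y) t :=
      (mul_le_mul_of_nonneg_left hG hc'.le).trans hL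
    have h2 : Real.exp (-(C₂ * X ^ 2)) ≤ Real.exp (∑ i, y i * ((dgE E i : ℝ) / 2 - t i)) := Real.exp_le_exp.2 hsum
    have h3 : Real.exp (-(C₂ * X ^ 2)) ≤
        (∏ e ∈ E, Real.cosh (sm y e / 2)) * Real.exp (∑ i, y i * ((dgE E i : ℝ) / 2 - t i)) := by
      calc Real.exp (-(C₂ * X ^ 2)) = 1 * Real.exp (-(C₂ * X ^ 2)) := (one_mul _).symm
        _ ≤ _ := mul_le_mul hcosh h2 (Real.exp_pos _).le (zero_le_one.trans hcosh)
    exact mul_le_mul h3 h1 (by positivity) ((Real.exp_pos _).le.trans h3)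
  set M : ℝ := (Fintype.card ι : ℝ) with hMdef
  set C : ℝ := 2 + 2 / c' + C₂ with hC
  have hC2 : 2 ≤ C := by linarith
  have hCc : 2 / c' ≤ C := by linarith
  have h1 : 1 ≤ (C / 2) ^ Fintype.card ι * c' := by
    have h2 : C / 2 ≤ (C / 2) ^ Fintype.card ι := le_self_pow₀ (by linarith) (by omega)
    have h3 : 1 ≤ C / 2 * c' := by
      have h4 : 2 / c' * c' = 2 := by field_simp
      nlinarith
    exact h3.trans (mul_le_mul_of_nonneg_right h2 hc'.le)
  have h2 : 1 ≤ Real.exp (C * X ^ 2) * Real.exp (-(C₂ * X ^ 2)) := by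
    rw [← Real.exp_add]
    refine Real.one_le_exp ?_
    have h3 : C₂ * X ^ 2 ≤ C * X ^ 2 := mul_le_mul_of_nonneg_right (by linarith) (sq_nonneg X)
    linarith
  have h3 : (C * M) ^ Fintype.card ι * Real.exp (C * X ^ 2) *
      (Real.exp (-(C₂ * X ^ 2)) * (c' * ((2 * M) ^ Fintype.card ι)⁻¹)) =
      ((C / 2) ^ Fintype.card ι * c') * (Real.exp (C * X ^ 2) * Real.exp (-(C₂ * X ^ 2))) := by
    have h4 : (C * M) ^ Fintype.card ι = (C / 2) ^ Fintype.card ι * (2 * M) ^ Fintype.card ι := by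
      rw [← mul_pow]
      congr 1
      ring
    rw [h4]
    have h5 : (2 * M) ^ Fintype.card ι ≠ 0 := by positivity
    field_simp
  calc (1 : ℝ) = 1 * 1 := (one_mul 1).symm
    _ ≤ ((C / 2) ^ Fintype.card ι * c') * (Real.exp (C * X ^ 2) * Real.exp (-(C₂ * X ^ 2))) :=
        mul_le_mul h1 h2 zero_le_one (zero_le_one.trans h1)
    _ = _ := h3.symm
    _ ≤ _ := mul_le_mul_of_nonneg_left hPD (by positivity)

end PLR
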