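import Pool.Agent.PLR.Ratio
import Pool.Agent.PLR.Triv
import Pool.Agent.PLR.DnS

/-!
# PLR.PairR: the two bounds for vertex sets

(1) `Ex_reg` for `c ∪ A` (disjoint from `r \ prs T`): the left side is `PD (Es S (r \ prs T)) (1/2) (k - dg (c ∪ A) S v)`, `dg (c ∪ A) = dg c + dg A` and `dg A S v = 0` for `v ∉ T` (`A ⊆ prs T`); `Es_sdiff`, `ratio` with `T` as a set of the subtype (same size, `T ⊆ S`).
`|dgE (Es S r) v/2 - (k - dg c S v)| = |∑_(u in S.erase v) ph c r s(v,u) - k| ≤ X`. (2) `triv`.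
-/

set_option autoImplicit false

namespace PLR

open Finset Smo

private theorem pr_dg_zero {V : Type} [DecidableEq V] {A : Finset (Sym2 V)} {T S : Finset V} (hA : A ⊆ prs T)
    {v : V} (hv : v ∉ T) : dg A S v = 0 := by
  unfold dg nb
  rw [card_eq_zero, filter_eq_empty_iff]
  rintro u - ⟨-, hu⟩
  exact hv (mem_prs.1 (hA hu)).1

private theorem pr_sum {V : Type} [DecidableEq V] (c r : Finset (Sym2 V)) (S : Finset V) (v : V) :
    ∑ u ∈ S.erase v, ph c r s(v, u) = dg c S v + dg r S v / 2 := by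
  have h1 : ∀ ω : Finset (Sym2 V), ∑ u ∈ S.erase v, (if s(v, u) ∈ ω then (1 : ℝ) else 0) = dg ω S v := by
    intro ω
    rw [sum_boole]
    unfold dg nb
    congr 2
    ext u
    simp only [mem_filter, mem_erase]
    tauto
  have h2 : ∀ u ∈ S.erase v, ph c r s(v, u) =
      (if s(v, u) ∈ c then (1 : ℝ) else 0) + 1 / 2 * (if s(v, u) ∈ r then (1 : ℝ) else 0) := by
    intro u _
    unfold ph
    split_ifs <;> norm_num
  rw [sum_congr rfl h2, sum_add_distrib, ← mul_sum, h1, h1]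
  ring

private theorem pr_pd_nonneg {ι : Type} [DecidableEq ι] (E : Finset (Sym2 ι)) (t : ι → ℤ) :
    0 ≤ PD E (fun _ => 1 / 2) t := by
  unfold PD
  exact Ex_nonneg (fun _ _ => ⟨by norm_num, by norm_num⟩) fun _ _ => ind_nonneg _

theorem pair_bounds (β : ℝ) (hβ : 0 < β) (hβ1 : β ≤ 1) : ∃ C c₁ η : ℝ, ∃ m₀ : ℕ, 1 ≤ C ∧ 0 < c₁ ∧ 0 < η ∧
    ∀ (V : Type) [DecidableEq V] (c r : Finset (Sym2 V)) (δ s X : ℝ) (L k : ℕ) (S : Finset V),
      Disjoint c r → (∀ e ∈ c ∪ r, ¬ e.IsDiag) → DenseR δ L r → β ≤ δ → Even k → GoodS c r s X β k S →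
      (L : ℝ) ≤ β / 16 * S.card → m₀ ≤ S.card → 0 ≤ X → X ≤ η * S.card →
      (∀ T ⊆ S, (T.card : ℝ) ≤ c₁ * S.card → ∀ A ⊆ prs T ∩ r,
        Ex (fun _ => 1 / 2) (r \ prs T) (fun h => ind (∀ v ∈ S, dg (c ∪ (A ∪ h)) S v = k)) ≤
          C ^ (T.card + 1) * Real.exp (C * (T.card + 1) * (X ^ 2 / S.card)) *
            Ex (fun _ => 1 / 2) r (fun h => ind (∀ v ∈ S, dg (c ∪ h) S v = k))) ∧
      1 ≤ (C * S.card) ^ S.card * Real.exp (C * X ^ 2) *
            Ex (fun _ => 1 / 2) r (fun h => ind (∀ v ∈ S, dg (c ∪ h) S v = k)) := by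
  obtain ⟨C1, c1, η1, m1, hC1, hc1, hη1, h1⟩ := ratio β hβ hβ1
  obtain ⟨C2, η2, m2, hC2, hη2, h2⟩ := triv β hβ hβ1
  refine ⟨max C1 C2, c1, min η1 η2, max m1 m2, hC1.trans (le_max_left _ _), hc1, lt_min hη1 hη2, ?_⟩
  intro V _ c r δ s X L k S hd hnd hD hβδ hk hS hL hm hX0 hX
  have hcard : Fintype.card {v // v ∈ S} = S.card := Fintype.card_coe S
  have hdn : DN β (β / 16) (Es S r) :=
    dn_of_good hD (fun e he => hnd e (mem_union_right _ he)) hβδ hS hL
  obtain ⟨t, ht⟩ : ∃ t : {v // v ∈ S} → ℤ, t = fun v => (k : ℤ) - dg c S v.1 := ⟨_, rfl⟩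
  have hev : Even (∑ i, t i) := by
    rw [ht]
    exact even_targets S hk
  have hx : ∀ i, |(dgE (Es S r) i : ℝ) / 2 - t i| ≤ X := by
    intro i
    have h3 := hS.2.2.1 i.1 i.2
    rw [pr_sum] at h3
    rw [dgE_Es, ht]
    refine le_trans (le_of_eq ?_) h3
    congr 1
    push_cast
    ring
  have hr := Ex_reg hd S k
  rw [← ht] at hr
  have hpd := pr_pd_nonneg (Es S r) t
  have hS0 : (0 : ℝ) ≤ S.card := Nat.cast_nonneg _
  have hm1 : m1 ≤ Fintype.card {v // v ∈ S} := by rw [hcard]; exact (le_max_left _ _).trans hm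
  have hm2 : m2 ≤ Fintype.card {v // v ∈ S} := by rw [hcard]; exact (le_max_right _ _).trans hm
  have hX1 : X ≤ η1 * Fintype.card {v // v ∈ S} := by
    rw [hcard]
    exact hX.trans (mul_le_mul_of_nonneg_right (min_le_left _ _) hS0)
  have hX2 : X ≤ η2 * Fintype.card {v // v ∈ S} := by
    rw [hcard]
    exact hX.trans (mul_le_mul_of_nonneg_right (min_le_right _ _) hS0)
  have hCC1 : C1 ≤ max C1 C2 := le_max_left _ _
  have hCC2 : C2 ≤ max C1 C2 := le_max_right _ _
  have hC0 : 0 ≤ C1 := by linarith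
  have hC20 : 0 ≤ C2 := by linarith
  constructor
  · intro T hT hTc A hA
    obtain ⟨T', hT'⟩ : ∃ T' : Finset {v // v ∈ S}, T' = univ.filter fun v => v.1 ∈ T := ⟨_, rfl⟩
    have hTcard : T'.card = T.card := by
      rw [hT', ← card_map (Function.Embedding.subtype (· ∈ S))]
      congr 1
      ext v
      simp only [mem_map, mem_filter, mem_univ, true_and, Function.Embedding.coe_subtype,
        Subtype.exists, exists_and_left, exists_prop]
      constructor
      · rintro ⟨a, ha, -, rfl⟩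
        exact ha
      · intro hv
        exact ⟨v, hv, hT hv, rfl⟩
    have hAT : A ⊆ prs T := fun e he => (mem_inter.1 (hA he)).1
    have hAr : A ⊆ r := fun e he => (mem_inter.1 (hA he)).2
    have hcA : Disjoint c A := hd.mono_right hAr
    have hd2 : Disjoint (c ∪ A) (r \ prs T) := by
      rw [disjoint_union_left]
      exact ⟨hd.mono_right sdiff_subset, (disjoint_sdiff_self_right).mono_left hAT⟩
    have e1 : (fun h : Finset (Sym2 V) => ind (∀ v ∈ S, dg (c ∪ (A ∪ h)) S v = k)) =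
        fun h => ind (∀ v ∈ S, dg ((c ∪ A) ∪ h) S v = k) := by
      funext h
      rw [union_assoc]
    rw [e1, Ex_reg hd2 S k, Es_sdiff, ← hT', hr]
    have e2 : (fun v : {v // v ∈ S} => (k : ℤ) - dg (c ∪ A) S v.1) =
        fun v => t v - dg A S v.1 := by
      funext v
      rw [dg_union hcA, ht]
      push_cast
      ring
    rw [e2]
    have h3 := h1 {v // v ∈ S} (Es S r) t (fun v => (dg A S v.1 : ℤ)) X T' hdn hm1 hev hx hX0 hX1
      (by rw [hTcard, hcard]; exact hTc) (by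
        intro i hi
        have hi' : i.1 ∉ T := fun h => hi (by rw [hT']; exact mem_filter.2 ⟨mem_univ _, h⟩)
        rw [pr_dg_zero hAT hi']
        rfl)
    rw [hTcard, hcard] at h3
    refine h3.trans (mul_le_mul_of_nonneg_right ?_ hpd)
    have hq : 0 ≤ X ^ 2 / (S.card : ℝ) := by positivity
    refine mul_le_mul (pow_le_pow_left₀ hC0 hCC1 _) (Real.exp_le_exp.2 ?_) (Real.exp_pos _).le
      (by positivity)
    refine mul_le_mul_of_nonneg_right (mul_le_mul_of_nonneg_right hCC1 (by positivity)) hq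
  · have h3 := h2 {v // v ∈ S} (Es S r) t X hdn hm2 hev hx hX0 hX2
    rw [hcard] at h3
    rw [hr]
    refine h3.trans (mul_le_mul_of_nonneg_right ?_ hpd)
    refine mul_le_mul (pow_le_pow_left₀ (by positivity) (mul_le_mul_of_nonneg_right hCC2 hS0) _)
      (Real.exp_le_exp.2 (mul_le_mul_of_nonneg_right hCC2 (sq_nonneg X))) (Real.exp_pos _).le (by positivity)

end PLR
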