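import Pool.Agent.PLR.GDet

/-!
# PLR.QMf: the matrices `QM`

Form identity: diagonal part `∑_i (sw E w i) θ_i^2 = ∑_e w_e (θ_i^2 + θ_j^2)`, off-diagonal part `∑_e 2 w_e θ_i θ_j`.
In the proof: `QM E w M i j` is the sum over `e ∈ E` of `w e` times the indicators of `i ∈ e` and `j ∈ e` (plus the
part of `M`).
-/

set_option autoImplicit false

namespace PLR

open Finset Smo

variable {ι : Type*} [Fintype ι] [DecidableEq ι]

omit [Fintype ι] in
theorem qm_aux (E : Finset (Sym2 ι)) (_hE : ∀ e ∈ E, ¬ e.IsDiag) (w : Sym2 ι → ℝ) (M : Finset ι)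
    (i j : ι) : QM E w M i j =
      (∑ e ∈ E, w e * (if i ∈ e then 1 else 0) * (if j ∈ e then 1 else 0)) +
        (if i = j then (if i ∈ M then 1 else 0) else 0) := by
  unfold QM
  by_cases hij : i = j
  · subst hij
    rw [if_pos rfl, if_pos rfl]
    congr 1
    unfold sw
    rw [Finset.sum_filter]
    refine Finset.sum_congr rfl fun e _ => ?_
    by_cases h : i ∈ e
    · simp [h]
    · simp [h]
  · rw [if_neg hij, if_neg hij, add_zero]
    have h1 : ∀ e ∈ E, w e * (if i ∈ e then 1 else 0) * (if j ∈ e then 1 else 0) =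
        if s(i, j) = e then w e else 0 := by
      intro e _
      have h2 := Sym2.mem_and_mem_iff (z := e) hij
      by_cases h3 : s(i, j) = e
      · have h4 := h2.2 h3.symm
        rw [if_pos h4.1, if_pos h4.2, if_pos h3, mul_one, mul_one]
      · rw [if_neg h3]
        by_cases h4 : i ∈ e
        · have h5 : j ∉ e := fun h5 => h3 (h2.1 ⟨h4, h5⟩).symm
          rw [if_neg h5, mul_zero]
        · rw [if_neg h4, mul_zero, zero_mul]
    rw [Finset.sum_congr rfl h1, Finset.sum_ite_eq]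

theorem sm_sum {e : Sym2 ι} (he : ¬ e.IsDiag) (θ : ι → ℝ) :
    ∑ i, (if i ∈ e then 1 else 0) * θ i = sm θ e := by
  induction e with
  | h a b =>
    have hab : a ≠ b := fun h => he (by rw [Sym2.mk_isDiag_iff]; exact h)
    rw [sm_mk]
    have h1 : ∀ i, (if i ∈ s(a, b) then (1 : ℝ) else 0) * θ i =
        (if i = a then θ i else 0) + (if i = b then θ i else 0) := by
      intro i
      by_cases h2 : i = a
      · subst h2
        rw [if_pos (Sym2.mem_mk_left _ _), if_pos rfl, if_neg hab, one_mul, add_zero]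
      · by_cases h3 : i = b
        · subst h3
          rw [if_pos (Sym2.mem_mk_right _ _), if_neg h2, if_pos rfl, one_mul, zero_add]
        · have h4 : i ∉ s(a, b) := by
            rw [Sym2.mem_iff]
            rintro (h | h)
            · exact h2 h
            · exact h3 h
          rw [if_neg h4, if_neg h2, if_neg h3, zero_mul, add_zero]
    rw [Finset.sum_congr rfl fun i _ => h1 i, Finset.sum_add_distrib, Finset.sum_ite_eq',
      Finset.sum_ite_eq', if_pos (Finset.mem_univ _), if_pos (Finset.mem_univ _)]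

theorem qm_form {E : Finset (Sym2 ι)} (hE : ∀ e ∈ E, ¬ e.IsDiag) (w : Sym2 ι → ℝ) (M : Finset ι) (θ : ι → ℝ) :
    ∑ i, ∑ j, QM E w M i j * θ i * θ j = ∑ e ∈ E, w e * sm θ e ^ 2 + ∑ i ∈ M, θ i ^ 2 := by
  have h1 : ∀ i j, QM E w M i j * θ i * θ j =
      (∑ e ∈ E, w e * (((if i ∈ e then 1 else 0) * θ i) * ((if j ∈ e then 1 else 0) * θ j))) +
        (if i = j then (if i ∈ M then 1 else 0) * θ i * θ j else 0) := by
    intro i j
    rw [qm_aux E hE, add_mul, add_mul, Finset.sum_mul, Finset.sum_mul]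
    congr 1
    · refine Finset.sum_congr rfl fun e _ => ?_
      ring
    · by_cases h : i = j
      · rw [if_pos h, if_pos h]
      · rw [if_neg h, if_neg h, zero_mul, zero_mul]
  simp only [h1, Finset.sum_add_distrib]
  congr 1
  · have h2 : ∀ i, ∑ j, ∑ e ∈ E, w e * (((if i ∈ e then 1 else 0) * θ i) *
        ((if j ∈ e then 1 else 0) * θ j)) =
        ∑ e ∈ E, w e * (((if i ∈ e then 1 else 0) * θ i) * sm θ e) := by
      intro i
      rw [Finset.sum_comm]
      refine Finset.sum_congr rfl fun e he => ?_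
      rw [← sm_sum (hE e he) θ, Finset.mul_sum, Finset.mul_sum]
    rw [Finset.sum_congr rfl fun i _ => h2 i, Finset.sum_comm]
    refine Finset.sum_congr rfl fun e he => ?_
    rw [← Finset.mul_sum, ← Finset.sum_mul, sm_sum (hE e he) θ, sq]
  · have h3 : ∀ i, ∑ j, (if i = j then (if i ∈ M then (1 : ℝ) else 0) * θ i * θ j else 0) =
        if i ∈ M then θ i ^ 2 else 0 := by
      intro i
      rw [Finset.sum_ite_eq, if_pos (Finset.mem_univ _)]
      by_cases h : i ∈ M
      · rw [if_pos h, if_pos h]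
        ring
      · rw [if_neg h, if_neg h]
        ring
    rw [Finset.sum_congr rfl fun i _ => h3 i, ← Finset.sum_filter]
    refine Finset.sum_congr ?_ fun _ _ => rfl
    ext i
    simp

theorem qm_symm (E : Finset (Sym2 ι)) (w : Sym2 ι → ℝ) (M : Finset ι) : (QM E w M).IsSymm := by
  refine Matrix.IsSymm.ext fun i j => ?_
  unfold QM
  by_cases h : i = j
  · subst h
    rfl
  · rw [if_neg h, if_neg (Ne.symm h), Sym2.eq_swap]

theorem qm_low {c : ℝ} {E : Finset (Sym2 ι)} (h : QR c E) {w : Sym2 ι → ℝ} (hw : ∀ e ∈ E, 6 / 25 ≤ w e ∧ w e ≤ 1 / 4)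
    (x : ι → ℝ) : 6 / 25 * c * Fintype.card ι * ∑ i, x i ^ 2 ≤ ∑ i, ∑ j, QM E w ∅ i j * x i * x j := by
  rw [qm_form h.nd, Finset.sum_empty, add_zero]
  have h1 := h.l2 x
  calc 6 / 25 * c * Fintype.card ι * ∑ i, x i ^ 2
      = 6 / 25 * (c * Fintype.card ι * ∑ i, x i ^ 2) := by ring
    _ ≤ 6 / 25 * ∑ e ∈ E, sm x e ^ 2 := mul_le_mul_of_nonneg_left h1 (by norm_num)
    _ = ∑ e ∈ E, 6 / 25 * sm x e ^ 2 := Finset.mul_sum _ _ _
    _ ≤ ∑ e ∈ E, w e * sm x e ^ 2 :=
      Finset.sum_le_sum fun e he => mul_le_mul_of_nonneg_right (hw e he).1 (sq_nonneg _)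

theorem dgE_le (E : Finset (Sym2 ι)) (i : ι) : dgE E i ≤ Fintype.card ι := by
  unfold dgE
  have h1 : E.filter (fun e => i ∈ e) ⊆ Finset.univ.image fun j : ι => s(i, j) := by
    intro e he
    obtain ⟨j, hj⟩ := Sym2.mem_iff_exists.1 (Finset.mem_filter.1 he).2
    exact Finset.mem_image.2 ⟨j, Finset.mem_univ _, hj.symm⟩
  exact (Finset.card_le_card h1).trans Finset.card_image_le

theorem sw_bounds {c : ℝ} {E : Finset (Sym2 ι)} (h : QR c E) {w : Sym2 ι → ℝ} (hw : ∀ e ∈ E, 6 / 25 ≤ w e ∧ w e ≤ 1 / 4)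
    (i : ι) : 6 / 25 * c * Fintype.card ι ≤ sw E w i ∧ sw E w i ≤ Fintype.card ι / 4 := by
  have h0 : ∀ a : ℝ, ∑ _e ∈ E.filter (fun e => i ∈ e), a = dgE E i * a := by
    intro a
    rw [Finset.sum_const, nsmul_eq_mul]
    rfl
  constructor
  · have h1 := h.deg i
    calc 6 / 25 * c * Fintype.card ι = (c * Fintype.card ι) * (6 / 25) := by ring
      _ ≤ dgE E i * (6 / 25) := mul_le_mul_of_nonneg_right h1 (by norm_num)
      _ = ∑ _e ∈ E.filter (fun e => i ∈ e), (6 / 25 : ℝ) := (h0 _).symm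
      _ ≤ sw E w i := Finset.sum_le_sum fun e he => (hw e (Finset.mem_filter.1 he).1).1
  · have h1 : (dgE E i : ℝ) ≤ Fintype.card ι := by exact_mod_cast dgE_le E i
    calc sw E w i ≤ ∑ _e ∈ E.filter (fun e => i ∈ e), (1 / 4 : ℝ) :=
          Finset.sum_le_sum fun e he => (hw e (Finset.mem_filter.1 he).1).2
      _ = dgE E i * (1 / 4) := h0 _
      _ ≤ Fintype.card ι * (1 / 4) := mul_le_mul_of_nonneg_right h1 (by norm_num)
      _ = Fintype.card ι / 4 := by ring

end PLR
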