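import Pool.Agent.PLR.VarB
import Pool.Agent.PLR.QMf

/-!
# PLR.Cubic: second moment of the cubic form

`A = QM E w ∅ ≥ (6/25) c m I` (`qm_low`), `sm θ e = ∑_i u_e(i) θ_i` with `u_e` the indicator of the two ends. `GI_six`: `GI (s_e^3 s_f^3) = (9 v_e v_f c_ef + 6 c_ef^3) GI 1`, where `v_e = vr A u_e ≤ C/m` (`vr_le`).
`∑ κ_e κ_f v_e v_f c_ef = vr A (∑_e κ_e v_e u_e) ≤ (C/m) ∑_i (∑_(e at i) |κ_e| v_e)^2 ≤ (C/m) m (m η C/m)^2`. `|c_ef| ≤ C/m`, `∑_e w_e c_ef^2 ≤ v_f ≤ C/m` (`sum_cv_sq`), `w_e ≥ 6/25`, so `∑_(e,f) |κ_e κ_f| |c_ef|^3 ≤ η^2 (C/m) m^2 (C/m)`.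
-/

set_option autoImplicit false

namespace PLR

open Finset Smo

/-- the indicator of the ends of a pair -/
private noncomputable def ue {ι : Type*} [DecidableEq ι] (e : Sym2 ι) (i : ι) : ℝ := if i ∈ e then 1 else 0

private theorem sm_ue {ι : Type*} [Fintype ι] [DecidableEq ι] {e : Sym2 ι} (he : ¬ e.IsDiag) (θ : ι → ℝ) :
    ∑ i, ue e i * θ i = sm θ e := by
  induction e with
  | h a b =>
    have hab : a ≠ b := by simpa using he
    rw [sm_mk]
    have h1 : ∀ i, ue s(a, b) i * θ i = (if i = a then θ i else 0) + (if i = b then θ i else 0) := by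
      intro i
      unfold ue
      by_cases h1 : i = a
      · subst h1
        simp [hab]
      · by_cases h2 : i = b
        · subst h2
          simp [h1]
        · simp [h1, h2]
    rw [Finset.sum_congr rfl (fun i _ => h1 i), Finset.sum_add_distrib]
    simp

private theorem ue_sq {ι : Type*} [Fintype ι] [DecidableEq ι] {e : Sym2 ι} (he : ¬ e.IsDiag) :
    ∑ i, ue e i ^ 2 = 2 := by
  have h1 := sm_ue he (fun _ => 1)
  have h2 : ∀ i, ue e i ^ 2 = ue e i * 1 := by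
    intro i
    unfold ue
    split_ifs <;> simp
  rw [Finset.sum_congr rfl (fun i _ => h2 i), h1]
  induction e with
  | h a b =>
    rw [sm_mk]
    norm_num

private theorem dg_le {ι : Type*} [Fintype ι] [DecidableEq ι] (E : Finset (Sym2 ι)) (i : ι) :
    (E.filter fun e => i ∈ e).card ≤ Fintype.card ι := by
  have h1 : (E.filter fun e => i ∈ e) ⊆ Finset.univ.image (fun j => s(i, j)) := by
    intro e he
    rw [Finset.mem_filter] at he
    obtain ⟨j, hj⟩ := he.2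
    rw [Finset.mem_image]
    exact ⟨j, Finset.mem_univ _, hj.symm⟩
  exact (Finset.card_le_card h1).trans (Finset.card_image_le.trans (by rw [Finset.card_univ]))

private theorem card_E {ι : Type*} [Fintype ι] [DecidableEq ι] (E : Finset (Sym2 ι)) :
    (E.card : ℝ) ≤ (Fintype.card ι : ℝ) ^ 2 := by
  have h1 : E ⊆ Finset.univ.image (fun p : ι × ι => s(p.1, p.2)) := by
    intro e _
    induction e with
    | h a b => exact Finset.mem_image.2 ⟨(a, b), Finset.mem_univ _, rfl⟩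
  have h2 := (Finset.card_le_card h1).trans Finset.card_image_le
  rw [Finset.card_univ, Fintype.card_prod] at h2
  rw [pow_two]
  exact_mod_cast h2

private theorem cv_left {ι κ : Type*} [Fintype ι] [DecidableEq ι] (A : Matrix ι ι ℝ) (F : Finset κ)
    (α : κ → ℝ) (U : κ → ι → ℝ) (u' : ι → ℝ) :
    cv A (fun i => ∑ e ∈ F, α e * U e i) u' = ∑ e ∈ F, α e * cv A (U e) u' := by
  unfold cv
  have h1 : ∀ i j, A⁻¹ i j * (∑ e ∈ F, α e * U e i) * u' j =
      ∑ e ∈ F, α e * (A⁻¹ i j * U e i * u' j) := by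
    intro i j
    rw [Finset.mul_sum, Finset.sum_mul]
    exact Finset.sum_congr rfl fun e _ => by ring
  calc ∑ i, ∑ j, A⁻¹ i j * (∑ e ∈ F, α e * U e i) * u' j
      = ∑ i, ∑ j, ∑ e ∈ F, α e * (A⁻¹ i j * U e i * u' j) :=
        Finset.sum_congr rfl fun i _ => Finset.sum_congr rfl fun j _ => h1 i j
    _ = ∑ i, ∑ e ∈ F, ∑ j, α e * (A⁻¹ i j * U e i * u' j) :=
        Finset.sum_congr rfl fun i _ => Finset.sum_comm
    _ = ∑ e ∈ F, ∑ i, ∑ j, α e * (A⁻¹ i j * U e i * u' j) := Finset.sum_comm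
    _ = ∑ e ∈ F, α e * ∑ i, ∑ j, A⁻¹ i j * U e i * u' j := by
        simp only [Finset.mul_sum]

private theorem cv_right {ι κ : Type*} [Fintype ι] [DecidableEq ι] (A : Matrix ι ι ℝ) (F : Finset κ)
    (α : κ → ℝ) (U : κ → ι → ℝ) (u : ι → ℝ) :
    cv A u (fun i => ∑ e ∈ F, α e * U e i) = ∑ e ∈ F, α e * cv A u (U e) := by
  unfold cv
  have h1 : ∀ i j, A⁻¹ i j * u i * (∑ e ∈ F, α e * U e j) =
      ∑ e ∈ F, α e * (A⁻¹ i j * u i * U e j) := by
    intro i j
    rw [Finset.mul_sum]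
    exact Finset.sum_congr rfl fun e _ => by ring
  calc ∑ i, ∑ j, A⁻¹ i j * u i * (∑ e ∈ F, α e * U e j)
      = ∑ i, ∑ j, ∑ e ∈ F, α e * (A⁻¹ i j * u i * U e j) :=
        Finset.sum_congr rfl fun i _ => Finset.sum_congr rfl fun j _ => h1 i j
    _ = ∑ i, ∑ e ∈ F, ∑ j, α e * (A⁻¹ i j * u i * U e j) :=
        Finset.sum_congr rfl fun i _ => Finset.sum_comm
    _ = ∑ e ∈ F, ∑ i, ∑ j, α e * (A⁻¹ i j * u i * U e j) := Finset.sum_comm
    _ = ∑ e ∈ F, α e * ∑ i, ∑ j, A⁻¹ i j * u i * U e j := by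
        simp only [Finset.mul_sum]

private theorem int_six {ι : Type*} [Fintype ι] [DecidableEq ι] {A : Matrix ι ι ℝ} (hA : A.PosDef)
    (u u' : ι → ℝ) : MeasureTheory.Integrable
      (fun θ : ι → ℝ => ((∑ i, u i * θ i) ^ 3 * (∑ i, u' i * θ i) ^ 3) * gw A θ) := by
  refine ((integrable_pow hA u 6).add (integrable_pow hA u' 6)).mono' ?_ ?_
  · refine Continuous.aestronglyMeasurable ?_
    unfold gw
    fun_prop
  · refine Filter.Eventually.of_forall fun θ => ?_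
    have hg : 0 ≤ gw A θ := (Real.exp_pos _).le
    rw [Pi.add_apply, Real.norm_eq_abs, abs_mul, abs_of_nonneg hg, abs_mul, abs_pow, abs_pow,
      ← add_mul]
    refine mul_le_mul_of_nonneg_right ?_ hg
    nlinarith [sq_nonneg (|∑ i, u i * θ i| ^ 3 - |∑ i, u' i * θ i| ^ 3),
      sq_nonneg (|∑ i, u i * θ i| ^ 3), sq_nonneg (|∑ i, u' i * θ i| ^ 3)]

private theorem expand {ι : Type*} [Fintype ι] [DecidableEq ι] {A : Matrix ι ι ℝ} (hA : A.PosDef)
    (E : Finset (Sym2 ι)) (hE : ∀ e ∈ E, ¬ e.IsDiag) (κ : Sym2 ι → ℝ) :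
    GI A (fun θ => (∑ e ∈ E, κ e * sm θ e ^ 3) ^ 2) =
      (9 * ∑ e ∈ E, ∑ f ∈ E, (κ e * vr A (ue e)) * ((κ f * vr A (ue f)) * cv A (ue e) (ue f)) +
        6 * ∑ e ∈ E, ∑ f ∈ E, κ e * κ f * cv A (ue e) (ue f) ^ 3) * GI A (fun _ => 1) := by
  have h1 : ∀ θ : ι → ℝ, (∑ e ∈ E, κ e * sm θ e ^ 3) ^ 2 * gw A θ = ∑ e ∈ E, ∑ f ∈ E,
      κ e * κ f * (((∑ i, ue e i * θ i) ^ 3 * (∑ i, ue f i * θ i) ^ 3) * gw A θ) := by
    intro θ
    rw [pow_two, Finset.sum_mul_sum, Finset.sum_mul]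
    refine Finset.sum_congr rfl fun e he => ?_
    rw [Finset.sum_mul]
    refine Finset.sum_congr rfl fun f hf => ?_
    rw [sm_ue (hE e he), sm_ue (hE f hf)]
    ring
  have h2 : GI A (fun θ => (∑ e ∈ E, κ e * sm θ e ^ 3) ^ 2) =
      ∫ θ : ι → ℝ, (∑ e ∈ E, κ e * sm θ e ^ 3) ^ 2 * gw A θ := rfl
  rw [h2, MeasureTheory.integral_congr_ae (Filter.Eventually.of_forall h1),
    MeasureTheory.integral_finsetSum _ fun e _ => MeasureTheory.integrable_finsetSum _ fun f _ =>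
      (int_six hA (ue e) (ue f)).const_mul _]
  have h3 : ∀ e ∈ E, ∫ θ : ι → ℝ, ∑ f ∈ E,
      κ e * κ f * (((∑ i, ue e i * θ i) ^ 3 * (∑ i, ue f i * θ i) ^ 3) * gw A θ) =
      ∑ f ∈ E, (9 * ((κ e * vr A (ue e)) * ((κ f * vr A (ue f)) * cv A (ue e) (ue f))) +
        6 * (κ e * κ f * cv A (ue e) (ue f) ^ 3)) * GI A (fun _ => 1) := by
    intro e _
    rw [MeasureTheory.integral_finsetSum _ fun f _ => (int_six hA (ue e) (ue f)).const_mul _]
    refine Finset.sum_congr rfl fun f _ => ?_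
    rw [MeasureTheory.integral_const_mul]
    have h4 : ∫ θ : ι → ℝ, ((∑ i, ue e i * θ i) ^ 3 * (∑ i, ue f i * θ i) ^ 3) * gw A θ =
        (9 * vr A (ue e) * vr A (ue f) * cv A (ue e) (ue f) + 6 * cv A (ue e) (ue f) ^ 3) *
          GI A (fun _ => 1) := GI_six hA (ue e) (ue f)
    rw [h4]
    ring
  rw [Finset.sum_congr rfl h3]
  simp only [← Finset.sum_mul, Finset.sum_add_distrib, ← Finset.mul_sum]

theorem cubic (c : ℝ) (hc : 0 < c) : ∃ C : ℝ, 0 < C ∧
    ∀ (ι : Type) [Fintype ι] [DecidableEq ι] (E : Finset (Sym2 ι)) (w κ : Sym2 ι → ℝ) (η : ℝ), QR c E →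
      (QM E w ∅).PosDef → (∀ e ∈ E, 6 / 25 ≤ w e ∧ w e ≤ 1 / 4) → (∀ e ∈ E, |κ e| ≤ η) →
      GI (QM E w ∅) (fun θ => (∑ e ∈ E, κ e * sm θ e ^ 3) ^ 2) ≤ C * η ^ 2 * GI (QM E w ∅) (fun _ => 1) := by
  refine ⟨36 * (25 / (6 * c)) ^ 3 + 100 * (25 / (6 * c)) ^ 2, by positivity, ?_⟩
  intro ι _ _ E w κ η hQ hA hw hκ
  set A := QM E w ∅ with hAd
  have hZ : 0 ≤ GI A (fun _ => 1) := by
    unfold GI
    exact MeasureTheory.integral_nonneg fun θ => by positivity
  rcases E.eq_empty_or_nonempty with hE | ⟨e₀, he₀⟩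
  · have h0 : GI A (fun θ => (∑ e ∈ E, κ e * sm θ e ^ 3) ^ 2) = 0 := by
      unfold GI
      simp [hE]
    rw [h0]
    exact mul_nonneg (mul_nonneg (by positivity) (sq_nonneg _)) hZ
  have hη : 0 ≤ η := (abs_nonneg _).trans (hκ e₀ he₀)
  have hne : Nonempty ι := by
    induction e₀ with
    | h a b => exact ⟨a⟩
  have hm : (0 : ℝ) < Fintype.card ι := by exact_mod_cast Fintype.card_pos
  set m : ℝ := (Fintype.card ι : ℝ) with hmd
  obtain ⟨a, ha⟩ : ∃ a : ℝ, a = 6 / 25 * c * m := ⟨_, rfl⟩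
  have ha0 : 0 < a := by rw [ha]; positivity
  have hlow : ∀ x : ι → ℝ, a * ∑ i, x i ^ 2 ≤ ∑ i, ∑ j, A i j * x i * x j := by
    intro x
    rw [ha]
    exact qm_low hQ hw x
  have hv : ∀ e ∈ E, 0 ≤ vr A (ue e) ∧ vr A (ue e) ≤ 2 / a := by
    intro e he
    have h1 := vr_le hA ha0 hlow (ue e)
    rw [ue_sq (hQ.nd e he)] at h1
    exact h1
  have h2a : 0 ≤ 2 / a := by positivity
  have hcv : ∀ e ∈ E, ∀ f ∈ E, |cv A (ue e) (ue f)| ≤ 2 / a := by
    intro e he f hf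
    refine abs_le_of_sq_le_sq ?_ h2a
    refine (cv_sq_le hA (ue e) (ue f)).trans ?_
    rw [pow_two]
    exact mul_le_mul (hv e he).2 (hv f hf).2 (hv f hf).1 h2a
  have hsum : ∀ f ∈ E, ∑ e ∈ E, cv A (ue e) (ue f) ^ 2 ≤ 25 / 6 * (2 / a) := by
    intro f hf
    have h1 : ∑ e ∈ E, w e * cv A (ue e) (ue f) ^ 2 ≤ vr A (ue f) := by
      refine sum_cv_sq hA E w ue (fun x => ?_) (ue f)
      rw [hAd, qm_form hQ.nd w ∅ x, Finset.sum_empty, add_zero]
      refine le_of_eq (Finset.sum_congr rfl fun e he => ?_)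
      rw [sm_ue (hQ.nd e he)]
    have h2 : 6 / 25 * ∑ e ∈ E, cv A (ue e) (ue f) ^ 2 ≤ ∑ e ∈ E, w e * cv A (ue e) (ue f) ^ 2 := by
      rw [Finset.mul_sum]
      exact Finset.sum_le_sum fun e he => mul_le_mul_of_nonneg_right (hw e he).1 (sq_nonneg _)
    have h3 := (hv f hf).2
    linarith
  rw [expand hA E hQ.nd κ]
  refine mul_le_mul_of_nonneg_right ?_ hZ
  -- the first sum
  have hS1 : ∑ e ∈ E, ∑ f ∈ E, (κ e * vr A (ue e)) * ((κ f * vr A (ue f)) * cv A (ue e) (ue f)) ≤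
      m * (m * (η * (2 / a))) ^ 2 / a := by
    have h1 : ∑ e ∈ E, ∑ f ∈ E,
        (κ e * vr A (ue e)) * ((κ f * vr A (ue f)) * cv A (ue e) (ue f)) =
        vr A (fun i => ∑ e ∈ E, (κ e * vr A (ue e)) * ue e i) := by
      have h2 : vr A (fun i => ∑ e ∈ E, (κ e * vr A (ue e)) * ue e i) =
        cv A (fun i => ∑ e ∈ E, (κ e * vr A (ue e)) * ue e i)
          (fun i => ∑ e ∈ E, (κ e * vr A (ue e)) * ue e i) := rfl
      rw [h2, cv_left A E (fun e => κ e * vr A (ue e)) ue]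
      refine Finset.sum_congr rfl fun e _ => ?_
      rw [cv_right A E (fun e => κ e * vr A (ue e)) ue, Finset.mul_sum]
    rw [h1]
    refine (vr_le hA ha0 hlow _).2.trans ?_
    refine div_le_div_of_nonneg_right ?_ ha0.le
    have h3 : ∀ i ∈ (Finset.univ : Finset ι), (∑ e ∈ E, (κ e * vr A (ue e)) * ue e i) ^ 2 ≤
        (m * (η * (2 / a))) ^ 2 := by
      intro i _
      rw [sq_le_sq, abs_of_nonneg (a := m * (η * (2 / a))) (by positivity)]
      have h4 : ∀ e ∈ E, |(κ e * vr A (ue e)) * ue e i| ≤ if i ∈ e then η * (2 / a) else 0 := by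
        intro e he
        split_ifs with h5
        · have h6 : ue e i = 1 := by
            unfold ue
            exact ite_cond_eq_true _ _ (eq_true h5)
          rw [h6, mul_one, abs_mul, abs_of_nonneg (hv e he).1]
          exact mul_le_mul (hκ e he) (hv e he).2 (hv e he).1 hη
        · have h6 : ue e i = 0 := by
            unfold ue
            exact ite_cond_eq_false _ _ (eq_false h5)
          rw [h6, mul_zero, abs_zero]
      refine (Finset.abs_sum_le_sum_abs _ _).trans ((Finset.sum_le_sum h4).trans ?_)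
      rw [← Finset.sum_filter, Finset.sum_const, nsmul_eq_mul]
      refine mul_le_mul_of_nonneg_right ?_ (by positivity)
      rw [hmd]
      exact_mod_cast dg_le E i
    refine (Finset.sum_le_sum h3).trans ?_
    rw [Finset.sum_const, nsmul_eq_mul, Finset.card_univ]
  -- the second sum
  have hS2 : ∑ e ∈ E, ∑ f ∈ E, κ e * κ f * cv A (ue e) (ue f) ^ 3 ≤
      m ^ 2 * (η ^ 2 * ((2 / a) * (25 / 6 * (2 / a)))) := by
    rw [Finset.sum_comm]
    have h1 : ∀ f ∈ E, ∑ e ∈ E, κ e * κ f * cv A (ue e) (ue f) ^ 3 ≤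
        η ^ 2 * ((2 / a) * (25 / 6 * (2 / a))) := by
      intro f hf
      have h2 : ∀ e ∈ E, κ e * κ f * cv A (ue e) (ue f) ^ 3 ≤
          η ^ 2 * ((2 / a) * cv A (ue e) (ue f) ^ 2) := by
        intro e he
        refine (le_abs_self _).trans ?_
        rw [abs_mul, abs_mul, abs_pow]
        have h3 : |cv A (ue e) (ue f)| ^ 3 = |cv A (ue e) (ue f)| * cv A (ue e) (ue f) ^ 2 := by
          rw [← sq_abs (cv A (ue e) (ue f))]
          ring
        rw [h3, pow_two η]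
        refine mul_le_mul (mul_le_mul (hκ e he) (hκ f hf) (abs_nonneg _) hη) ?_ (by positivity)
          (by positivity)
        exact mul_le_mul_of_nonneg_right (hcv e he f hf) (sq_nonneg _)
      refine (Finset.sum_le_sum h2).trans ?_
      rw [← Finset.mul_sum, ← Finset.mul_sum]
      refine mul_le_mul_of_nonneg_left ?_ (sq_nonneg _)
      exact mul_le_mul_of_nonneg_left (hsum f hf) h2a
    refine (Finset.sum_le_sum h1).trans ?_
    rw [Finset.sum_const, nsmul_eq_mul]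
    refine mul_le_mul_of_nonneg_right (card_E E) (by positivity)
  have e1 : m * (m * (η * (2 / a))) ^ 2 / a = 4 * (25 / (6 * c)) ^ 3 * η ^ 2 := by
    rw [ha]
    field_simp
    ring
  have e2 : m ^ 2 * (η ^ 2 * ((2 / a) * (25 / 6 * (2 / a)))) =
      100 / 6 * (25 / (6 * c)) ^ 2 * η ^ 2 := by
    rw [ha]
    field_simp
    ring
  rw [e1] at hS1
  rw [e2] at hS2
  linarith

end PLR
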