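import Pool.Agent.Smo.Main

/-!
# PLR.Defs: regular induced subgraphs of polynomial size in randomly perturbed graphs, definitions

`E` is a set of unordered pairs (without loops) of a finite vertex set `ι`, `m = |ι|`. A random subset `h` of `E`
contains every `e ∈ E` independently with probability `p e` (`Smo.Ex p E`).
-/

set_option autoImplicit false

namespace PLR

open Finset Smo

variable {ι : Type*} [DecidableEq ι]

/-- `θ i + θ j` for the pair `s(i, j)` -/
def sm (θ : ι → ℝ) (e : Sym2 ι) : ℝ := Sym2.lift ⟨fun i j => θ i + θ j, fun _ _ => add_comm _ _⟩ e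

/-- the number of pairs of `h` that contain `i` (the degree of `i` in the graph `h`, no loops) -/
def dgE (h : Finset (Sym2 ι)) (i : ι) : ℕ := (h.filter fun e => i ∈ e).card

/-- the probability that the random subset of `E` has degree vector `t` -/
noncomputable def PD (E : Finset (Sym2 ι)) (p : Sym2 ι → ℝ) (t : ι → ℤ) : ℝ :=
  Ex p E (fun h => ind (∀ i, (dgE h i : ℤ) = t i))

/-- the sum of `w` over the pairs at `i` -/
noncomputable def sw (E : Finset (Sym2 ι)) (w : Sym2 ι → ℝ) (i : ι) : ℝ := ∑ e ∈ E.filter (fun e => i ∈ e), w e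

/-- the variance of the degree of `i` -/
noncomputable def Vr (E : Finset (Sym2 ι)) (p : Sym2 ι → ℝ) (i : ι) : ℝ := sw E (fun e => p e * (1 - p e)) i

/-- `∏ (2 π V_i)^(-1/2)` -/
noncomputable def GF [Fintype ι] (E : Finset (Sym2 ι)) (p : Sym2 ι → ℝ) : ℝ :=
  ∏ i : ι, (Real.sqrt (2 * Real.pi * Vr E p i))⁻¹

/-- distance to `2 π ℤ` -/
noncomputable def nrm (s : ℝ) : ℝ := |s - 2 * Real.pi * round (s / (2 * Real.pi))|

/-- the pairs of `E` between `A` and `B` -/
def btw (E : Finset (Sym2 ι)) (A B : Finset ι) : Finset (Sym2 ι) := E.filter fun e => ∃ a ∈ A, ∃ b ∈ B, e = s(a, b)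

/-- robust expansion of the graph `E` (all constants are relative to `m = |ι|`) -/
structure QR [Fintype ι] (c : ℝ) (E : Finset (Sym2 ι)) : Prop where
  nd : ∀ e ∈ E, ¬ e.IsDiag
  deg : ∀ i, c * Fintype.card ι ≤ dgE E i
  l1 : ∀ x : ι → ℝ, c * Fintype.card ι * ∑ i, |x i| ≤ ∑ e ∈ E, |sm x e|
  l2 : ∀ x : ι → ℝ, c * Fintype.card ι * ∑ i, x i ^ 2 ≤ ∑ e ∈ E, sm x e ^ 2
  tor : ∀ x : ι → ℝ, c * Fintype.card ι * ∑ i, nrm (2 * x i) ^ 2 ≤ ∑ e ∈ E, nrm (sm x e) ^ 2
  cut : ∀ M : Finset ι, c * Fintype.card ι * min (M.card : ℝ) (Mᶜ.card : ℝ) ≤ (btw E M Mᶜ).card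

/-- the characteristic function of a Bernoulli variable -/
noncomputable def chi (p s : ℝ) : ℂ := 1 - (p : ℂ) + (p : ℂ) * Complex.exp ((s : ℂ) * Complex.I)

/-- the half open cube `(-π, π]^ι` -/
def box (ι : Type*) : Set (ι → ℝ) := Set.pi Set.univ fun _ => Set.Ioc (-Real.pi) Real.pi

/-- all angles near `0` -/
def cube (ι : Type*) (ρ : ℝ) : Set (ι → ℝ) := {θ | ∀ i, nrm (θ i) ≤ ρ}

/-- all angles near `π` -/
def cubeP (ι : Type*) (ρ : ℝ) : Set (ι → ℝ) := {θ | ∀ i, nrm (θ i - Real.pi) ≤ ρ}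

/-- the probability of a pair after the tilt `y` -/
noncomputable def tp (y : ι → ℝ) (e : Sym2 ι) : ℝ := (1 + Real.tanh (sm y e / 2)) / 2

/-- the pairs of `E` inside `T` removed -/
def cutT (E : Finset (Sym2 ι)) (T : Finset ι) : Finset (Sym2 ι) := E \ prs T

/-- the pairs of `E` that meet `M` removed -/
def offM (E : Finset (Sym2 ι)) (M : Finset ι) : Finset (Sym2 ι) := E.filter fun e => ∀ i ∈ M, i ∉ e

/-- `r` has edge density at least `δ` between any two disjoint sets of at least `L` vertices -/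
def DenseR {V : Type*} [DecidableEq V] (δ : ℝ) (L : ℕ) (r : Finset (Sym2 V)) : Prop :=
  ∀ A B : Finset V, Disjoint A B → L ≤ A.card → L ≤ B.card → δ * A.card * B.card ≤ (btw r A B).card

/-- the pairs of `r` inside `S`, as pairs of the subtype -/
def Es {V : Type*} [DecidableEq V] (S : Finset V) (r : Finset (Sym2 V)) : Finset (Sym2 {v // v ∈ S}) :=
  (Finset.univ : Finset (Sym2 {v // v ∈ S})).filter fun e => Sym2.map Subtype.val e ∈ r ∧ ¬ e.IsDiag

/-- dense graph: degrees at least `δ m`, density at least `δ` between disjoint sets of size at least `β m` -/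
structure DN {ι : Type*} [Fintype ι] [DecidableEq ι] (δ β : ℝ) (E : Finset (Sym2 ι)) : Prop where
  nd : ∀ e ∈ E, ¬ e.IsDiag
  deg : ∀ i, δ * Fintype.card ι ≤ dgE E i
  den : ∀ A B : Finset ι, Disjoint A B → β * Fintype.card ι ≤ A.card → β * Fintype.card ι ≤ B.card →
    δ * A.card * B.card ≤ (btw E A B).card

/-- the revealed probabilities: `1` on `c`, `1/2` on `r`, `0` elsewhere -/
noncomputable def ph {V : Type*} [DecidableEq V] (c r : Finset (Sym2 V)) (e : Sym2 V) : ℝ :=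
  (if e ∈ c then 1 else 0) + (if e ∈ r then 1 / 2 else 0)

/-- the sets that are used: size, expected degrees, degrees in `r` -/
def GoodS {V : Type*} [DecidableEq V] (c r : Finset (Sym2 V)) (s X β : ℝ) (k : ℕ) (S : Finset V) : Prop :=
  s / 2 ≤ S.card ∧ (S.card : ℝ) ≤ 2 * s ∧ (∀ v ∈ S, |∑ u ∈ S.erase v, ph c r s(v, u) - k| ≤ X) ∧
    ∀ v ∈ S, β * S.card ≤ dg r S v

/-- the quadratic form `∑ w_e (θ_i + θ_j)^2 + ∑_(i in M) θ_i^2` as a matrix -/
noncomputable def QM (E : Finset (Sym2 ι)) (w : Sym2 ι → ℝ) (M : Finset ι) : Matrix ι ι ℝ := fun i j =>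
  if i = j then sw E w i + (if i ∈ M then 1 else 0) else if s(i, j) ∈ E then w s(i, j) else 0

/-- the Gaussian integral of `φ` with the quadratic form `A` -/
noncomputable def GI [Fintype ι] (A : Matrix ι ι ℝ) (φ : (ι → ℝ) → ℝ) : ℝ :=
  ∫ θ : ι → ℝ, φ θ * Real.exp (-(∑ i, ∑ j, A i j * θ i * θ j) / 2)

omit [DecidableEq ι] in
@[simp] theorem sm_mk (θ : ι → ℝ) (i j : ι) : sm θ s(i, j) = θ i + θ j := rfl

end PLR
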