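import Pool.Agent.PLR.Defs

/-!
# PLR.Dense2: a random subset of a dense set of pairs is dense (general form of `dense_whp`)

As `dense_whp`: for disjoint `|A| = |B| = L`: `|btw R A B| ≥ δ L^2`; the number of chosen ones is a sum of at least `δ L^2` independent Bernoulli(2δ): `P(< δ^2 L^2) ≤ exp(-δ^2 L^2/4)`; union over `n^(2L)` pairs; then averaging: at least `δ^2 |A||B|` for all larger disjoint `A, B`.
-/

set_option autoImplicit false

namespace PLR

open Finset Smo

theorem d2_avg {V : Type*} [DecidableEq V] {L : ℕ} (hL : 1 ≤ L) {g : V → ℝ} {c : ℝ} :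
    ∀ (k : ℕ) (A : Finset V), A.card = L + k →
      (∀ A' ⊆ A, A'.card = L → c * L ≤ ∑ a ∈ A', g a) → c * A.card ≤ ∑ a ∈ A, g a := by
  intro k
  induction k with
  | zero =>
    intro A hA h
    have h1 : A.card = L := by simpa using hA
    rw [h1]
    exact h A (Finset.Subset.refl A) h1
  | succ k ih =>
    intro A hA h
    have hne : A.Nonempty := by
      rw [← Finset.card_pos]
      omega
    obtain ⟨m, hm, hmax⟩ := Finset.exists_max_image A g hne
    have hc : (A.erase m).card = L + k := by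
      rw [Finset.card_erase_of_mem hm]
      omega
    have h1 := ih (A.erase m) hc fun A' hA' hc' => h A' (hA'.trans (Finset.erase_subset m A)) hc'
    have h2 : ∑ a ∈ A.erase m, g a ≤ (A.erase m).card * g m := by
      rw [← nsmul_eq_mul]
      exact Finset.sum_le_card_nsmul _ _ _ fun a ha => hmax a (Finset.mem_of_mem_erase ha)
    have hpos : (0 : ℝ) < (A.erase m).card := by
      rw [hc]
      exact_mod_cast (by omega : 0 < L + k)
    have h3 : c ≤ g m := by
      have h4 : c * (A.erase m).card ≤ (A.erase m).card * g m := h1.trans h2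
      rw [mul_comm c] at h4
      exact le_of_mul_le_mul_left h4 hpos
    have h5 : ∑ a ∈ A, g a = g m + ∑ a ∈ A.erase m, g a := (Finset.add_sum_erase A g hm).symm
    have h6 : (A.card : ℝ) = (A.erase m).card + 1 := by
      rw [hA, hc]
      push_cast
      ring
    rw [h5, h6]
    linarith

theorem d2_btw_card {V : Type*} [DecidableEq V] (r : Finset (Sym2 V)) {A B : Finset V} (hAB : Disjoint A B) :
    ((btw r A B).card : ℝ) = ∑ a ∈ A, ∑ b ∈ B, (if s(a, b) ∈ r then (1 : ℝ) else 0) := by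
  have h1 : btw r A B = ((A ×ˢ B).filter fun x => s(x.1, x.2) ∈ r).image fun x => s(x.1, x.2) := by
    ext e
    simp only [btw, mem_filter, mem_image, mem_product, Prod.exists]
    constructor
    · rintro ⟨he, a, ha, b, hb, rfl⟩
      exact ⟨a, b, ⟨⟨ha, hb⟩, he⟩, rfl⟩
    · rintro ⟨a, b, ⟨⟨ha, hb⟩, he⟩, rfl⟩
      exact ⟨he, a, ha, b, hb, rfl⟩
  have h2 : (btw r A B).card = ((A ×ˢ B).filter fun x => s(x.1, x.2) ∈ r).card := by
    rw [h1]
    apply Finset.card_image_of_injOn
    rintro ⟨a, b⟩ hx ⟨a', b'⟩ hy hxy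
    simp only [coe_filter, mem_product, Set.mem_ofPred_eq] at hx hy
    simp only [Sym2.eq_iff] at hxy
    rcases hxy with ⟨h3, h4⟩ | ⟨h3, h4⟩
    · rw [h3, h4]
    · exfalso
      exact (Finset.disjoint_left.mp hAB hx.1.1) (h3 ▸ hy.1.2)
  rw [h2, Finset.card_filter, Finset.sum_product]
  push_cast
  rfl

theorem d2_dense {V : Type*} [DecidableEq V] {L : ℕ} (hL : 1 ≤ L) {r : Finset (Sym2 V)} {c : ℝ}
    (h : ∀ A B : Finset V, A.card = L → B.card = L → Disjoint A B → c * L * L ≤ (btw r A B).card) :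
    DenseR c L r := by
  intro A B hAB hA hB
  rw [d2_btw_card r hAB, Finset.sum_comm]
  obtain ⟨ka, hka⟩ := Nat.exists_eq_add_of_le hA
  obtain ⟨kb, hkb⟩ := Nat.exists_eq_add_of_le hB
  apply d2_avg hL kb B hkb
  intro B' hB' hB'c
  rw [Finset.sum_comm]
  have h1 : c * L * A.card ≤ ∑ a ∈ A, ∑ b ∈ B', (if s(a, b) ∈ r then (1 : ℝ) else 0) := by
    apply d2_avg hL ka A hka
    intro A' hA' hA'c
    have hd : Disjoint A' B' := Finset.disjoint_of_subset_left hA' (Finset.disjoint_of_subset_right hB' hAB)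
    rw [← d2_btw_card r hd]
    exact h A' B' hA'c hB'c hd
  calc c * A.card * L = c * L * A.card := by ring
    _ ≤ _ := h1

/-- one pair of blocks -/
theorem d2_one {V : Type*} [DecidableEq V] {δ : ℝ} (hδ : 0 < δ) (hδ1 : δ < 1 / 2) {L : ℕ} (R : Finset (Sym2 V))
    (A B : Finset V) (hR : δ * L * L ≤ (btw R A B).card) :
    Ex (fun _ => 2 * δ) R (fun r => ind (((btw r A B).card : ℝ) < δ ^ 2 * L * L)) ≤
      Real.exp (-(δ ^ 2 * L ^ 2 / 4)) := by
  have hp : ∀ e ∈ R, (0 : ℝ) ≤ 2 * δ ∧ 2 * δ ≤ 1 := fun e _ => ⟨by linarith, by linarith⟩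
  have hl2 : 0 < Real.log 2 := Real.log_pos (by norm_num)
  have hl3 : Real.log 2 < 0.6931471808 := Real.log_two_lt_d9
  set P : Sym2 V → Prop := fun e => ∃ a ∈ A, ∃ b ∈ B, e = s(a, b) with hP
  have h1 : Ex (fun _ => 2 * δ) R (fun r => ind (((btw r A B).card : ℝ) < δ ^ 2 * L * L)) ≤
      Ex (fun _ => 2 * δ) R (fun r => Real.exp (Real.log 2 * (δ ^ 2 * L * L)) *
        ∏ e ∈ r, (if P e then (1 / 2 : ℝ) else 1)) := by
    apply Ex_mono hp
    intro r hr
    have h2 : ∏ e ∈ r, (if P e then (1 / 2 : ℝ) else 1) = (1 / 2 : ℝ) ^ (btw r A B).card := by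
      rw [← Finset.prod_filter_mul_prod_filter_not r P]
      have h3 : ∏ x ∈ r.filter P, (if P x then (1 / 2 : ℝ) else 1) = (1 / 2 : ℝ) ^ (r.filter P).card := by
        rw [← Finset.prod_const]
        exact Finset.prod_congr rfl fun x hx => if_pos (Finset.mem_filter.mp hx).2
      have h4 : ∏ x ∈ r.filter (fun x => ¬ P x), (if P x then (1 / 2 : ℝ) else 1) = 1 :=
        Finset.prod_eq_one fun x hx => if_neg (Finset.mem_filter.mp hx).2
      rw [h3, h4, mul_one]
      congr 1
    rw [h2]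
    by_cases hlt : ((btw r A B).card : ℝ) < δ ^ 2 * L * L
    · rw [ind_of hlt]
      have h5 : (1 / 2 : ℝ) ^ (btw r A B).card = Real.exp (-(Real.log 2 * (btw r A B).card)) := by
        rw [Real.exp_neg, mul_comm, Real.exp_nat_mul, Real.exp_log (by norm_num)]
        rw [one_div, inv_pow]
      rw [h5, ← Real.exp_add]
      apply Real.one_le_exp
      nlinarith
    · rw [ind_not hlt]
      positivity
  refine h1.trans ?_
  rw [Ex_mul_left, Ex_prod]
  have h6 : ∏ e ∈ R, (1 - 2 * δ + 2 * δ * (if P e then (1 / 2 : ℝ) else 1)) = (1 - δ) ^ (btw R A B).card := by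
    rw [← Finset.prod_filter_mul_prod_filter_not R P]
    have h3 : ∏ x ∈ R.filter P, (1 - 2 * δ + 2 * δ * (if P x then (1 / 2 : ℝ) else 1)) = (1 - δ) ^ (R.filter P).card := by
      rw [← Finset.prod_const]
      exact Finset.prod_congr rfl fun x hx => by
        rw [if_pos (Finset.mem_filter.mp hx).2]
        ring
    have h4 : ∏ x ∈ R.filter (fun x => ¬ P x), (1 - 2 * δ + 2 * δ * (if P x then (1 / 2 : ℝ) else 1)) = 1 :=
      Finset.prod_eq_one fun x hx => by
        rw [if_neg (Finset.mem_filter.mp hx).2]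
        ring
    rw [h3, h4, mul_one]
    congr 1
  rw [h6]
  have h7 : (1 - δ) ^ (btw R A B).card ≤ Real.exp (-(δ * (btw R A B).card)) := by
    have h8 : 1 - δ ≤ Real.exp (-δ) := by
      have := Real.add_one_le_exp (-δ)
      linarith
    calc (1 - δ) ^ (btw R A B).card ≤ Real.exp (-δ) ^ (btw R A B).card :=
          pow_le_pow_left₀ (by linarith) h8 _
      _ = Real.exp (-(δ * (btw R A B).card)) := by
          rw [← Real.exp_nat_mul]
          congr 1
          ring
  calc Real.exp (Real.log 2 * (δ ^ 2 * L * L)) * (1 - δ) ^ (btw R A B).card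
      ≤ Real.exp (Real.log 2 * (δ ^ 2 * L * L)) * Real.exp (-(δ * (btw R A B).card)) :=
        mul_le_mul_of_nonneg_left h7 (Real.exp_pos _).le
    _ = Real.exp (Real.log 2 * (δ ^ 2 * L * L) + -(δ * (btw R A B).card)) := (Real.exp_add _ _).symm
    _ ≤ Real.exp (-(δ ^ 2 * L ^ 2 / 4)) := by
        apply Real.exp_le_exp.mpr
        have h9 : δ * (δ * L * L) ≤ δ * (btw R A B).card := mul_le_mul_of_nonneg_left hR hδ.le
        have h10 : 0 ≤ δ ^ 2 * (L : ℝ) * L := by positivity
        nlinarith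

theorem dense_whp2 (δ : ℝ) (hδ : 0 < δ) (hδ1 : δ < 1 / 2) : ∃ C : ℝ, ∃ n₀ : ℕ, 0 < C ∧ ∀ n : ℕ, n₀ ≤ n → ∀ L : ℕ,
    C * Real.log n ≤ L → ∀ R : Finset (Sym2 (Fin n)), R ⊆ prs (univ : Finset (Fin n)) → DenseR δ L R →
    Ex (fun _ => 2 * δ) R (fun r => ind (¬ DenseR (δ ^ 2 / 4) L r)) ≤ 1 / n := by
  refine ⟨12 / δ ^ 2, 2, by positivity, ?_⟩
  intro n hn L hCL R hRs hR
  have hn1 : (1 : ℝ) < n := by exact_mod_cast (by omega : 1 < n)
  have hn0 : (0 : ℝ) < n := by linarith
  have hlog : 0 < Real.log n := Real.log_pos hn1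
  have hLpos : (0 : ℝ) < L := lt_of_lt_of_le (by positivity) hCL
  have hL : 1 ≤ L := by exact_mod_cast hLpos
  have hL1 : (1 : ℝ) ≤ L := by exact_mod_cast hL
  have hp : ∀ e ∈ R, (0 : ℝ) ≤ 2 * δ ∧ 2 * δ ≤ 1 := fun e _ => ⟨by linarith, by linarith⟩
  set Q : Finset (Finset (Fin n)) := powersetCard L univ with hQ
  have h1 : Ex (fun _ => 2 * δ) R (fun r => ind (¬ DenseR (δ ^ 2 / 4) L r)) ≤
      Ex (fun _ => 2 * δ) R (fun r => ∑ A ∈ Q, ∑ B ∈ Q,
        (if Disjoint A B then ind (((btw r A B).card : ℝ) < δ ^ 2 * L * L) else 0)) := by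
    apply Ex_mono hp
    intro r hr
    have hnn : ∀ A B : Finset (Fin n),
        0 ≤ (if Disjoint A B then ind (((btw r A B).card : ℝ) < δ ^ 2 * L * L) else 0) := by
      intro A B
      split_ifs
      · exact ind_nonneg _
      · exact le_rfl
    by_cases hD : DenseR (δ ^ 2 / 4) L r
    · rw [ind_not (not_not.mpr hD)]
      exact sum_nonneg fun A _ => sum_nonneg fun B _ => hnn A B
    · rw [ind_of hD]
      have h2 : ∃ A B : Finset (Fin n), A.card = L ∧ B.card = L ∧ Disjoint A B ∧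
          ((btw r A B).card : ℝ) < δ ^ 2 * L * L := by
        by_contra hcon
        push Not at hcon
        apply hD
        have h3 : DenseR (δ ^ 2) L r := d2_dense hL fun A B hA hB hAB => hcon A B hA hB hAB
        intro A B hAB hA hB
        refine le_trans ?_ (h3 A B hAB hA hB)
        have h4 : 0 ≤ δ ^ 2 * (A.card : ℝ) * B.card := by positivity
        nlinarith
      obtain ⟨A, B, hA, hB, hAB, hlt⟩ := h2
      have hAQ : A ∈ Q := mem_powersetCard.mpr ⟨subset_univ A, hA⟩
      have hBQ : B ∈ Q := mem_powersetCard.mpr ⟨subset_univ B, hB⟩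
      calc (1 : ℝ) = (if Disjoint A B then ind (((btw r A B).card : ℝ) < δ ^ 2 * L * L) else 0) := by
            rw [if_pos hAB, ind_of hlt]
        _ ≤ ∑ B ∈ Q, (if Disjoint A B then ind (((btw r A B).card : ℝ) < δ ^ 2 * L * L) else 0) :=
            single_le_sum (f := fun B => (if Disjoint A B then ind (((btw r A B).card : ℝ) < δ ^ 2 * L * L) else 0))
              (fun B _ => hnn A B) hBQ
        _ ≤ _ := single_le_sum (f := fun A => ∑ B ∈ Q,
              (if Disjoint A B then ind (((btw r A B).card : ℝ) < δ ^ 2 * L * L) else 0))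
              (fun A _ => sum_nonneg fun B _ => hnn A B) hAQ
  refine h1.trans ?_
  rw [Ex_sum]
  have h5 : ∀ A ∈ Q, Ex (fun _ => 2 * δ) R (fun r => ∑ B ∈ Q,
      (if Disjoint A B then ind (((btw r A B).card : ℝ) < δ ^ 2 * L * L) else 0)) ≤
      (Q.card : ℝ) * Real.exp (-(δ ^ 2 * L ^ 2 / 4)) := by
    intro A hA
    rw [Ex_sum, ← nsmul_eq_mul]
    apply sum_le_card_nsmul
    intro B hB
    by_cases hAB : Disjoint A B
    · simp only [if_pos hAB]
      apply d2_one hδ hδ1
      have h6 := hR A B hAB (mem_powersetCard.mp hA).2.ge (mem_powersetCard.mp hB).2.ge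
      rw [(mem_powersetCard.mp hA).2, (mem_powersetCard.mp hB).2] at h6
      exact h6
    · simp only [if_neg hAB]
      rw [Ex_const]
      exact (Real.exp_pos _).le
  have h7 : ∑ A ∈ Q, Ex (fun _ => 2 * δ) R (fun r => ∑ B ∈ Q,
      (if Disjoint A B then ind (((btw r A B).card : ℝ) < δ ^ 2 * L * L) else 0)) ≤
      (Q.card : ℝ) * ((Q.card : ℝ) * Real.exp (-(δ ^ 2 * L ^ 2 / 4))) := by
    rw [← nsmul_eq_mul]
    exact sum_le_card_nsmul _ _ _ h5
  refine h7.trans ?_
  have h8 : (Q.card : ℝ) ≤ Real.exp (L * Real.log n) := by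
    rw [hQ, card_powersetCard, card_univ, Fintype.card_fin]
    have h9 : (n.choose L : ℝ) ≤ (n : ℝ) ^ L := by exact_mod_cast Nat.choose_le_pow n L
    refine h9.trans ?_
    rw [Real.exp_nat_mul, Real.exp_log hn0]
  have h10 : (0 : ℝ) ≤ Q.card := Nat.cast_nonneg _
  calc (Q.card : ℝ) * ((Q.card : ℝ) * Real.exp (-(δ ^ 2 * L ^ 2 / 4)))
      ≤ Real.exp (L * Real.log n) * (Real.exp (L * Real.log n) * Real.exp (-(δ ^ 2 * L ^ 2 / 4))) := by
        gcongr
    _ = Real.exp (L * Real.log n + (L * Real.log n + -(δ ^ 2 * L ^ 2 / 4))) := by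
        rw [Real.exp_add, Real.exp_add]
    _ ≤ Real.exp (-Real.log n) := by
        apply Real.exp_le_exp.mpr
        have h11 : 12 * Real.log n ≤ δ ^ 2 * L := by
          have h12 : 12 / δ ^ 2 * Real.log n * δ ^ 2 ≤ L * δ ^ 2 := mul_le_mul_of_nonneg_right hCL (by positivity)
          have h13 : 12 / δ ^ 2 * Real.log n * δ ^ 2 = 12 * Real.log n := by
            field_simp
          linarith
        have h14 : 12 * Real.log n * L ≤ δ ^ 2 * L * L := mul_le_mul_of_nonneg_right h11 hLpos.le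
        nlinarith
    _ = 1 / n := by
        rw [Real.exp_neg, Real.exp_log hn0, one_div]

end PLR
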