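import Pool.Agent.PLR.Nrm

/-!
# PLR.EnB: energy bound when the angles are neither mostly near `0` nor mostly near `π`

`c < 1` by `QR.deg` (if `ι` is nonempty). Let `A = {i : nrm (θ i) ≤ ρ}` and `B = {i : nrm (θ i - π) ≤ ρ}` (disjoint, `ρ ≤ 1/8`), `I` the rest. On `I`: `nrm (2 θ i) ≥ 2ρ` (`nrm_two_mul`), so `QR.tor` gives energy `≥ c m |I| 4 ρ^2`.
If `|I| ≥ c^2 m/64` this is enough. Else: if `|A| < c m/16` then `|Bᶜ| = |A| + |I| < c m/8`, contradiction to the second hypothesis. So `|A| ≥ c m/16`, `|Aᶜ| > c m/8`, and by `QR.cut` at least `c^2 m^2/16` pairs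
leave `A`, at most `|I| m ≤ c^2 m^2/64` of them go to `I`, the others go to `B` and have `nrm (sm θ e) ≥ π - 2ρ ≥ 1`.
-/

set_option autoImplicit false

namespace PLR

open Finset Smo

theorem energy_bad (c : ℝ) (hc : 0 < c) (ρ : ℝ) (hρ : 0 < ρ) (hρ1 : ρ ≤ 1 / 8) : ∃ c' : ℝ, 0 < c' ∧
    ∀ (ι : Type) [Fintype ι] [DecidableEq ι] (E : Finset (Sym2 ι)), QR c E → ∀ θ : ι → ℝ,
      c * Fintype.card ι / 8 < ((univ.filter fun i => ρ < nrm (θ i)).card : ℝ) →
      c * Fintype.card ι / 8 < ((univ.filter fun i => ρ < nrm (θ i - Real.pi)).card : ℝ) →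
      c' * (Fintype.card ι : ℝ) ^ 2 ≤ ∑ e ∈ E, nrm (sm θ e) ^ 2 := by
  refine ⟨min (c ^ 3 * ρ ^ 2 / 16) (3 * c ^ 2 / 64), by positivity, ?_⟩
  intro ι _ _ E hQ θ h1 h2
  rcases isEmpty_or_nonempty ι with hι | ⟨⟨i0⟩⟩
  · exfalso
    have e1 : ((univ.filter fun i => ρ < nrm (θ i)).card : ℝ) = 0 := by
      simp [Finset.univ_eq_empty]
    have e2 : (Fintype.card ι : ℝ) = 0 := by simp
    rw [e1, e2, mul_zero, zero_div] at h1
    exact lt_irrefl _ h1
  have hm0 : (0 : ℝ) < Fintype.card ι := by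
    have : 0 < Fintype.card ι := Fintype.card_pos_iff.2 ⟨i0⟩
    exact_mod_cast this
  have hc1 : c ≤ 1 := by
    have g1 := hQ.deg i0
    have g2 : dgE E i0 ≤ Fintype.card ι := by
      unfold dgE
      refine (Finset.card_le_card (t := univ.image fun j => s(i0, j)) ?_).trans
        (Finset.card_image_le.trans (le_of_eq (Finset.card_univ)))
      intro e he
      rw [Finset.mem_filter] at he
      rw [Finset.mem_image]
      obtain ⟨j, hj⟩ := Sym2.mem_iff_exists.1 he.2
      exact ⟨j, mem_univ _, hj.symm⟩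
    have g3 : (dgE E i0 : ℝ) ≤ Fintype.card ι := by exact_mod_cast g2
    by_contra hcon
    push Not at hcon
    have g4 : (1 : ℝ) * Fintype.card ι < c * Fintype.card ι := mul_lt_mul_of_pos_right hcon hm0
    linarith
  have hπ : nrm Real.pi = Real.pi := by
    rw [nrm_eq_abs (by rw [abs_of_pos Real.pi_pos]), abs_of_pos Real.pi_pos]
  obtain ⟨m, hm⟩ : ∃ m : ℝ, m = Fintype.card ι := ⟨_, rfl⟩
  obtain ⟨A, hA⟩ : ∃ A : Finset ι, A = univ.filter fun i => nrm (θ i) ≤ ρ := ⟨_, rfl⟩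
  obtain ⟨B, hB⟩ : ∃ B : Finset ι, B = univ.filter fun i => nrm (θ i - Real.pi) ≤ ρ := ⟨_, rfl⟩
  obtain ⟨I, hI⟩ : ∃ I : Finset ι,
    I = univ.filter fun i => ρ < nrm (θ i) ∧ ρ < nrm (θ i - Real.pi) := ⟨_, rfl⟩
  have hAc : Aᶜ = univ.filter fun i => ρ < nrm (θ i) := by
    ext i
    rw [hA, Finset.mem_compl, Finset.mem_filter, Finset.mem_filter]
    simp
  have hAcard : (A.card : ℝ) ≤ m := by
    rw [hm]
    exact_mod_cast Finset.card_le_univ A
  rw [← hAc] at h1
  rw [← hm] at h1 h2 hm0 ⊢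
  have h3 : ((univ.filter fun i => ρ < nrm (θ i - Real.pi)).card : ℝ) ≤ A.card + I.card := by
    have g1 : (univ.filter fun i => ρ < nrm (θ i - Real.pi)).card ≤ A.card + I.card := by
      refine (Finset.card_le_card ?_).trans (Finset.card_union_le A I)
      intro i hi
      rw [Finset.mem_filter] at hi
      rw [Finset.mem_union, hA, hI, Finset.mem_filter, Finset.mem_filter]
      rcases le_or_gt (nrm (θ i)) ρ with h | h
      · exact Or.inl ⟨mem_univ _, h⟩
      · exact Or.inr ⟨mem_univ _, h, hi.2⟩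
    exact_mod_cast g1
  have hT0 : ∀ e ∈ E, 0 ≤ nrm (sm θ e) ^ 2 := fun e _ => sq_nonneg _
  rcases le_or_gt (c ^ 2 * m / 64) (I.card : ℝ) with hc | hc
  · -- many angles away from `0` and `π`
    have g1 := hQ.tor θ
    rw [← hm] at g1
    have g2 : (I.card : ℝ) * (4 * ρ ^ 2) ≤ ∑ i, nrm (2 * θ i) ^ 2 := by
      have g3 : ∑ i ∈ I, nrm (2 * θ i) ^ 2 ≤ ∑ i, nrm (2 * θ i) ^ 2 :=
        Finset.sum_le_sum_of_subset_of_nonneg (subset_univ I) fun i _ _ => sq_nonneg _
      have g4 : I.card • (4 * ρ ^ 2) ≤ ∑ i ∈ I, nrm (2 * θ i) ^ 2 := by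
        refine Finset.card_nsmul_le_sum I _ _ fun i hi => ?_
        rw [hI, Finset.mem_filter] at hi
        have g5 := nrm_two_mul (θ i)
        have g6 : ρ ≤ min (nrm (θ i)) (nrm (θ i - Real.pi)) := le_min hi.2.1.le hi.2.2.le
        have g7 : 2 * ρ ≤ nrm (2 * θ i) := by linarith
        have g8 : (2 * ρ) ^ 2 ≤ nrm (2 * θ i) ^ 2 := pow_le_pow_left₀ (by linarith) g7 2
        have g9 : (2 * ρ) ^ 2 = 4 * ρ ^ 2 := by ring
        rw [← g9]
        exact g8
      rw [nsmul_eq_mul] at g4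
      exact g4.trans g3
    have g3 : c * m * (c ^ 2 * m / 64 * (4 * ρ ^ 2)) ≤ c * m * ∑ i, nrm (2 * θ i) ^ 2 := by
      refine mul_le_mul_of_nonneg_left ?_ (by positivity)
      exact (mul_le_mul_of_nonneg_right hc (by positivity)).trans g2
    have g4 : min (c ^ 3 * ρ ^ 2 / 16) (3 * c ^ 2 / 64) * m ^ 2 ≤ c ^ 3 * ρ ^ 2 / 16 * m ^ 2 :=
      mul_le_mul_of_nonneg_right (min_le_left _ _) (by positivity)
    have g5 : c * m * (c ^ 2 * m / 64 * (4 * ρ ^ 2)) = c ^ 3 * ρ ^ 2 / 16 * m ^ 2 := by ring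
    linarith
  · -- otherwise many pairs between `A` and `B`
    have hcm : c ^ 2 * m ≤ c * m := by
      have : c ^ 2 ≤ c := by nlinarith
      exact mul_le_mul_of_nonneg_right this hm0.le
    have k1 : c * m / 16 ≤ A.card := by linarith
    have k2 : c * m / 16 ≤ (Aᶜ.card : ℝ) := by
      have : 0 < c * m := by positivity
      linarith
    have k3 := hQ.cut A
    rw [← hm] at k3
    have k4 : c * m * (c * m / 16) ≤ (btw E A Aᶜ).card :=
      (mul_le_mul_of_nonneg_left (le_min k1 k2) (by positivity)).trans k3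
    have k5 : ((btw E A Aᶜ).card : ℝ) ≤ (btw E A B).card + m * I.card := by
      have q1 : (btw E A Aᶜ).card ≤ (btw E A B).card + A.card * I.card := by
        refine (Finset.card_le_card
          (t := btw E A B ∪ (A ×ˢ I).image fun p => s(p.1, p.2)) ?_).trans ?_
        · intro e he
          unfold btw at he ⊢
          rw [Finset.mem_filter] at he
          obtain ⟨heE, a, ha, b, hb, hab⟩ := he
          rw [hAc, Finset.mem_filter] at hb
          rw [Finset.mem_union, Finset.mem_filter, Finset.mem_image]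
          rcases le_or_gt (nrm (θ b - Real.pi)) ρ with h | h
          · refine Or.inl ⟨heE, a, ha, b, ?_, hab⟩
            rw [hB, Finset.mem_filter]
            exact ⟨mem_univ _, h⟩
          · refine Or.inr ⟨(a, b), ?_, hab.symm⟩
            rw [Finset.mem_product]
            refine ⟨ha, ?_⟩
            rw [hI, Finset.mem_filter]
            exact ⟨mem_univ _, hb.2, h⟩
        · refine (Finset.card_union_le _ _).trans (Nat.add_le_add le_rfl ?_)
          exact Finset.card_image_le.trans (le_of_eq (Finset.card_product _ _))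
      have q2 : ((btw E A Aᶜ).card : ℝ) ≤ (btw E A B).card + A.card * I.card := by
        exact_mod_cast q1
      refine q2.trans (add_le_add le_rfl ?_)
      exact mul_le_mul_of_nonneg_right hAcard (Nat.cast_nonneg _)
    have k6 : m * (I.card : ℝ) ≤ m * (c ^ 2 * m / 64) :=
      mul_le_mul_of_nonneg_left hc.le hm0.le
    have k7 : ((btw E A B).card : ℝ) ≤ ∑ e ∈ E, nrm (sm θ e) ^ 2 := by
      have q1 : ∑ e ∈ btw E A B, nrm (sm θ e) ^ 2 ≤ ∑ e ∈ E, nrm (sm θ e) ^ 2 :=
        Finset.sum_le_sum_of_subset_of_nonneg (Finset.filter_subset _ _) fun e he _ => hT0 e he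
      have q2 : (btw E A B).card • (1 : ℝ) ≤ ∑ e ∈ btw E A B, nrm (sm θ e) ^ 2 := by
        refine Finset.card_nsmul_le_sum _ _ _ fun e he => ?_
        unfold btw at he
        rw [Finset.mem_filter] at he
        obtain ⟨_, a, ha, b, hb, rfl⟩ := he
        rw [hA, Finset.mem_filter] at ha
        rw [hB, Finset.mem_filter] at hb
        rw [sm_mk]
        have r1 := nrm_sub_le (θ a + θ b) (θ a + (θ b - Real.pi))
        have r2 := nrm_add_le (θ a) (θ b - Real.pi)
        have r3 : θ a + θ b - (θ a + (θ b - Real.pi)) = Real.pi := by ring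
        rw [r3, hπ] at r1
        have r4 := Real.pi_gt_three
        have r5 : 1 ≤ nrm (θ a + θ b) := by linarith [ha.2, hb.2]
        nlinarith
      rw [nsmul_eq_mul, mul_one] at q2
      exact q2.trans q1
    have k8 : min (c ^ 3 * ρ ^ 2 / 16) (3 * c ^ 2 / 64) * m ^ 2 ≤ 3 * c ^ 2 / 64 * m ^ 2 :=
      mul_le_mul_of_nonneg_right (min_le_right _ _) (by positivity)
    nlinarith

end PLR
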