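import Pool.Agent.PLR.Nrm

/-!
# PLR.EnM: energy of the pairs that meet `M = {i : ρ < nrm (θ i)}` when most angles are within `ρ/2` of `0`

Every `i ∈ M` has at least `c m - c m/2` neighbours `j` with `nrm (θ j) ≤ ρ/2` (so `j ∉ M`), for these `nrm (sm θ s(i,j)) ≥ nrm (θ i) - nrm (θ j) ≥ ρ/2`, and these pairs are different for different `(i,j)`.
-/

set_option autoImplicit false

namespace PLR

open Finset Smo

variable {ι : Type*} [Fintype ι] [DecidableEq ι]

theorem energy_M {c : ℝ} {E : Finset (Sym2 ι)} (h : QR c E) {ρ : ℝ} (hρ : 0 < ρ) (θ : ι → ℝ)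
    (h1 : ((univ.filter fun i => ρ / 2 < nrm (θ i)).card : ℝ) ≤ c * Fintype.card ι / 2) :
    c * Fintype.card ι / 2 * (ρ / 2) ^ 2 * ((univ.filter fun i => ρ < nrm (θ i)).card : ℝ) ≤
      ∑ e ∈ E \ offM E (univ.filter fun i => ρ < nrm (θ i)), nrm (sm θ e) ^ 2 := by
  obtain ⟨M, hM⟩ : ∃ M : Finset ι, M = univ.filter fun i => ρ < nrm (θ i) := ⟨_, rfl⟩
  obtain ⟨S, hS⟩ : ∃ S : Finset ι, S = univ.filter fun i => ρ / 2 < nrm (θ i) := ⟨_, rfl⟩
  rw [← hM]
  rw [← hS] at h1
  have hMS : M ⊆ S := by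
    intro i hi
    rw [hM, mem_filter] at hi
    rw [hS, mem_filter]
    exact ⟨mem_univ _, by linarith [hi.2]⟩
  obtain ⟨T, hT⟩ : ∃ T : ι → Finset ι, T = fun i => Sᶜ.filter fun j => s(i, j) ∈ E := ⟨_, rfl⟩
  have hTm : ∀ i j, j ∈ T i ↔ j ∉ S ∧ s(i, j) ∈ E := by
    intro i j
    rw [hT]
    simp
  have hTc : ∀ i, c * Fintype.card ι / 2 ≤ ((T i).card : ℝ) := by
    intro i
    have hd := h.deg i
    have hle : dgE E i ≤ (T i).card + S.card := by
      unfold dgE
      calc (E.filter fun e => i ∈ e).card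
          ≤ ((T i).image (fun j => s(i, j)) ∪ S.image (fun j => s(i, j))).card := by
            refine card_le_card fun e he => ?_
            rw [mem_filter] at he
            obtain ⟨j, rfl⟩ := Sym2.mem_iff_exists.1 he.2
            rw [mem_union, mem_image, mem_image]
            by_cases hj : j ∈ S
            · exact Or.inr ⟨j, hj, rfl⟩
            · exact Or.inl ⟨j, (hTm i j).2 ⟨hj, he.1⟩, rfl⟩
        _ ≤ _ := (card_union_le _ _).trans (add_le_add card_image_le card_image_le)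
    have hle' : (dgE E i : ℝ) ≤ (T i).card + S.card := by exact_mod_cast hle
    linarith
  have hnr : ∀ i ∈ M, ∀ j ∈ T i, (ρ / 2) ^ 2 ≤ nrm (sm θ s(i, j)) ^ 2 := by
    intro i hi j hj
    rw [hM, mem_filter] at hi
    have hj' := ((hTm i j).1 hj).1
    rw [hS, mem_filter, not_and, not_lt] at hj'
    have h3 := hj' (mem_univ _)
    have h4 := nrm_sub_le (θ i + θ j) (θ j)
    rw [add_sub_cancel_right] at h4
    rw [sm_mk]
    have h5 : ρ / 2 ≤ nrm (θ i + θ j) := by linarith [hi.2]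
    exact pow_le_pow_left₀ (by linarith) h5 2
  have hdis : (M : Set ι).PairwiseDisjoint fun i => (T i).image fun j => s(i, j) := by
    intro i hi i' hi' hne
    refine disjoint_left.2 fun e he he' => ?_
    rw [mem_image] at he he'
    obtain ⟨j, hj, rfl⟩ := he
    obtain ⟨j', hj', he⟩ := he'
    rcases Sym2.eq_iff.1 he with ⟨h3, _⟩ | ⟨h3, h4⟩
    · exact hne h3.symm
    · refine ((hTm i j).1 hj).1 ?_
      rw [← h3]
      exact hMS hi'
  have hsub : (M.biUnion fun i => (T i).image fun j => s(i, j)) ⊆ E \ offM E M := by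
    intro e he
    rw [mem_biUnion] at he
    obtain ⟨i, hi, he⟩ := he
    rw [mem_image] at he
    obtain ⟨j, hj, rfl⟩ := he
    rw [mem_sdiff]
    refine ⟨((hTm i j).1 hj).2, fun h3 => ?_⟩
    have h4 : s(i, j) ∈ E ∧ ∀ k ∈ M, k ∉ s(i, j) := by simpa [offM] using h3
    exact h4.2 i hi (Sym2.mem_mk_left i j)
  calc c * Fintype.card ι / 2 * (ρ / 2) ^ 2 * (M.card : ℝ)
      = ∑ i ∈ M, c * Fintype.card ι / 2 * (ρ / 2) ^ 2 := by
        rw [sum_const, nsmul_eq_mul, mul_comm]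
    _ ≤ ∑ i ∈ M, ∑ e ∈ (T i).image fun j => s(i, j), nrm (sm θ e) ^ 2 := by
        refine sum_le_sum fun i hi => ?_
        rw [sum_image fun a _ b _ hab => Sym2.congr_right.1 hab]
        calc c * Fintype.card ι / 2 * (ρ / 2) ^ 2 ≤ ((T i).card : ℝ) * (ρ / 2) ^ 2 :=
              mul_le_mul_of_nonneg_right (hTc i) (by positivity)
          _ = ∑ _j ∈ T i, (ρ / 2) ^ 2 := by rw [sum_const, nsmul_eq_mul]
          _ ≤ _ := sum_le_sum fun j hj => hnr i hi j hj
    _ = ∑ e ∈ M.biUnion fun i => (T i).image fun j => s(i, j), nrm (sm θ e) ^ 2 :=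
        (sum_biUnion hdis).symm
    _ ≤ _ := sum_le_sum_of_subset_of_nonneg hsub fun e _ _ => sq_nonneg _

end PLR
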