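import Pool.Agent.PLR.Defs

/-!
# PLR.Exc: few vertices have small weighted degree in a dense `r`

If `L` vertices `A ⊆ I`: `∑_(v in A) ∑_(u ∉ A, s(u,v) ∈ r) f u = ∫_0^1 |btw r A {u ∉ A : f u > τ}| dτ` (or sort the values of `f`, Abel summation) `≥ δ L (∑_(u ∉ A) f u - L) ≥ δ L (F - 2L) ≥ δ L F/2` as level sets of size `< L` contribute less than `L`; but it is `< L (δ/4) F`.
(For each pair of `btw r A B`, `A`, `B` disjoint, exactly one `(a,b)` with `e = s(a,b)`.)
-/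

set_option autoImplicit false

namespace PLR

open Finset Smo

/-- The union bound for `btw`. -/
private theorem btw_le {n : ℕ} (r : Finset (Sym2 (Fin n))) (A B : Finset (Fin n)) :
    (btw r A B).card ≤ ∑ u ∈ B, (A.filter fun v => s(v, u) ∈ r).card := by
  have h1 : btw r A B ⊆ B.biUnion fun u => (A.filter fun v => s(v, u) ∈ r).image fun v => s(v, u) := by
    intro e he
    simp only [btw, mem_filter] at he
    obtain ⟨he1, a, ha, b, hb, rfl⟩ := he
    rw [mem_biUnion]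
    exact ⟨b, hb, mem_image.2 ⟨a, mem_filter.2 ⟨ha, he1⟩, rfl⟩⟩
  refine (card_le_card h1).trans (card_biUnion_le.trans (sum_le_sum fun u _ => card_image_le))

theorem few_bad {n : ℕ} {r : Finset (Sym2 (Fin n))} {δ : ℝ} {L : ℕ} (hδ : 0 < δ) (hL : 1 ≤ L) (hD : DenseR δ L r) {f : Fin n → ℝ}
    (hf : ∀ v, 0 ≤ f v ∧ f v ≤ 1) (hF : 4 * (L : ℝ) ≤ ∑ v, f v) :
    ((univ.filter fun v => ∑ u ∈ univ.filter (fun u => u ≠ v ∧ s(v, u) ∈ r), f u < δ / 4 * ∑ u, f u).card : ℝ) < L := by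
  by_contra hcon
  push Not at hcon
  have hLI : L ≤ (univ.filter fun v =>
      ∑ u ∈ univ.filter (fun u => u ≠ v ∧ s(v, u) ∈ r), f u < δ / 4 * ∑ u, f u).card := by
    exact_mod_cast hcon
  obtain ⟨A, hAI, hA⟩ := Finset.exists_subset_card_eq hLI
  obtain ⟨F, hFd⟩ : ∃ F, F = ∑ u, f u := ⟨_, rfl⟩
  rw [← hFd] at hF
  have hL0 : (0 : ℝ) < L := by exact_mod_cast hL
  have hAr : (A.card : ℝ) = L := by exact_mod_cast hA
  -- upper bound
  have hup : ∑ v ∈ A, ∑ u ∈ univ.filter (fun u => u ≠ v ∧ s(v, u) ∈ r), f u < L * (δ / 4 * F) := by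
    have h1 : ∀ v ∈ A, ∑ u ∈ univ.filter (fun u => u ≠ v ∧ s(v, u) ∈ r), f u < δ / 4 * F := by
      intro v hv
      have := (mem_filter.1 (hAI hv)).2
      rwa [← hFd] at this
    have hne : A.Nonempty := card_pos.1 (by omega)
    have h2 := sum_lt_sum_of_nonempty hne h1
    rwa [sum_const, nsmul_eq_mul, hAr] at h2
  -- the pairs between `A` and the complement
  have hlow : ∑ u ∈ Aᶜ, ((A.filter fun v => s(v, u) ∈ r).card : ℝ) * f u ≤
      ∑ v ∈ A, ∑ u ∈ univ.filter (fun u => u ≠ v ∧ s(v, u) ∈ r), f u := by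
    have h1 : ∀ u ∈ Aᶜ, ((A.filter fun v => s(v, u) ∈ r).card : ℝ) * f u =
        ∑ v ∈ A, if s(v, u) ∈ r then f u else 0 := by
      intro u _
      rw [← sum_filter, sum_const, nsmul_eq_mul]
    rw [sum_congr rfl h1, sum_comm]
    refine sum_le_sum fun v hv => ?_
    rw [← sum_filter]
    refine sum_le_sum_of_subset_of_nonneg ?_ (fun u _ _ => (hf u).1)
    intro u hu
    rw [mem_filter, mem_compl] at hu
    refine mem_filter.2 ⟨mem_univ _, fun h => hu.1 (h ▸ hv), hu.2⟩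
  obtain ⟨c, hc⟩ : ∃ c : Fin n → ℝ, c = fun u => ((A.filter fun v => s(v, u) ∈ r).card : ℝ) :=
    ⟨_, rfl⟩
  have hc0 : ∀ u, 0 ≤ c u := by
    intro u
    rw [hc]
    exact Nat.cast_nonneg _
  have hlow' : ∑ u ∈ Aᶜ, c u * f u ≤
      ∑ v ∈ A, ∑ u ∈ univ.filter (fun u => u ≠ v ∧ s(v, u) ∈ r), f u := by
    rw [hc]
    exact hlow
  -- the vertices with few neighbours in `A`
  obtain ⟨B, hB⟩ : ∃ B, B = Aᶜ.filter fun u => c u < δ * L := ⟨_, rfl⟩
  have hBA : B ⊆ Aᶜ := by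
    rw [hB]
    exact filter_subset _ _
  have hB1 : -(δ * L * L) ≤ ∑ u ∈ B, (c u - δ * L) := by
    rw [sum_sub_distrib, sum_const, nsmul_eq_mul]
    rcases lt_or_ge B.card L with h | h
    · have h1 : 0 ≤ ∑ u ∈ B, c u := sum_nonneg fun u _ => hc0 u
      have h2 : (B.card : ℝ) ≤ L := by exact_mod_cast h.le
      have h3 : (B.card : ℝ) * (δ * L) ≤ L * (δ * L) :=
        mul_le_mul_of_nonneg_right h2 (by positivity)
      linarith
    · have hdis : Disjoint A B := by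
        rw [disjoint_left]
        intro u hu hu'
        exact (mem_compl.1 (hBA hu')) hu
      have h1 := hD A B hdis hA.ge h
      have h2 : ((btw r A B).card : ℝ) ≤ ∑ u ∈ B, c u := by
        rw [hc]
        dsimp only
        exact_mod_cast btw_le r A B
      rw [hAr] at h1
      have h3 : 0 ≤ δ * L * L := by positivity
      have h4 : δ * L * (B.card : ℝ) = (B.card : ℝ) * (δ * L) := by ring
      linarith
  have hB2 : ∑ u ∈ B, (c u - δ * L) ≤ ∑ u ∈ Aᶜ, (c u - δ * L) * f u := by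
    have h1 : ∑ u ∈ B, (c u - δ * L) ≤ ∑ u ∈ B, (c u - δ * L) * f u := by
      refine sum_le_sum fun u hu => ?_
      have h2 : c u < δ * L := by
        rw [hB, mem_filter] at hu
        exact hu.2
      have h3 := (hf u).2
      nlinarith
    refine h1.trans ?_
    refine sum_le_sum_of_subset_of_nonneg hBA (fun u hu hu' => ?_)
    have h2 : δ * L ≤ c u := by
      by_contra hh
      push Not at hh
      exact hu' (by rw [hB]; exact mem_filter.2 ⟨hu, hh⟩)
    exact mul_nonneg (by linarith) (hf u).1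
  have hB3 : ∑ u ∈ Aᶜ, (c u - δ * L) * f u = ∑ u ∈ Aᶜ, c u * f u - δ * L * ∑ u ∈ Aᶜ, f u := by
    rw [mul_sum, ← sum_sub_distrib]
    exact sum_congr rfl fun u _ => by ring
  have hAF : F - L ≤ ∑ u ∈ Aᶜ, f u := by
    have h1 : ∑ u ∈ A, f u + ∑ u ∈ Aᶜ, f u = F := by
      rw [sum_add_sum_compl, hFd]
    have h2 : ∑ u ∈ A, f u ≤ L := by
      have h3 : ∑ u ∈ A, f u ≤ ∑ _u ∈ A, (1 : ℝ) := sum_le_sum fun u _ => (hf u).2
      rw [sum_const, nsmul_eq_mul, mul_one, hAr] at h3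
      exact h3
    linarith
  have hδL : 0 < δ * L := by positivity
  have h5 : δ * L * (F - L) ≤ δ * L * ∑ u ∈ Aᶜ, f u := mul_le_mul_of_nonneg_left hAF hδL.le
  have h6 : δ * L * (4 * L) ≤ δ * L * F := mul_le_mul_of_nonneg_left hF hδL.le
  nlinarith

end PLR
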