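import Pool.Agent.PLR.Defs

/-!
# PLR.Reveal: revealing the randomness: every pair is kept undecided with probability `2δ`, otherwise it is present with probability `(P - δ)/(1 - 2δ)`; an undecided pair is a fair coin

Induction on `s` with `Ex_insert` (three times on the right side; the function `F (c ∪ h)` with `e` inserted).
-/

set_option autoImplicit false

namespace PLR

open Finset Smo

variable {V : Type*} [DecidableEq V]

theorem reveal {P : Sym2 V → ℝ} {δ : ℝ} (hδ : 0 < δ) (hδ1 : δ < 1 / 2) (s : Finset (Sym2 V)) (F : Finset (Sym2 V) → ℝ) :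
    Ex P s F = Ex (fun _ => 2 * δ) s (fun r => Ex (fun e => (P e - δ) / (1 - 2 * δ)) (s \ r)
      (fun c => Ex (fun _ => 1 / 2) r (fun h => F (c ∪ h)))) := by
  have hne : (1 - 2 * δ) ≠ 0 := by
    have : 0 < 1 - 2 * δ := by linarith
    exact this.ne'
  induction s using Finset.induction_on generalizing F with
  | empty => simp [Ex_empty]
  | insert e s he ih =>
    set q : Sym2 V → ℝ := fun e => (P e - δ) / (1 - 2 * δ) with hq
    have hA : ∀ r ⊆ s, Ex q (insert e s \ r) (fun c => Ex (fun _ => 1 / 2) r (fun h => F (c ∪ h))) =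
        (1 - q e) * Ex q (s \ r) (fun c => Ex (fun _ => 1 / 2) r (fun h => F (c ∪ h))) +
        q e * Ex q (s \ r) (fun c => Ex (fun _ => 1 / 2) r (fun h => F (insert e (c ∪ h)))) := by
      intro r hr
      have her : e ∉ r := fun h => he (hr h)
      have h1 : insert e s \ r = insert e (s \ r) := Finset.insert_sdiff_of_notMem s her
      have h2 : e ∉ s \ r := fun h => he (Finset.mem_sdiff.mp h).1
      rw [h1, Ex_insert q h2]
      congr 2
      refine Ex_congr _ _ fun c _ => Ex_congr _ _ fun h _ => ?_
      rw [Finset.insert_union]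
    have hB : ∀ r ⊆ s, Ex q (insert e s \ insert e r)
        (fun c => Ex (fun _ => 1 / 2) (insert e r) (fun h => F (c ∪ h))) =
        1 / 2 * Ex q (s \ r) (fun c => Ex (fun _ => 1 / 2) r (fun h => F (c ∪ h))) +
        1 / 2 * Ex q (s \ r) (fun c => Ex (fun _ => 1 / 2) r (fun h => F (insert e (c ∪ h)))) := by
      intro r hr
      have her : e ∉ r := fun h => he (hr h)
      have h1 : insert e s \ insert e r = s \ r := by
        ext x
        simp only [Finset.mem_sdiff, Finset.mem_insert]
        constructor
        · rintro ⟨h2 | h2, h3⟩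
          · exact absurd (Or.inl h2) h3
          · exact ⟨h2, fun h4 => h3 (Or.inr h4)⟩
        · rintro ⟨h2, h3⟩
          refine ⟨Or.inr h2, ?_⟩
          rintro (h4 | h4)
          · exact he (h4 ▸ h2)
          · exact h3 h4
      rw [h1, ← Ex_mul_left, ← Ex_mul_left, ← Ex_add]
      refine Ex_congr _ _ fun c _ => ?_
      rw [Ex_insert _ her]
      congr 1
      · norm_num
      · congr 1
        refine Ex_congr _ _ fun h _ => ?_
        rw [Finset.union_insert]
    rw [Ex_insert P he, Ex_insert (fun _ => 2 * δ) he, Ex_congr _ _ hA, Ex_congr _ _ hB, Ex_add, Ex_add,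
      Ex_mul_left, Ex_mul_left, Ex_mul_left, Ex_mul_left, ih F, ih fun α => F (insert e α)]
    have h3 : q e = (P e - δ) / (1 - 2 * δ) := rfl
    rw [h3]
    field_simp
    ring

end PLR
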