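import Pool.Agent.PLR.Defs

/-!
# PLR.Four: Fourier inversion for the degree vector

`Ex p E` is a finite sum over `h ⊆ E`; `∏ chi = ∑_h wt(h) exp(i ∑_i dgE h i θ_i)` (`Ex_prod`-like expansion: `sm θ e = ∑_(i in e) θ_i`
since `e` is not a loop, so `∑_(e in h) sm θ e = ∑_i dgE h i * θ i`), and `∫_(-π..π) exp(i n x) = 0` for `n ≠ 0`, `2π` for `n = 0`,
with the product formula for integrals over `box` (`MeasureTheory.volume_pi`, `Measure.restrict_pi_pi`, `integral_fintype_prod_eq_prod`).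
-/

set_option autoImplicit false

namespace PLR

open Finset Smo

variable {ι : Type*} [Fintype ι] [DecidableEq ι]

omit [Fintype ι] in
/-- `∑_(e in h) (θ_i + θ_j) = ∑ deg_i θ_i` -/
theorem sum_sm [Fintype ι] {h : Finset (Sym2 ι)} (hh : ∀ e ∈ h, ¬ e.IsDiag) (θ : ι → ℝ) :
    ∑ e ∈ h, sm θ e = ∑ i, (dgE h i : ℝ) * θ i := by
  have key : ∀ e ∈ h, sm θ e = ∑ i, if i ∈ e then θ i else 0 := by
    intro e he
    have hd := hh e he
    induction e using Sym2.ind with
    | _ a b =>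
      rw [Sym2.mk_isDiag_iff] at hd
      rw [sm_mk, ← sum_filter]
      have : univ.filter (fun i => i ∈ s(a, b)) = {a, b} := by
        ext i
        simp [Sym2.mem_iff]
      rw [this, sum_pair hd]
  rw [sum_congr rfl key, sum_comm]
  refine sum_congr rfl fun i _ => ?_
  rw [← sum_filter, sum_const, nsmul_eq_mul]
  rfl

private theorem int_exp (n : ℤ) :
    ∫ x in Set.Ioc (-Real.pi) Real.pi, Complex.exp ((n : ℂ) * (x : ℂ) * Complex.I) =
      if n = 0 then 2 * (Real.pi : ℂ) else 0 := by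
  rw [← intervalIntegral.integral_of_le (by linarith [Real.pi_pos])]
  split_ifs with h
  · subst h
    simp only [Int.cast_zero, zero_mul, Complex.exp_zero, intervalIntegral.integral_const]
    rw [sub_neg_eq_add, ← two_mul]
    simp
  · have hc : (n : ℂ) * Complex.I ≠ 0 := by
      refine mul_ne_zero ?_ Complex.I_ne_zero
      exact_mod_cast h
    have e1 : ∀ x : ℝ, Complex.exp ((n : ℂ) * (x : ℂ) * Complex.I) = Complex.exp (((n : ℂ) * Complex.I) * (x : ℂ)) := by
      intro x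
      congr 1
      ring
    simp only [e1]
    rw [integral_exp_mul_complex hc]
    have e2 : (n : ℂ) * Complex.I * ((Real.pi : ℝ) : ℂ) =
        (n : ℂ) * Complex.I * ((-Real.pi : ℝ) : ℂ) + (n : ℂ) * (2 * (Real.pi : ℂ) * Complex.I) := by
      push_cast
      ring
    rw [e2, Complex.exp_add, Complex.exp_int_mul_two_pi_mul_I, mul_one, sub_self, zero_div]

omit [DecidableEq ι] in
private theorem int_box (n : ι → ℤ) :
    ∫ θ in box ι, ∏ i, Complex.exp ((n i : ℂ) * (θ i : ℂ) * Complex.I) =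
      if ∀ i, n i = 0 then (2 * (Real.pi : ℂ)) ^ Fintype.card ι else 0 := by
  unfold box
  rw [MeasureTheory.volume_pi, MeasureTheory.Measure.restrict_pi_pi,
    MeasureTheory.integral_fintype_prod_eq_prod (𝕜 := ℂ)
      (fun i (x : ℝ) => Complex.exp ((n i : ℂ) * (x : ℂ) * Complex.I))]
  simp only [int_exp]
  split_ifs with h
  · simp only [h, if_true, prod_const, card_univ]
  · push Not at h
    obtain ⟨i, hi⟩ := h
    exact prod_eq_zero (mem_univ i) (if_neg hi)

omit [DecidableEq ι] in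
private theorem int_able (n : ι → ℤ) :
    MeasureTheory.Integrable (fun θ : ι → ℝ => ∏ i, Complex.exp ((n i : ℂ) * (θ i : ℂ) * Complex.I))
      (MeasureTheory.volume.restrict (box ι)) := by
  unfold box
  rw [MeasureTheory.volume_pi, MeasureTheory.Measure.restrict_pi_pi]
  refine MeasureTheory.Integrable.fintype_prod (f := fun i (x : ℝ) => Complex.exp ((n i : ℂ) * (x : ℂ) * Complex.I)) fun i => ?_
  have hc : Continuous fun x : ℝ => Complex.exp ((n i : ℂ) * (x : ℂ) * Complex.I) := by fun_prop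
  exact (hc.integrableOn_Icc (a := -Real.pi) (b := Real.pi)).mono_set Set.Ioc_subset_Icc_self

private theorem expand {E : Finset (Sym2 ι)} (hE : ∀ e ∈ E, ¬ e.IsDiag) (p : Sym2 ι → ℝ) (t : ι → ℤ) (θ : ι → ℝ) :
    (∏ e ∈ E, chi (p e) (sm θ e)) * Complex.exp (-(Complex.I * ∑ i, (t i : ℂ) * (θ i : ℂ))) =
      ∑ h ∈ E.powerset, ((∏ e ∈ E, if e ∈ h then p e else 1 - p e : ℝ) : ℂ) *
        ∏ i, Complex.exp ((((dgE h i : ℤ) - t i : ℤ) : ℂ) * (θ i : ℂ) * Complex.I) := by
  have e1 : ∀ e ∈ E, chi (p e) (sm θ e) = (p e : ℂ) * Complex.exp ((sm θ e : ℂ) * Complex.I) + (1 - (p e : ℂ)) := by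
    intro e _
    unfold chi
    ring
  rw [prod_congr rfl e1, prod_add, sum_mul]
  refine sum_congr rfl fun h hh => ?_
  rw [mem_powerset] at hh
  have e2 : ((∏ e ∈ E, if e ∈ h then p e else 1 - p e : ℝ) : ℂ) = (∏ e ∈ h, (p e : ℂ)) * ∏ e ∈ E \ h, (1 - (p e : ℂ)) := by
    rw [← prod_sdiff hh, mul_comm]
    push_cast
    congr 1
    · exact prod_congr rfl fun e he => by rw [if_pos he]
    · exact prod_congr rfl fun e he => by rw [if_neg (mem_sdiff.1 he).2]; push_cast; rfl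
  rw [e2, prod_mul_distrib, ← Complex.exp_sum, ← Complex.exp_sum]
  have e3 : ∑ e ∈ h, (sm θ e : ℂ) * Complex.I = Complex.I * ∑ i, (dgE h i : ℂ) * (θ i : ℂ) := by
    have h1 := sum_sm (fun e he => hE e (hh he)) θ
    have h2 : ((∑ e ∈ h, sm θ e : ℝ) : ℂ) = ((∑ i, (dgE h i : ℝ) * θ i : ℝ) : ℂ) := by rw [h1]
    push_cast at h2
    rw [← sum_mul, h2, mul_comm]
  have e4 : ∑ i, (((dgE h i : ℤ) - t i : ℤ) : ℂ) * (θ i : ℂ) * Complex.I =
      Complex.I * ∑ i, (dgE h i : ℂ) * (θ i : ℂ) + -(Complex.I * ∑ i, (t i : ℂ) * (θ i : ℂ)) := by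
    rw [← sub_eq_add_neg, ← mul_sub, ← sum_sub_distrib, mul_sum]
    refine sum_congr rfl fun i _ => ?_
    push_cast
    ring
  rw [e3, e4, Complex.exp_add]
  ring

theorem PD_fourier {E : Finset (Sym2 ι)} (hE : ∀ e ∈ E, ¬ e.IsDiag) (p : Sym2 ι → ℝ) (t : ι → ℤ) :
    (PD E p t : ℂ) = (((2 * Real.pi) ^ Fintype.card ι : ℝ) : ℂ)⁻¹ * ∫ θ in box ι,
      (∏ e ∈ E, chi (p e) (sm θ e)) * Complex.exp (-(Complex.I * ∑ i, (t i : ℂ) * (θ i : ℂ))) := by
  simp only [expand hE p t]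
  rw [MeasureTheory.integral_finsetSum _ (fun h _ => (int_able _).const_mul _)]
  simp only [MeasureTheory.integral_const_mul, int_box]
  unfold PD Ex
  push_cast
  rw [mul_sum]
  refine sum_congr rfl fun h _ => ?_
  have hpi : (2 * (Real.pi : ℂ)) ^ Fintype.card ι ≠ 0 := by
    apply pow_ne_zero
    refine mul_ne_zero two_ne_zero ?_
    exact_mod_cast Real.pi_ne_zero
  by_cases hc : ∀ i, (dgE h i : ℤ) = t i
  · rw [ind_of hc, if_pos (fun i => sub_eq_zero.2 (hc i))]
    push_cast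
    field_simp
  · rw [ind_not hc, if_neg (fun h' => hc fun i => sub_eq_zero.1 (h' i))]
    push_cast
    ring

end PLR
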