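import Pool.Agent.PLR.Defs

/-!
# PLR.GDet: determinant of a matrix with dominant diagonal in the mean

`N = D^(-1/2) A D^(-1/2)` with `D` the diagonal of `A`: eigenvalues `μ ≥ γ`, `∑ (μ - 1) = 0`, `∑ (μ - 1)^2 ≤ H`; `μ ≤ exp (μ - 1)` gives `det ≤ ∏ A_ii`,
`log μ ≥ 1 - 1 / μ ≥ (μ - 1) - (μ - 1)^2 / γ` gives the lower bound.
-/

set_option autoImplicit false

namespace PLR

open Finset Smo

variable {ι : Type*} [Fintype ι] [DecidableEq ι]

/-- The square of the Frobenius norm is the sum of the squares of the eigenvalues. -/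
private theorem sum_sq_eigenvalues {N : Matrix ι ι ℝ} (hN : N.IsHermitian) :
    ∑ i, ∑ j, N i j ^ 2 = ∑ k, hN.eigenvalues k ^ 2 := by
  have h := hN.spectral_theorem
  rw [Unitary.conjStarAlgAut_apply] at h
  have hU : star (hN.eigenvectorUnitary : Matrix ι ι ℝ) * (hN.eigenvectorUnitary : Matrix ι ι ℝ) = 1 :=
    Unitary.coe_star_mul_self _
  have h1 : (N * N).trace = ∑ i, ∑ j, N i j ^ 2 := by
    rw [Matrix.trace]
    refine Finset.sum_congr rfl fun i _ => ?_
    rw [Matrix.diag_apply, Matrix.mul_apply]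
    refine Finset.sum_congr rfl fun j _ => ?_
    have : N j i = N i j := by
      have := hN.apply i j
      simpa using this
    rw [this]
    ring
  rw [← h1]
  generalize hD : (Matrix.diagonal (RCLike.ofReal ∘ hN.eigenvalues) : Matrix ι ι ℝ) = D at h
  generalize (hN.eigenvectorUnitary : Matrix ι ι ℝ) = U at h hU
  have h2 : N * N = U * (D * D) * star U := by
    calc N * N = (U * D * star U) * (U * D * star U) := by rw [← h]
      _ = U * D * (star U * U) * D * star U := by simp only [Matrix.mul_assoc]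
      _ = U * (D * D) * star U := by rw [hU]; simp only [Matrix.mul_assoc, Matrix.one_mul]
  rw [h2, Matrix.trace_mul_comm, ← Matrix.mul_assoc, hU, Matrix.one_mul, ← hD, Matrix.diagonal_mul_diagonal,
    Matrix.trace_diagonal]
  refine Finset.sum_congr rfl fun k _ => ?_
  simp [pow_two]

theorem det_bounds {A : Matrix ι ι ℝ} (hA : A.IsSymm) (hd : ∀ i, 0 < A i i) {γ H : ℝ} (hγ : 0 < γ)
    (hlow : ∀ x : ι → ℝ, γ * ∑ i, A i i * x i ^ 2 ≤ ∑ i, ∑ j, A i j * x i * x j)
    (hH : ∑ i, ∑ j, (if i = j then 0 else A i j ^ 2 / (A i i * A j j)) ≤ H) :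
    A.PosDef ∧ (∏ i, A i i) * Real.exp (-(H / γ)) ≤ A.det ∧ A.det ≤ ∏ i, A i i := by
  have hAs : ∀ i j, A i j = A j i := fun i j => hA.apply j i
  constructor
  · refine Matrix.PosDef.of_dotProduct_mulVec_pos ?_ ?_
    · ext i j
      simp [Matrix.conjTranspose_apply, hAs i j]
    · intro x hx
      obtain ⟨i, hi⟩ := Function.ne_iff.1 hx
      have e : star x ⬝ᵥ (A.mulVec x) = ∑ i, ∑ j, A i j * x i * x j := by
        simp only [dotProduct, Matrix.mulVec, Pi.star_apply, star_trivial, Finset.mul_sum]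
        refine Finset.sum_congr rfl fun i _ => Finset.sum_congr rfl fun j _ => ?_
        ring
      rw [e]
      refine lt_of_lt_of_le ?_ (hlow x)
      refine mul_pos hγ ?_
      refine Finset.sum_pos' (fun j _ => mul_nonneg (hd j).le (sq_nonneg _)) ⟨i, Finset.mem_univ i, ?_⟩
      have : x i ≠ 0 := by simpa using hi
      exact mul_pos (hd i) (by positivity)
  -- the normalised matrix
  let d : ι → ℝ := fun i => Real.sqrt (A i i)
  have hdp : ∀ i, 0 < d i := fun i => Real.sqrt_pos.2 (hd i)
  have hdd : ∀ i, d i * d i = A i i := fun i => Real.mul_self_sqrt (hd i).le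
  let N : Matrix ι ι ℝ := Matrix.of fun i j => A i j / (d i * d j)
  have hNij : ∀ i j, N i j = A i j / (d i * d j) := fun i j => rfl
  have hN : N.IsHermitian := by
    ext i j
    rw [Matrix.conjTranspose_apply, hNij, hNij, hAs j i, mul_comm (d j)]
    simp
  have hNii : ∀ i, N i i = 1 := by
    intro i
    rw [hNij, hdd]
    exact div_self (hd i).ne'
  have hAN : A = Matrix.diagonal d * N * Matrix.diagonal d := by
    ext i j
    rw [Matrix.mul_diagonal, Matrix.diagonal_mul, hNij]
    have h1 := (hdp i).ne'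
    have h2 := (hdp j).ne'
    field_simp
  have hdet : A.det = (∏ i, A i i) * N.det := by
    conv_lhs => rw [hAN]
    rw [Matrix.det_mul, Matrix.det_mul, Matrix.det_diagonal]
    have : ∏ i, A i i = (∏ i, d i) * ∏ i, d i := by
      rw [← Finset.prod_mul_distrib]
      exact Finset.prod_congr rfl fun i _ => (hdd i).symm
    rw [this]
    ring
  set μ : ι → ℝ := hN.eigenvalues with hμ
  have hdN : N.det = ∏ k, μ k := by
    rw [hN.det_eq_prod_eigenvalues]
    simp [hμ]
  have htr : ∑ k, μ k = Fintype.card ι := by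
    have := hN.trace_eq_sum_eigenvalues
    have h2 : N.trace = Fintype.card ι := by
      rw [Matrix.trace]
      simp [Matrix.diag_apply, hNii]
    rw [h2] at this
    simpa using this.symm
  have hlow' : ∀ k, γ ≤ μ k := by
    intro k
    have h1 := hN.eigenvalues_eq k
    have hv : ∑ i, (hN.eigenvectorBasis k) i ^ 2 = 1 := by
      have h3 := hN.eigenvectorBasis.orthonormal.1 k
      rw [EuclideanSpace.norm_eq] at h3
      have h4 := Real.sqrt_eq_one.1 h3
      simpa using h4
    set v : ι → ℝ := fun i => (hN.eigenvectorBasis k) i with hvdef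
    have h5 : μ k = ∑ i, ∑ j, N i j * v i * v j := by
      rw [hμ, h1]
      simp only [dotProduct, Matrix.mulVec, Finset.mul_sum, Pi.star_apply, star_trivial]
      rw [show (RCLike.re : ℝ → ℝ) = fun x => x from rfl]
      simp only
      refine Finset.sum_congr rfl fun i _ => Finset.sum_congr rfl fun j _ => ?_
      rw [hvdef]
      ring
    have h6 := hlow (fun i => v i / d i)
    have h7 : ∑ i, A i i * (v i / d i) ^ 2 = 1 := by
      rw [← hv]
      refine Finset.sum_congr rfl fun i _ => ?_
      rw [← hdd i]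
      have := (hdp i).ne'
      field_simp
      rfl
    have h8 : ∑ i, ∑ j, A i j * (v i / d i) * (v j / d j) = μ k := by
      rw [h5]
      refine Finset.sum_congr rfl fun i _ => Finset.sum_congr rfl fun j _ => ?_
      rw [hNij]
      have h1 := (hdp i).ne'
      have h2 := (hdp j).ne'
      field_simp
    rw [h7, h8, mul_one] at h6
    exact h6
  have hpos : ∀ k, 0 < μ k := fun k => lt_of_lt_of_le hγ (hlow' k)
  have hsq : ∑ k, (μ k - 1) ^ 2 ≤ H := by
    have h1 : ∑ k, (μ k - 1) ^ 2 = ∑ k, μ k ^ 2 - 2 * ∑ k, μ k + Fintype.card ι := by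
      rw [Finset.mul_sum, ← Finset.sum_sub_distrib]
      have : (Fintype.card ι : ℝ) = ∑ k : ι, (1 : ℝ) := by simp
      rw [this, ← Finset.sum_add_distrib]
      refine Finset.sum_congr rfl fun k _ => ?_
      ring
    have h2 : ∑ i, ∑ j, N i j ^ 2 =
        ∑ i, ∑ j, (if i = j then 0 else A i j ^ 2 / (A i i * A j j)) + Fintype.card ι := by
      have : (Fintype.card ι : ℝ) = ∑ i : ι, ∑ j : ι, (if i = j then (1 : ℝ) else 0) := by simp
      rw [this, ← Finset.sum_add_distrib]
      refine Finset.sum_congr rfl fun i _ => ?_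
      rw [← Finset.sum_add_distrib]
      refine Finset.sum_congr rfl fun j _ => ?_
      by_cases h : i = j
      · subst h
        rw [hNii]
        simp
      · rw [if_neg h, if_neg h, add_zero, hNij, div_pow, mul_pow, pow_two (d i), pow_two (d j), hdd, hdd]
    rw [h1, htr, ← sum_sq_eigenvalues hN, h2]
    linarith
  have hsum0 : ∑ k, (μ k - 1) = 0 := by
    rw [Finset.sum_sub_distrib, htr]
    simp
  have hP : 0 < ∏ i, A i i := Finset.prod_pos fun i _ => hd i
  constructor
  · rw [hdet]
    refine mul_le_mul_of_nonneg_left ?_ hP.le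
    rw [hdN]
    have h1 : ∀ k, Real.exp ((μ k - 1) - (μ k - 1) ^ 2 / γ) ≤ μ k := by
      intro k
      rw [← Real.le_log_iff_exp_le (hpos k)]
      refine le_trans ?_ (Real.one_sub_inv_le_log_of_pos (hpos k))
      have h2 : 1 - (μ k)⁻¹ = (μ k - 1) - (μ k - 1) ^ 2 / μ k := by
        have := (hpos k).ne'
        field_simp
        ring
      rw [h2]
      have h3 : (μ k - 1) ^ 2 / μ k ≤ (μ k - 1) ^ 2 / γ :=
        div_le_div_of_nonneg_left (sq_nonneg _) hγ (hlow' k)
      linarith
    calc Real.exp (-(H / γ)) ≤ Real.exp (∑ k, ((μ k - 1) - (μ k - 1) ^ 2 / γ)) := by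
          refine Real.exp_le_exp.2 ?_
          rw [Finset.sum_sub_distrib, hsum0, ← Finset.sum_div, zero_sub]
          exact neg_le_neg (div_le_div_of_nonneg_right hsq hγ.le)
      _ = ∏ k, Real.exp ((μ k - 1) - (μ k - 1) ^ 2 / γ) := Real.exp_sum _ _
      _ ≤ ∏ k, μ k := Finset.prod_le_prod (fun k _ => (Real.exp_pos _).le) fun k _ => h1 k
  · rw [hdet]
    have h1 : N.det ≤ 1 := by
      rw [hdN]
      calc ∏ k, μ k ≤ ∏ k, Real.exp (μ k - 1) := by
            refine Finset.prod_le_prod (fun k _ => (hpos k).le) fun k _ => ?_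
            have := Real.add_one_le_exp (μ k - 1)
            linarith
        _ = Real.exp (∑ k, (μ k - 1)) := (Real.exp_sum _ _).symm
        _ = 1 := by rw [hsum0, Real.exp_zero]
    calc (∏ i, A i i) * N.det ≤ (∏ i, A i i) * 1 := mul_le_mul_of_nonneg_left h1 hP.le
      _ = ∏ i, A i i := mul_one _

end PLR
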