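import Pool.Agent.PLR.Defs

/-!
# PLR.GInt: the Gaussian integral of a positive definite form. Spectral theorem or the square root of `A` and a linear change of variables; also integrability of all polynomial factors.
-/

set_option autoImplicit false

namespace PLR

open Finset Smo

variable {ι : Type*} [Fintype ι] [DecidableEq ι]

/-- the integrand without the factor -/
noncomputable def gw (A : Matrix ι ι ℝ) (θ : ι → ℝ) : ℝ := Real.exp (-(∑ i, ∑ j, A i j * θ i * θ j) / 2)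

open scoped MatrixOrder in
private theorem GInt_fact {A : Matrix ι ι ℝ} (hA : A.PosDef) : ∃ B : Matrix ι ι ℝ, B.det ≠ 0 ∧ A.det = B.det ^ 2 ∧
    ∀ θ : ι → ℝ, ∑ i, ∑ j, A i j * θ i * θ j = ∑ i, (B.mulVec θ i) ^ 2 := by
  obtain ⟨B, hB⟩ := CStarAlgebra.nonneg_iff_eq_star_mul_self.mp hA.posSemidef.nonneg
  have hB' : A = B.transpose * B := by
    rw [hB, Matrix.star_eq_conjTranspose, Matrix.conjTranspose_eq_transpose_of_trivial]
  have hdet : A.det = B.det ^ 2 := by
    rw [hB', Matrix.det_mul, Matrix.det_transpose, sq]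
  refine ⟨B, ?_, hdet, ?_⟩
  · intro h
    have := hA.det_pos
    rw [hdet, h] at this
    norm_num at this
  · intro θ
    have h1 : ∑ i, ∑ j, A i j * θ i * θ j = dotProduct θ (A.mulVec θ) := by
      unfold dotProduct Matrix.mulVec dotProduct
      apply Finset.sum_congr rfl
      intro i _
      rw [Finset.mul_sum]
      apply Finset.sum_congr rfl
      intro j _
      ring
    rw [h1, hB', ← Matrix.mulVec_mulVec, Matrix.dotProduct_mulVec, Matrix.vecMul_transpose]
    unfold dotProduct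
    apply Finset.sum_congr rfl
    intro i _
    ring

/-- the standard Gaussian weight -/
private noncomputable def GInt_g (x : ι → ℝ) : ℝ := ∏ i, Real.exp (-(1 / 2) * x i ^ 2)

omit [DecidableEq ι] in
private theorem GInt_g_eq (x : ι → ℝ) : GInt_g x = Real.exp (-(∑ i, x i ^ 2) / 2) := by
  unfold GInt_g
  rw [← Real.exp_sum]
  congr 1
  rw [← Finset.mul_sum]
  ring

omit [DecidableEq ι] in
private theorem GInt_int_g : MeasureTheory.Integrable (GInt_g (ι := ι)) := by
  have h := MeasureTheory.Integrable.fintype_prod (ι := ι) (𝕜 := ℝ) (E := ℝ) (f := fun _ x => Real.exp (-(1 / 2) * x ^ 2))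
    (μ := fun _ => MeasureTheory.volume) (fun _ => integrable_exp_neg_mul_sq (by norm_num : (0 : ℝ) < 1 / 2))
  exact h

omit [DecidableEq ι] in
private theorem GInt_integral_g : ∫ x : ι → ℝ, GInt_g x = Real.sqrt (2 * Real.pi) ^ Fintype.card ι := by
  unfold GInt_g
  rw [MeasureTheory.integral_fintype_prod_volume_eq_pow (fun x : ℝ => Real.exp (-(1 / 2) * x ^ 2)), integral_gaussian]
  congr 2
  ring

private theorem GInt_map {B : Matrix ι ι ℝ} (hB : B.det ≠ 0) (f : (ι → ℝ) → ℝ) (hf : MeasureTheory.Integrable f) :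
    MeasureTheory.Integrable (fun θ => f (B.mulVec θ)) ∧ ∫ θ, f (B.mulVec θ) = |B.det|⁻¹ * ∫ x, f x := by
  have hm : Measurable (fun θ : ι → ℝ => B.mulVec θ) :=
    (Matrix.toLin' B).continuous_of_finiteDimensional.measurable
  have h1 : MeasureTheory.Measure.map (fun θ : ι → ℝ => B.mulVec θ) MeasureTheory.volume =
      ENNReal.ofReal (abs (B.det)⁻¹) • MeasureTheory.volume := Real.map_matrix_volume_pi_eq_smul_volume_pi hB
  have hf' : MeasureTheory.Integrable f
      (MeasureTheory.Measure.map (fun θ : ι → ℝ => B.mulVec θ) MeasureTheory.volume) := by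
    rw [h1]
    exact hf.smul_measure ENNReal.ofReal_ne_top
  refine ⟨(MeasureTheory.integrable_map_measure hf'.aestronglyMeasurable hm.aemeasurable).1 hf', ?_⟩
  have h2 := MeasureTheory.integral_map hm.aemeasurable hf'.aestronglyMeasurable
  rw [← h2, h1, MeasureTheory.integral_smul_measure, ENNReal.toReal_ofReal (abs_nonneg _), smul_eq_mul, abs_inv]

theorem GI_one {A : Matrix ι ι ℝ} (hA : A.PosDef) :
    GI A (fun _ => 1) = Real.sqrt ((2 * Real.pi) ^ Fintype.card ι / A.det) := by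
  obtain ⟨B, hB, hdet, hq⟩ := GInt_fact hA
  have h1 : GI A (fun _ => 1) = ∫ θ : ι → ℝ, GInt_g (B.mulVec θ) := by
    unfold GI
    congr 1
    funext θ
    rw [GInt_g_eq, hq, one_mul]
  rw [h1, (GInt_map hB _ GInt_int_g).2, GInt_integral_g, hdet, Real.sqrt_div (by positivity), Real.sqrt_sq_eq_abs,
    div_eq_inv_mul]
  congr 1
  have h2 : (0 : ℝ) ≤ 2 * Real.pi := by positivity
  have h3 : (2 * Real.pi) ^ Fintype.card ι = (Real.sqrt (2 * Real.pi) ^ Fintype.card ι) ^ 2 := by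
    rw [← pow_mul, mul_comm (Fintype.card ι) 2, pow_mul, Real.sq_sqrt h2]
  rw [h3, Real.sqrt_sq (by positivity)]

omit [DecidableEq ι] in
private theorem GInt_gw {A : Matrix ι ι ℝ} {B : Matrix ι ι ℝ}
    (hq : ∀ θ : ι → ℝ, ∑ i, ∑ j, A i j * θ i * θ j = ∑ i, (B.mulVec θ i) ^ 2) (θ : ι → ℝ) :
    gw A θ = GInt_g (B.mulVec θ) := by
  unfold gw
  rw [GInt_g_eq, hq]

theorem integrable_gw {A : Matrix ι ι ℝ} (hA : A.PosDef) : MeasureTheory.Integrable (gw A) := by
  obtain ⟨B, hB, hdet, hq⟩ := GInt_fact hA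
  have h := (GInt_map hB _ GInt_int_g).1
  have h2 : gw A = fun θ => GInt_g (B.mulVec θ) := funext (GInt_gw hq)
  rw [h2]
  exact h

omit [DecidableEq ι] in
private theorem GInt_pow_bd (v x : ι → ℝ) (k : ℕ) : |∑ i, v i * x i| ^ k * GInt_g x ≤
    (Real.sqrt (∑ i, v i ^ 2) ^ k * (k.factorial * Real.exp 1)) * ∏ i, Real.exp (-(1 / 4) * x i ^ 2) := by
  have h1 : |∑ i, v i * x i| ≤ Real.sqrt (∑ i, v i ^ 2) * Real.sqrt (∑ i, x i ^ 2) := by
    rw [← Real.sqrt_mul (Finset.sum_nonneg fun i _ => sq_nonneg _)]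
    apply Real.abs_le_sqrt
    exact Finset.sum_mul_sq_le_sq_mul_sq _ _ _
  obtain ⟨t, ht⟩ : ∃ t, t = Real.sqrt (∑ i, x i ^ 2) := ⟨_, rfl⟩
  have ht0 : 0 ≤ t := by rw [ht]; exact Real.sqrt_nonneg _
  have ht2 : ∑ i, x i ^ 2 = t ^ 2 := by
    rw [ht, Real.sq_sqrt (Finset.sum_nonneg fun i _ => sq_nonneg _)]
  have h2 : t ^ k ≤ k.factorial * Real.exp t := by
    have := Real.pow_div_factorial_le_exp t ht0 k
    have hk : (0 : ℝ) < k.factorial := by exact_mod_cast k.factorial_pos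
    rw [div_le_iff₀ hk] at this
    linarith
  have h3 : GInt_g x = Real.exp (-(t ^ 2) / 4) * ∏ i, Real.exp (-(1 / 4) * x i ^ 2) := by
    rw [GInt_g_eq, ← Real.exp_sum, ← Finset.mul_sum, ht2, ← Real.exp_add]
    congr 1
    ring
  have h4 : |∑ i, v i * x i| ^ k ≤ (Real.sqrt (∑ i, v i ^ 2) * t) ^ k := by
    rw [ht]
    exact pow_le_pow_left₀ (abs_nonneg _) h1 k
  have h5 : t ^ k * Real.exp (-(t ^ 2) / 4) ≤ k.factorial * Real.exp 1 := by
    calc t ^ k * Real.exp (-(t ^ 2) / 4) ≤ (k.factorial * Real.exp t) * Real.exp (-(t ^ 2) / 4) :=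
          mul_le_mul_of_nonneg_right h2 (Real.exp_pos _).le
      _ = k.factorial * Real.exp (t + -(t ^ 2) / 4) := by rw [mul_assoc, ← Real.exp_add]
      _ ≤ k.factorial * Real.exp 1 := by
          apply mul_le_mul_of_nonneg_left _ (Nat.cast_nonneg _)
          apply Real.exp_le_exp.2
          nlinarith [sq_nonneg (t / 2 - 1)]
  have hP : 0 ≤ ∏ i, Real.exp (-(1 / 4) * x i ^ 2) := Finset.prod_nonneg fun i _ => (Real.exp_pos _).le
  rw [h3]
  calc |∑ i, v i * x i| ^ k * (Real.exp (-(t ^ 2) / 4) * ∏ i, Real.exp (-(1 / 4) * x i ^ 2))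
      ≤ (Real.sqrt (∑ i, v i ^ 2) * t) ^ k * (Real.exp (-(t ^ 2) / 4) * ∏ i, Real.exp (-(1 / 4) * x i ^ 2)) :=
        mul_le_mul_of_nonneg_right h4 (mul_nonneg (Real.exp_pos _).le hP)
    _ = (Real.sqrt (∑ i, v i ^ 2) ^ k * (t ^ k * Real.exp (-(t ^ 2) / 4))) * ∏ i, Real.exp (-(1 / 4) * x i ^ 2) := by
        rw [mul_pow]; ring
    _ ≤ _ := by
        apply mul_le_mul_of_nonneg_right _ hP
        apply mul_le_mul_of_nonneg_left h5 (pow_nonneg (Real.sqrt_nonneg _) _)

omit [DecidableEq ι] in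
private theorem GInt_pow_int (v : ι → ℝ) (k : ℕ) :
    MeasureTheory.Integrable (fun x : ι → ℝ => |∑ i, v i * x i| ^ k * GInt_g x) := by
  have h : MeasureTheory.Integrable (fun x : ι → ℝ => ∏ i, Real.exp (-(1 / 4) * x i ^ 2)) := by
    have h := MeasureTheory.Integrable.fintype_prod (ι := ι) (𝕜 := ℝ) (E := ℝ) (f := fun _ x => Real.exp (-(1 / 4) * x ^ 2))
      (μ := fun _ => MeasureTheory.volume) (fun _ => integrable_exp_neg_mul_sq (by norm_num : (0 : ℝ) < 1 / 4))
    exact h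
  have hc : Continuous (fun x : ι → ℝ => |∑ i, v i * x i| ^ k * GInt_g x) := by
    unfold GInt_g
    fun_prop
  refine (h.const_mul (Real.sqrt (∑ i, v i ^ 2) ^ k * (k.factorial * Real.exp 1))).mono' hc.aestronglyMeasurable ?_
  refine Filter.Eventually.of_forall fun x => ?_
  have h0 : 0 ≤ |∑ i, v i * x i| ^ k * GInt_g x := by
    unfold GInt_g
    positivity
  rw [Real.norm_of_nonneg h0]
  exact GInt_pow_bd v x k

/-- moments of linear forms exist -/
theorem integrable_pow {A : Matrix ι ι ℝ} (hA : A.PosDef) (u : ι → ℝ) (k : ℕ) :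
    MeasureTheory.Integrable (fun θ : ι → ℝ => |∑ i, u i * θ i| ^ k * gw A θ) := by
  obtain ⟨B, hB, hdet, hq⟩ := GInt_fact hA
  have h := (GInt_map hB _ (GInt_pow_int (Matrix.vecMul u B⁻¹) k)).1
  have hu : IsUnit B.det := isUnit_iff_ne_zero.2 hB
  have h2 : (fun θ : ι → ℝ => |∑ i, u i * θ i| ^ k * gw A θ) =
      fun θ => |∑ i, Matrix.vecMul u B⁻¹ i * B.mulVec θ i| ^ k * GInt_g (B.mulVec θ) := by
    funext θ
    rw [GInt_gw hq]
    congr 3
    have h3 : dotProduct (Matrix.vecMul u B⁻¹) (B.mulVec θ) = dotProduct u θ := by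
      rw [← Matrix.dotProduct_mulVec, Matrix.mulVec_mulVec, Matrix.nonsing_inv_mul B hu, Matrix.one_mulVec]
    exact h3.symm
  rw [h2]
  exact h

end PLR
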