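import Pool.Agent.PLR.QMf
import Pool.Agent.PLR.GInt

/-!
# PLR.GLe: Gaussian integrals with the matrices `QM`, upper and lower bound by the product of the diagonal

`E' = offM E M`, `A = QM E' w M`. Diagonal: `1` on `M`, `sw E' w i ≥ sw E w i - |M|/4 ≥ c m / 5` off `M` (at most `|M|` pairs at `i` are removed).
Spectral condition: with `x' = x` off `M`, `0` on `M`: `c m ∑_(off M) x^2 ≤ ∑_(e in E) (sm x' e)^2 = ∑_(e in E') (sm x e)^2 + ∑ (pairs with one end in M) x_i^2 ≤ ∑_(E') (sm x e)^2 + |M| ∑_(off M) x_i^2`,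
so `x A x ≥ (6/25)(7/8) c m ∑_(off M) x^2 + ∑_M x^2 ≥ γ ∑ A_ii x_i^2` with `γ = min(1, (84/100) c)` (`A_ii ≤ m/4`). `H = 2/c^2`. `det_bounds`, `GI_one`:
`GI A 1 ≤ ∏ √(2π/A_ii) exp(H/(2γ))`. Compare the diagonals: `∏_(i off M) (1 - (|M|/4)/sw E w i)^(-1/2) ≤ exp(C |M|)`; `∏_(i in M) √(sw E w i) ≤ m^|M|`.
-/

set_option autoImplicit false

namespace PLR

open Finset Smo

variable {ι : Type} [Fintype ι] [DecidableEq ι]

omit [Fintype ι] in
private theorem GLe_mem {E : Finset (Sym2 ι)} {M : Finset ι} {e : Sym2 ι} :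
    e ∈ offM E M ↔ e ∈ E ∧ ∀ i ∈ M, i ∉ e := by
  simp only [offM, Finset.mem_filter]

omit [Fintype ι] in
private theorem GLe_sub (E : Finset (Sym2 ι)) (M : Finset ι) : offM E M ⊆ E :=
  fun _ he => (GLe_mem.1 he).1

omit [Fintype ι] in
/-- the pairs that meet `M` at `i` -/
private theorem GLe_meet (E : Finset (Sym2 ι)) (M : Finset ι) {i : ι} (hi : i ∉ M) :
    (((E \ offM E M).filter fun e => i ∈ e).card : ℝ) ≤ M.card := by
  have h1 : ((E \ offM E M).filter fun e => i ∈ e) ⊆ M.image fun j : ι => s(i, j) := by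
    intro e he
    rw [Finset.mem_filter, Finset.mem_sdiff, GLe_mem] at he
    obtain ⟨⟨h4, h3⟩, h2⟩ := he
    have h5 : ∃ j ∈ M, j ∈ e := by
      by_contra hcon
      push Not at hcon
      exact h3 ⟨h4, hcon⟩
    obtain ⟨j, hj, hje⟩ := h5
    have hij : i ≠ j := fun h => hi (h ▸ hj)
    exact Finset.mem_image.2 ⟨j, hj, ((Sym2.mem_and_mem_iff hij).1 ⟨h2, hje⟩).symm⟩
  exact_mod_cast (Finset.card_le_card h1).trans Finset.card_image_le

omit [Fintype ι] in
private theorem GLe_sw_M (E : Finset (Sym2 ι)) (w : Sym2 ι → ℝ) (M : Finset ι) {i : ι} (hi : i ∈ M) :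
    sw (offM E M) w i = 0 := by
  unfold sw
  refine Finset.sum_eq_zero fun e he => ?_
  rw [Finset.mem_filter, GLe_mem] at he
  exact absurd he.2 (he.1.2 i hi)

omit [Fintype ι] in
private theorem GLe_sw_off {E : Finset (Sym2 ι)} {w : Sym2 ι → ℝ}
    (hw : ∀ e ∈ E, 6 / 25 ≤ w e ∧ w e ≤ 1 / 4) (M : Finset ι) {i : ι} (hi : i ∉ M) :
    sw E w i - M.card / 4 ≤ sw (offM E M) w i ∧ sw (offM E M) w i ≤ sw E w i := by
  have hsplit : sw E w i = ∑ e ∈ (E \ offM E M).filter (fun e => i ∈ e), w e + sw (offM E M) w i := by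
    unfold sw
    rw [Finset.sum_filter, Finset.sum_filter, Finset.sum_filter, Finset.sum_sdiff (GLe_sub E M)]
  have h1 : ∑ e ∈ (E \ offM E M).filter (fun e => i ∈ e), w e ≤ M.card / 4 := by
    have h2 : ∑ e ∈ (E \ offM E M).filter (fun e => i ∈ e), w e ≤
        ∑ _e ∈ (E \ offM E M).filter (fun e => i ∈ e), (1 / 4 : ℝ) :=
      Finset.sum_le_sum fun e he => (hw e (Finset.mem_sdiff.1 (Finset.mem_filter.1 he).1).1).2
    rw [Finset.sum_const, nsmul_eq_mul] at h2
    have h3 := GLe_meet E M hi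
    linarith
  have h4 : 0 ≤ ∑ e ∈ (E \ offM E M).filter (fun e => i ∈ e), w e :=
    Finset.sum_nonneg fun e he => by
      have := (hw e (Finset.mem_sdiff.1 (Finset.mem_filter.1 he).1).1).1
      linarith
  constructor <;> linarith

omit [Fintype ι] in
private theorem GLe_diag (E : Finset (Sym2 ι)) (w : Sym2 ι → ℝ) (M : Finset ι) (i : ι) :
    QM E w M i i = sw E w i + (if i ∈ M then 1 else 0) := by
  unfold QM
  rw [if_pos rfl]

/-- the bound for the form off `M` -/
private theorem GLe_low {c : ℝ} {E : Finset (Sym2 ι)} (h : QR c E) (M : Finset ι) (x : ι → ℝ) :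
    (c * Fintype.card ι - M.card) * ∑ i ∈ Mᶜ, x i ^ 2 ≤ ∑ e ∈ offM E M, sm x e ^ 2 := by
  set x' : ι → ℝ := fun i => if i ∈ M then 0 else x i with hx'
  have h1 := h.l2 x'
  have h2 : ∑ i, x' i ^ 2 = ∑ i ∈ Mᶜ, x i ^ 2 := by
    rw [← Finset.sum_add_sum_compl M]
    have h3 : ∑ i ∈ M, x' i ^ 2 = 0 := Finset.sum_eq_zero fun i hi => by
      simp only [hx', if_pos hi]
      norm_num
    have h4 : ∑ i ∈ Mᶜ, x' i ^ 2 = ∑ i ∈ Mᶜ, x i ^ 2 := Finset.sum_congr rfl fun i hi => by
      rw [Finset.mem_compl] at hi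
      simp only [hx', if_neg hi]
    rw [h3, h4, zero_add]
  rw [h2] at h1
  have h5 : ∑ e ∈ E, sm x' e ^ 2 ≤ ∑ e ∈ offM E M, sm x e ^ 2 + M.card * ∑ i ∈ Mᶜ, x i ^ 2 := by
    rw [← Finset.sum_sdiff (GLe_sub E M), add_comm]
    refine add_le_add ?_ ?_
    · refine le_of_eq (Finset.sum_congr rfl fun e he => ?_)
      rw [GLe_mem] at he
      induction e with
      | h a b =>
        have ha : a ∉ M := fun h => he.2 a h (Sym2.mem_mk_left _ _)
        have hb : b ∉ M := fun h => he.2 b h (Sym2.mem_mk_right _ _)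
        simp only [sm_mk, hx', if_neg ha, if_neg hb]
    · have h6 : ∀ e ∈ E \ offM E M, sm x' e ^ 2 ≤
          ∑ i ∈ Mᶜ, if i ∈ e then x i ^ 2 else 0 := by
        intro e he
        rw [Finset.mem_sdiff, GLe_mem] at he
        induction e with
        | h a b =>
          obtain ⟨h71, h72⟩ := he
          have h7 : ∃ j ∈ M, j ∈ s(a, b) := by
            by_contra hcon
            push Not at hcon
            exact h72 ⟨h71, hcon⟩
          obtain ⟨j, hj, hje⟩ := h7
          have key : ∀ u v : ι, u ∈ M → sm x' s(u, v) ^ 2 ≤ ∑ i ∈ Mᶜ, if i ∈ s(u, v) then x i ^ 2 else 0 := by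
            intro u v hu
            have hnn' : ∀ i ∈ Mᶜ, 0 ≤ if i ∈ s(u, v) then x i ^ 2 else 0 := by
              intro i _
              split_ifs
              · exact sq_nonneg _
              · exact le_rfl
            by_cases hv : v ∈ M
            · have h0 : sm x' s(u, v) ^ 2 = 0 := by
                simp only [sm_mk, hx', if_pos hu, if_pos hv]
                norm_num
              rw [h0]
              exact Finset.sum_nonneg hnn'
            · simp only [sm_mk, hx', if_pos hu, if_neg hv, zero_add]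
              have h8 := Finset.single_le_sum hnn' (Finset.mem_compl.2 hv)
              rw [if_pos (Sym2.mem_mk_right _ _)] at h8
              exact h8
          rw [Sym2.mem_iff] at hje
          rcases hje with rfl | rfl
          · exact key _ _ hj
          · have := key j a hj
            rwa [Sym2.eq_swap] at this
      refine (Finset.sum_le_sum h6).trans ?_
      rw [Finset.sum_comm, Finset.mul_sum]
      refine Finset.sum_le_sum fun i hi => ?_
      rw [Finset.mem_compl] at hi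
      rw [← Finset.sum_filter, Finset.sum_const, nsmul_eq_mul]
      exact mul_le_mul_of_nonneg_right (GLe_meet E M hi) (sq_nonneg _)
  rw [sub_mul]
  linarith

omit [Fintype ι] in
private theorem GLe_offdiag {E : Finset (Sym2 ι)} {w : Sym2 ι → ℝ} (hw : ∀ e ∈ E, 6 / 25 ≤ w e ∧ w e ≤ 1 / 4)
    (M : Finset ι) {i j : ι} (hij : i ≠ j) :
    QM (offM E M) w M i j ^ 2 ≤ 1 / 16 ∧ ((i ∈ M ∨ j ∈ M) → QM (offM E M) w M i j = 0) := by
  unfold QM
  rw [if_neg hij]
  constructor
  · split_ifs with h1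
    · have h2 := hw _ (GLe_mem.1 h1).1
      nlinarith [h2.1, h2.2]
    · norm_num
  · intro h
    rw [if_neg]
    intro h1
    have h2 := (GLe_mem.1 h1).2
    rcases h with h | h
    · exact h2 i h (Sym2.mem_mk_left _ _)
    · exact h2 j h (Sym2.mem_mk_right _ _)

/-- `det_bounds` for the matrices `QM` -/
private theorem GLe_det {c : ℝ} (hc : 0 < c) {E : Finset (Sym2 ι)} (h : QR c E) {w : Sym2 ι → ℝ}
    (hw : ∀ e ∈ E, 6 / 25 ≤ w e ∧ w e ≤ 1 / 4) (M : Finset ι) (hM : (M.card : ℝ) ≤ c * Fintype.card ι / 8) :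
    (∀ i, i ∉ M → c * Fintype.card ι / 5 ≤ sw (offM E M) w i) ∧ (QM (offM E M) w M).PosDef ∧
      (∏ i, QM (offM E M) w M i i) * Real.exp (-(2 / c ^ 2 / min 1 (21 / 25 * c))) ≤ (QM (offM E M) w M).det ∧
      (QM (offM E M) w M).det ≤ ∏ i, QM (offM E M) w M i i := by
  have hnd' : ∀ e ∈ offM E M, ¬ e.IsDiag := fun e he => h.nd e (GLe_mem.1 he).1
  have hlow5 : ∀ i, i ∉ M → c * Fintype.card ι / 5 ≤ sw (offM E M) w i := by
    intro i hi
    have h1 := (sw_bounds h hw i).1
    have h2 := (GLe_sw_off hw M hi).1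
    have hm : (0 : ℝ) ≤ c * Fintype.card ι := by positivity
    linarith
  have hmpos : ∀ i : ι, (0 : ℝ) < Fintype.card ι := fun i => by
    have : 0 < Fintype.card ι := Fintype.card_pos_iff.2 ⟨i⟩
    exact_mod_cast this
  have hpos : ∀ i, 0 < QM (offM E M) w M i i := by
    intro i
    rw [GLe_diag]
    by_cases hi : i ∈ M
    · rw [GLe_sw_M E w M hi, if_pos hi]
      norm_num
    · rw [if_neg hi, add_zero]
      have h1 := hlow5 i hi
      have h2 := hmpos i
      have : 0 < c * Fintype.card ι / 5 := by positivity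
      linarith
  set γ : ℝ := min 1 (21 / 25 * c) with hγ
  have hγ0 : 0 < γ := lt_min one_pos (by positivity)
  have hγ1 : γ ≤ 1 := min_le_left _ _
  have hγ2 : γ ≤ 21 / 25 * c := min_le_right _ _
  have hform : ∀ x : ι → ℝ, γ * ∑ i, QM (offM E M) w M i i * x i ^ 2 ≤
      ∑ i, ∑ j, QM (offM E M) w M i j * x i * x j := by
    intro x
    rw [qm_form hnd', ← Finset.sum_add_sum_compl M (fun i => QM (offM E M) w M i i * x i ^ 2), mul_add]
    have h1 : ∑ i ∈ M, QM (offM E M) w M i i * x i ^ 2 = ∑ i ∈ M, x i ^ 2 :=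
      Finset.sum_congr rfl fun i hi => by
        rw [GLe_diag, GLe_sw_M E w M hi, if_pos hi]
        ring
    have h2 : ∑ i ∈ Mᶜ, QM (offM E M) w M i i * x i ^ 2 ≤ (Fintype.card ι / 4) * ∑ i ∈ Mᶜ, x i ^ 2 := by
      rw [Finset.mul_sum]
      refine Finset.sum_le_sum fun i hi => ?_
      rw [Finset.mem_compl] at hi
      rw [GLe_diag, if_neg hi, add_zero]
      have h3 := (GLe_sw_off hw M hi).2
      have h4 := (sw_bounds h hw i).2
      exact mul_le_mul_of_nonneg_right (h3.trans h4) (sq_nonneg _)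
    have hS : 0 ≤ ∑ i ∈ Mᶜ, x i ^ 2 := Finset.sum_nonneg fun _ _ => sq_nonneg _
    have hS' : 0 ≤ ∑ i ∈ M, x i ^ 2 := Finset.sum_nonneg fun _ _ => sq_nonneg _
    have h5 := GLe_low h M x
    have h6 : 6 / 25 * ∑ e ∈ offM E M, sm x e ^ 2 ≤ ∑ e ∈ offM E M, w e * sm x e ^ 2 := by
      rw [Finset.mul_sum]
      exact Finset.sum_le_sum fun e he =>
        mul_le_mul_of_nonneg_right (hw e (GLe_mem.1 he).1).1 (sq_nonneg _)
    have h7 : (7 / 8 * (c * Fintype.card ι)) * ∑ i ∈ Mᶜ, x i ^ 2 ≤
        (c * Fintype.card ι - M.card) * ∑ i ∈ Mᶜ, x i ^ 2 :=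
      mul_le_mul_of_nonneg_right (by linarith) hS
    have h8 : γ * ((Fintype.card ι / 4) * ∑ i ∈ Mᶜ, x i ^ 2) ≤
        21 / 25 * c * ((Fintype.card ι / 4) * ∑ i ∈ Mᶜ, x i ^ 2) :=
      mul_le_mul_of_nonneg_right hγ2 (by positivity)
    have h9 : γ * ∑ i ∈ M, x i ^ 2 ≤ 1 * ∑ i ∈ M, x i ^ 2 := mul_le_mul_of_nonneg_right hγ1 hS'
    have h10 : γ * ∑ i ∈ Mᶜ, QM (offM E M) w M i i * x i ^ 2 ≤
        γ * ((Fintype.card ι / 4) * ∑ i ∈ Mᶜ, x i ^ 2) := mul_le_mul_of_nonneg_left h2 hγ0.le
    rw [h1]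
    nlinarith
  have hH : ∑ i, ∑ j, (if i = j then 0 else QM (offM E M) w M i j ^ 2 /
      (QM (offM E M) w M i i * QM (offM E M) w M j j)) ≤ 2 / c ^ 2 := by
    have hterm : ∀ i j : ι, (if i = j then 0 else QM (offM E M) w M i j ^ 2 /
        (QM (offM E M) w M i i * QM (offM E M) w M j j)) ≤ 2 / (c ^ 2 * (Fintype.card ι : ℝ) ^ 2) := by
      intro i j
      have hm := hmpos i
      by_cases hij : i = j
      · rw [if_pos hij]
        positivity
      · rw [if_neg hij]
        obtain ⟨g1, g2⟩ := GLe_offdiag hw M hij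
        by_cases hM' : i ∈ M ∨ j ∈ M
        · rw [g2 hM']
          have : (0 : ℝ) ≤ 2 / (c ^ 2 * (Fintype.card ι : ℝ) ^ 2) := by positivity
          simpa using this
        · rw [not_or] at hM'
          have g3 : c * Fintype.card ι / 5 ≤ QM (offM E M) w M i i := by
            rw [GLe_diag, if_neg hM'.1, add_zero]
            exact hlow5 i hM'.1
          have g4 : c * Fintype.card ι / 5 ≤ QM (offM E M) w M j j := by
            rw [GLe_diag, if_neg hM'.2, add_zero]
            exact hlow5 j hM'.2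
          have g5 : 0 < c * Fintype.card ι / 5 := by positivity
          rw [div_le_div_iff₀ (mul_pos (hpos i) (hpos j)) (by positivity)]
          have g6 : (c * Fintype.card ι / 5) * (c * Fintype.card ι / 5) ≤
              QM (offM E M) w M i i * QM (offM E M) w M j j :=
            mul_le_mul g3 g4 g5.le (hpos i).le
          have g7 : 0 ≤ c ^ 2 * (Fintype.card ι : ℝ) ^ 2 := by positivity
          have g8 : QM (offM E M) w M i j ^ 2 * (c ^ 2 * (Fintype.card ι : ℝ) ^ 2) ≤
              1 / 16 * (c ^ 2 * (Fintype.card ι : ℝ) ^ 2) := mul_le_mul_of_nonneg_right g1 g7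
          nlinarith
    rcases isEmpty_or_nonempty ι with he | hne
    · rw [Finset.univ_eq_empty, Finset.sum_empty]
      positivity
    · obtain ⟨i0⟩ := hne
      have hm := hmpos i0
      calc ∑ i, ∑ j, (if i = j then 0 else QM (offM E M) w M i j ^ 2 /
            (QM (offM E M) w M i i * QM (offM E M) w M j j))
          ≤ ∑ _i : ι, ∑ _j : ι, 2 / (c ^ 2 * (Fintype.card ι : ℝ) ^ 2) :=
            Finset.sum_le_sum fun i _ => Finset.sum_le_sum fun j _ => hterm i j
        _ = 2 / c ^ 2 := by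
            rw [Finset.sum_const, Finset.sum_const, Finset.card_univ, nsmul_eq_mul, nsmul_eq_mul]
            field_simp
  exact ⟨hlow5, det_bounds (qm_symm _ _ _) hpos hγ0 hform hH⟩

/-- square root of the quotient -/
private theorem GLe_sqrt {A : ι → ℝ} (hA : ∀ i, 0 < A i) :
    Real.sqrt ((2 * Real.pi) ^ Fintype.card ι / ∏ i, A i) = ∏ i, Real.sqrt (2 * Real.pi / A i) := by
  have h1 : (2 * Real.pi) ^ Fintype.card ι / ∏ i, A i = ∏ i, (2 * Real.pi / A i) := by
    rw [Finset.prod_div_distrib, Finset.prod_const, Finset.card_univ]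
  rw [h1]
  have h2 : ∀ s : Finset ι, Real.sqrt (∏ i ∈ s, (2 * Real.pi / A i)) = ∏ i ∈ s, Real.sqrt (2 * Real.pi / A i) := by
    intro s
    induction s using Finset.induction_on with
    | empty => simp
    | insert a s ha ih =>
      rw [Finset.prod_insert ha, Finset.prod_insert ha, Real.sqrt_mul (by
        have := hA a
        positivity), ih]
  exact h2 _

theorem gi_le (c : ℝ) (hc : 0 < c) : ∃ C : ℝ, 1 ≤ C ∧
    ∀ (ι : Type) [Fintype ι] [DecidableEq ι] (E : Finset (Sym2 ι)) (w : Sym2 ι → ℝ) (M : Finset ι), QR c E →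
      (∀ e ∈ E, 6 / 25 ≤ w e ∧ w e ≤ 1 / 4) → (M.card : ℝ) ≤ c * Fintype.card ι / 8 →
      (QM (offM E M) w M).PosDef ∧ GI (QM (offM E M) w M) (fun _ => 1) ≤
        C ^ (M.card + 1) * (Fintype.card ι : ℝ) ^ M.card * ∏ i, Real.sqrt (2 * Real.pi / sw E w i) := by
  set γ : ℝ := min 1 (21 / 25 * c) with hγ
  have hγ0 : 0 < γ := lt_min one_pos (by positivity)
  set K : ℝ := 2 / c ^ 2 / γ with hK
  have hK0 : 0 < K := by positivity
  refine ⟨Real.exp (K / 2 + 1 / c), ?_, ?_⟩
  · rw [← Real.exp_zero]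
    exact Real.exp_le_exp.2 (by positivity)
  intro ι _ _ E w M h hw hM
  obtain ⟨hlow5, hPD, hdet, _⟩ := GLe_det hc h hw M hM
  refine ⟨hPD, ?_⟩
  have hmpos : ∀ i : ι, (0 : ℝ) < Fintype.card ι := fun i => by
    have : 0 < Fintype.card ι := Fintype.card_pos_iff.2 ⟨i⟩
    exact_mod_cast this
  have hswpos : ∀ i, 0 < sw E w i := by
    intro i
    have h1 := (sw_bounds h hw i).1
    have h2 := hmpos i
    have : 0 < 6 / 25 * c * Fintype.card ι := by positivity
    linarith
  have hpos : ∀ i, 0 < QM (offM E M) w M i i := by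
    intro i
    rw [GLe_diag]
    by_cases hi : i ∈ M
    · rw [GLe_sw_M E w M hi, if_pos hi]
      norm_num
    · rw [if_neg hi, add_zero]
      have h1 := hlow5 i hi
      have h2 := hmpos i
      have : 0 < c * Fintype.card ι / 5 := by positivity
      linarith
  set D : ℝ := ∏ i, QM (offM E M) w M i i with hD
  have hD0 : 0 < D := Finset.prod_pos fun i _ => hpos i
  rw [GI_one hPD]
  have h1 : Real.sqrt ((2 * Real.pi) ^ Fintype.card ι / (QM (offM E M) w M).det) ≤
      Real.exp (K / 2) * ∏ i, Real.sqrt (2 * Real.pi / QM (offM E M) w M i i) := by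
    rw [← GLe_sqrt hpos, ← hD]
    have h2 : (2 * Real.pi) ^ Fintype.card ι / (QM (offM E M) w M).det ≤
        Real.exp K * ((2 * Real.pi) ^ Fintype.card ι / D) := by
      have h3 : 0 < D * Real.exp (-K) := by positivity
      calc (2 * Real.pi) ^ Fintype.card ι / (QM (offM E M) w M).det
          ≤ (2 * Real.pi) ^ Fintype.card ι / (D * Real.exp (-K)) := by
            apply div_le_div_of_nonneg_left _ h3 hdet
            positivity
        _ = Real.exp K * ((2 * Real.pi) ^ Fintype.card ι / D) := by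
            rw [Real.exp_neg]
            field_simp
    have h4 : Real.exp (K / 2) = Real.sqrt (Real.exp K) := by
      rw [← Real.exp_half]
    rw [h4, ← Real.sqrt_mul (Real.exp_pos _).le]
    exact Real.sqrt_le_sqrt h2
  refine h1.trans ?_
  -- the diagonals
  have hfac : ∀ i, Real.sqrt (2 * Real.pi / QM (offM E M) w M i i) ≤
      (if i ∈ M then (Fintype.card ι : ℝ) else Real.exp (M.card / (c * Fintype.card ι))) *
        Real.sqrt (2 * Real.pi / sw E w i) := by
    intro i
    have hm := hmpos i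
    have hm1 : (1 : ℝ) ≤ Fintype.card ι := by
      have : 0 < Fintype.card ι := Fintype.card_pos_iff.2 ⟨i⟩
      exact_mod_cast this
    have hs := hswpos i
    have hq := hpos i
    have key : ∀ R : ℝ, 0 ≤ R → sw E w i ≤ R ^ 2 * QM (offM E M) w M i i →
        Real.sqrt (2 * Real.pi / QM (offM E M) w M i i) ≤ R * Real.sqrt (2 * Real.pi / sw E w i) := by
      intro R hR hle
      have h5 : R * Real.sqrt (2 * Real.pi / sw E w i) = Real.sqrt (R ^ 2 * (2 * Real.pi / sw E w i)) := by
        rw [Real.sqrt_mul (sq_nonneg _), Real.sqrt_sq hR]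
      rw [h5]
      refine Real.sqrt_le_sqrt ?_
      rw [← mul_div_assoc, div_le_div_iff₀ hq hs]
      have hpi : 0 < 2 * Real.pi := by positivity
      nlinarith
    by_cases hi : i ∈ M
    · rw [if_pos hi]
      refine key _ hm.le ?_
      rw [GLe_diag, GLe_sw_M E w M hi, if_pos hi, zero_add, mul_one]
      have h6 := (sw_bounds h hw i).2
      nlinarith
    · rw [if_neg hi]
      refine key _ (Real.exp_pos _).le ?_
      rw [GLe_diag, if_neg hi, add_zero]
      have h7 := (GLe_sw_off hw M hi).1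
      have h8 := hlow5 i hi
      set Q := sw (offM E M) w i with hQ
      have hQ0 : 0 < Q := by
        have : 0 < c * Fintype.card ι / 5 := by positivity
        linarith
      have h9 : sw E w i ≤ Q + M.card / 4 := by linarith
      have h10 : (1 : ℝ) + 2 * (M.card / (c * Fintype.card ι)) ≤ Real.exp (M.card / (c * Fintype.card ι)) ^ 2 := by
        rw [← Real.exp_nat_mul]
        have := Real.add_one_le_exp (((2 : ℕ) : ℝ) * (M.card / (c * Fintype.card ι)))
        push_cast at this ⊢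
        linarith
      have h11 : (M.card : ℝ) / 4 ≤ 2 * (M.card / (c * Fintype.card ι)) * Q := by
        have h12 : (M.card : ℝ) / (c * Fintype.card ι) * (c * Fintype.card ι / 5) = M.card / 5 := by
          field_simp
        have h13 : (0 : ℝ) ≤ M.card / (c * Fintype.card ι) := by positivity
        have h14 := mul_le_mul_of_nonneg_left h8 h13
        have h15 : (0 : ℝ) ≤ M.card := Nat.cast_nonneg _
        rw [h12] at h14
        linarith
      have h16 := mul_le_mul_of_nonneg_right h10 hQ0.le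
      linarith
  have hprod : ∏ i, Real.sqrt (2 * Real.pi / QM (offM E M) w M i i) ≤
      ((Fintype.card ι : ℝ) ^ M.card * Real.exp (M.card / c)) * ∏ i, Real.sqrt (2 * Real.pi / sw E w i) := by
    refine (Finset.prod_le_prod (fun i _ => Real.sqrt_nonneg _) fun i _ => hfac i).trans ?_
    rw [Finset.prod_mul_distrib]
    refine mul_le_mul_of_nonneg_right ?_ (Finset.prod_nonneg fun i _ => Real.sqrt_nonneg _)
    rw [Finset.prod_ite, Finset.prod_const, Finset.prod_const]
    have h17 : (Finset.univ.filter fun i => i ∈ M).card = M.card := by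
      rw [Finset.filter_mem_eq_inter, Finset.univ_inter]
    rw [h17]
    refine mul_le_mul_of_nonneg_left ?_ (by positivity)
    rw [← Real.exp_nat_mul]
    refine Real.exp_le_exp.2 ?_
    have h18 : ((Finset.univ.filter fun i => i ∉ M).card : ℝ) ≤ Fintype.card ι := by
      have := Finset.card_filter_le (Finset.univ : Finset ι) (fun i => i ∉ M)
      rw [Finset.card_univ] at this
      exact_mod_cast this
    rcases isEmpty_or_nonempty ι with he | hne
    · have h19 : (Finset.univ.filter fun i => i ∉ M).card = 0 := by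
        rw [Finset.univ_eq_empty, Finset.filter_empty, Finset.card_empty]
      rw [h19]
      push_cast
      rw [zero_mul]
      positivity
    · obtain ⟨i0⟩ := hne
      have hm := hmpos i0
      calc ((Finset.univ.filter fun i => i ∉ M).card : ℝ) * (M.card / (c * Fintype.card ι))
          ≤ Fintype.card ι * (M.card / (c * Fintype.card ι)) :=
            mul_le_mul_of_nonneg_right h18 (by positivity)
        _ = M.card / c := by field_simp
  have hP0 : 0 ≤ ∏ i, Real.sqrt (2 * Real.pi / sw E w i) := Finset.prod_nonneg fun i _ => Real.sqrt_nonneg _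
  have h20 : Real.exp (K / 2) * Real.exp (M.card / c) ≤ Real.exp (K / 2 + 1 / c) ^ (M.card + 1) := by
    rw [← Real.exp_nat_mul, ← Real.exp_add]
    refine Real.exp_le_exp.2 ?_
    push_cast
    have h21 : (0 : ℝ) ≤ M.card * (K / 2) := by positivity
    have h22 : 0 ≤ 1 / c := by positivity
    have h23 : (M.card : ℝ) / c = M.card * (1 / c) := by ring
    rw [h23]
    nlinarith
  calc Real.exp (K / 2) * ∏ i, Real.sqrt (2 * Real.pi / QM (offM E M) w M i i)
      ≤ Real.exp (K / 2) * (((Fintype.card ι : ℝ) ^ M.card * Real.exp (M.card / c)) *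
          ∏ i, Real.sqrt (2 * Real.pi / sw E w i)) := mul_le_mul_of_nonneg_left hprod (Real.exp_pos _).le
    _ = (Real.exp (K / 2) * Real.exp (M.card / c)) * ((Fintype.card ι : ℝ) ^ M.card *
          ∏ i, Real.sqrt (2 * Real.pi / sw E w i)) := by ring
    _ ≤ Real.exp (K / 2 + 1 / c) ^ (M.card + 1) * ((Fintype.card ι : ℝ) ^ M.card *
          ∏ i, Real.sqrt (2 * Real.pi / sw E w i)) :=
        mul_le_mul_of_nonneg_right h20 (mul_nonneg (by positivity) hP0)
    _ = _ := by ring

theorem gi_ge {ι : Type} [Fintype ι] [DecidableEq ι] {c : ℝ} (hc : 0 < c) {E : Finset (Sym2 ι)} (h : QR c E) {w : Sym2 ι → ℝ}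
    (hw : ∀ e ∈ E, 6 / 25 ≤ w e ∧ w e ≤ 1 / 4) :
    (QM E w ∅).PosDef ∧ ∏ i, Real.sqrt (2 * Real.pi / sw E w i) ≤ GI (QM E w ∅) (fun _ => 1) := by
  have hoff : offM E ∅ = E := by
    ext e
    rw [GLe_mem]
    exact ⟨fun h => h.1, fun h => ⟨h, fun i hi => absurd hi (Finset.notMem_empty i)⟩⟩
  have hM : (((∅ : Finset ι).card : ℕ) : ℝ) ≤ c * Fintype.card ι / 8 := by
    rw [Finset.card_empty, Nat.cast_zero]
    positivity
  obtain ⟨hlow5, hPD, _, hdet⟩ := GLe_det hc h hw ∅ hM
  rw [hoff] at hPD hdet hlow5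
  refine ⟨hPD, ?_⟩
  have hd : ∀ i, QM E w ∅ i i = sw E w i := by
    intro i
    rw [GLe_diag, if_neg (Finset.notMem_empty i), add_zero]
  have hmpos : ∀ i : ι, (0 : ℝ) < Fintype.card ι := fun i => by
    have : 0 < Fintype.card ι := Fintype.card_pos_iff.2 ⟨i⟩
    exact_mod_cast this
  have hpos : ∀ i, 0 < sw E w i := by
    intro i
    have h1 := (sw_bounds h hw i).1
    have h2 := hmpos i
    have : 0 < 6 / 25 * c * Fintype.card ι := by positivity
    linarith
  rw [GI_one hPD, ← GLe_sqrt hpos]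
  refine Real.sqrt_le_sqrt ?_
  have h3 : (QM E w ∅).det ≤ ∏ i, sw E w i := by
    rw [Finset.prod_congr rfl fun i _ => (hd i).symm]
    exact hdet
  exact div_le_div_of_nonneg_left (by positivity) hPD.det_pos h3

end PLR
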