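import Pool.Agent.PLR.GInt

/-!
# PLR.GMom: moments of linear forms of a Gaussian vector

Linear change of variables as in `GInt` (the form `⟨u, θ⟩` becomes `|w| g_1`, `|w|^2 = u A⁻¹ u`), or: the moment generating function
`GI A (exp(λ ⟨u,θ⟩)) = exp(λ^2 v/2) GI A 1` (complete the square) and the one-dimensional moments.
-/

set_option autoImplicit false

namespace PLR

open Finset Smo

variable {ι : Type*} [Fintype ι] [DecidableEq ι]

/-- the variance of the linear form `u` -/
noncomputable def vr (A : Matrix ι ι ℝ) (u : ι → ℝ) : ℝ := ∑ i, ∑ j, A⁻¹ i j * u i * u j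

omit [DecidableEq ι] in
private theorem quad_eq (A : Matrix ι ι ℝ) (θ : ι → ℝ) :
    ∑ i, ∑ j, A i j * θ i * θ j = θ ⬝ᵥ A.mulVec θ := by
  simp only [dotProduct, Matrix.mulVec, Finset.mul_sum]
  refine Finset.sum_congr rfl fun i _ => Finset.sum_congr rfl fun j _ => ?_
  ring

private theorem key {A : Matrix ι ι ℝ} (hA : A.PosDef) (u θ : ι → ℝ) (t : ℝ) :
    Real.exp (t * ∑ i, u i * θ i) * gw A θ
      = Real.exp (vr A u * t ^ 2 / 2) * gw A (θ - t • A⁻¹.mulVec u) := by
  unfold gw vr
  rw [← Real.exp_add, ← Real.exp_add]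
  congr 1
  rw [quad_eq, quad_eq, quad_eq]
  have hdet : IsUnit A.det := hA.det_pos.ne'.isUnit
  have hT : A.transpose = A := by
    have h := hA.isHermitian
    simpa [Matrix.IsHermitian, Matrix.conjTranspose_eq_transpose_of_trivial] using h
  have hc : A.mulVec (A⁻¹.mulVec u) = u := by
    rw [Matrix.mulVec_mulVec, Matrix.mul_nonsing_inv _ hdet, Matrix.one_mulVec]
  have e : ∑ i, u i * θ i = u ⬝ᵥ θ := rfl
  have h1 : θ ⬝ᵥ u = u ⬝ᵥ θ := dotProduct_comm _ _
  have h2 : A⁻¹.mulVec u ⬝ᵥ A.mulVec θ = u ⬝ᵥ θ := by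
    rw [Matrix.dotProduct_mulVec, ← Matrix.mulVec_transpose, hT, hc]
  have h3 : A⁻¹.mulVec u ⬝ᵥ u = u ⬝ᵥ A⁻¹.mulVec u := dotProduct_comm _ _
  rw [e, Matrix.mulVec_sub, Matrix.mulVec_smul, hc, sub_dotProduct, dotProduct_sub, dotProduct_sub,
    smul_dotProduct, smul_dotProduct, dotProduct_smul, dotProduct_smul, h1, h2, h3]
  simp only [smul_eq_mul]
  ring

omit [DecidableEq ι] in
private theorem gw_nonneg (A : Matrix ι ι ℝ) (θ : ι → ℝ) : 0 ≤ gw A θ := (Real.exp_pos _).le

omit [DecidableEq ι] in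
private theorem gw_meas (A : Matrix ι ι ℝ) : Measurable (gw A) := by
  unfold gw
  fun_prop

/-- the measure with the Gaussian density -/
private noncomputable def gm (A : Matrix ι ι ℝ) : MeasureTheory.Measure (ι → ℝ) :=
  MeasureTheory.volume.withDensity fun θ => ((gw A θ).toNNReal : ENNReal)

omit [DecidableEq ι] in
private theorem gm_integral (A : Matrix ι ι ℝ) (g : (ι → ℝ) → ℝ) :
    ∫ θ, g θ ∂(gm A) = ∫ θ, g θ * gw A θ := by
  unfold gm
  rw [integral_withDensity_eq_integral_smul (gw_meas A).real_toNNReal]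
  refine MeasureTheory.integral_congr_ae (Filter.Eventually.of_forall fun θ => ?_)
  simp only [NNReal.smul_def, smul_eq_mul]
  rw [Real.coe_toNNReal _ (gw_nonneg A θ), mul_comm]

omit [DecidableEq ι] in
private theorem gm_integrable (A : Matrix ι ι ℝ) (g : (ι → ℝ) → ℝ)
    (h : MeasureTheory.Integrable fun θ => g θ * gw A θ) : MeasureTheory.Integrable g (gm A) := by
  unfold gm
  rw [MeasureTheory.integrable_withDensity_iff_integrable_smul (gw_meas A).real_toNNReal]
  refine h.congr (Filter.Eventually.of_forall fun θ => ?_)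
  simp only [NNReal.smul_def, smul_eq_mul]
  rw [Real.coe_toNNReal _ (gw_nonneg A θ), mul_comm]

private theorem exp_integrable {A : Matrix ι ι ℝ} (hA : A.PosDef) (u : ι → ℝ) (t : ℝ) :
    MeasureTheory.Integrable (fun θ : ι → ℝ => Real.exp (t * ∑ i, u i * θ i)) (gm A) := by
  apply gm_integrable
  simp only [key hA u _ t]
  exact ((integrable_gw hA).comp_sub_right (t • A⁻¹.mulVec u)).const_mul _

private theorem mgf_eq {A : Matrix ι ι ℝ} (hA : A.PosDef) (u : ι → ℝ) (t : ℝ) :
    ProbabilityTheory.mgf (fun θ : ι → ℝ => ∑ i, u i * θ i) (gm A) t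
      = Real.exp (vr A u * t ^ 2 / 2) * GI A (fun _ => 1) := by
  unfold ProbabilityTheory.mgf
  rw [gm_integral]
  simp only [key hA u _ t]
  rw [MeasureTheory.integral_const_mul,
    MeasureTheory.integral_sub_right_eq_self (gw A) (t • A⁻¹.mulVec u)]
  congr 1
  unfold GI gw
  simp

private theorem iter (v Z : ℝ) (n : ℕ) :
    ∀ t, iteratedDeriv (n + 2) (fun t : ℝ => Real.exp (v * t ^ 2 / 2) * Z) t
      = v * (t * iteratedDeriv (n + 1) (fun t : ℝ => Real.exp (v * t ^ 2 / 2) * Z) t
        + (n + 1) * iteratedDeriv n (fun t : ℝ => Real.exp (v * t ^ 2 / 2) * Z) t) := by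
  set f : ℝ → ℝ := fun t : ℝ => Real.exp (v * t ^ 2 / 2) * Z with hf
  have hcd : ContDiff ℝ ⊤ f := by
    rw [hf]; fun_prop
  have hd : ∀ m t, HasDerivAt (iteratedDeriv m f) (iteratedDeriv (m + 1) f t) t := by
    intro m t
    rw [iteratedDeriv_succ]
    apply DifferentiableAt.hasDerivAt
    exact (hcd.differentiable_iteratedDeriv m (by exact_mod_cast WithTop.coe_lt_top (m : ℕ∞))) t
  have h0 : ∀ t, iteratedDeriv 1 f t = v * (t * f t) := by
    intro t
    rw [iteratedDeriv_one]
    have h : HasDerivAt f (Real.exp (v * t ^ 2 / 2) * (v * (2 * t) / 2) * Z) t := by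
      have h1 : HasDerivAt (fun t : ℝ => v * t ^ 2 / 2) (v * (2 * t) / 2) t := by
        have := ((hasDerivAt_pow 2 t).const_mul v).div_const 2
        simpa using this
      exact h1.exp.mul_const Z
    rw [h.deriv, hf]
    ring
  induction n with
  | zero =>
    intro t
    have he : iteratedDeriv 1 f = fun t => v * (t * f t) := funext h0
    have h1 : HasDerivAt (iteratedDeriv 1 f) (v * (1 * f t + t * iteratedDeriv 1 f t)) t := by
      have hft : HasDerivAt f (iteratedDeriv 1 f t) t := by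
        have := hd 0 t
        simpa [iteratedDeriv_zero] using this
      have h3 := ((hasDerivAt_id t).mul hft).const_mul v
      refine h3.congr_of_eventuallyEq (Filter.Eventually.of_forall fun y => ?_)
      simpa using congrFun he y
    have h2 := (hd 1 t).unique h1
    have e0 : (iteratedDeriv 0 f t : ℝ) = f t := by rw [iteratedDeriv_zero]
    rw [show (0 + 2 : ℕ) = 1 + 1 from rfl, h2, e0]
    push_cast
    ring
  | succ n ih =>
    intro t
    have he : iteratedDeriv (n + 2) f
        = fun t => v * (t * iteratedDeriv (n + 1) f t + (n + 1) * iteratedDeriv n f t) := funext ih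
    have h1 : HasDerivAt (iteratedDeriv (n + 2) f)
        (v * (1 * iteratedDeriv (n + 1) f t + t * iteratedDeriv (n + 2) f t
          + (n + 1) * iteratedDeriv (n + 1) f t)) t := by
      have h3 := (((hasDerivAt_id t).mul (hd (n + 1) t)).add ((hd n t).const_mul ((n : ℝ) + 1))).const_mul v
      refine h3.congr_of_eventuallyEq (Filter.Eventually.of_forall fun y => ?_)
      simpa using congrFun he y
    have h2 := (hd (n + 2) t).unique h1
    rw [h2]
    push_cast
    ring

private theorem iter_zero (v Z : ℝ) (k : ℕ) :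
    iteratedDeriv (2 * (k + 1)) (fun t : ℝ => Real.exp (v * t ^ 2 / 2) * Z) 0
      = ((2 * (k + 1) - 1).doubleFactorial : ℝ) * v ^ (k + 1) * Z := by
  induction k with
  | zero =>
    have h := iter v Z 0 0
    simp [iteratedDeriv_zero] at h
    simp [h, Nat.doubleFactorial]
  | succ k ih =>
    have h := iter v Z (2 * (k + 1)) 0
    have e : 2 * (k + 1 + 1) = 2 * (k + 1) + 2 := by ring
    rw [e, h, ih]
    have e2 : 2 * (k + 1) + 2 - 1 = (2 * (k + 1) - 1) + 2 := by omega
    rw [e2, Nat.doubleFactorial_add_two]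
    have e3 : ((2 * (k + 1) - 1 + 2 : ℕ) : ℝ) = 2 * (k + 1) + 1 := by
      have : 2 * (k + 1) - 1 + 2 = 2 * (k + 1) + 1 := by omega
      rw [this]; push_cast; ring
    rw [Nat.cast_mul (2 * (k + 1) - 1 + 2), e3]
    push_cast
    ring

theorem GI_pow {A : Matrix ι ι ℝ} (hA : A.PosDef) (u : ι → ℝ) (k : ℕ) (hk : 0 < k) :
    GI A (fun θ => (∑ i, u i * θ i) ^ (2 * k)) =
      ((2 * k - 1).doubleFactorial : ℝ) * vr A u ^ k * GI A (fun _ => 1) := by
  obtain ⟨k, rfl⟩ : ∃ j, k = j + 1 := ⟨k - 1, by omega⟩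
  have hset : ProbabilityTheory.integrableExpSet (fun θ : ι → ℝ => ∑ i, u i * θ i) (gm A) = Set.univ := by
    ext t
    simp only [ProbabilityTheory.integrableExpSet, Set.mem_ofPred_eq, Set.mem_univ, iff_true]
    exact exp_integrable hA u t
  have h := ProbabilityTheory.iteratedDeriv_mgf_zero (X := fun θ : ι → ℝ => ∑ i, u i * θ i)
    (μ := gm A) (by rw [hset]; simp) (2 * (k + 1))
  have hm : ProbabilityTheory.mgf (fun θ : ι → ℝ => ∑ i, u i * θ i) (gm A)
      = fun t : ℝ => Real.exp (vr A u * t ^ 2 / 2) * GI A (fun _ => 1) := funext (mgf_eq hA u)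
  rw [hm, iter_zero, gm_integral] at h
  rw [h]
  rfl

end PLR
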