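import Pool.Agent.PLR.GMom

/-!
# PLR.GSix: the mixed sixth moment of two linear forms (Isserlis)

For all real `τ`: `E (s + τ s')^6 = 15 (v + 2 τ c + τ^2 v')^3` (`GI_pow` with `k = 3` for the form `u + τ u'`). Both sides are polynomials in `τ`; the coefficient of `τ^3` is
`20 E s^3 s'^3 = 15 (8 c^3 + 12 v v' c)`. (Take e.g. 7 values of `τ` or compare `τ` and `-τ` and scale.)
-/

set_option autoImplicit false

namespace PLR

open Finset Smo

variable {ι : Type*} [Fintype ι] [DecidableEq ι]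

/-- the covariance of two linear forms -/
noncomputable def cv (A : Matrix ι ι ℝ) (u u' : ι → ℝ) : ℝ := ∑ i, ∑ j, A⁻¹ i j * u i * u' j

private theorem gs_symm {A : Matrix ι ι ℝ} (hA : A.PosDef) (i j : ι) : A⁻¹ i j = A⁻¹ j i := by
  have h := hA.inv.isHermitian.apply i j
  simpa using h.symm

private theorem gs_vr {A : Matrix ι ι ℝ} (hA : A.PosDef) (u u' : ι → ℝ) (τ : ℝ) :
    vr A (fun i => u i + τ * u' i) = vr A u + 2 * τ * cv A u u' + τ ^ 2 * vr A u' := by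
  have hswap : ∑ i, ∑ j, A⁻¹ i j * u' i * u j = ∑ i, ∑ j, A⁻¹ i j * u i * u' j := by
    rw [Finset.sum_comm]
    refine sum_congr rfl fun i _ => sum_congr rfl fun j _ => ?_
    rw [gs_symm hA j i]
    ring
  have h1 : vr A (fun i => u i + τ * u' i) = ∑ i, ∑ j, (A⁻¹ i j * u i * u j +
      τ * (A⁻¹ i j * u i * u' j) + τ * (A⁻¹ i j * u' i * u j) + τ ^ 2 * (A⁻¹ i j * u' i * u' j)) := by
    unfold vr
    refine sum_congr rfl fun i _ => sum_congr rfl fun j _ => ?_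
    ring
  rw [h1]
  simp only [sum_add_distrib, ← mul_sum]
  rw [hswap]
  unfold vr cv
  ring

private theorem gs_six {A : Matrix ι ι ℝ} (hA : A.PosDef) (u u' : ι → ℝ) (τ : ℝ) :
    ∫ θ : ι → ℝ, ((∑ i, u i * θ i) + τ * ∑ i, u' i * θ i) ^ 6 * gw A θ =
      15 * (vr A u + 2 * τ * cv A u u' + τ ^ 2 * vr A u') ^ 3 * GI A (fun _ => 1) := by
  have h := GI_pow hA (fun i => u i + τ * u' i) 3 (by norm_num)
  rw [gs_vr hA] at h
  have h5 : ((2 * 3 - 1 : ℕ).doubleFactorial : ℝ) = 15 := by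
    norm_num [Nat.doubleFactorial]
  rw [h5] at h
  rw [← h]
  unfold GI gw
  refine MeasureTheory.integral_congr_ae (Filter.Eventually.of_forall fun θ => ?_)
  have h2 : ∑ i, (u i + τ * u' i) * θ i = (∑ i, u i * θ i) + τ * ∑ i, u' i * θ i := by
    rw [mul_sum, ← sum_add_distrib]
    refine sum_congr rfl fun i _ => ?_
    ring
  simp only [h2]

private theorem gs_int {A : Matrix ι ι ℝ} (hA : A.PosDef) (u u' : ι → ℝ) (τ : ℝ) :
    MeasureTheory.Integrable fun θ : ι → ℝ =>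
      ((∑ i, u i * θ i) + τ * ∑ i, u' i * θ i) ^ 6 * gw A θ := by
  have h := integrable_pow hA (fun i => u i + τ * u' i) 6
  refine h.congr (Filter.Eventually.of_forall fun θ => ?_)
  have h2 : ∑ i, (u i + τ * u' i) * θ i = (∑ i, u i * θ i) + τ * ∑ i, u' i * θ i := by
    rw [mul_sum, ← sum_add_distrib]
    refine sum_congr rfl fun i _ => ?_
    ring
  simp only [h2]
  rw [Even.pow_abs (by decide : Even 6)]

theorem GI_six {A : Matrix ι ι ℝ} (hA : A.PosDef) (u u' : ι → ℝ) :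
    GI A (fun θ => (∑ i, u i * θ i) ^ 3 * (∑ i, u' i * θ i) ^ 3) =
      (9 * vr A u * vr A u' * cv A u u' + 6 * cv A u u' ^ 3) * GI A (fun _ => 1) := by
  set F : ℝ → (ι → ℝ) → ℝ := fun τ θ => ((∑ i, u i * θ i) + τ * ∑ i, u' i * θ i) ^ 6 * gw A θ
    with hF
  have hi : ∀ τ c : ℝ, MeasureTheory.Integrable fun θ => c * F τ θ := fun τ c =>
    (gs_int hA u u' τ).const_mul c
  have h1 : GI A (fun θ => (∑ i, u i * θ i) ^ 3 * (∑ i, u' i * θ i) ^ 3) =
      ∫ θ : ι → ℝ, ((-13 / 960 : ℝ) * F 1 θ + ((13 / 960 : ℝ) * F (-1) θ + ((1 / 120 : ℝ) * F 2 θ +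
        ((-1 / 120 : ℝ) * F (-2) θ + ((-1 / 960 : ℝ) * F 3 θ + (1 / 960 : ℝ) * F (-3) θ))))) := by
    unfold GI
    refine MeasureTheory.integral_congr_ae (Filter.Eventually.of_forall fun θ => ?_)
    simp only [hF]
    change _ * gw A θ = _
    ring
  have h2 : ∀ τ c : ℝ, ∫ θ : ι → ℝ, c * F τ θ = c *
      (15 * (vr A u + 2 * τ * cv A u u' + τ ^ 2 * vr A u') ^ 3 * GI A (fun _ => 1)) := by
    intro τ c
    rw [MeasureTheory.integral_const_mul, hF, gs_six hA]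
  have i2 : MeasureTheory.Integrable fun θ => (-1 / 960 : ℝ) * F 3 θ + (1 / 960 : ℝ) * F (-3) θ :=
    (hi _ _).add (hi _ _)
  have i3 : MeasureTheory.Integrable fun θ => (-1 / 120 : ℝ) * F (-2) θ +
      ((-1 / 960 : ℝ) * F 3 θ + (1 / 960 : ℝ) * F (-3) θ) := (hi _ _).add i2
  have i4 : MeasureTheory.Integrable fun θ => (1 / 120 : ℝ) * F 2 θ + ((-1 / 120 : ℝ) * F (-2) θ +
      ((-1 / 960 : ℝ) * F 3 θ + (1 / 960 : ℝ) * F (-3) θ)) := (hi _ _).add i3
  have i5 : MeasureTheory.Integrable fun θ => (13 / 960 : ℝ) * F (-1) θ + ((1 / 120 : ℝ) * F 2 θ +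
      ((-1 / 120 : ℝ) * F (-2) θ + ((-1 / 960 : ℝ) * F 3 θ + (1 / 960 : ℝ) * F (-3) θ))) :=
    (hi _ _).add i4
  rw [h1, MeasureTheory.integral_add (hi _ _) i5, MeasureTheory.integral_add (hi _ _) i4,
    MeasureTheory.integral_add (hi _ _) i3, MeasureTheory.integral_add (hi _ _) i2,
    MeasureTheory.integral_add (hi _ _) (hi _ _), h2, h2, h2, h2, h2, h2]
  ring

end PLR
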