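import Pool.Agent.PLR.Defs

/-!
# PLR.Shift: translation of all angles by `π`. The map `x ↦ x + π` for `x ≤ 0`, `x - π` for `x > 0` is a measure preserving measurable bijection of `Ioc (-π) π`
(or: both `box` and its translate are fundamental domains of `(2πℤ)^ι`).
-/

set_option autoImplicit false

namespace PLR

open Finset Smo

variable {ι : Type*} [Fintype ι] [DecidableEq ι]

open MeasureTheory in
/-- the translation by `π` modulo `2 π` -/
private noncomputable def shT (x : ℝ) : ℝ := if x ≤ 0 then x + Real.pi else x + (-Real.pi)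

private theorem shT_meas : Measurable shT := by
  unfold shT
  exact Measurable.ite measurableSet_Iic (measurable_id.add_const _) (measurable_id.add_const _)

open MeasureTheory in
private theorem shT_pres : MeasurePreserving shT (volume.restrict (Set.Ioc (-Real.pi) Real.pi))
    (volume.restrict (Set.Ioc (-Real.pi) Real.pi)) := by
  have hpi := Real.pi_pos
  have h1 : MeasurePreserving (fun x : ℝ => x + Real.pi) (volume.restrict (Set.Ioc (-Real.pi) 0))
      (volume.restrict (Set.Ioc 0 Real.pi)) := by
    have h := (measurePreserving_add_right (volume : Measure ℝ) Real.pi).restrict_preimage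
      (s := Set.Ioc 0 Real.pi) measurableSet_Ioc
    have e : (fun x : ℝ => x + Real.pi) ⁻¹' Set.Ioc 0 Real.pi = Set.Ioc (-Real.pi) 0 := by
      ext x; simp only [Set.mem_preimage, Set.mem_Ioc]; constructor <;> rintro ⟨a, b⟩ <;> constructor <;> linarith
    rwa [e] at h
  have h2 : MeasurePreserving (fun x : ℝ => x + (-Real.pi)) (volume.restrict (Set.Ioc 0 Real.pi))
      (volume.restrict (Set.Ioc (-Real.pi) 0)) := by
    have h := (measurePreserving_add_right (volume : Measure ℝ) (-Real.pi)).restrict_preimage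
      (s := Set.Ioc (-Real.pi) 0) measurableSet_Ioc
    have e : (fun x : ℝ => x + (-Real.pi)) ⁻¹' Set.Ioc (-Real.pi) 0 = Set.Ioc 0 Real.pi := by
      ext x; simp only [Set.mem_preimage, Set.mem_Ioc]; constructor <;> rintro ⟨a, b⟩ <;> constructor <;> linarith
    rwa [e] at h
  have hu : Set.Ioc (-Real.pi) Real.pi = Set.Ioc (-Real.pi) 0 ∪ Set.Ioc 0 Real.pi :=
    (Set.Ioc_union_Ioc_eq_Ioc (by linarith) (by linarith)).symm
  have hd : Disjoint (Set.Ioc (-Real.pi) 0) (Set.Ioc 0 Real.pi) := by
    rw [Set.disjoint_left]; rintro x ⟨_, hb⟩ ⟨hc, _⟩; linarith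
  have hs : (volume : Measure ℝ).restrict (Set.Ioc (-Real.pi) Real.pi) =
      volume.restrict (Set.Ioc (-Real.pi) 0) + volume.restrict (Set.Ioc 0 Real.pi) := by
    rw [hu, Measure.restrict_union hd measurableSet_Ioc]
  refine ⟨shT_meas, ?_⟩
  have m1 : Measure.map shT (volume.restrict (Set.Ioc (-Real.pi) 0)) = volume.restrict (Set.Ioc 0 Real.pi) := by
    rw [← h1.map_eq]
    refine Measure.map_congr ?_
    filter_upwards [ae_restrict_mem measurableSet_Ioc] with x hx
    simp only [shT, if_pos hx.2]
  have m2 : Measure.map shT (volume.restrict (Set.Ioc 0 Real.pi)) = volume.restrict (Set.Ioc (-Real.pi) 0) := by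
    rw [← h2.map_eq]
    refine Measure.map_congr ?_
    filter_upwards [ae_restrict_mem measurableSet_Ioc] with x hx
    simp only [shT, if_neg (not_le.2 hx.1)]
  rw [hs, Measure.map_add _ _ shT_meas, m1, m2, add_comm]

omit [DecidableEq ι] in
open MeasureTheory in
private theorem shT_pi : MeasurePreserving (fun (θ : ι → ℝ) (i : ι) => shT (θ i)) (volume.restrict (box ι))
    (volume.restrict (box ι)) := by
  have h := measurePreserving_pi (fun _ : ι => (volume : Measure ℝ).restrict (Set.Ioc (-Real.pi) Real.pi))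
    (fun _ : ι => (volume : Measure ℝ).restrict (Set.Ioc (-Real.pi) Real.pi)) (fun _ => shT_pres)
  have e : (volume : Measure (ι → ℝ)).restrict (box ι) =
      Measure.pi (fun _ : ι => (volume : Measure ℝ).restrict (Set.Ioc (-Real.pi) Real.pi)) := by
    rw [box, volume_pi, Measure.restrict_pi_pi]
  rw [e]
  exact h

omit [Fintype ι] [DecidableEq ι] in
private theorem shT_val {β : Type*} (g : (ι → ℝ) → β)
    (hg : ∀ (θ : ι → ℝ) (n : ι → ℤ), g (fun i => θ i + 2 * Real.pi * n i) = g θ) (θ : ι → ℝ) :
    g (fun i => shT (θ i)) = g (fun i => θ i + Real.pi) := by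
  rw [← hg (fun i => θ i + Real.pi) (fun i => if θ i ≤ 0 then 0 else -1)]
  congr 1
  funext i
  unfold shT
  split_ifs with h
  · push_cast; ring
  · push_cast; ring

theorem integral_shift (g : (ι → ℝ) → ℂ) (hm : Measurable g)
    (hg : ∀ (θ : ι → ℝ) (n : ι → ℤ), g (fun i => θ i + 2 * Real.pi * n i) = g θ) :
    ∫ θ in box ι, g (fun i => θ i + Real.pi) = ∫ θ in box ι, g θ := by
  have h := MeasureTheory.integral_map (μ := MeasureTheory.volume.restrict (box ι)) (shT_pi (ι := ι)).measurable.aemeasurable
    (f := g) hm.aestronglyMeasurable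
  rw [(shT_pi (ι := ι)).map_eq] at h
  rw [h]
  exact MeasureTheory.integral_congr_ae (Filter.Eventually.of_forall fun θ => (shT_val g hg θ).symm)

theorem integral_shift_real (g : (ι → ℝ) → ℝ) (hm : Measurable g)
    (hg : ∀ (θ : ι → ℝ) (n : ι → ℤ), g (fun i => θ i + 2 * Real.pi * n i) = g θ) :
    ∫ θ in box ι, g (fun i => θ i + Real.pi) = ∫ θ in box ι, g θ := by
  have h := MeasureTheory.integral_map (μ := MeasureTheory.volume.restrict (box ι)) (shT_pi (ι := ι)).measurable.aemeasurable
    (f := g) hm.aestronglyMeasurable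
  rw [(shT_pi (ι := ι)).map_eq] at h
  rw [h]
  exact MeasureTheory.integral_congr_ae (Filter.Eventually.of_forall fun θ => (shT_val g hg θ).symm)

end PLR
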