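import Pool.Agent.PLR.JspA
import Pool.Agent.PLR.EnB
import Pool.Agent.PLR.Shift

/-!
# PLR.Jsp: the integral outside the two cubes

Split `box` minus the cubes: (a) both counts `{1/8 < nrm (θ i)}`, `{1/8 < nrm (θ i - π)}` larger than `c m/8`: `energy_bad` with `ρ = 1/8`, integrand at most `exp(-(3/25) c' m^2)`, volume `(2π)^m`; compare with
`∏ √(2π/sw) ≥ √(8π/m)^m` (`sw_bounds`). (b) first count small: `jspA`. (c) second count small: translate by `π` (`integral_shift_real` for the integrand times the indicator, which is periodic and measurable; `sm` changes by `2π`) and use `jspA`.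
-/

set_option autoImplicit false

namespace PLR

open Finset Smo MeasureTheory

private theorem num (κ : ℝ) (hκ : 0 < κ) : ∃ C : ℝ, 0 < C ∧ ∀ m : ℕ, 1 ≤ m →
    (m : ℝ) * (Real.exp (-(κ * (m : ℝ) ^ 2)) * (2 * Real.pi) ^ m) ≤ C * Real.sqrt (8 * Real.pi / m) ^ m := by
  obtain ⟨a, ha⟩ : ∃ a : ℝ, a = 1 + 2 * Real.pi + 2 / κ := ⟨_, rfl⟩
  refine ⟨Real.exp (a ^ 2 / (2 * κ)), Real.exp_pos _, fun m hm => ?_⟩
  have hm1 : (1 : ℝ) ≤ m := by exact_mod_cast hm
  have hm0 : (0 : ℝ) < m := by linarith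
  have hpi := Real.pi_gt_three
  -- lower bound for the right side
  have h1 : (m : ℝ)⁻¹ ≤ Real.sqrt (8 * Real.pi / m) := by
    apply Real.le_sqrt_of_sq_le
    rw [inv_pow, inv_eq_one_div, div_le_div_iff₀ (by positivity) hm0]
    nlinarith
  have h2 : ((m : ℝ)⁻¹) ^ m ≤ Real.sqrt (8 * Real.pi / m) ^ m := pow_le_pow_left₀ (by positivity) h1 m
  -- upper bounds for the factors
  have h3 : (m : ℝ) ≤ Real.exp m := by
    have := Real.add_one_le_exp (m : ℝ)
    linarith
  have h4 : (2 * Real.pi) ^ m ≤ Real.exp (2 * Real.pi * m) := by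
    have h5 : 2 * Real.pi ≤ Real.exp (2 * Real.pi) := by
      have := Real.add_one_le_exp (2 * Real.pi)
      linarith
    have h6 := pow_le_pow_left₀ (by positivity) h5 m
    rw [← Real.exp_nat_mul] at h6
    rw [mul_comm (2 * Real.pi) (m : ℝ)]
    exact h6
  have h7 : (m : ℝ) ^ m ≤ Real.exp (2 / κ * m + κ * (m : ℝ) ^ 2 / 2) := by
    have h8 : (m : ℝ) ≤ Real.exp (2 / κ + κ * m / 2) := by
      have h9 : κ * m / 2 ≤ Real.exp (κ * m / 2) := by
        have := Real.add_one_le_exp (κ * m / 2)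
        linarith
      have h10 : 2 / κ ≤ Real.exp (2 / κ) := by
        have := Real.add_one_le_exp (2 / κ)
        linarith
      rw [Real.exp_add]
      calc (m : ℝ) = 2 / κ * (κ * m / 2) := by field_simp
        _ ≤ Real.exp (2 / κ) * Real.exp (κ * m / 2) :=
          mul_le_mul h10 h9 (by positivity) (Real.exp_pos _).le
    have h11 := pow_le_pow_left₀ hm0.le h8 m
    rw [← Real.exp_nat_mul] at h11
    refine h11.trans (le_of_eq ?_)
    congr 1
    ring
  have h12 : (m : ℝ) * (Real.exp (-(κ * (m : ℝ) ^ 2)) * (2 * Real.pi) ^ m) * (m : ℝ) ^ m ≤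
      Real.exp (a ^ 2 / (2 * κ)) := by
    calc (m : ℝ) * (Real.exp (-(κ * (m : ℝ) ^ 2)) * (2 * Real.pi) ^ m) * (m : ℝ) ^ m
        ≤ Real.exp m * (Real.exp (-(κ * (m : ℝ) ^ 2)) * Real.exp (2 * Real.pi * m)) *
          Real.exp (2 / κ * m + κ * (m : ℝ) ^ 2 / 2) := by gcongr
      _ = Real.exp (a * m - κ * (m : ℝ) ^ 2 / 2) := by
        rw [← Real.exp_add, ← Real.exp_add, ← Real.exp_add]
        congr 1
        rw [ha]
        ring
      _ ≤ Real.exp (a ^ 2 / (2 * κ)) := by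
        apply Real.exp_le_exp.2
        rw [le_div_iff₀ (by positivity)]
        nlinarith [sq_nonneg (a - κ * m)]
  calc (m : ℝ) * (Real.exp (-(κ * (m : ℝ) ^ 2)) * (2 * Real.pi) ^ m)
      = (m : ℝ) * (Real.exp (-(κ * (m : ℝ) ^ 2)) * (2 * Real.pi) ^ m) * (m : ℝ) ^ m * ((m : ℝ)⁻¹) ^ m := by
        rw [mul_assoc _ ((m : ℝ) ^ m), ← mul_pow, mul_inv_cancel₀ hm0.ne', one_pow, mul_one]
    _ ≤ Real.exp (a ^ 2 / (2 * κ)) * Real.sqrt (8 * Real.pi / m) ^ m :=
        mul_le_mul h12 h2 (by positivity) (Real.exp_pos _).le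

section meas

variable {ι : Type} [Fintype ι] [DecidableEq ι]

private theorem meas_sm (e : Sym2 ι) : Measurable fun θ : ι → ℝ => sm θ e := by
  induction e using Sym2.ind with
  | _ i j => exact (measurable_pi_apply i).add (measurable_pi_apply j)

private theorem meas_F (E : Finset (Sym2 ι)) (w : Sym2 ι → ℝ) :
    Measurable fun θ : ι → ℝ => Real.exp (-(∑ e ∈ E, w e * nrm (sm θ e) ^ 2) / 2) := by
  apply Real.measurable_exp.comp
  apply Measurable.div_const
  apply Measurable.neg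
  apply Finset.measurable_sum
  intro e _
  exact ((measurable_nrm.comp (meas_sm e)).pow_const 2).const_mul (w e)

private theorem meas_cnt (f : ℝ → ℝ) (hf : Measurable f) :
    Measurable fun θ : ι → ℝ => ((univ.filter fun i => 1 / 8 < f (θ i)).card : ℝ) := by
  have e : (fun θ : ι → ℝ => ((univ.filter fun i => 1 / 8 < f (θ i)).card : ℝ)) =
      fun θ => ∑ i : ι, if 1 / 8 < f (θ i) then (1 : ℝ) else 0 := by
    funext θ
    rw [Finset.card_filter]
    push_cast
    rfl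
  rw [e]
  refine Finset.measurable_sum _ fun i _ => Measurable.ite ?_ measurable_const measurable_const
  exact measurableSet_lt measurable_const (hf.comp (measurable_pi_apply i))

private theorem meas_cube (f : ℝ → ℝ) (hf : Measurable f) (ρ : ℝ) :
    MeasurableSet {θ : ι → ℝ | ∀ i, f (θ i) ≤ ρ} := by
  have e : {θ : ι → ℝ | ∀ i, f (θ i) ≤ ρ} = ⋂ i, {θ | f (θ i) ≤ ρ} := by
    ext θ
    simp
  rw [e]
  exact MeasurableSet.iInter fun i => measurableSet_le (hf.comp (measurable_pi_apply i)) measurable_const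

omit [DecidableEq ι] in
private theorem meas_box : MeasurableSet (box ι) := MeasurableSet.univ_pi fun _ => measurableSet_Ioc

omit [DecidableEq ι] in
private theorem vol_box : (volume : Measure (ι → ℝ)) (box ι) = ENNReal.ofReal ((2 * Real.pi) ^ Fintype.card ι) := by
  unfold box
  rw [volume_pi, Measure.pi_pi]
  simp only [Real.volume_Ioc, Finset.prod_const, Finset.card_univ]
  rw [← ENNReal.ofReal_pow (by linarith [Real.pi_pos])]
  congr 2
  ring

omit [DecidableEq ι] in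
private theorem sm_shift (θ : ι → ℝ) (e : Sym2 ι) :
    sm (fun i => θ i + Real.pi) e = sm θ e + 2 * Real.pi * ((1 : ℤ) : ℝ) := by
  induction e using Sym2.ind with
  | _ i j =>
    rw [sm_mk, sm_mk]
    push_cast
    ring

omit [DecidableEq ι] in
private theorem sm_per (θ : ι → ℝ) (n : ι → ℤ) (e : Sym2 ι) :
    ∃ z : ℤ, sm (fun i => θ i + 2 * Real.pi * n i) e = sm θ e + 2 * Real.pi * z := by
  induction e using Sym2.ind with
  | _ i j =>
    refine ⟨n i + n j, ?_⟩
    rw [sm_mk, sm_mk]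
    push_cast
    ring

end meas

theorem jsp (c : ℝ) (hc : 0 < c) : ∃ C : ℝ, 0 < C ∧
    ∀ (ι : Type) [Fintype ι] [Nonempty ι] [DecidableEq ι] (E : Finset (Sym2 ι)) (w : Sym2 ι → ℝ), QR c E →
      (∀ e ∈ E, 6 / 25 ≤ w e ∧ w e ≤ 1 / 4) →
      ∫ θ in box ι \ (cube ι (1 / 4) ∪ cubeP ι (1 / 4)), Real.exp (-(∑ e ∈ E, w e * nrm (sm θ e) ^ 2) / 2) ≤
      C / Fintype.card ι * ∏ i, Real.sqrt (2 * Real.pi / sw E w i) := by
  obtain ⟨C1, hC1, h1⟩ := jspA c hc
  obtain ⟨c', hc', h2⟩ := energy_bad c hc (1 / 8) (by norm_num) le_rfl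
  obtain ⟨C2, hC2, h3⟩ := num (3 / 25 * c') (by positivity)
  refine ⟨C2 + 2 * C1, by positivity, ?_⟩
  intro ι _ _ _ E w hE hw
  obtain ⟨F, hF⟩ : ∃ F : (ι → ℝ) → ℝ, F = fun θ => Real.exp (-(∑ e ∈ E, w e * nrm (sm θ e) ^ 2) / 2) := ⟨_, rfl⟩
  have hA := h1 ι E w hE hw
  rw [← hF] at hA ⊢
  have hFm : Measurable F := by
    rw [hF]
    exact meas_F E w
  have hF0 : ∀ θ, 0 ≤ F θ := fun θ => by
    rw [hF]
    exact (Real.exp_pos _).le
  have hsum0 : ∀ θ : ι → ℝ, 0 ≤ ∑ e ∈ E, w e * nrm (sm θ e) ^ 2 := fun θ =>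
    Finset.sum_nonneg fun e he => mul_nonneg (by linarith [(hw e he).1]) (sq_nonneg _)
  have hF1 : ∀ θ, F θ ≤ 1 := fun θ => by
    rw [hF]
    apply Real.exp_le_one_iff.2
    linarith [hsum0 θ]
  obtain ⟨m, hm⟩ : ∃ m : ℕ, m = Fintype.card ι := ⟨_, rfl⟩
  have hm1 : 1 ≤ m := by
    rw [hm]
    exact Fintype.card_pos
  have hmr : (0 : ℝ) < m := by exact_mod_cast hm1
  obtain ⟨PP, hPP⟩ : ∃ PP : ℝ, PP = ∏ i, Real.sqrt (2 * Real.pi / sw E w i) := ⟨_, rfl⟩
  rw [← hPP, ← hm] at hA ⊢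
  have hvol : (volume : Measure (ι → ℝ)) (box ι) < ⊤ := by
    rw [vol_box]
    exact ENNReal.ofReal_lt_top
  have hint : IntegrableOn F (box ι) := by
    refine Measure.integrableOn_of_bounded (M := 1) hvol.ne hFm.aestronglyMeasurable ?_
    exact Filter.Eventually.of_forall fun θ => by
      rw [Real.norm_eq_abs, abs_of_nonneg (hF0 θ)]
      exact hF1 θ
  -- the three parts
  obtain ⟨c0, hc0⟩ : ∃ c0 : (ι → ℝ) → ℝ, c0 = fun θ => ((univ.filter fun i => 1 / 8 < nrm (θ i)).card : ℝ) := ⟨_, rfl⟩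
  obtain ⟨c1, hc1⟩ : ∃ c1 : (ι → ℝ) → ℝ, c1 = fun θ => ((univ.filter fun i => 1 / 8 < nrm (θ i - Real.pi)).card : ℝ) := ⟨_, rfl⟩
  have hc0m : Measurable c0 := by
    rw [hc0]
    exact meas_cnt nrm measurable_nrm
  have hc1m : Measurable c1 := by
    rw [hc1]
    exact meas_cnt (fun x => nrm (x - Real.pi)) (measurable_nrm.comp (measurable_id.sub_const _))
  have hcu : MeasurableSet (cube ι (1 / 4)) := meas_cube nrm measurable_nrm _
  have hcuP : MeasurableSet (cubeP ι (1 / 4)) :=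
    meas_cube (fun x => nrm (x - Real.pi)) (measurable_nrm.comp (measurable_id.sub_const _)) _
  obtain ⟨Xa, hXa⟩ : ∃ Xa : Set (ι → ℝ), Xa = box ι ∩ ({θ | c * m / 8 < c0 θ} ∩ {θ | c * m / 8 < c1 θ}) := ⟨_, rfl⟩
  obtain ⟨Sb, hSb⟩ : ∃ Sb : Set (ι → ℝ), Sb = {θ | c0 θ ≤ c * m / 8} \ cube ι (1 / 4) := ⟨_, rfl⟩
  obtain ⟨Sc, hSc⟩ : ∃ Sc : Set (ι → ℝ), Sc = {θ | c1 θ ≤ c * m / 8} \ cubeP ι (1 / 4) := ⟨_, rfl⟩
  have hXam : MeasurableSet Xa := by
    rw [hXa]
    exact meas_box.inter ((measurableSet_lt measurable_const hc0m).inter (measurableSet_lt measurable_const hc1m))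
  have hSbm : MeasurableSet Sb := by
    rw [hSb]
    exact (measurableSet_le hc0m measurable_const).diff hcu
  have hScm : MeasurableSet Sc := by
    rw [hSc]
    exact (measurableSet_le hc1m measurable_const).diff hcuP
  have hsub : box ι \ (cube ι (1 / 4) ∪ cubeP ι (1 / 4)) ⊆ Xa ∪ (box ι ∩ Sb ∪ box ι ∩ Sc) := by
    rintro θ ⟨hb, hn⟩
    rw [Set.mem_union, not_or] at hn
    rcases le_or_gt (c0 θ) (c * m / 8) with h | h
    · right
      left
      refine ⟨hb, ?_⟩
      rw [hSb]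
      exact ⟨h, hn.1⟩
    · rcases le_or_gt (c1 θ) (c * m / 8) with h' | h'
      · right
        right
        refine ⟨hb, ?_⟩
        rw [hSc]
        exact ⟨h', hn.2⟩
      · left
        rw [hXa]
        exact ⟨hb, h, h'⟩
  have hXab : Xa ⊆ box ι := by
    rw [hXa]
    exact Set.inter_subset_left
  have hIa : IntegrableOn F Xa := hint.mono_set hXab
  have hIb : IntegrableOn F (box ι ∩ Sb) := hint.mono_set Set.inter_subset_left
  have hIc : IntegrableOn F (box ι ∩ Sc) := hint.mono_set Set.inter_subset_left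
  have hmain : ∫ θ in box ι \ (cube ι (1 / 4) ∪ cubeP ι (1 / 4)), F θ ≤
      (∫ θ in Xa, F θ) + ((∫ θ in box ι ∩ Sb, F θ) + ∫ θ in box ι ∩ Sc, F θ) := by
    have hab : ∀ A B : Set (ι → ℝ), MeasurableSet B → IntegrableOn F A → IntegrableOn F B →
        ∫ θ in A ∪ B, F θ ≤ (∫ θ in A, F θ) + ∫ θ in B, F θ := by
      intro A B hB hiA hiB
      have e : A ∪ B = (A \ B) ∪ B := by
        rw [Set.sdiff_union_self]
      rw [e, setIntegral_union Set.disjoint_sdiff_left hB (hiA.mono_set Set.sdiff_subset) hiB]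
      have : ∫ θ in A \ B, F θ ≤ ∫ θ in A, F θ :=
        setIntegral_mono_set hiA (Filter.Eventually.of_forall hF0) (Set.sdiff_subset.eventuallyLE)
      linarith
    refine (setIntegral_mono_set (hIa.union (hIb.union hIc)) (Filter.Eventually.of_forall hF0)
      hsub.eventuallyLE).trans ?_
    refine (hab _ _ ((meas_box.inter hSbm).union (meas_box.inter hScm)) hIa (hIb.union hIc)).trans ?_
    have := hab _ _ (meas_box.inter hScm) hIb hIc
    linarith
  -- part (b)
  have hb : ∫ θ in box ι ∩ Sb, F θ ≤ C1 / m * PP := by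
    refine le_trans (le_of_eq ?_) hA
    congr 2
    rw [hSb, hc0]
    ext θ
    simp only [Set.mem_inter_iff, Set.mem_sdiff, Set.mem_ofPred_eq]
    tauto
  -- part (c)
  have hcc : ∫ θ in box ι ∩ Sc, F θ = ∫ θ in box ι ∩ Sb, F θ := by
    rw [← setIntegral_indicator hScm, ← setIntegral_indicator hSbm]
    have hper : ∀ (θ : ι → ℝ) (n : ι → ℤ), Sc.indicator F (fun i => θ i + 2 * Real.pi * n i) = Sc.indicator F θ := by
      intro θ n
      have e1 : F (fun i => θ i + 2 * Real.pi * n i) = F θ := by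
        rw [hF]
        simp only
        congr 3
        refine Finset.sum_congr rfl fun e _ => ?_
        obtain ⟨z, hz⟩ := sm_per θ n e
        rw [hz, nrm_add_int]
      have e2 : ∀ i, nrm (θ i + 2 * Real.pi * n i - Real.pi) = nrm (θ i - Real.pi) := by
        intro i
        rw [← nrm_add_int (θ i - Real.pi) (n i)]
        congr 1
        ring
      have e3 : (fun i => θ i + 2 * Real.pi * n i) ∈ Sc ↔ θ ∈ Sc := by
        rw [hSc, hc1]
        simp only [Set.mem_sdiff, Set.mem_ofPred_eq, cubeP, e2]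
      by_cases h : θ ∈ Sc
      · rw [Set.indicator_of_mem h, Set.indicator_of_mem (e3.2 h), e1]
      · rw [Set.indicator_of_notMem h, Set.indicator_of_notMem (fun h' => h (e3.1 h'))]
    rw [← integral_shift_real (Sc.indicator F) (hFm.indicator hScm) hper]
    congr 1
    funext θ
    have e1 : F (fun i => θ i + Real.pi) = F θ := by
      rw [hF]
      simp only
      congr 3
      refine Finset.sum_congr rfl fun e _ => ?_
      rw [sm_shift, nrm_add_int]
    have e3 : (fun i => θ i + Real.pi) ∈ Sc ↔ θ ∈ Sb := by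
      rw [hSc, hc1, hSb, hc0]
      simp only [Set.mem_sdiff, Set.mem_ofPred_eq, cubeP, cube, add_sub_cancel_right]
    by_cases h : θ ∈ Sb
    · rw [Set.indicator_of_mem h, Set.indicator_of_mem (e3.2 h), e1]
    · rw [Set.indicator_of_notMem h, Set.indicator_of_notMem (fun h' => h (e3.1 h'))]
  -- part (a)
  have hsw : ∀ i, Real.sqrt (8 * Real.pi / m) ≤ Real.sqrt (2 * Real.pi / sw E w i) := by
    intro i
    obtain ⟨b1, b2⟩ := sw_bounds hE hw i
    rw [← hm] at b1 b2
    have b3 : 0 < sw E w i := lt_of_lt_of_le (by positivity) b1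
    apply Real.sqrt_le_sqrt
    rw [div_le_div_iff₀ hmr b3]
    nlinarith [Real.pi_pos]
  have hprod : Real.sqrt (8 * Real.pi / m) ^ m ≤ PP := by
    have h4 : ∏ _i : ι, Real.sqrt (8 * Real.pi / m) ≤ ∏ i, Real.sqrt (2 * Real.pi / sw E w i) :=
      Finset.prod_le_prod (fun _ _ => Real.sqrt_nonneg _) fun i _ => hsw i
    rw [Finset.prod_const, Finset.card_univ, ← hm] at h4
    rw [hPP]
    exact h4
  have ha : ∫ θ in Xa, F θ ≤ C2 / m * PP := by
    have hbd : ∀ θ ∈ Xa, ‖F θ‖ ≤ Real.exp (-(3 / 25 * c' * (m : ℝ) ^ 2)) := by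
      intro θ hθ
      rw [hXa, hc0, hc1] at hθ
      obtain ⟨_, g1, g2⟩ := hθ
      have g3 := h2 ι E hE θ (by rw [← hm]; exact g1) (by rw [← hm]; exact g2)
      rw [← hm] at g3
      rw [Real.norm_eq_abs, abs_of_nonneg (hF0 θ), hF]
      apply Real.exp_le_exp.2
      have g4 : 6 / 25 * ∑ e ∈ E, nrm (sm θ e) ^ 2 ≤ ∑ e ∈ E, w e * nrm (sm θ e) ^ 2 := by
        rw [Finset.mul_sum]
        exact Finset.sum_le_sum fun e he => mul_le_mul_of_nonneg_right (hw e he).1 (sq_nonneg _)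
      linarith
    have hvX : (volume : Measure (ι → ℝ)) Xa ≤ ENNReal.ofReal ((2 * Real.pi) ^ m) := by
      rw [hm, ← vol_box]
      exact measure_mono hXab
    have g1 := norm_setIntegral_le_of_norm_le_const (lt_of_le_of_lt hvX ENNReal.ofReal_lt_top) hbd
    have g2 : (volume : Measure (ι → ℝ)).real Xa ≤ (2 * Real.pi) ^ m := by
      have := ENNReal.toReal_mono ENNReal.ofReal_ne_top hvX
      rw [ENNReal.toReal_ofReal (by positivity)] at this
      exact this
    have g3 : ∫ θ in Xa, F θ ≤ Real.exp (-(3 / 25 * c' * (m : ℝ) ^ 2)) * (2 * Real.pi) ^ m :=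
      (le_abs_self _).trans (g1.trans (mul_le_mul_of_nonneg_left g2 (Real.exp_pos _).le))
    have g4 := h3 m hm1
    have g5 : (m : ℝ) * ∫ θ in Xa, F θ ≤ C2 * PP :=
      (mul_le_mul_of_nonneg_left g3 hmr.le).trans (g4.trans (mul_le_mul_of_nonneg_left hprod hC2.le))
    rw [div_mul_eq_mul_div, le_div_iff₀ hmr]
    linarith
  refine hmain.trans ?_
  rw [hcc]
  have e : (C2 + 2 * C1) / (m : ℝ) * PP = C2 / m * PP + (C1 / m * PP + C1 / m * PP) := by ring
  rw [e]
  linarith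

end PLR
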