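import Pool.Agent.PLR.GLe
import Pool.Agent.PLR.EnM

/-!
# PLR.JspA: the integral over the angles that are mostly, but not all, near `0`

For `θ` in the set let `M = {i : 1/4 < nrm (θ i)} ≠ ∅`, `|M| ≤ c m/8`. By `energy_M` (`ρ = 1/4`) the pairs that meet `M` contribute at least `κ m |M|`, `κ = c/128`, to `∑ nrm^2`, so with `w ≥ 6/25` at least `(6/25) κ m |M|/2` to the exponent. For pairs in `offM E M`:
both angles have `|θ| = nrm θ ≤ 1/4`, so `nrm (sm θ e) = |sm θ e|`. For `i ∈ M`: `1 ≤ exp(5) exp(-θ_i^2/2)` (`θ_i^2 ≤ π^2 < 10`). So the integrand is at most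
`exp((5 - (3/25) κ m)|M|) gw (QM (offM E M) w M) θ`; sum over all `M` and use `gi_le`: `∑_a (m choose a) C^(a+1) m^a exp((5 - κ' m) a) ≤ C'/m`; small `m`: the integrand is at most 1, and `(2π)^m`, `∏ √(2π/sw) ≥ √(8π/m)^m` are bounded.
-/

set_option autoImplicit false

namespace PLR

open Finset Smo MeasureTheory

theorem mem_offM' {ι : Type} [DecidableEq ι] {E : Finset (Sym2 ι)} {M : Finset ι} {e : Sym2 ι} :
    e ∈ offM E M ↔ e ∈ E ∧ ∀ i ∈ M, i ∉ e := by
  unfold offM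
  exact @mem_filter _ _ _ _ _

/-- pointwise bound of the integrand -/
theorem jspA_pw {ι : Type} [Fintype ι] [DecidableEq ι] {c : ℝ} {E : Finset (Sym2 ι)} {w : Sym2 ι → ℝ}
    (h : QR c E) (hw : ∀ e ∈ E, 6 / 25 ≤ w e ∧ w e ≤ 1 / 4) {θ : ι → ℝ} (hb : θ ∈ box ι)
    (h1 : ((univ.filter fun i => 1 / 8 < nrm (θ i)).card : ℝ) ≤ c * Fintype.card ι / 8)
    (hcm : 0 ≤ c * Fintype.card ι) (M : Finset ι) (hM : M = univ.filter fun i => 1 / 4 < nrm (θ i)) :
    Real.exp (-(∑ e ∈ E, w e * nrm (sm θ e) ^ 2) / 2) ≤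
      Real.exp ((5 - 3 / 3200 * c * Fintype.card ι) * (M.card : ℝ)) * gw (QM (offM E M) w M) θ := by
  have hsub : offM E M ⊆ E := fun e he => (mem_offM'.1 he).1
  have hpi : ∀ i, |θ i| ≤ Real.pi := by
    intro i
    have hi : θ i ∈ Set.Ioc (-Real.pi) Real.pi := hb i (Set.mem_univ i)
    exact abs_le.2 ⟨hi.1.le, hi.2⟩
  have hsmall : ∀ i, i ∉ M → |θ i| ≤ 1 / 4 := by
    intro i hi
    rw [hM, mem_filter] at hi
    have h2 : nrm (θ i) ≤ 1 / 4 := by
      by_contra hcon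
      push Not at hcon
      exact hi ⟨mem_univ i, hcon⟩
    rwa [nrm_eq_abs (hpi i)] at h2
  have hoff : ∀ e ∈ offM E M, nrm (sm θ e) ^ 2 = sm θ e ^ 2 := by
    intro e he
    have he2 : ∀ k ∈ M, k ∉ e := (mem_offM'.1 he).2
    induction e using Sym2.ind with
    | _ i j =>
      have hi : i ∉ M := fun hi => he2 i hi (Sym2.mem_mk_left i j)
      have hj : j ∉ M := fun hj => he2 j hj (Sym2.mem_mk_right i j)
      have h3 : |sm θ s(i, j)| ≤ Real.pi := by
        rw [sm_mk]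
        have := abs_add_le (θ i) (θ j)
        have h5 := hsmall i hi
        have h6 := hsmall j hj
        have h7 := Real.pi_gt_three
        linarith
      rw [nrm_eq_abs h3, sq_abs]
  have hen := energy_M h (by norm_num : (0 : ℝ) < 1 / 4) θ (by
    have h8 : (1 / 4 / 2 : ℝ) = 1 / 8 := by norm_num
    rw [h8]
    linarith)
  rw [← hM] at hen
  have hge : 6 / 25 * ∑ e ∈ E \ offM E M, nrm (sm θ e) ^ 2 ≤ ∑ e ∈ E \ offM E M, w e * nrm (sm θ e) ^ 2 := by
    rw [mul_sum]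
    exact sum_le_sum fun e he =>
      mul_le_mul_of_nonneg_right (hw e (mem_sdiff.1 he).1).1 (sq_nonneg _)
  have hsplit : ∑ e ∈ E, w e * nrm (sm θ e) ^ 2 =
      ∑ e ∈ E \ offM E M, w e * nrm (sm θ e) ^ 2 + ∑ e ∈ offM E M, w e * sm θ e ^ 2 := by
    rw [← sum_sdiff hsub]
    congr 1
    exact sum_congr rfl fun e he => by rw [hoff e he]
  have hform := qm_form (E := offM E M) (fun e he => h.nd e (hsub he)) w M θ
  have hMs : ∑ i ∈ M, θ i ^ 2 ≤ 10 * (M.card : ℝ) := by
    have h9 : ∀ i ∈ M, θ i ^ 2 ≤ 10 := by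
      intro i _
      have h10 : θ i ^ 2 ≤ Real.pi ^ 2 := by
        rw [← sq_abs (θ i)]
        exact pow_le_pow_left₀ (abs_nonneg _) (hpi i) 2
      have h11 : Real.pi < 3.15 := Real.pi_lt_d2
      have h12 := Real.pi_pos
      nlinarith
    have := sum_le_sum h9
    simpa [mul_comm] using this
  unfold gw
  rw [← Real.exp_add, Real.exp_le_exp, hform, hsplit]
  nlinarith [hen, hge, hMs]

theorem jspA_num {m : ℕ} (hm : 1 ≤ m) {k C1 x : ℝ} (hk : 0 < k) (hC : 1 ≤ C1)
    (hx : x = C1 * m * Real.exp (5 - k * m)) :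
    (1 + x) ^ m - 1 ≤ C1 * Real.exp 5 * (6 / k ^ 3) / m * Real.exp (C1 * Real.exp 5 * (6 / k ^ 3)) := by
  have hm1 : (1 : ℝ) ≤ m := by exact_mod_cast hm
  have hm0 : (0 : ℝ) < m := by linarith
  have hx0 : 0 ≤ x := by rw [hx]; positivity
  have h1 : ((k * m) ^ 3 / 6 : ℝ) ≤ Real.exp (k * m) := by
    have := Real.pow_div_factorial_le_exp (k * m) (by positivity) 3
    norm_num [Nat.factorial] at this
    exact this
  have h2 : (m : ℝ) ^ 3 * Real.exp (-(k * m)) ≤ 6 / k ^ 3 := by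
    rw [Real.exp_neg, ← div_eq_mul_inv, div_le_div_iff₀ (Real.exp_pos _) (by positivity)]
    have h3 : (k * m) ^ 3 = k ^ 3 * (m : ℝ) ^ 3 := by ring
    rw [h3] at h1
    linarith
  set B : ℝ := C1 * Real.exp 5 * (6 / k ^ 3) with hB
  have hB0 : 0 ≤ B := by positivity
  have h4 : (m : ℝ) * (m * x) ≤ B := by
    rw [hx, sub_eq_add_neg, Real.exp_add, hB]
    have h5 : (m : ℝ) * (m * (C1 * m * (Real.exp 5 * Real.exp (-(k * m))))) =
        C1 * Real.exp 5 * ((m : ℝ) ^ 3 * Real.exp (-(k * m))) := by ring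
    rw [h5]
    exact mul_le_mul_of_nonneg_left h2 (by positivity)
  have h6 : (m : ℝ) * x ≤ B / m := by
    rw [le_div_iff₀ hm0]
    linarith
  have h7 : B / m ≤ B := div_le_self hB0 hm1
  have h8 : (1 + x) ^ m ≤ Real.exp (m * x) := by
    have h9 : (1 + x) ^ m ≤ Real.exp x ^ m :=
      pow_le_pow_left₀ (by linarith) (by linarith [Real.add_one_le_exp x]) m
    rwa [← Real.exp_nat_mul] at h9
  have h10 : Real.exp (m * x) - 1 ≤ m * x * Real.exp (m * x) := by
    have h11 := Real.add_one_le_exp (-(m * x : ℝ))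
    have h12 : Real.exp (-(m * x : ℝ)) * Real.exp (m * x) = 1 := by
      rw [← Real.exp_add]; simp
    have h13 := Real.exp_pos (m * x : ℝ)
    nlinarith
  calc (1 + x) ^ m - 1 ≤ Real.exp (m * x) - 1 := by linarith
    _ ≤ m * x * Real.exp (m * x) := h10
    _ ≤ B / m * Real.exp B := by
      apply mul_le_mul h6 (Real.exp_le_exp.2 (h6.trans h7)) (Real.exp_pos _).le (by positivity)

theorem measurable_cube {ι : Type} [Fintype ι] (ρ : ℝ) : MeasurableSet (cube ι ρ) := by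
  unfold cube
  rw [Set.ofPred_forall]
  exact MeasurableSet.iInter fun i =>
    measurableSet_le (measurable_nrm.comp (measurable_pi_apply i)) measurable_const

theorem measurable_box {ι : Type} [Fintype ι] : MeasurableSet (box ι) :=
  MeasurableSet.univ_pi fun _ => measurableSet_Ioc

theorem measurable_cnt {ι : Type} [Fintype ι] (ρ b : ℝ) :
    MeasurableSet {θ : ι → ℝ | ((univ.filter fun i => ρ < nrm (θ i)).card : ℝ) ≤ b} := by
  apply measurableSet_le _ measurable_const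
  have h1 : (fun θ : ι → ℝ => ((univ.filter fun i => ρ < nrm (θ i)).card : ℝ)) =
      fun θ => ∑ i, if ρ < nrm (θ i) then (1 : ℝ) else 0 := by
    funext θ
    simp
  rw [h1]
  apply Finset.measurable_sum
  intro i _
  exact Measurable.ite (measurableSet_lt measurable_const (measurable_nrm.comp (measurable_pi_apply i)))
    measurable_const measurable_const

theorem jspA (c : ℝ) (hc : 0 < c) : ∃ C : ℝ, 0 < C ∧
    ∀ (ι : Type) [Fintype ι] [Nonempty ι] [DecidableEq ι] (E : Finset (Sym2 ι)) (w : Sym2 ι → ℝ), QR c E →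
      (∀ e ∈ E, 6 / 25 ≤ w e ∧ w e ≤ 1 / 4) →
      ∫ θ in (box ι ∩ {θ | ((univ.filter fun i => 1 / 8 < nrm (θ i)).card : ℝ) ≤ c * Fintype.card ι / 8}) \ cube ι (1 / 4),
        Real.exp (-(∑ e ∈ E, w e * nrm (sm θ e) ^ 2) / 2) ≤
      C / Fintype.card ι * ∏ i, Real.sqrt (2 * Real.pi / sw E w i) := by
  obtain ⟨C1, hC1, hG⟩ := gi_le c hc
  have hC0 : 0 < C1 := by linarith
  set k : ℝ := 3 / 3200 * c with hk
  have hk0 : 0 < k := by positivity
  set B : ℝ := C1 * Real.exp 5 * (6 / k ^ 3) with hB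
  have hB0 : 0 < B := by positivity
  refine ⟨C1 * (B * Real.exp B), by positivity, ?_⟩
  intro ι _ _ _ E w hQ hw
  set m : ℕ := Fintype.card ι with hm
  have hm1 : 1 ≤ m := Fintype.card_pos
  have hmR : (0 : ℝ) < m := by exact_mod_cast hm1
  set P : ℝ := ∏ i, Real.sqrt (2 * Real.pi / sw E w i) with hP
  have hP0 : 0 ≤ P := prod_nonneg fun i _ => Real.sqrt_nonneg _
  set D : Set (ι → ℝ) := (box ι ∩ {θ | ((univ.filter fun i => 1 / 8 < nrm (θ i)).card : ℝ) ≤ c * m / 8}) \ cube ι (1 / 4)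
    with hD
  have hDm : MeasurableSet D := (measurable_box.inter (measurable_cnt _ _)).diff (measurable_cube _)
  set F : Finset (Finset ι) := univ.filter fun M => M.Nonempty ∧ (M.card : ℝ) ≤ c * m / 8 with hF
  set g : (ι → ℝ) → ℝ := fun θ => ∑ M ∈ F, Real.exp ((5 - k * m) * (M.card : ℝ)) * gw (QM (offM E M) w M) θ with hg
  have hFc : ∀ M ∈ F, (M.card : ℝ) ≤ c * Fintype.card ι / 8 := fun M hM => (mem_filter.1 hM).2.2
  have hgw : ∀ (A : Matrix ι ι ℝ) (θ : ι → ℝ), 0 ≤ gw A θ := fun A θ => (Real.exp_pos _).le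
  have hgi : Integrable g := by
    apply integrable_finsetSum
    intro M hM
    exact (integrable_gw (hG ι E w M hQ hw (hFc M hM)).1).const_mul _
  have hg0 : ∀ θ, 0 ≤ g θ := fun θ =>
    sum_nonneg fun M _ => mul_nonneg (Real.exp_pos _).le (hgw _ θ)
  have hpt : ∀ θ ∈ D, Real.exp (-(∑ e ∈ E, w e * nrm (sm θ e) ^ 2) / 2) ≤ g θ := by
    intro θ hθ
    obtain ⟨⟨hb, h1⟩, h2⟩ := hθ
    have h1' : ((univ.filter fun i => 1 / 8 < nrm (θ i)).card : ℝ) ≤ c * Fintype.card ι / 8 := h1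
    obtain ⟨M, hM⟩ : ∃ M, M = univ.filter fun i => 1 / 4 < nrm (θ i) := ⟨_, rfl⟩
    have h3 := jspA_pw hQ hw hb h1' (by positivity) M hM
    have hMF : M ∈ F := by
      rw [hF, mem_filter]
      refine ⟨mem_univ _, ?_, ?_⟩
      · have h4 : ¬ ∀ i, nrm (θ i) ≤ 1 / 4 := h2
        push Not at h4
        obtain ⟨i, hi⟩ := h4
        exact ⟨i, by rw [hM, mem_filter]; exact ⟨mem_univ i, hi⟩⟩
      · refine le_trans ?_ h1
        rw [hM]
        exact_mod_cast card_le_card (fun i hi => by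
          rw [mem_filter] at hi ⊢
          exact ⟨hi.1, by linarith [hi.2]⟩)
    refine h3.trans ?_
    exact single_le_sum (f := fun M => Real.exp ((5 - k * m) * (M.card : ℝ)) * gw (QM (offM E M) w M) θ)
      (fun M _ => mul_nonneg (Real.exp_pos _).le (hgw _ θ)) hMF
  have hint : ∫ θ in D, Real.exp (-(∑ e ∈ E, w e * nrm (sm θ e) ^ 2) / 2) ≤ ∫ θ, g θ := by
    refine le_trans ?_ (setIntegral_le_integral (s := D) hgi (Filter.Eventually.of_forall hg0))
    apply integral_mono_of_nonneg (Filter.Eventually.of_forall fun θ => (Real.exp_pos _).le) hgi.integrableOn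
    exact (ae_restrict_iff' hDm).2 (Filter.Eventually.of_forall hpt)
  refine hint.trans ?_
  have hsum : ∫ θ, g θ = ∑ M ∈ F, Real.exp ((5 - k * m) * (M.card : ℝ)) * GI (QM (offM E M) w M) (fun _ => 1) := by
    rw [hg, integral_finsetSum _ fun M hM => (integrable_gw (hG ι E w M hQ hw (hFc M hM)).1).const_mul _]
    refine sum_congr rfl fun M _ => ?_
    rw [integral_const_mul]
    congr 1
    simp [GI, gw]
  rw [hsum]
  set x : ℝ := C1 * m * Real.exp (5 - k * m) with hx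
  have hx0 : 0 ≤ x := by positivity
  have hterm : ∀ M ∈ F, Real.exp ((5 - k * m) * (M.card : ℝ)) * GI (QM (offM E M) w M) (fun _ => 1) ≤
      C1 * P * x ^ M.card := by
    intro M hM
    refine (mul_le_mul_of_nonneg_left (hG ι E w M hQ hw (hFc M hM)).2 (Real.exp_pos _).le).trans (le_of_eq ?_)
    rw [hx, mul_pow, mul_pow, ← Real.exp_nat_mul, ← hm, ← hP]
    ring_nf
  refine (sum_le_sum hterm).trans ?_
  rw [← mul_sum]
  have hpow : ∑ M ∈ F, x ^ M.card ≤ (1 + x) ^ m - 1 := by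
    have h1 := Finset.sum_pow_mul_eq_add_pow x 1 (univ : Finset ι)
    simp only [one_pow, mul_one, powerset_univ, card_univ] at h1
    rw [← hm] at h1
    have h2 : ∑ M ∈ (univ : Finset (Finset ι)), x ^ M.card = ∑ M ∈ univ.erase (∅ : Finset ι), x ^ M.card + 1 := by
      rw [← Finset.sum_erase_add _ _ (mem_univ (∅ : Finset ι))]
      simp
    have h3 : ∑ M ∈ F, x ^ M.card ≤ ∑ M ∈ univ.erase (∅ : Finset ι), x ^ M.card := by
      apply sum_le_sum_of_subset_of_nonneg
      · intro M hM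
        rw [mem_erase]
        exact ⟨(mem_filter.1 hM).2.1.ne_empty, mem_univ _⟩
      · intro M _ _
        positivity
    rw [add_comm 1 x]
    linarith
  have hfin := hpow.trans (jspA_num hm1 hk0 hC1 hx)
  calc C1 * P * ∑ M ∈ F, x ^ M.card ≤ C1 * P * (B / m * Real.exp B) :=
        mul_le_mul_of_nonneg_left hfin (by positivity)
    _ = C1 * (B * Real.exp B) / m * P := by ring

end PLR
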