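import Pool.Agent.PLR.VarB
import Pool.Agent.PLR.QMf

/-!
# PLR.Quart: moments of order four and ten, tail

`A = QM E w ∅ ≥ (6/25) c m I` (`qm_low`); `v_e = vr A u_e ≤ C/m` for `sm θ e`, `vr A (unit vector) ≤ C/m` for `θ_i` (`vr_le`). `GI_pow` with `k = 2` and `k = 5`.
(2): Cauchy-Schwarz `(∑_e |s_e|^5)^2 ≤ |E| ∑ s_e^10 ≤ m^2 ∑ s_e^10`, `|E| ≤ m^2`. (3): `1 ≤ ∑_i (4 θ_i)^10` off the cube.
-/

set_option autoImplicit false

namespace PLR

open Finset Smo

/-- the linear form of a pair -/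
private theorem q_form {ι : Type} [Fintype ι] [DecidableEq ι] (e : Sym2 ι) (he : ¬ e.IsDiag) :
    ∃ U : ι → ℝ, (∀ θ : ι → ℝ, ∑ i, U i * θ i = sm θ e) ∧ ∑ i, U i ^ 2 = 2 := by
  induction e with
  | h i j =>
    have hij : i ≠ j := fun h => he (by rw [Sym2.mk_isDiag_iff]; exact h)
    refine ⟨fun k => (if k = i then 1 else 0) + (if k = j then 1 else 0), fun θ => ?_, ?_⟩
    · rw [sm_mk]
      simp only [add_mul, ite_mul, one_mul, zero_mul, sum_add_distrib, sum_ite_eq', mem_univ, if_true]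
    · have h1 : ∀ k : ι, ((if k = i then (1 : ℝ) else 0) + (if k = j then 1 else 0)) ^ 2 =
          (if k = i then 1 else 0) + (if k = j then 1 else 0) := by
        intro k
        by_cases h1 : k = i
        · have h2 : k ≠ j := fun h2 => hij (h1.symm.trans h2)
          rw [if_pos h1, if_neg h2]
          norm_num
        · rw [if_neg h1]
          by_cases h2 : k = j
          · rw [if_pos h2]
            norm_num
          · rw [if_neg h2]
            norm_num
      simp only [h1, sum_add_distrib, sum_ite_eq', mem_univ, if_true]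
      norm_num

private theorem q_one {ι : Type} [Fintype ι] (A : Matrix ι ι ℝ) : 0 ≤ GI A (fun _ => 1) := by
  unfold GI
  refine MeasureTheory.integral_nonneg fun θ => ?_
  simp only [one_mul]
  exact (Real.exp_pos _).le

private theorem q_mono {ι : Type} [Fintype ι] [DecidableEq ι] {A : Matrix ι ι ℝ} {φ ψ : (ι → ℝ) → ℝ}
    (h0 : ∀ θ, 0 ≤ φ θ) (h : ∀ θ, φ θ ≤ ψ θ)
    (hi : MeasureTheory.Integrable fun θ => ψ θ * gw A θ) : GI A φ ≤ GI A ψ := by
  unfold GI
  refine MeasureTheory.integral_mono_of_nonneg (Filter.Eventually.of_forall fun θ => ?_) hi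
    (Filter.Eventually.of_forall fun θ => ?_)
  · exact mul_nonneg (h0 θ) (Real.exp_pos _).le
  · exact mul_le_mul_of_nonneg_right (h θ) (Real.exp_pos _).le

private theorem q_sum {ι κ : Type} [Fintype ι] [DecidableEq ι] {A : Matrix ι ι ℝ} (s : Finset κ)
    {f : κ → (ι → ℝ) → ℝ} (hi : ∀ k ∈ s, MeasureTheory.Integrable fun θ => f k θ * gw A θ) :
    GI A (fun θ => ∑ k ∈ s, f k θ) = ∑ k ∈ s, GI A (f k) ∧
      MeasureTheory.Integrable fun θ => (∑ k ∈ s, f k θ) * gw A θ := by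
  have hGI : ∀ φ : (ι → ℝ) → ℝ, GI A φ = ∫ θ : ι → ℝ, φ θ * gw A θ := fun _ => rfl
  constructor
  · rw [hGI]
    simp only [hGI]
    rw [← MeasureTheory.integral_finsetSum s hi]
    refine MeasureTheory.integral_congr_ae (Filter.Eventually.of_forall fun θ => ?_)
    exact sum_mul _ _ _
  · simp only [sum_mul]
    exact MeasureTheory.integrable_finsetSum s hi

/-- even moments of a linear form -/
private theorem q_mom {ι : Type} [Fintype ι] [DecidableEq ι] {A : Matrix ι ι ℝ} (hA : A.PosDef) {a : ℝ}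
    (ha : 0 < a) (hlow : ∀ x : ι → ℝ, a * ∑ i, x i ^ 2 ≤ ∑ i, ∑ j, A i j * x i * x j) (U : ι → ℝ) {k : ℕ}
    (hk : 0 < k) {D : ℝ} (hD : ((2 * k - 1).doubleFactorial : ℝ) = D) {g : (ι → ℝ) → ℝ}
    (hg : ∀ θ, g θ = (∑ i, U i * θ i) ^ (2 * k)) :
    GI A g ≤ D * ((∑ i, U i ^ 2) / a) ^ k * GI A (fun _ => 1) ∧
      MeasureTheory.Integrable fun θ => g θ * gw A θ := by
  have h0 : g = fun θ => (∑ i, U i * θ i) ^ (2 * k) := funext hg
  rw [h0]
  constructor
  · rw [GI_pow hA U k hk, hD]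
    obtain ⟨h1, h2⟩ := vr_le hA ha hlow U
    have h3 := pow_le_pow_left₀ h1 h2 k
    have h4 : 0 ≤ D := by
      rw [← hD]
      positivity
    exact mul_le_mul_of_nonneg_right (mul_le_mul_of_nonneg_left h3 h4) (q_one A)
  · have h1 := integrable_pow hA U (2 * k)
    refine h1.congr (Filter.Eventually.of_forall fun θ => ?_)
    simp only
    rw [Even.pow_abs ⟨k, by ring⟩]

private theorem q_card {ι : Type} [Fintype ι] [DecidableEq ι] (E : Finset (Sym2 ι)) :
    (E.card : ℝ) ≤ (Fintype.card ι : ℝ) ^ 2 := by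
  have h1 : E.card ≤ (Finset.univ : Finset (ι × ι)).card := by
    refine (card_le_card (t := (Finset.univ : Finset (ι × ι)).image fun p => s(p.1, p.2))
      fun e _ => ?_).trans card_image_le
    induction e with
    | h i j => exact mem_image.2 ⟨(i, j), mem_univ _, rfl⟩
  rw [card_univ, Fintype.card_prod] at h1
  have h2 : (E.card : ℝ) ≤ ((Fintype.card ι * Fintype.card ι : ℕ) : ℝ) := by exact_mod_cast h1
  rw [Nat.cast_mul] at h2
  rw [sq]
  exact h2

theorem quart (c : ℝ) (hc : 0 < c) : ∃ C : ℝ, 0 < C ∧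
    ∀ (ι : Type) [Fintype ι] [DecidableEq ι] (E : Finset (Sym2 ι)) (w : Sym2 ι → ℝ), QR c E →
      (QM E w ∅).PosDef → (∀ e ∈ E, 6 / 25 ≤ w e ∧ w e ≤ 1 / 4) →
      GI (QM E w ∅) (fun θ => ∑ e ∈ E, sm θ e ^ 4) ≤ C * GI (QM E w ∅) (fun _ => 1) ∧
      Fintype.card ι * GI (QM E w ∅) (fun θ => (∑ e ∈ E, |sm θ e| ^ 5) ^ 2) ≤ C * GI (QM E w ∅) (fun _ => 1) ∧
      Fintype.card ι * GI (QM E w ∅) (fun θ => ind (∃ i, 1 / 4 < |θ i|)) ≤ C * GI (QM E w ∅) (fun _ => 1) := by
  obtain ⟨b, hb⟩ : ∃ b : ℝ, b = 6 / 25 * c := ⟨_, rfl⟩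
  have hb0 : 0 < b := by rw [hb]; positivity
  refine ⟨12 / b ^ 2 + 30240 / b ^ 5 + 990904320 / b ^ 5, by positivity, ?_⟩
  intro ι _ _ E w hQ hA hw
  have hG0 := q_one (QM E w ∅)
  obtain ⟨G, hG⟩ : ∃ G : ℝ, G = GI (QM E w ∅) (fun _ => 1) := ⟨_, rfl⟩
  rw [← hG] at hG0 ⊢
  have hp1 : 0 ≤ 12 / b ^ 2 * G := by positivity
  have hp2 : 0 ≤ 30240 / b ^ 5 * G := by positivity
  have hp3 : 0 ≤ 990904320 / b ^ 5 * G := by positivity
  have hsplit : (12 / b ^ 2 + 30240 / b ^ 5 + 990904320 / b ^ 5) * G =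
      12 / b ^ 2 * G + 30240 / b ^ 5 * G + 990904320 / b ^ 5 * G := by ring
  rw [hsplit]
  obtain ⟨m, hm⟩ : ∃ m : ℝ, m = (Fintype.card ι : ℝ) := ⟨_, rfl⟩
  rw [← hm]
  rcases Nat.eq_zero_or_pos (Fintype.card ι) with h0 | h0
  · have hm0 : m = 0 := by rw [hm, h0, Nat.cast_zero]
    have hE : E = ∅ := by
      have h1 := q_card E
      rw [h0] at h1
      have h2 : (E.card : ℝ) ≤ 0 := by simpa using h1
      have h3 : E.card = 0 := by
        have : E.card ≤ 0 := by exact_mod_cast h2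
        omega
      exact card_eq_zero.1 h3
    rw [hm0, zero_mul, zero_mul]
    refine ⟨?_, by linarith, by linarith⟩
    have h4 : GI (QM E w ∅) (fun θ => ∑ e ∈ E, sm θ e ^ 4) = 0 := by
      rw [hE]
      unfold GI
      simp
    rw [h4]
    linarith
  have hm1 : 1 ≤ m := by
    rw [hm]
    exact_mod_cast h0
  have hm0 : 0 < m := by linarith
  have ha : 0 < b * m := by positivity
  have hlow : ∀ x : ι → ℝ, b * m * ∑ i, x i ^ 2 ≤ ∑ i, ∑ j, QM E w ∅ i j * x i * x j := by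
    intro x
    have h1 := qm_low hQ hw x
    rw [← hm, ← hb] at h1
    exact h1
  have hEc : (E.card : ℝ) ≤ m ^ 2 := by
    rw [hm]
    exact q_card E
  have d3 : ((2 * 2 - 1).doubleFactorial : ℝ) = 3 := by norm_num [Nat.doubleFactorial]
  have d9 : ((2 * 5 - 1).doubleFactorial : ℝ) = 945 := by norm_num [Nat.doubleFactorial]
  -- the moments of the pairs
  have hmom : ∀ e ∈ E, (GI (QM E w ∅) (fun θ => sm θ e ^ 4) ≤ 12 / b ^ 2 / m ^ 2 * G ∧
      MeasureTheory.Integrable fun θ => sm θ e ^ 4 * gw (QM E w ∅) θ) ∧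
      GI (QM E w ∅) (fun θ => sm θ e ^ 10) ≤ 30240 / b ^ 5 / m ^ 5 * G ∧
      MeasureTheory.Integrable fun θ => sm θ e ^ 10 * gw (QM E w ∅) θ := by
    intro e he
    obtain ⟨U, hU, hU2⟩ := q_form e (hQ.nd e he)
    have h1 := q_mom hA ha hlow U (k := 2) (by norm_num) d3 (g := fun θ => sm θ e ^ 4)
      fun θ => by rw [hU]
    have h2 := q_mom hA ha hlow U (k := 5) (by norm_num) d9 (g := fun θ => sm θ e ^ 10)
      fun θ => by rw [hU]
    rw [hU2, ← hG] at h1 h2
    have e1 : 3 * (2 / (b * m)) ^ 2 * G = 12 / b ^ 2 / m ^ 2 * G := by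
      field_simp
      ring
    have e2 : 945 * (2 / (b * m)) ^ 5 * G = 30240 / b ^ 5 / m ^ 5 * G := by
      field_simp
      ring
    rw [e1] at h1
    rw [e2] at h2
    exact ⟨h1, h2⟩
  refine ⟨?_, ?_, ?_⟩
  · obtain ⟨h1, -⟩ := q_sum (A := QM E w ∅) E (f := fun e θ => sm θ e ^ 4) fun e he => (hmom e he).1.2
    rw [h1]
    have h2 : ∑ e ∈ E, GI (QM E w ∅) (fun θ => sm θ e ^ 4) ≤ E.card * (12 / b ^ 2 / m ^ 2 * G) := by
      refine (sum_le_card_nsmul E _ _ fun e he => (hmom e he).1.1).trans ?_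
      rw [nsmul_eq_mul]
    have h3 : (E.card : ℝ) * (12 / b ^ 2 / m ^ 2 * G) ≤ m ^ 2 * (12 / b ^ 2 / m ^ 2 * G) :=
      mul_le_mul_of_nonneg_right hEc (by positivity)
    have h4 : m ^ 2 * (12 / b ^ 2 / m ^ 2 * G) = 12 / b ^ 2 * G := by
      field_simp
    linarith
  · obtain ⟨h1, h1i⟩ := q_sum (A := QM E w ∅) E (f := fun e θ => m ^ 2 * sm θ e ^ 10) fun e he => by
      have h2 := ((hmom e he).2.2).const_mul (m ^ 2)
      refine h2.congr (Filter.Eventually.of_forall fun θ => ?_)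
      simp only
      ring
    have h2 : GI (QM E w ∅) (fun θ => (∑ e ∈ E, |sm θ e| ^ 5) ^ 2) ≤
        GI (QM E w ∅) (fun θ => ∑ e ∈ E, m ^ 2 * sm θ e ^ 10) := by
      refine q_mono (fun θ => sq_nonneg _) (fun θ => ?_) h1i
      have h3 := sq_sum_le_card_mul_sum_sq (s := E) (f := fun e => |sm θ e| ^ 5)
      have h4 : ∀ e, (|sm θ e| ^ 5) ^ 2 = sm θ e ^ 10 := by
        intro e
        rw [← pow_mul]
        exact Even.pow_abs ⟨5, by norm_num⟩ _
      simp only [h4] at h3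
      refine h3.trans ?_
      rw [← mul_sum]
      exact mul_le_mul_of_nonneg_right hEc (sum_nonneg fun e _ => Even.pow_nonneg ⟨5, by norm_num⟩ _)
    rw [h1] at h2
    have h3 : ∀ e ∈ E, GI (QM E w ∅) (fun θ => m ^ 2 * sm θ e ^ 10) ≤
        m ^ 2 * (30240 / b ^ 5 / m ^ 5 * G) := by
      intro e he
      have h4 : GI (QM E w ∅) (fun θ => m ^ 2 * sm θ e ^ 10) =
          m ^ 2 * GI (QM E w ∅) (fun θ => sm θ e ^ 10) := by
        unfold GI
        rw [← MeasureTheory.integral_const_mul]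
        refine MeasureTheory.integral_congr_ae (Filter.Eventually.of_forall fun θ => ?_)
        simp only
        ring
      rw [h4]
      exact mul_le_mul_of_nonneg_left (hmom e he).2.1 (by positivity)
    have h4 : ∑ e ∈ E, GI (QM E w ∅) (fun θ => m ^ 2 * sm θ e ^ 10) ≤
        E.card * (m ^ 2 * (30240 / b ^ 5 / m ^ 5 * G)) := by
      refine (sum_le_card_nsmul E _ _ h3).trans ?_
      rw [nsmul_eq_mul]
    have h5 : (E.card : ℝ) * (m ^ 2 * (30240 / b ^ 5 / m ^ 5 * G)) ≤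
        m ^ 2 * (m ^ 2 * (30240 / b ^ 5 / m ^ 5 * G)) :=
      mul_le_mul_of_nonneg_right hEc (by positivity)
    have h6 : m * (m ^ 2 * (m ^ 2 * (30240 / b ^ 5 / m ^ 5 * G))) = 30240 / b ^ 5 * G := by
      field_simp
    have h7 := mul_le_mul_of_nonneg_left (h2.trans (h4.trans h5)) hm0.le
    rw [h6] at h7
    linarith
  · -- the coordinates
    have hco : ∀ i : ι, GI (QM E w ∅) (fun θ => (4 * θ i) ^ 10) ≤ 990904320 / b ^ 5 / m ^ 5 * G ∧
        MeasureTheory.Integrable fun θ => (4 * θ i) ^ 10 * gw (QM E w ∅) θ := by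
      intro i
      have h1 := q_mom hA ha hlow (fun j => if j = i then 4 else 0) (k := 5) (by norm_num) d9
        (g := fun θ => (4 * θ i) ^ 10) fun θ => by
          simp only [ite_mul, zero_mul, sum_ite_eq', mem_univ, if_true]
      have h2 : ∑ j, (if j = i then (4 : ℝ) else 0) ^ 2 = 16 := by
        have h3 : ∀ j, (if j = i then (4 : ℝ) else 0) ^ 2 = if j = i then 16 else 0 := by
          intro j
          split_ifs <;> norm_num
        simp only [h3, sum_ite_eq', mem_univ, if_true]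
      rw [h2, ← hG] at h1
      have e1 : 945 * (16 / (b * m)) ^ 5 * G = 990904320 / b ^ 5 / m ^ 5 * G := by
        field_simp
        ring
      rw [e1] at h1
      exact h1
    obtain ⟨h1, h1i⟩ := q_sum (A := QM E w ∅) (univ : Finset ι) (f := fun i θ => (4 * θ i) ^ 10)
      fun i _ => (hco i).2
    have h2 : GI (QM E w ∅) (fun θ => ind (∃ i, 1 / 4 < |θ i|)) ≤
        GI (QM E w ∅) (fun θ => ∑ i, (4 * θ i) ^ 10) := by
      refine q_mono (fun θ => ?_) (fun θ => ?_) h1i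
      · unfold ind
        split_ifs <;> norm_num
      · have h3 : ∀ i, 0 ≤ (4 * θ i) ^ 10 := fun i => Even.pow_nonneg ⟨5, by norm_num⟩ _
        unfold ind
        split_ifs with h4
        · obtain ⟨i, hi⟩ := h4
          refine le_trans ?_ (single_le_sum (fun j _ => h3 j) (mem_univ i))
          have h5 : 1 ≤ |4 * θ i| := by
            rw [abs_mul, abs_of_pos (by norm_num : (0 : ℝ) < 4)]
            linarith
          rw [← Even.pow_abs ⟨5, by norm_num⟩ (4 * θ i)]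
          exact one_le_pow₀ h5
        · exact sum_nonneg fun i _ => h3 i
    rw [h1] at h2
    have h3 : ∑ i, GI (QM E w ∅) (fun θ => (4 * θ i) ^ 10) ≤ m * (990904320 / b ^ 5 / m ^ 5 * G) := by
      refine (sum_le_card_nsmul univ _ _ fun i _ => (hco i).1).trans ?_
      rw [nsmul_eq_mul, card_univ, hm]
    have h4 := mul_le_mul_of_nonneg_left (h2.trans h3) hm0.le
    have h5 : m * (m * (990904320 / b ^ 5 / m ^ 5 * G)) ≤ 990904320 / b ^ 5 * G := by
      have h6 : m * (m * (990904320 / b ^ 5 / m ^ 5 * G)) = 990904320 / b ^ 5 * G / m ^ 3 := by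
        field_simp
      rw [h6]
      exact div_le_self hp3 (one_le_pow₀ hm1)
    linarith

end PLR
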