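import Pool.Agent.PLR.ChiU
import Pool.Agent.PLR.ChiL
import Pool.Agent.PLR.GLe
import Pool.Agent.PLR.Cubic
import Pool.Agent.PLR.Quart

/-!
# PLR.LMain: lower bound for the main part of the Fourier integral

On `box ∩ cube (1/4)`: `|θ_i| = nrm θ_i ≤ 1/4`, `|sm θ e| ≤ 1/2`. `chi_arg`: the product is `∏ ‖chi‖ exp(i F)`, `F = ∑ b_e`, so its real part is at least `∏ ‖chi‖ (1 - F^2/2)`, and `∏ ‖chi‖ ≤ gw A θ` (`norm_chi_le`), `A = QM E w ∅`, `w = p(1-p)`.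
`F^2 ≤ 2 (∑ κ_e s_e^3)^2 + 2 (η ∑ |s_e|^5)^2` with `|κ_e| ≤ η` (`chi_arg`): by `cubic` and `quart` the `F^2` part is at most `C (η^2 + η^2/m) GI A 1`.
`∏ ‖chi‖ ≥ gw A θ exp(-∑ s^4) ≥ gw A θ exp(-K) (1 + K - ∑ s^4)`, and the part outside the cube is at most `(C/m) GI A 1` (`quart`). Finally `gi_ge`. (`Vr E p i = sw E w i`.) First choose `K`, then `η₀` small.
-/

set_option autoImplicit false

namespace PLR

open Finset Smo

section aux

variable {ι : Type*} [Fintype ι] [DecidableEq ι]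

private theorem lm_lin (e : Sym2 ι) : ∃ u : ι → ℝ, ∀ θ : ι → ℝ, sm θ e = ∑ i, u i * θ i := by
  induction e with
  | _ a b =>
    refine ⟨fun i => (if i = a then 1 else 0) + (if i = b then 1 else 0), fun θ => ?_⟩
    simp [add_mul, Finset.sum_add_distrib]

private theorem lm_cont (e : Sym2 ι) : Continuous fun θ : ι → ℝ => sm θ e := by
  obtain ⟨u, hu⟩ := lm_lin e
  simp only [hu]
  fun_prop

private theorem lm_int {A : Matrix ι ι ℝ} (hA : A.PosDef) (e : Sym2 ι) (k : ℕ) :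
    MeasureTheory.Integrable (fun θ : ι → ℝ => |sm θ e| ^ k * gw A θ) := by
  obtain ⟨u, hu⟩ := lm_lin e
  simpa [hu] using integrable_pow hA u k

omit [DecidableEq ι] in
private theorem lm_gw_cont (A : Matrix ι ι ℝ) : Continuous (gw A) := by
  unfold gw
  fun_prop

omit [DecidableEq ι] in
private theorem lm_gw_pos (A : Matrix ι ι ℝ) (θ : ι → ℝ) : 0 < gw A θ := Real.exp_pos _

/-- squares of sums of powers are integrable -/
private theorem lm_int_sq {A : Matrix ι ι ℝ} (hA : A.PosDef) (E : Finset (Sym2 ι)) (κ : Sym2 ι → ℝ) (k : ℕ)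
    (f : ℝ → ℝ) (hf : Continuous f) (hfk : ∀ x, |f x| ≤ |x| ^ k) :
    MeasureTheory.Integrable (fun θ : ι → ℝ => (∑ e ∈ E, κ e * f (sm θ e)) ^ 2 * gw A θ) := by
  have hdom : MeasureTheory.Integrable (fun θ : ι → ℝ => ∑ e ∈ E, (E.card : ℝ) * κ e ^ 2 * (|sm θ e| ^ (2 * k) * gw A θ)) := by
    refine MeasureTheory.integrable_finsetSum _ fun e _ => (lm_int hA e (2 * k)).const_mul _
  refine hdom.mono' ?_ (Filter.Eventually.of_forall fun θ => ?_)
  · refine Continuous.aestronglyMeasurable ?_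
    refine ((continuous_finsetSum _ fun e _ => continuous_const.mul (hf.comp (lm_cont e))).pow 2).mul (lm_gw_cont A)
  · rw [Real.norm_eq_abs, abs_mul, abs_of_pos (lm_gw_pos A θ), abs_of_nonneg (sq_nonneg _)]
    have h1 : (∑ e ∈ E, κ e * f (sm θ e)) ^ 2 ≤ E.card * ∑ e ∈ E, (κ e * f (sm θ e)) ^ 2 := sq_sum_le_card_mul_sum_sq
    have h2 : ∑ e ∈ E, (κ e * f (sm θ e)) ^ 2 ≤ ∑ e ∈ E, κ e ^ 2 * |sm θ e| ^ (2 * k) := by
      refine Finset.sum_le_sum fun e _ => ?_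
      rw [mul_pow, mul_comm 2 k, pow_mul]
      refine mul_le_mul_of_nonneg_left ?_ (sq_nonneg _)
      rw [← sq_abs]
      exact pow_le_pow_left₀ (abs_nonneg _) (hfk _) 2
    calc (∑ e ∈ E, κ e * f (sm θ e)) ^ 2 * gw A θ ≤ (E.card * ∑ e ∈ E, κ e ^ 2 * |sm θ e| ^ (2 * k)) * gw A θ := by
          refine mul_le_mul_of_nonneg_right (h1.trans ?_) (lm_gw_pos A θ).le
          exact mul_le_mul_of_nonneg_left h2 (Nat.cast_nonneg _)
      _ = _ := by
          rw [Finset.mul_sum, Finset.sum_mul]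
          refine Finset.sum_congr rfl fun e _ => by ring

omit [Fintype ι] [DecidableEq ι] in
private theorem lm_dom : box ι ∩ cube ι (1 / 4) = Set.Icc (fun _ : ι => (-(1 / 4) : ℝ)) (fun _ => 1 / 4) := by
  ext θ
  simp only [box, cube, Set.mem_inter_iff, Set.mem_pi, Set.mem_univ, forall_true_left, Set.mem_Ioc, Set.mem_ofPred_eq,
    Set.mem_Icc, Pi.le_def]
  have hpi := Real.pi_gt_three
  constructor
  · rintro ⟨h1, h2⟩
    have : ∀ i, |θ i| ≤ 1 / 4 := fun i => by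
      have := h2 i
      rwa [nrm_eq_abs (abs_le.2 ⟨(h1 i).1.le, (h1 i).2⟩)] at this
    exact ⟨fun i => (abs_le.1 (this i)).1, fun i => (abs_le.1 (this i)).2⟩
  · rintro ⟨h1, h2⟩
    refine ⟨fun i => ⟨by linarith [h1 i], by linarith [h2 i]⟩, fun i => ?_⟩
    have : |θ i| ≤ 1 / 4 := abs_le.2 ⟨h1 i, h2 i⟩
    rw [nrm_eq_abs (by linarith)]
    exact this

private noncomputable def lmK (p : Sym2 ι → ℝ) (e : Sym2 ι) : ℝ := (2 * p e - 1) * (1 - (2 * p e - 1) ^ 2) / 24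

private theorem lm_pt {E : Finset (Sym2 ι)} {p : Sym2 ι → ℝ} {η : ℝ} (hE : ∀ e ∈ E, ¬ e.IsDiag)
    (hη : η ≤ 1 / 10) (hp : ∀ e ∈ E, |2 * p e - 1| ≤ η) (K : ℝ) {θ : ι → ℝ}
    (hθ : θ ∈ Set.Icc (fun _ : ι => (-(1 / 4) : ℝ)) (fun _ => 1 / 4)) :
    Real.exp (-K) * (1 + K) * gw (QM E (fun e => p e * (1 - p e)) ∅) θ -
      Real.exp (-K) * ((∑ e ∈ E, sm θ e ^ 4) * gw (QM E (fun e => p e * (1 - p e)) ∅) θ) -
      (∑ e ∈ E, lmK p e * sm θ e ^ 3) ^ 2 * gw (QM E (fun e => p e * (1 - p e)) ∅) θ -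
      η ^ 2 * ((∑ e ∈ E, |sm θ e| ^ 5) ^ 2 * gw (QM E (fun e => p e * (1 - p e)) ∅) θ) ≤
    (∏ e ∈ E, (Complex.exp (-(Complex.I * (p e : ℂ) * (sm θ e : ℂ))) * chi (p e) (sm θ e))).re := by
  have hpi := Real.pi_gt_three
  have hs : ∀ e : Sym2 ι, |sm θ e| ≤ 1 / 2 := by
    intro e
    induction e with
    | _ a b =>
      rw [sm_mk, abs_le]
      have h1 := hθ.1 a
      have h2 := hθ.1 b
      have h3 := hθ.2 a
      have h4 := hθ.2 b
      simp only at h1 h2 h3 h4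
      constructor <;> linarith
  have hex : ∀ e ∈ E, ∃ b : ℝ, Complex.exp (-(Complex.I * (p e : ℂ) * (sm θ e : ℂ))) * chi (p e) (sm θ e) =
      (‖chi (p e) (sm θ e)‖ : ℂ) * Complex.exp (Complex.I * (b : ℂ)) ∧
      |b - (2 * p e - 1) * (1 - (2 * p e - 1) ^ 2) / 24 * sm θ e ^ 3| ≤ |2 * p e - 1| * |sm θ e| ^ 5 :=
    fun e he => chi_arg ((hp e he).trans hη) (hs e)
  choose! b hb using hex
  set P : ℝ := ∏ e ∈ E, ‖chi (p e) (sm θ e)‖ with hP
  set F : ℝ := ∑ e ∈ E, b e with hF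
  set G : ℝ := gw (QM E (fun e => p e * (1 - p e)) ∅) θ with hG
  have hre : (∏ e ∈ E, (Complex.exp (-(Complex.I * (p e : ℂ) * (sm θ e : ℂ))) * chi (p e) (sm θ e))).re = P * Real.cos F := by
    rw [Finset.prod_congr rfl fun e he => (hb e he).1, Finset.prod_mul_distrib, ← Complex.exp_sum, ← Finset.mul_sum,
      ← Complex.ofReal_prod, ← Complex.ofReal_sum, Complex.re_ofReal_mul, mul_comm Complex.I, Complex.exp_ofReal_mul_I_re]
  have hGeq : G = Real.exp (-(∑ e ∈ E, p e * (1 - p e) * sm θ e ^ 2) / 2) := by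
    rw [hG, gw, qm_form hE]
    simp
  have hP0 : 0 ≤ P := Finset.prod_nonneg fun _ _ => norm_nonneg _
  have hPG : P ≤ G := by
    rw [hGeq, neg_div, Finset.sum_div, ← Finset.sum_neg_distrib, Real.exp_sum]
    refine Finset.prod_le_prod (fun _ _ => norm_nonneg _) fun e he => ?_
    have := norm_chi_le ((hp e he).trans hη) (sm θ e)
    rwa [nrm_eq_abs (by linarith [hs e]), sq_abs] at this
  have hGP : G * Real.exp (-∑ e ∈ E, sm θ e ^ 4) ≤ P := by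
    rw [hGeq, ← Real.exp_add, neg_div, Finset.sum_div, ← Finset.sum_neg_distrib, ← Finset.sum_neg_distrib,
      ← Finset.sum_add_distrib, Real.exp_sum]
    refine Finset.prod_le_prod (fun _ _ => (Real.exp_pos _).le) fun e he => ?_
    have := chi_lower ((hp e he).trans hη) (hs e)
    rwa [sub_eq_add_neg] at this
  have hG0 : 0 < G := lm_gw_pos _ _
  have hcos : 1 - F ^ 2 / 2 ≤ Real.cos F := Real.one_sub_sq_div_two_le_cos
  have hdiff : |F - ∑ e ∈ E, lmK p e * sm θ e ^ 3| ≤ η * ∑ e ∈ E, |sm θ e| ^ 5 := by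
    rw [hF, ← Finset.sum_sub_distrib, Finset.mul_sum]
    refine (Finset.abs_sum_le_sum_abs _ _).trans (Finset.sum_le_sum fun e he => ?_)
    refine ((hb e he).2).trans ?_
    exact mul_le_mul_of_nonneg_right (hp e he) (by positivity)
  have hF2 : F ^ 2 / 2 ≤ (∑ e ∈ E, lmK p e * sm θ e ^ 3) ^ 2 + η ^ 2 * (∑ e ∈ E, |sm θ e| ^ 5) ^ 2 := by
    have h1 : (F - ∑ e ∈ E, lmK p e * sm θ e ^ 3) ^ 2 ≤ (η * ∑ e ∈ E, |sm θ e| ^ 5) ^ 2 := by
      rw [← sq_abs (F - _)]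
      exact pow_le_pow_left₀ (abs_nonneg _) hdiff 2
    rw [← mul_pow]
    nlinarith [sq_nonneg (F - 2 * ∑ e ∈ E, lmK p e * sm θ e ^ 3)]
  have hexp : Real.exp (-K) * (1 + K - ∑ e ∈ E, sm θ e ^ 4) ≤ Real.exp (-∑ e ∈ E, sm θ e ^ 4) := by
    have h1 := Real.add_one_le_exp (K - ∑ e ∈ E, sm θ e ^ 4)
    have h2 : Real.exp (-∑ e ∈ E, sm θ e ^ 4) = Real.exp (-K) * Real.exp (K - ∑ e ∈ E, sm θ e ^ 4) := by
      rw [← Real.exp_add]
      ring_nf
    rw [h2]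
    refine mul_le_mul_of_nonneg_left ?_ (Real.exp_pos _).le
    linarith
  rw [hre]
  have e1 : G * (Real.exp (-K) * (1 + K - ∑ e ∈ E, sm θ e ^ 4)) ≤ P :=
    (mul_le_mul_of_nonneg_left hexp hG0.le).trans hGP
  have e2 : P * (F ^ 2 / 2) ≤ G * ((∑ e ∈ E, lmK p e * sm θ e ^ 3) ^ 2 + η ^ 2 * (∑ e ∈ E, |sm θ e| ^ 5) ^ 2) :=
    mul_le_mul hPG hF2 (by positivity) hG0.le
  have e3 : P * (1 - F ^ 2 / 2) ≤ P * Real.cos F := mul_le_mul_of_nonneg_left hcos hP0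
  linarith [e1, e2, e3]

end aux

theorem lmain (c : ℝ) (hc : 0 < c) : ∃ c' η₀ : ℝ, ∃ m₀ : ℕ, 0 < c' ∧ 0 < η₀ ∧ η₀ ≤ 1 / 10 ∧
    ∀ (ι : Type) [Fintype ι] [DecidableEq ι] (E : Finset (Sym2 ι)) (p : Sym2 ι → ℝ), QR c E → m₀ ≤ Fintype.card ι →
      (∀ e ∈ E, |2 * p e - 1| ≤ η₀) →
      c' * ∏ i, Real.sqrt (2 * Real.pi / Vr E p i) ≤ ∫ θ in box ι ∩ cube ι (1 / 4),
        (∏ e ∈ E, (Complex.exp (-(Complex.I * (p e : ℂ) * (sm θ e : ℂ))) * chi (p e) (sm θ e))).re := by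
  obtain ⟨C₁, hC₁, hcub⟩ := cubic c hc
  obtain ⟨C, hC, hqu⟩ := quart c hc
  -- the constants
  set ε : ℝ := Real.exp (-C) with hε
  have hε0 : 0 < ε := Real.exp_pos _
  obtain ⟨η₀, hη0, hη1, hη2⟩ : ∃ η₀ : ℝ, 0 < η₀ ∧ η₀ ≤ 1 / 10 ∧ (C₁ + C) * η₀ ^ 2 ≤ ε / 4 := by
    refine ⟨min (1 / 10) (ε / (4 * (C₁ + C))), by positivity, min_le_left _ _, ?_⟩
    set x : ℝ := min (1 / 10) (ε / (4 * (C₁ + C))) with hx
    have hx0 : 0 < x := by positivity
    have hx1 : x ≤ 1 / 10 := min_le_left _ _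
    have hx2 : x ≤ ε / (4 * (C₁ + C)) := min_le_right _ _
    have hS : 0 < C₁ + C := by positivity
    have hx3 : (C₁ + C) * x ≤ ε / 4 := by
      calc (C₁ + C) * x ≤ (C₁ + C) * (ε / (4 * (C₁ + C))) := mul_le_mul_of_nonneg_left hx2 hS.le
        _ = ε / 4 := by field_simp
    nlinarith [mul_pos hS hx0]
  obtain ⟨m₀, hm₀⟩ := exists_nat_ge (max 1 (2 * (1 + C) * C))
  refine ⟨ε / 4, η₀, m₀, by positivity, hη0, hη1, fun ι _ _ E p hQ hm hp => ?_⟩
  have hmR : max 1 (2 * (1 + C) * C) ≤ (Fintype.card ι : ℝ) := hm₀.trans (by exact_mod_cast hm)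
  have hm1 : (1 : ℝ) ≤ Fintype.card ι := (le_max_left _ _).trans hmR
  have hm2 : 2 * (1 + C) * C ≤ (Fintype.card ι : ℝ) := (le_max_right _ _).trans hmR
  have hmpos : (0 : ℝ) < Fintype.card ι := by linarith
  set w : Sym2 ι → ℝ := fun e => p e * (1 - p e) with hw
  have hwb : ∀ e ∈ E, 6 / 25 ≤ w e ∧ w e ≤ 1 / 4 := by
    intro e he
    have h1 := (hp e he).trans hη1
    rw [abs_le] at h1
    simp only [hw]
    constructor <;> nlinarith [h1.1, h1.2, sq_nonneg (2 * p e - 1), mul_nonneg (sub_nonneg.2 h1.1) (sub_nonneg.2 h1.2)]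
  obtain ⟨hA, hge⟩ := gi_ge hc hQ hwb
  set A := QM E w ∅ with hAdef
  obtain ⟨q1, q2, q3⟩ := hqu ι E w hQ hA hwb
  have hκ : ∀ e ∈ E, |lmK p e| ≤ η₀ := by
    intro e he
    have h0 := hp e he
    have h1 := abs_le.1 (h0.trans hη1)
    rw [lmK, abs_div, abs_mul]
    have h2 : |1 - (2 * p e - 1) ^ 2| ≤ 1 := by
      rw [abs_le]; constructor <;> nlinarith [h1.1, h1.2, sq_nonneg (2 * p e - 1), mul_nonneg (sub_nonneg.2 h1.1) (sub_nonneg.2 h1.2)]
    have h3 : |(24 : ℝ)| = 24 := by norm_num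
    rw [h3, div_le_iff₀ (by norm_num)]
    calc |2 * p e - 1| * |1 - (2 * p e - 1) ^ 2| ≤ η₀ * 1 :=
          mul_le_mul h0 h2 (abs_nonneg _) hη0.le
      _ ≤ η₀ * 24 := by linarith
  have q0 := hcub ι E w (lmK p) η₀ hQ hA hwb hκ
  set I : ℝ := GI A (fun _ => 1) with hI
  have hIeq : I = ∫ θ : ι → ℝ, gw A θ := by
    rw [hI, GI]
    simp only [one_mul]
    rfl
  have hgwI : MeasureTheory.Integrable (gw A) := integrable_gw hA
  have hI0 : 0 ≤ I := by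
    rw [hIeq]
    exact MeasureTheory.integral_nonneg fun θ => (lm_gw_pos A θ).le
  rw [lm_dom]
  set D : Set (ι → ℝ) := Set.Icc (fun _ : ι => (-(1 / 4) : ℝ)) (fun _ => 1 / 4) with hD
  have hDm : MeasurableSet D := measurableSet_Icc
  -- integrability of the four parts
  have i1 : MeasureTheory.Integrable (fun θ : ι → ℝ => (∑ e ∈ E, sm θ e ^ 4) * gw A θ) := by
    have : MeasureTheory.Integrable (fun θ : ι → ℝ => ∑ e ∈ E, |sm θ e| ^ 4 * gw A θ) :=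
      MeasureTheory.integrable_finsetSum _ fun e _ => lm_int hA e 4
    refine this.congr (Filter.Eventually.of_forall fun θ => ?_)
    simp only [Finset.sum_mul]
    refine Finset.sum_congr rfl fun e _ => ?_
    rw [Even.pow_abs (by decide)]
  have i2 : MeasureTheory.Integrable (fun θ : ι → ℝ => (∑ e ∈ E, lmK p e * sm θ e ^ 3) ^ 2 * gw A θ) := by
    refine lm_int_sq hA E (lmK p) 3 (fun x => x ^ 3) (by fun_prop) fun x => ?_
    rw [abs_pow]
  have i3 : MeasureTheory.Integrable (fun θ : ι → ℝ => (∑ e ∈ E, |sm θ e| ^ 5) ^ 2 * gw A θ) := by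
    have := lm_int_sq hA E (fun _ => 1) 5 (fun x => |x| ^ 5) (by fun_prop) fun x => by rw [abs_pow, abs_abs]
    simpa using this
  -- the pointwise bound
  have hpt : ∀ θ ∈ D, ε * (1 + C) * gw A θ - ε * ((∑ e ∈ E, sm θ e ^ 4) * gw A θ) -
      (∑ e ∈ E, lmK p e * sm θ e ^ 3) ^ 2 * gw A θ - η₀ ^ 2 * ((∑ e ∈ E, |sm θ e| ^ 5) ^ 2 * gw A θ) ≤
      (∏ e ∈ E, (Complex.exp (-(Complex.I * (p e : ℂ) * (sm θ e : ℂ))) * chi (p e) (sm θ e))).re :=
    fun θ hθ => lm_pt hQ.nd hη1 hp C hθ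
  have hint : MeasureTheory.IntegrableOn (fun θ : ι → ℝ => (∏ e ∈ E, (Complex.exp (-(Complex.I * (p e : ℂ) * (sm θ e : ℂ))) *
      chi (p e) (sm θ e))).re) D := by
    refine ContinuousOn.integrableOn_compact isCompact_Icc (Continuous.continuousOn ?_)
    refine Complex.continuous_re.comp (continuous_finsetProd _ fun e _ => ?_)
    have h1 : Continuous fun θ : ι → ℝ => ((sm θ e : ℝ) : ℂ) := Complex.continuous_ofReal.comp (lm_cont e)
    unfold chi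
    fun_prop
  have hintL : MeasureTheory.Integrable (fun θ : ι → ℝ => ε * (1 + C) * gw A θ - ε * ((∑ e ∈ E, sm θ e ^ 4) * gw A θ) -
      (∑ e ∈ E, lmK p e * sm θ e ^ 3) ^ 2 * gw A θ - η₀ ^ 2 * ((∑ e ∈ E, |sm θ e| ^ 5) ^ 2 * gw A θ)) :=
    (((hgwI.const_mul _).sub (i1.const_mul _)).sub i2).sub (i3.const_mul _)
  have hmono := MeasureTheory.setIntegral_mono_on hintL.integrableOn hint hDm hpt
  refine le_trans ?_ hmono
  -- the integral of the lower bound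
  have hsplit : ∫ θ in D, (ε * (1 + C) * gw A θ - ε * ((∑ e ∈ E, sm θ e ^ 4) * gw A θ) -
      (∑ e ∈ E, lmK p e * sm θ e ^ 3) ^ 2 * gw A θ - η₀ ^ 2 * ((∑ e ∈ E, |sm θ e| ^ 5) ^ 2 * gw A θ)) =
      ε * (1 + C) * (∫ θ in D, gw A θ) - ε * (∫ θ in D, (∑ e ∈ E, sm θ e ^ 4) * gw A θ) -
      (∫ θ in D, (∑ e ∈ E, lmK p e * sm θ e ^ 3) ^ 2 * gw A θ) - η₀ ^ 2 * ∫ θ in D, (∑ e ∈ E, |sm θ e| ^ 5) ^ 2 * gw A θ := by
    have j0 : MeasureTheory.IntegrableOn (fun θ : ι → ℝ => ε * (1 + C) * gw A θ) D := (hgwI.const_mul _).integrableOn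
    have j1 : MeasureTheory.IntegrableOn (fun θ : ι → ℝ => ε * ((∑ e ∈ E, sm θ e ^ 4) * gw A θ)) D :=
      (i1.const_mul _).integrableOn
    have j3 : MeasureTheory.IntegrableOn (fun θ : ι → ℝ => η₀ ^ 2 * ((∑ e ∈ E, |sm θ e| ^ 5) ^ 2 * gw A θ)) D :=
      (i3.const_mul _).integrableOn
    have j01 : MeasureTheory.IntegrableOn (fun θ : ι → ℝ => ε * (1 + C) * gw A θ - ε * ((∑ e ∈ E, sm θ e ^ 4) * gw A θ)) D :=
      j0.sub j1
    have j012 : MeasureTheory.IntegrableOn (fun θ : ι → ℝ => ε * (1 + C) * gw A θ - ε * ((∑ e ∈ E, sm θ e ^ 4) * gw A θ) -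
        (∑ e ∈ E, lmK p e * sm θ e ^ 3) ^ 2 * gw A θ) D := j01.sub i2.integrableOn
    rw [MeasureTheory.integral_sub j012 j3,
      MeasureTheory.integral_sub j01 i2.integrableOn, MeasureTheory.integral_sub j0 j1,
      MeasureTheory.integral_const_mul, MeasureTheory.integral_const_mul, MeasureTheory.integral_const_mul]
  rw [hsplit]
  have k1 : ∫ θ in D, (∑ e ∈ E, sm θ e ^ 4) * gw A θ ≤ C * I := by
    refine le_trans (MeasureTheory.setIntegral_le_integral i1 (Filter.Eventually.of_forall fun θ => ?_)) q1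
    exact mul_nonneg (Finset.sum_nonneg fun e _ => by positivity) (lm_gw_pos A θ).le
  have k2 : ∫ θ in D, (∑ e ∈ E, lmK p e * sm θ e ^ 3) ^ 2 * gw A θ ≤ C₁ * η₀ ^ 2 * I := by
    refine le_trans (MeasureTheory.setIntegral_le_integral i2 (Filter.Eventually.of_forall fun θ => ?_)) q0
    exact mul_nonneg (sq_nonneg _) (lm_gw_pos A θ).le
  have k3 : ∫ θ in D, (∑ e ∈ E, |sm θ e| ^ 5) ^ 2 * gw A θ ≤ C * I := by
    have h1 : ∫ θ in D, (∑ e ∈ E, |sm θ e| ^ 5) ^ 2 * gw A θ ≤ GI A (fun θ => (∑ e ∈ E, |sm θ e| ^ 5) ^ 2) := by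
      refine (MeasureTheory.setIntegral_le_integral i3 (Filter.Eventually.of_forall fun θ => ?_))
      exact mul_nonneg (sq_nonneg _) (lm_gw_pos A θ).le
    have h2 : 0 ≤ GI A (fun θ => (∑ e ∈ E, |sm θ e| ^ 5) ^ 2) := by
      refine MeasureTheory.integral_nonneg fun θ => ?_
      exact mul_nonneg (sq_nonneg _) (Real.exp_pos _).le
    nlinarith [q2]
  have k0 : (1 - C / Fintype.card ι) * I ≤ ∫ θ in D, gw A θ := by
    have h1 : ∫ θ in D, gw A θ = I - ∫ θ in Dᶜ, gw A θ := by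
      rw [hIeq, ← MeasureTheory.integral_add_compl hDm hgwI]
      ring
    have h2 : ∫ θ in Dᶜ, gw A θ = GI A (fun θ => ind (∃ i, 1 / 4 < |θ i|)) := by
      rw [← MeasureTheory.integral_indicator hDm.compl, GI]
      refine MeasureTheory.integral_congr_ae (Filter.Eventually.of_forall fun θ => ?_)
      have h3 : θ ∈ Dᶜ ↔ ∃ i, 1 / 4 < |θ i| := by
        simp only [hD, Set.mem_compl_iff, Set.mem_Icc, Pi.le_def]
        constructor
        · intro h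
          by_contra hcon
          push Not at hcon
          exact h ⟨fun i => (abs_le.1 (hcon i)).1, fun i => (abs_le.1 (hcon i)).2⟩
        · rintro ⟨i, hi⟩ ⟨h4, h5⟩
          exact absurd (abs_le.2 ⟨h4 i, h5 i⟩) (not_le.2 hi)
      by_cases hθ : θ ∈ Dᶜ
      · rw [Set.indicator_of_mem hθ]
        simp only [ind, if_pos (h3.1 hθ), one_mul]
        rfl
      · rw [Set.indicator_of_notMem hθ]
        simp only [ind, if_neg (fun h => hθ (h3.2 h)), zero_mul]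
    have h3 : GI A (fun θ => ind (∃ i, 1 / 4 < |θ i|)) ≤ C / Fintype.card ι * I := by
      rw [div_mul_eq_mul_div, le_div_iff₀ hmpos, mul_comm]
      exact q3
    rw [h1, h2]
    linarith
  have k4 : ε * (1 + C) * ((1 - C / Fintype.card ι) * I) ≤ ε * (1 + C) * ∫ θ in D, gw A θ :=
    mul_le_mul_of_nonneg_left k0 (by positivity)
  have k5 : (1 + C) * (C / Fintype.card ι) ≤ 1 / 2 := by
    rw [← mul_div_assoc, div_le_iff₀ hmpos]
    linarith
  have k6 : ε * ((1 + C) * (C / Fintype.card ι)) * I ≤ ε * (1 / 2) * I :=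
    mul_le_mul_of_nonneg_right (mul_le_mul_of_nonneg_left k5 hε0.le) hI0
  have k7 : (C₁ + C) * η₀ ^ 2 * I ≤ ε / 4 * I := mul_le_mul_of_nonneg_right hη2 hI0
  have k8 : ε * (∫ θ in D, (∑ e ∈ E, sm θ e ^ 4) * gw A θ) ≤ ε * (C * I) := mul_le_mul_of_nonneg_left k1 hε0.le
  have k9 : η₀ ^ 2 * (∫ θ in D, (∑ e ∈ E, |sm θ e| ^ 5) ^ 2 * gw A θ) ≤ η₀ ^ 2 * (C * I) :=
    mul_le_mul_of_nonneg_left k3 (sq_nonneg _)
  have k10 : ε / 4 * ∏ i, Real.sqrt (2 * Real.pi / Vr E p i) ≤ ε / 4 * I := by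
    refine mul_le_mul_of_nonneg_left ?_ (by positivity)
    exact hge
  nlinarith [k2, k4, k6, k7, k8, k9, k10]

end PLR
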