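import Pool.Agent.PLR.Four
import Pool.Agent.PLR.LMain
import Pool.Agent.PLR.Jsp

/-!
# PLR.Lower: lower bound for the probability of the (exactly) expected degree vector

`PD_fourier`; since `∑_i t_i θ_i = ∑_e p_e (sm θ e)` (`t_i = sw E p i`) the integrand is `g θ = ∏ (exp(-i p_e s_e) chi (p_e) (s_e))`. As a function of the first form `∏ chi * exp(-i ∑ t_i θ_i)` it is `2π`-periodic in every angle, and `g (θ + π) = g θ`
because `∑ t_i` is even (`exp(-iπ ∑ t_i) = 1`, `chi` is `2π`-periodic). So (`integral_shift` for `g` times the indicator of `cubeP`) the two cubes contribute the same: `PD = (2π)^(-m) (2 Re ∫_(box ∩ cube) g + Re ∫_rest g)`; `lmain`, and `|∫_rest| ≤ (C/m) ∏ √(2π/V)` by `norm_chi_le`, `jsp`.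
-/

set_option autoImplicit false

namespace PLR

open Finset Smo

section

variable {ι : Type} [Fintype ι] [DecidableEq ι]

private theorem lw_sum {E : Finset (Sym2 ι)} (hE : ∀ e ∈ E, ¬ e.IsDiag) (p : Sym2 ι → ℝ) (θ : ι → ℝ) :
    ∑ i, sw E p i * θ i = ∑ e ∈ E, p e * sm θ e := by
  unfold sw
  simp_rw [Finset.sum_mul, Finset.sum_filter]
  rw [Finset.sum_comm]
  refine Finset.sum_congr rfl fun e he => ?_
  have h1 := hE e he
  clear he
  induction e using Sym2.ind with
  | _ a b =>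
    rw [Sym2.mk_isDiag_iff] at h1
    simp only [Sym2.mem_iff, sm_mk]
    rw [← Finset.sum_filter]
    have h2 : (Finset.univ.filter fun i => i = a ∨ i = b) = {a, b} := by
      ext i
      simp
    rw [h2, Finset.sum_pair h1]
    ring

omit [Fintype ι] [DecidableEq ι] in
private theorem lw_sm (e : Sym2 ι) : Continuous fun θ : ι → ℝ => sm θ e := by
  induction e using Sym2.ind with
  | _ i j =>
    simp only [sm_mk]
    fun_prop

private theorem lw_chi (p s : ℝ) (k : ℤ) : chi p (s + 2 * Real.pi * k) = chi p s := by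
  unfold chi
  have h1 : ((s + 2 * Real.pi * k : ℝ) : ℂ) * Complex.I = (s : ℂ) * Complex.I + k * (2 * Real.pi * Complex.I) := by
    push_cast
    ring
  rw [h1, Complex.exp_add, Complex.exp_int_mul_two_pi_mul_I, mul_one]

private noncomputable def gF (E : Finset (Sym2 ι)) (p : Sym2 ι → ℝ) (t : ι → ℤ) (θ : ι → ℝ) : ℂ :=
  (∏ e ∈ E, chi (p e) (sm θ e)) * Complex.exp (-(Complex.I * ∑ i, (t i : ℂ) * (θ i : ℂ)))

omit [DecidableEq ι] in
private theorem lw_cont (E : Finset (Sym2 ι)) (p : Sym2 ι → ℝ) (t : ι → ℤ) : Continuous (gF E p t) := by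
  unfold gF
  refine Continuous.mul ?_ ?_
  · refine continuous_finsetProd _ fun e _ => ?_
    unfold chi
    have := lw_sm e
    fun_prop
  · fun_prop

omit [DecidableEq ι] in
private theorem lw_per (E : Finset (Sym2 ι)) (p : Sym2 ι → ℝ) (t : ι → ℤ) (θ : ι → ℝ) (n : ι → ℤ) :
    gF E p t (fun i => θ i + 2 * Real.pi * n i) = gF E p t θ := by
  unfold gF
  congr 1
  · refine Finset.prod_congr rfl fun e _ => ?_
    obtain ⟨k, hk⟩ : ∃ k : ℤ, sm (fun i => θ i + 2 * Real.pi * n i) e = sm θ e + 2 * Real.pi * k := by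
      induction e using Sym2.ind with
      | _ a b =>
        refine ⟨n a + n b, ?_⟩
        simp only [sm_mk]
        push_cast
        ring
    rw [hk, lw_chi]
  · have h1 : -(Complex.I * ∑ i, (t i : ℂ) * ((θ i + 2 * Real.pi * n i : ℝ) : ℂ)) =
        -(Complex.I * ∑ i, (t i : ℂ) * (θ i : ℂ)) + ((-∑ i, t i * n i : ℤ) : ℂ) * (2 * Real.pi * Complex.I) := by
      push_cast
      simp only [mul_add, Finset.sum_add_distrib, Finset.mul_sum, neg_mul, Finset.sum_mul, neg_add]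
      congr 2
      refine Finset.sum_congr rfl fun i _ => ?_
      ring
    rw [h1, Complex.exp_add, Complex.exp_int_mul_two_pi_mul_I, mul_one]

omit [DecidableEq ι] in
private theorem lw_pi (E : Finset (Sym2 ι)) (p : Sym2 ι → ℝ) (t : ι → ℤ) (ht : Even (∑ i, t i)) (θ : ι → ℝ) :
    gF E p t (fun i => θ i + Real.pi) = gF E p t θ := by
  unfold gF
  congr 1
  · refine Finset.prod_congr rfl fun e _ => ?_
    have hk : sm (fun i => θ i + Real.pi) e = sm θ e + 2 * Real.pi * ((1 : ℤ) : ℝ) := by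
      induction e using Sym2.ind with
      | _ a b =>
        simp only [sm_mk]
        push_cast
        ring
    rw [hk, lw_chi]
  · obtain ⟨k, hk⟩ := ht
    have hk' : ∑ i, (t i : ℂ) = (k : ℂ) + k := by
      have := congrArg (fun z : ℤ => (z : ℂ)) hk
      push_cast at this
      exact this
    have h1 : -(Complex.I * ∑ i, (t i : ℂ) * ((θ i + Real.pi : ℝ) : ℂ)) =
        -(Complex.I * ∑ i, (t i : ℂ) * (θ i : ℂ)) + ((-k : ℤ) : ℂ) * (2 * Real.pi * Complex.I) := by
      push_cast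
      simp only [mul_add, Finset.sum_add_distrib]
      rw [← Finset.sum_mul, hk']
      ring
    rw [h1, Complex.exp_add, Complex.exp_int_mul_two_pi_mul_I, mul_one]

private theorem lw_prod {E : Finset (Sym2 ι)} (hE : ∀ e ∈ E, ¬ e.IsDiag) (p : Sym2 ι → ℝ) (t : ι → ℤ)
    (ht : ∀ i, sw E p i = t i) (θ : ι → ℝ) : gF E p t θ =
      ∏ e ∈ E, (Complex.exp (-(Complex.I * (p e : ℂ) * (sm θ e : ℂ))) * chi (p e) (sm θ e)) := by
  unfold gF
  rw [Finset.prod_mul_distrib, ← Complex.exp_sum, mul_comm]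
  congr 2
  have h1 := lw_sum hE p θ
  have h2 : ∑ i, (t i : ℂ) * (θ i : ℂ) = ∑ e ∈ E, (p e : ℂ) * (sm θ e : ℂ) := by
    have h3 : ∑ i, (t i : ℝ) * θ i = ∑ e ∈ E, p e * sm θ e := by
      rw [← h1]
      exact Finset.sum_congr rfl fun i _ => by rw [ht i]
    have h4 := congrArg (fun z : ℝ => (z : ℂ)) h3
    push_cast at h4
    exact h4
  rw [h2, Finset.mul_sum, ← Finset.sum_neg_distrib]
  refine Finset.sum_congr rfl fun e _ => ?_
  ring

omit [DecidableEq ι] in
private theorem lw_norm {E : Finset (Sym2 ι)} (p : Sym2 ι → ℝ) (t : ι → ℤ)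
    (hp : ∀ e ∈ E, |2 * p e - 1| ≤ 1 / 10) (θ : ι → ℝ) :
    ‖gF E p t θ‖ ≤ Real.exp (-(∑ e ∈ E, p e * (1 - p e) * nrm (sm θ e) ^ 2) / 2) := by
  unfold gF
  rw [norm_mul, norm_prod]
  have h1 : ‖Complex.exp (-(Complex.I * ∑ i, (t i : ℂ) * (θ i : ℂ)))‖ = 1 := by
    have h2 : -(Complex.I * ∑ i, (t i : ℂ) * (θ i : ℂ)) = ((-∑ i, (t i : ℝ) * θ i : ℝ) : ℂ) * Complex.I := by
      push_cast
      ring
    rw [h2, Complex.norm_exp_ofReal_mul_I]
  rw [h1, mul_one]
  calc ∏ e ∈ E, ‖chi (p e) (sm θ e)‖ ≤ ∏ e ∈ E, Real.exp (-(p e * (1 - p e) * nrm (sm θ e) ^ 2 / 2)) :=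
        Finset.prod_le_prod (fun _ _ => norm_nonneg _) fun e he => norm_chi_le (hp e he) _
    _ = Real.exp (-(∑ e ∈ E, p e * (1 - p e) * nrm (sm θ e) ^ 2) / 2) := by
        rw [← Real.exp_sum]
        congr 1
        rw [neg_div, Finset.sum_div, ← Finset.sum_neg_distrib]

omit [Fintype ι] [DecidableEq ι] in
private theorem lw_mc [Finite ι] (ρ : ℝ) : MeasurableSet (cube ι ρ) := by
  unfold cube
  simp only [Set.ofPred_forall]
  exact MeasurableSet.iInter fun i => measurableSet_le (measurable_nrm.comp (measurable_pi_apply i)) measurable_const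

omit [Fintype ι] [DecidableEq ι] in
private theorem lw_mcP [Finite ι] (ρ : ℝ) : MeasurableSet (cubeP ι ρ) := by
  unfold cubeP
  simp only [Set.ofPred_forall]
  exact MeasurableSet.iInter fun i =>
    measurableSet_le (measurable_nrm.comp ((measurable_pi_apply i).sub_const _)) measurable_const

omit [Fintype ι] [DecidableEq ι] in
private theorem lw_disj [Nonempty ι] : Disjoint (cube ι (1 / 4)) (cubeP ι (1 / 4)) := by
  rw [Set.disjoint_left]
  intro θ h1 h2
  obtain ⟨i⟩ := ‹Nonempty ι›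
  have h3 := h1 i
  have h4 := h2 i
  have h5 := nrm_sub_le (θ i) (θ i - Real.pi)
  rw [sub_sub_cancel, nrm_eq_abs (by rw [abs_of_pos Real.pi_pos]), abs_of_pos Real.pi_pos] at h5
  linarith [Real.pi_gt_three]

private theorem lw_shift (E : Finset (Sym2 ι)) (p : Sym2 ι → ℝ) (t : ι → ℤ) (ht : Even (∑ i, t i)) :
    ∫ θ in box ι ∩ cubeP ι (1 / 4), gF E p t θ = ∫ θ in box ι ∩ cube ι (1 / 4), gF E p t θ := by
  have h1 := integral_shift ((cubeP ι (1 / 4)).indicator (gF E p t))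
    ((lw_cont E p t).measurable.indicator (lw_mcP _)) (fun θ n => by
      by_cases hθ : θ ∈ cubeP ι (1 / 4)
      · rw [Set.indicator_of_mem hθ, Set.indicator_of_mem, lw_per]
        intro i
        change nrm (θ i + 2 * Real.pi * n i - Real.pi) ≤ 1 / 4
        rw [add_sub_right_comm, nrm_add_int]
        exact hθ i
      · rw [Set.indicator_of_notMem hθ, Set.indicator_of_notMem]
        intro h
        apply hθ
        intro i
        have h2 := h i
        change nrm (θ i + 2 * Real.pi * n i - Real.pi) ≤ 1 / 4 at h2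
        rwa [add_sub_right_comm, nrm_add_int] at h2)
  have h2 : (fun θ : ι → ℝ => (cubeP ι (1 / 4)).indicator (gF E p t) (fun i => θ i + Real.pi)) =
      (cube ι (1 / 4)).indicator (gF E p t) := by
    funext θ
    by_cases hθ : θ ∈ cube ι (1 / 4)
    · rw [Set.indicator_of_mem hθ, Set.indicator_of_mem, lw_pi _ _ _ ht]
      intro i
      change nrm (θ i + Real.pi - Real.pi) ≤ 1 / 4
      rw [add_sub_cancel_right]
      exact hθ i
    · rw [Set.indicator_of_notMem hθ, Set.indicator_of_notMem]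
      intro h
      apply hθ
      intro i
      have h2 := h i
      change nrm (θ i + Real.pi - Real.pi) ≤ 1 / 4 at h2
      rwa [add_sub_cancel_right] at h2
  rw [h2, MeasureTheory.setIntegral_indicator (lw_mc _), MeasureTheory.setIntegral_indicator (lw_mcP _)] at h1
  exact h1.symm

private theorem lw_int (E : Finset (Sym2 ι)) (p : Sym2 ι → ℝ) (t : ι → ℤ) :
    MeasureTheory.IntegrableOn (gF E p t) (box ι) := by
  have h1 : MeasureTheory.IntegrableOn (gF E p t) (Set.Icc (fun _ => -Real.pi) (fun _ => Real.pi)) :=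
    (lw_cont E p t).integrableOn_Icc
  refine h1.mono_set ?_
  intro θ hθ
  rw [← Set.pi_univ_Icc]
  exact fun i hi => Set.Ioc_subset_Icc_self (hθ i hi)

private theorem lw_GF (E : Finset (Sym2 ι)) (p : Sym2 ι → ℝ) :
    ((2 * Real.pi) ^ Fintype.card ι)⁻¹ * ∏ i, Real.sqrt (2 * Real.pi / Vr E p i) = GF E p := by
  unfold GF
  have h0 : (0 : ℝ) < 2 * Real.pi := by positivity
  rw [← Finset.card_univ, ← Finset.prod_const, ← Finset.prod_inv_distrib, ← Finset.prod_mul_distrib]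
  refine Finset.prod_congr rfl fun i _ => ?_
  rw [Real.sqrt_div h0.le, Real.sqrt_mul h0.le, mul_inv (Real.sqrt (2 * Real.pi))]
  have h1 : Real.sqrt (2 * Real.pi) * Real.sqrt (2 * Real.pi) = 2 * Real.pi := Real.mul_self_sqrt h0.le
  have h2 : Real.sqrt (2 * Real.pi) ≠ 0 := (Real.sqrt_pos.2 h0).ne'
  have h3 : (2 * Real.pi)⁻¹ = (Real.sqrt (2 * Real.pi))⁻¹ * (Real.sqrt (2 * Real.pi))⁻¹ := by
    rw [← mul_inv, h1]
  rw [h3, div_eq_mul_inv]
  have h4 : (Real.sqrt (2 * Real.pi))⁻¹ * Real.sqrt (2 * Real.pi) = 1 := inv_mul_cancel₀ h2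
  calc (Real.sqrt (2 * Real.pi))⁻¹ * (Real.sqrt (2 * Real.pi))⁻¹ *
        (Real.sqrt (2 * Real.pi) * (Real.sqrt (Vr E p i))⁻¹) =
        (Real.sqrt (2 * Real.pi))⁻¹ * ((Real.sqrt (2 * Real.pi))⁻¹ * Real.sqrt (2 * Real.pi)) *
          (Real.sqrt (Vr E p i))⁻¹ := by ring
    _ = _ := by rw [h4, mul_one]

end

theorem lower (c : ℝ) (hc : 0 < c) : ∃ c' η₀ : ℝ, ∃ m₀ : ℕ, 0 < c' ∧ 0 < η₀ ∧ η₀ ≤ 1 / 10 ∧
    ∀ (ι : Type) [Fintype ι] [DecidableEq ι] (E : Finset (Sym2 ι)) (p : Sym2 ι → ℝ) (t : ι → ℤ), QR c E →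
      m₀ ≤ Fintype.card ι → (∀ e ∈ E, |2 * p e - 1| ≤ η₀) → (∀ i, sw E p i = t i) → Even (∑ i, t i) →
      c' * GF E p ≤ PD E p t := by
  obtain ⟨c1, η₀, m1, hc1, hη, hη1, H1⟩ := lmain c hc
  obtain ⟨C, hC, H2⟩ := jsp c hc
  refine ⟨c1, η₀, max m1 (⌈C / c1⌉₊ + 1), hc1, hη, hη1, ?_⟩
  intro ι _ _ E p t hQ hm hp ht hev
  have hm1 : m1 ≤ Fintype.card ι := le_trans (le_max_left _ _) hm
  have hm2 : ⌈C / c1⌉₊ + 1 ≤ Fintype.card ι := le_trans (le_max_right _ _) hm
  have hpos : 0 < Fintype.card ι := by omega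
  have : Nonempty ι := Fintype.card_pos_iff.1 hpos
  have hp' : ∀ e ∈ E, |2 * p e - 1| ≤ 1 / 10 := fun e he => (hp e he).trans hη1
  have hw : ∀ e ∈ E, 6 / 25 ≤ p e * (1 - p e) ∧ p e * (1 - p e) ≤ 1 / 4 := by
    intro e he
    have h1 := abs_le.1 (hp' e he)
    constructor
    · nlinarith [h1.1, h1.2]
    · nlinarith [sq_nonneg (2 * p e - 1)]
  have hP : 0 ≤ ∏ i, Real.sqrt (2 * Real.pi / Vr E p i) := Finset.prod_nonneg fun _ _ => Real.sqrt_nonneg _
  -- the three parts
  have hI := lw_int E p t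
  have hbox : MeasurableSet (box ι) := MeasurableSet.univ_pi fun _ => measurableSet_Ioc
  have e1 : ∫ θ in box ι, gF E p t θ = 2 * (∫ θ in box ι ∩ cube ι (1 / 4), gF E p t θ) +
      ∫ θ in box ι \ (cube ι (1 / 4) ∪ cubeP ι (1 / 4)), gF E p t θ := by
    rw [← MeasureTheory.integral_inter_add_sdiff ((lw_mc (1 / 4)).union (lw_mcP (1 / 4))) hI]
    congr 1
    rw [Set.inter_union_distrib_left, MeasureTheory.setIntegral_union
      (lw_disj.mono Set.inter_subset_right Set.inter_subset_right) (hbox.inter (lw_mcP _))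
      (hI.mono_set Set.inter_subset_left) (hI.mono_set Set.inter_subset_left), lw_shift E p t hev]
    ring
  have e2 : (PD E p t : ℂ) = (((2 * Real.pi) ^ Fintype.card ι : ℝ) : ℂ)⁻¹ * ∫ θ in box ι, gF E p t θ :=
    PD_fourier hQ.nd p t
  have e3 : PD E p t = ((2 * Real.pi) ^ Fintype.card ι)⁻¹ * (∫ θ in box ι, gF E p t θ).re := by
    have h := congrArg Complex.re e2
    rw [← Complex.ofReal_inv, Complex.re_ofReal_mul, Complex.ofReal_re] at h
    exact h
  have e4 : c1 * ∏ i, Real.sqrt (2 * Real.pi / Vr E p i) ≤ (∫ θ in box ι ∩ cube ι (1 / 4), gF E p t θ).re := by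
    have h1 := H1 ι E p hQ hm1 hp
    have h2 : (∫ θ in box ι ∩ cube ι (1 / 4), gF E p t θ).re =
        ∫ θ in box ι ∩ cube ι (1 / 4), (gF E p t θ).re := by
      have h3 : MeasureTheory.IntegrableOn (gF E p t) (box ι ∩ cube ι (1 / 4)) := hI.mono_set Set.inter_subset_left
      exact (Complex.reCLM.integral_comp_comm h3).symm
    rw [h2]
    refine h1.trans (le_of_eq ?_)
    congr 1
    funext θ
    rw [lw_prod hQ.nd p t ht]
  have e5 : -(C / Fintype.card ι * ∏ i, Real.sqrt (2 * Real.pi / Vr E p i)) ≤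
      (∫ θ in box ι \ (cube ι (1 / 4) ∪ cubeP ι (1 / 4)), gF E p t θ).re := by
    have h1 := H2 ι E (fun e => p e * (1 - p e)) hQ hw
    have h2 : ‖∫ θ in box ι \ (cube ι (1 / 4) ∪ cubeP ι (1 / 4)), gF E p t θ‖ ≤
        C / Fintype.card ι * ∏ i, Real.sqrt (2 * Real.pi / sw E (fun e => p e * (1 - p e)) i) := by
      refine le_trans ?_ h1
      refine MeasureTheory.norm_integral_le_of_norm_le ?_ (Filter.Eventually.of_forall fun θ => lw_norm p t hp' θ)
      have hfin : MeasureTheory.volume (box ι \ (cube ι (1 / 4) ∪ cubeP ι (1 / 4))) < ⊤ := by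
        have hs : box ι \ (cube ι (1 / 4) ∪ cubeP ι (1 / 4)) ⊆ Set.Icc (fun _ => -Real.pi) (fun _ => Real.pi) := by
          intro θ hθ
          rw [← Set.pi_univ_Icc]
          exact fun i hi => Set.Ioc_subset_Icc_self (hθ.1 i hi)
        exact lt_of_le_of_lt (MeasureTheory.measure_mono hs) isCompact_Icc.measure_lt_top
      have : MeasureTheory.IsFiniteMeasure (MeasureTheory.volume.restrict
          (box ι \ (cube ι (1 / 4) ∪ cubeP ι (1 / 4)))) :=
        ⟨by rwa [MeasureTheory.Measure.restrict_apply_univ]⟩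
      refine MeasureTheory.Integrable.of_bound (C := 1) ?_ ?_
      · refine Measurable.aestronglyMeasurable ?_
        refine Real.measurable_exp.comp ((Measurable.neg (Finset.measurable_sum _ fun e _ => ?_)).div_const _)
        exact ((measurable_nrm.comp (lw_sm e).measurable).pow_const 2).const_mul _
      · refine Filter.Eventually.of_forall fun θ => ?_
        rw [Real.norm_eq_abs, abs_of_pos (Real.exp_pos _), Real.exp_le_one_iff]
        have h5 : 0 ≤ ∑ e ∈ E, p e * (1 - p e) * nrm (sm θ e) ^ 2 := Finset.sum_nonneg fun e he =>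
          mul_nonneg (by linarith [(hw e he).1]) (sq_nonneg _)
        linarith
    have h3 := (abs_le.1 ((Complex.abs_re_le_norm _).trans h2)).1
    exact h3
  have e6 : C / Fintype.card ι ≤ c1 := by
    rw [div_le_iff₀ (by exact_mod_cast hpos)]
    have h1 : C / c1 ≤ Fintype.card ι := by
      have h2 := Nat.le_ceil (C / c1)
      have h3 : (⌈C / c1⌉₊ : ℝ) ≤ Fintype.card ι := by exact_mod_cast (by omega : ⌈C / c1⌉₊ ≤ Fintype.card ι)
      linarith
    rw [div_le_iff₀ hc1] at h1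
    linarith
  rw [e3, e1, ← lw_GF, Complex.add_re]
  have e7 : (2 * ∫ θ in box ι ∩ cube ι (1 / 4), gF E p t θ).re = 2 * (∫ θ in box ι ∩ cube ι (1 / 4), gF E p t θ).re := by
    simp [Complex.mul_re]
  rw [e7]
  have e8 := mul_le_mul_of_nonneg_right e6 hP
  have e9 : (0 : ℝ) ≤ ((2 * Real.pi) ^ Fintype.card ι)⁻¹ := by positivity
  calc c1 * (((2 * Real.pi) ^ Fintype.card ι)⁻¹ * ∏ i, Real.sqrt (2 * Real.pi / Vr E p i)) =
        ((2 * Real.pi) ^ Fintype.card ι)⁻¹ * (c1 * ∏ i, Real.sqrt (2 * Real.pi / Vr E p i)) := by ring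
    _ ≤ _ := mul_le_mul_of_nonneg_left (by linarith) e9

end PLR
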