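import Pool.Agent.PLR.Defs

/-!
# PLR.Nrm: facts about the distance to `2 π ℤ`. `nrm s = |s - 2π round(s/2π)|`; use `round_le`-type lemmas (`round` is a nearest integer: for every integer `z`, `nrm s ≤ |s - 2π z|`).
-/

set_option autoImplicit false

namespace PLR


theorem nrm_nonneg (s : ℝ) : 0 ≤ nrm s := abs_nonneg _

private theorem nrm_scale (s : ℝ) (z : ℤ) :
    |s - 2 * Real.pi * z| = 2 * Real.pi * |s / (2 * Real.pi) - z| := by
  have hpi := Real.pi_pos
  have h : s - 2 * Real.pi * z = 2 * Real.pi * (s / (2 * Real.pi) - z) := by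
    field_simp
  rw [h, abs_mul, abs_of_pos (by positivity)]

theorem nrm_le (s : ℝ) (z : ℤ) : nrm s ≤ |s - 2 * Real.pi * z| := by
  have hpi := Real.pi_pos
  unfold nrm
  rw [nrm_scale, nrm_scale]
  exact mul_le_mul_of_nonneg_left (round_le _ _) (by positivity)

theorem exists_nrm (s : ℝ) : ∃ z : ℤ, nrm s = |s - 2 * Real.pi * z| := ⟨_, rfl⟩

theorem nrm_le_abs (s : ℝ) : nrm s ≤ |s| := by
  have h := nrm_le s 0
  rwa [Int.cast_zero, mul_zero, sub_zero] at h

theorem nrm_le_pi (s : ℝ) : nrm s ≤ Real.pi := by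
  have hpi := Real.pi_pos
  unfold nrm
  rw [nrm_scale]
  have h := abs_sub_round (s / (2 * Real.pi))
  calc 2 * Real.pi * |s / (2 * Real.pi) - (round (s / (2 * Real.pi)) : ℝ)|
      ≤ 2 * Real.pi * (1 / 2) := mul_le_mul_of_nonneg_left h (by positivity)
    _ = Real.pi := by ring

theorem nrm_eq_abs {s : ℝ} (h : |s| ≤ Real.pi) : nrm s = |s| := by
  refine le_antisymm (nrm_le_abs s) ?_
  obtain ⟨z, hz⟩ := exists_nrm s
  rw [hz]
  have hpi := Real.pi_pos
  by_cases h0 : z = 0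
  · rw [h0, Int.cast_zero, mul_zero, sub_zero]
  · have h1 : (1 : ℝ) ≤ |(z : ℝ)| := by exact_mod_cast Int.one_le_abs h0
    have h2 : 2 * Real.pi ≤ |2 * Real.pi * z| := by
      rw [abs_mul, abs_of_pos (by positivity : (0 : ℝ) < 2 * Real.pi)]
      nlinarith
    have h3 : |2 * Real.pi * z| ≤ |s| + |s - 2 * Real.pi * z| := by
      have h4 : 2 * Real.pi * z = s - (s - 2 * Real.pi * z) := by ring
      calc |2 * Real.pi * z| = |s - (s - 2 * Real.pi * z)| := by rw [← h4]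
        _ ≤ |s| + |s - 2 * Real.pi * z| := abs_sub _ _
    linarith

theorem nrm_add_le (s t : ℝ) : nrm (s + t) ≤ nrm s + nrm t := by
  obtain ⟨z, hz⟩ := exists_nrm s
  obtain ⟨w, hw⟩ := exists_nrm t
  rw [hz, hw]
  refine (nrm_le (s + t) (z + w)).trans ?_
  have h : s + t - 2 * Real.pi * ((z + w : ℤ) : ℝ) =
      (s - 2 * Real.pi * z) + (t - 2 * Real.pi * w) := by
    push_cast
    ring
  rw [h]
  exact abs_add_le _ _

private theorem nrm_neg_le (s : ℝ) : nrm (-s) ≤ nrm s := by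
  obtain ⟨z, hz⟩ := exists_nrm s
  rw [hz]
  refine (nrm_le (-s) (-z)).trans (le_of_eq ?_)
  have h : -s - 2 * Real.pi * ((-z : ℤ) : ℝ) = -(s - 2 * Real.pi * z) := by
    push_cast
    ring
  rw [h, abs_neg]

theorem nrm_neg (s : ℝ) : nrm (-s) = nrm s := by
  refine le_antisymm (nrm_neg_le s) ?_
  have h := nrm_neg_le (-s)
  rwa [neg_neg] at h

theorem nrm_sub_le (s t : ℝ) : nrm (s - t) ≤ nrm s + nrm t := by
  rw [sub_eq_add_neg, ← nrm_neg t]
  exact nrm_add_le s (-t)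

private theorem nrm_add_int_le (s : ℝ) (z : ℤ) : nrm (s + 2 * Real.pi * z) ≤ nrm s := by
  obtain ⟨w, hw⟩ := exists_nrm s
  rw [hw]
  refine (nrm_le (s + 2 * Real.pi * z) (w + z)).trans (le_of_eq ?_)
  have h : s + 2 * Real.pi * z - 2 * Real.pi * ((w + z : ℤ) : ℝ) = s - 2 * Real.pi * w := by
    push_cast
    ring
  rw [h]

theorem nrm_add_int (s : ℝ) (z : ℤ) : nrm (s + 2 * Real.pi * z) = nrm s := by
  refine le_antisymm (nrm_add_int_le s z) ?_
  have h := nrm_add_int_le (s + 2 * Real.pi * z) (-z)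
  have h1 : s + 2 * Real.pi * z + 2 * Real.pi * ((-z : ℤ) : ℝ) = s := by
    push_cast
    ring
  rwa [h1] at h

theorem measurable_nrm : Measurable nrm := by
  have h : nrm = fun s => |s - 2 * Real.pi * ((⌊s / (2 * Real.pi) + 1 / 2⌋ : ℤ) : ℝ)| := by
    funext s
    unfold nrm
    rw [round_eq]
  rw [h]
  have h0 : Measurable fun s : ℝ => s / (2 * Real.pi) + 1 / 2 := by fun_prop
  have h1 : Measurable fun s : ℝ => ((⌊s / (2 * Real.pi) + 1 / 2⌋ : ℤ) : ℝ) :=
    (measurable_from_top (f := fun z : ℤ => (z : ℝ))).comp h0.floor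
  exact continuous_abs.measurable.comp (measurable_id.sub (h1.const_mul _))

/-- `nrm (2 x)` small means `x` near `0` or near `π` -/
theorem nrm_two_mul (x : ℝ) : 2 * min (nrm x) (nrm (x - Real.pi)) ≤ nrm (2 * x) := by
  obtain ⟨z, hz⟩ := exists_nrm (2 * x)
  rw [hz]
  rcases Int.even_or_odd' z with ⟨w, rfl | rfl⟩
  · have h : 2 * x - 2 * Real.pi * ((2 * w : ℤ) : ℝ) = 2 * (x - 2 * Real.pi * w) := by
      push_cast
      ring
    rw [h, abs_mul, abs_two]
    exact mul_le_mul_of_nonneg_left ((min_le_left _ _).trans (nrm_le x w)) zero_le_two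
  · have h : 2 * x - 2 * Real.pi * ((2 * w + 1 : ℤ) : ℝ) = 2 * (x - Real.pi - 2 * Real.pi * w) := by
      push_cast
      ring
    rw [h, abs_mul, abs_two]
    exact mul_le_mul_of_nonneg_left ((min_le_right _ _).trans (nrm_le (x - Real.pi) w)) zero_le_two

end PLR
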