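import Pool.Agent.PLR.Upper
import Pool.Agent.PLR.Lower
import Pool.Agent.PLR.Tilt
import Pool.Agent.PLR.TiltB
import Pool.Agent.PLR.TiltId
import Pool.Agent.PLR.QRd
import Pool.Agent.PLR.DnCut

/-!
# PLR.Ratio: removing the pairs inside `T` changes the probability by at most a factor `C^(|T|+1)` (and the tilts)

`x_i = dgE E i/2 - t_i`, `y` the tilt for `E`, `x` (`tilt_exists`, `tilt_bound`: `|y_i| ≤ C X/m =: ρ`, small as `X ≤ η m`); `y' = y` off `T`, `0` on `T`. `E' = cutT E T` (`cosh(sm y' e/2) = 1` on the removed pairs). With `Z(y) = ∏_(e in E) cosh(sm y e/2)`, `tilt_id` for `(E', t', y')` and `(E, t, y)`: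
`PD E' (1/2) t' / PD E (1/2) t = exp(Ψ(y') - Ψ(y)) PD E' (tp y') t' / PD E (tp y) t`, `Ψ(y) = log Z(y) + ∑ x_i y_i` (for `i ∉ T`: `dgE E' i = dgE E i`, `t'_i = t_i`; for `i ∈ T`: `y'_i = 0`).
`Ψ` has gradient `0` at `y` (tilt equation) and `(log cosh)'' ≤ 1`: `Ψ(y') - Ψ(y) ≤ (m/4) ∑_T y_i^2 ≤ |T| C^2 X^2/m`.
`upper` for `E'` (`qr_of_dn` for `δ/2`, `dn_cut`), `lower` for `E` (`sw E (tp y) i = dgE E i/2 + (tilt sum) = t_i`), and `GF E' (tp y') ≤ 2^|T| exp(C X^2/m) GF E (tp y)`: `Vr E (tp y) i ≤ dgE E i/4`, `Vr E' (tp y') i = ∑ 1/(4 cosh^2) ≥ (1-ρ^2) dgE E' i/4`, `dgE E' i ≥ dgE E i - |T| ≥ dgE E i/4` on `T` (choose `c₁ ≤ δ/4`), equal off `T`, `(1-ρ^2)^(-m/2) ≤ exp(m ρ^2)`.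
-/

set_option autoImplicit false

namespace PLR

open Finset Smo

variable {ι : Type*} [Fintype ι] [DecidableEq ι]

private theorem rt_sm_eq_sum {e : Sym2 ι} (he : ¬ e.IsDiag) (θ : ι → ℝ) :
    sm θ e = ∑ i, if i ∈ e then θ i else 0 := by
  induction e using Sym2.ind with
  | _ a b =>
    have hab : a ≠ b := fun h => he (Sym2.mk_isDiag_iff.mpr h)
    rw [sm_mk]
    have h1 : ∀ i, (if i ∈ s(a, b) then θ i else 0) = (if i = a then θ i else 0) + (if i = b then θ i else 0) := by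
      intro i
      by_cases h1 : i = a
      · subst h1
        rw [if_pos (Sym2.mem_mk_left _ _), if_pos rfl, if_neg hab, add_zero]
      · by_cases h2 : i = b
        · subst h2
          rw [if_pos (Sym2.mem_mk_right _ _), if_neg h1, if_pos rfl, zero_add]
        · rw [if_neg (by rw [Sym2.mem_iff]; tauto), if_neg h1, if_neg h2, add_zero]
    rw [Finset.sum_congr rfl fun i _ => h1 i, Finset.sum_add_distrib, Finset.sum_ite_eq', Finset.sum_ite_eq']
    simp

private theorem rt_sum_w_sm {E : Finset (Sym2 ι)} (hE : ∀ e ∈ E, ¬ e.IsDiag) (w : Sym2 ι → ℝ) (θ : ι → ℝ) :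
    ∑ e ∈ E, w e * sm θ e = ∑ i, θ i * sw E w i := by
  have h1 : ∀ e ∈ E, w e * sm θ e = ∑ i, if i ∈ e then w e * θ i else 0 := by
    intro e he
    rw [rt_sm_eq_sum (hE e he), Finset.mul_sum]
    refine Finset.sum_congr rfl fun i _ => ?_
    split_ifs <;> simp
  rw [Finset.sum_congr rfl h1, Finset.sum_comm]
  refine Finset.sum_congr rfl fun i _ => ?_
  rw [sw, Finset.mul_sum, Finset.sum_filter]
  refine Finset.sum_congr rfl fun e _ => ?_
  split_ifs <;> ring

private theorem rt_hasDerivAt_tanh (s : ℝ) : HasDerivAt Real.tanh (1 - Real.tanh s ^ 2) s := by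
  have h : HasDerivAt (fun x => Real.sinh x / Real.cosh x)
      ((Real.cosh s * Real.cosh s - Real.sinh s * Real.sinh s) / Real.cosh s ^ 2) s :=
    (Real.hasDerivAt_sinh s).div (Real.hasDerivAt_cosh s) (Real.cosh_pos s).ne'
  have h2 : Real.tanh = fun x => Real.sinh x / Real.cosh x := by
    funext x
    exact Real.tanh_eq_sinh_div_cosh x
  rw [h2]
  convert h using 1
  have := Real.cosh_pos s
  field_simp

private theorem rt_mono : Monotone fun s : ℝ => s - Real.tanh s := by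
  have hd : ∀ s : ℝ, HasDerivAt (fun s : ℝ => s - Real.tanh s) (1 - (1 - Real.tanh s ^ 2)) s :=
    fun s => (hasDerivAt_id s).sub (rt_hasDerivAt_tanh s)
  refine monotone_of_deriv_nonneg (fun s => (hd s).differentiableAt) fun s => ?_
  rw [(hd s).deriv]
  nlinarith [sq_nonneg (Real.tanh s)]

private theorem rt_abs_tanh (s : ℝ) : |Real.tanh s| ≤ |s| := by
  have h0 : (0 : ℝ) - Real.tanh 0 = 0 := by rw [Real.tanh_zero, sub_zero]
  have hpos : ∀ u : ℝ, 0 ≤ u → |Real.tanh u| ≤ u := by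
    intro u hu
    have h1 := rt_mono hu
    simp only [h0] at h1
    have h2 : 0 ≤ Real.tanh u := by
      rw [Real.tanh_eq_sinh_div_cosh]
      exact div_nonneg (Real.sinh_nonneg_iff.mpr hu) (Real.cosh_pos u).le
    rw [abs_of_nonneg h2]
    linarith
  rcases le_total 0 s with h | h
  · rw [abs_of_nonneg h]
    exact hpos s h
  · have h1 := hpos (-s) (by linarith)
    rw [Real.tanh_neg, abs_neg] at h1
    rw [abs_of_nonpos h]
    exact h1

private theorem rt_logcosh (a b : ℝ) :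
    Real.log (Real.cosh b) ≤ Real.log (Real.cosh a) + (b - a) * Real.tanh a + (b - a) ^ 2 / 2 := by
  obtain ⟨F, hF⟩ : ∃ F : ℝ → ℝ, F = fun s => (s - a) * Real.tanh a + (s - a) ^ 2 / 2 - Real.log (Real.cosh s) :=
    ⟨_, rfl⟩
  have hd : ∀ s, HasDerivAt F ((s - Real.tanh s) - (a - Real.tanh a)) s := by
    intro s
    have h1 : HasDerivAt (fun s => (s - a) * Real.tanh a) (1 * Real.tanh a) s :=
      ((hasDerivAt_id s).sub_const a).mul_const _
    have h2 : HasDerivAt (fun s => (s - a) ^ 2 / 2) (s - a) s := by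
      have h : HasDerivAt (fun s : ℝ => (s - a) ^ 2 / 2) (((2 : ℕ) : ℝ) * (s - a) ^ (2 - 1) * 1 / 2) s :=
        (((hasDerivAt_id' s).sub_const a).pow 2).div_const 2
      refine h.congr_deriv ?_
      norm_num
    have h3 : HasDerivAt (fun s => Real.log (Real.cosh s)) (Real.tanh s) s := by
      have h := (Real.hasDerivAt_cosh s).log (Real.cosh_pos s).ne'
      rwa [← Real.tanh_eq_sinh_div_cosh] at h
    rw [hF]
    refine ((h1.add h2).sub h3).congr_deriv ?_
    ring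
  have hc : Continuous F := continuous_iff_continuousAt.mpr fun s => (hd s).continuousAt
  have key : F a ≤ F b := by
    rcases lt_trichotomy a b with h | h | h
    · obtain ⟨ξ, hξ, he⟩ := exists_hasDerivAt_eq_slope F _ h hc.continuousOn fun x _ => hd x
      have h1 := rt_mono hξ.1.le
      simp only at h1
      have h2 : 0 ≤ (F b - F a) / (b - a) := by
        rw [← he]
        linarith
      have h3 : 0 < b - a := by linarith
      have h4 : F b - F a = (F b - F a) / (b - a) * (b - a) := by field_simp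
      nlinarith [mul_nonneg h2 h3.le]
    · rw [h]
    · obtain ⟨ξ, hξ, he⟩ := exists_hasDerivAt_eq_slope F _ h hc.continuousOn fun x _ => hd x
      have h1 := rt_mono hξ.2.le
      simp only at h1
      have h2 : (F a - F b) / (a - b) ≤ 0 := by
        rw [← he]
        linarith
      have h3 : 0 < a - b := by linarith
      have h4 : F a - F b = (F a - F b) / (a - b) * (a - b) := by field_simp
      nlinarith [mul_nonneg (neg_nonneg.mpr h2) h3.le]
  rw [hF] at key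
  simp only [sub_self, zero_mul] at key
  norm_num at key
  linarith

private theorem rt_cosh (a b : ℝ) :
    Real.cosh b ≤ Real.cosh a * Real.exp ((b - a) * Real.tanh a + (b - a) ^ 2 / 2) := by
  have h := rt_logcosh a b
  have h1 := Real.exp_le_exp.mpr h
  rw [Real.exp_log (Real.cosh_pos b), add_assoc, Real.exp_add, Real.exp_log (Real.cosh_pos a)] at h1
  exact h1

omit [Fintype ι] [DecidableEq ι] in
private theorem rt_sm_sub (θ θ' : ι → ℝ) (e : Sym2 ι) : sm (fun i => θ' i - θ i) e = sm θ' e - sm θ e := by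
  induction e using Sym2.ind with
  | _ a b =>
    rw [sm_mk, sm_mk, sm_mk]
    ring

omit [Fintype ι] [DecidableEq ι] in
private theorem rt_sm_sq (θ : ι → ℝ) (e : Sym2 ι) : sm θ e ^ 2 ≤ 2 * sm (fun i => θ i ^ 2) e := by
  induction e using Sym2.ind with
  | _ a b =>
    rw [sm_mk, sm_mk]
    nlinarith [sq_nonneg (θ a - θ b)]

/-- the product of the `cosh` after a change of the tilt -/
private theorem rt_prod {E : Finset (Sym2 ι)} (hE : ∀ e ∈ E, ¬ e.IsDiag) (x y y' : ι → ℝ)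
    (hy : ∀ i, sw E (fun e => Real.tanh (sm y e / 2) / 2) i = -x i) :
    (∏ e ∈ E, Real.cosh (sm y' e / 2)) * Real.exp (∑ i, y' i * x i) ≤
      (∏ e ∈ E, Real.cosh (sm y e / 2)) * Real.exp (∑ i, y i * x i) *
        Real.exp ((∑ i, (dgE E i : ℝ) * (y' i - y i) ^ 2) / 4) := by
  have h1 : ∏ e ∈ E, Real.cosh (sm y' e / 2) ≤ ∏ e ∈ E, (Real.cosh (sm y e / 2) *
      Real.exp ((Real.tanh (sm y e / 2) / 2) * sm (fun i => y' i - y i) e + sm (fun i => y' i - y i) e ^ 2 / 8)) := by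
    refine Finset.prod_le_prod (fun e _ => (Real.cosh_pos _).le) fun e _ => ?_
    have h := rt_cosh (sm y e / 2) (sm y' e / 2)
    rw [rt_sm_sub]
    refine h.trans (le_of_eq ?_)
    congr 2
    ring
  rw [Finset.prod_mul_distrib, ← Real.exp_sum, Finset.sum_add_distrib, rt_sum_w_sm hE] at h1
  have h2 : ∑ i, (y' i - y i) * sw E (fun e => Real.tanh (sm y e / 2) / 2) i = ∑ i, y i * x i - ∑ i, y' i * x i := by
    rw [← Finset.sum_sub_distrib]
    refine Finset.sum_congr rfl fun i _ => ?_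
    rw [hy]
    ring
  have h3 : ∑ e ∈ E, sm (fun i => y' i - y i) e ^ 2 / 8 ≤ (∑ i, (dgE E i : ℝ) * (y' i - y i) ^ 2) / 4 := by
    have h4 : ∑ e ∈ E, (1 : ℝ) * sm (fun i => (y' i - y i) ^ 2) e = ∑ i, (y' i - y i) ^ 2 * sw E (fun _ => 1) i :=
      rt_sum_w_sm hE _ _
    have h5 : ∀ i, sw E (fun _ => (1 : ℝ)) i = dgE E i := by
      intro i
      rw [sw, dgE, Finset.sum_const, nsmul_eq_mul, mul_one]
    have h6 : ∑ e ∈ E, sm (fun i => y' i - y i) e ^ 2 / 8 ≤
        ∑ e ∈ E, (1 : ℝ) * sm (fun i => (y' i - y i) ^ 2) e / 4 := by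
      refine Finset.sum_le_sum fun e _ => ?_
      have := rt_sm_sq (fun i => y' i - y i) e
      linarith
    refine h6.trans (le_of_eq ?_)
    rw [← Finset.sum_div, h4]
    congr 1
    refine Finset.sum_congr rfl fun i _ => ?_
    rw [h5, mul_comm]
  rw [h2] at h1
  have h7 : Real.exp (∑ i, y i * x i - ∑ i, y' i * x i + ∑ e ∈ E, sm (fun i => y' i - y i) e ^ 2 / 8) *
      Real.exp (∑ i, y' i * x i) ≤ Real.exp (∑ i, y i * x i) *
        Real.exp ((∑ i, (dgE E i : ℝ) * (y' i - y i) ^ 2) / 4) := by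
    rw [← Real.exp_add, ← Real.exp_add]
    apply Real.exp_le_exp.mpr
    linarith
  have hP : 0 ≤ ∏ e ∈ E, Real.cosh (sm y e / 2) := Finset.prod_nonneg fun e _ => (Real.cosh_pos _).le
  calc (∏ e ∈ E, Real.cosh (sm y' e / 2)) * Real.exp (∑ i, y' i * x i)
      ≤ ((∏ e ∈ E, Real.cosh (sm y e / 2)) * Real.exp (∑ i, y i * x i - ∑ i, y' i * x i +
          ∑ e ∈ E, sm (fun i => y' i - y i) e ^ 2 / 8)) * Real.exp (∑ i, y' i * x i) :=
        mul_le_mul_of_nonneg_right h1 (Real.exp_pos _).le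
    _ = (∏ e ∈ E, Real.cosh (sm y e / 2)) * (Real.exp (∑ i, y i * x i - ∑ i, y' i * x i +
          ∑ e ∈ E, sm (fun i => y' i - y i) e ^ 2 / 8) * Real.exp (∑ i, y' i * x i)) := by ring
    _ ≤ (∏ e ∈ E, Real.cosh (sm y e / 2)) * (Real.exp (∑ i, y i * x i) *
        Real.exp ((∑ i, (dgE E i : ℝ) * (y' i - y i) ^ 2) / 4)) := mul_le_mul_of_nonneg_left h7 hP
    _ = _ := by ring

/-! ### degrees -/

omit [Fintype ι] in
private theorem rt_dgE_cut_off {E : Finset (Sym2 ι)} {T : Finset ι} {i : ι} (hi : i ∉ T) :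
    (cutT E T).filter (fun e => i ∈ e) = E.filter (fun e => i ∈ e) := by
  ext e
  rw [Finset.mem_filter, Finset.mem_filter, cutT, Finset.mem_sdiff]
  constructor
  · rintro ⟨⟨h1, _⟩, h2⟩
    exact ⟨h1, h2⟩
  · rintro ⟨h1, h2⟩
    refine ⟨⟨h1, fun h3 => hi ?_⟩, h2⟩
    unfold prs at h3
    rw [Finset.mem_filter, Finset.mem_sym2_iff] at h3
    exact h3.1 i h2

omit [Fintype ι] in
private theorem rt_dgE_cut {E : Finset (Sym2 ι)} {T : Finset ι} (i : ι) :
    dgE E i ≤ dgE (cutT E T) i + T.card := by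
  have h1 : E.filter (fun e => i ∈ e) ⊆ (cutT E T).filter (fun e => i ∈ e) ∪ T.image (fun j => s(i, j)) := by
    intro e he
    rw [Finset.mem_filter] at he
    rw [Finset.mem_union, Finset.mem_filter, cutT, Finset.mem_sdiff]
    by_cases h : e ∈ prs T
    · right
      rw [Finset.mem_image]
      obtain ⟨j, rfl⟩ := he.2
      refine ⟨j, ?_, rfl⟩
      exact (mem_prs.mp h).2.1
    · exact Or.inl ⟨⟨he.1, h⟩, he.2⟩
  calc dgE E i ≤ _ := Finset.card_le_card h1
    _ ≤ _ := Finset.card_union_le _ _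
    _ ≤ _ := Nat.add_le_add_left Finset.card_image_le _

private theorem rt_dgE_le (E : Finset (Sym2 ι)) (i : ι) : dgE E i ≤ Fintype.card ι := by
  have h1 : E.filter (fun e => i ∈ e) ⊆ (Finset.univ : Finset ι).image (fun j => s(i, j)) := by
    intro e he
    rw [Finset.mem_filter] at he
    obtain ⟨j, rfl⟩ := he.2
    exact Finset.mem_image.mpr ⟨j, Finset.mem_univ _, rfl⟩
  exact (Finset.card_le_card h1).trans Finset.card_image_le

/-! ### variances -/

omit [Fintype ι] [DecidableEq ι] in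
private theorem rt_tp_var (y : ι → ℝ) (e : Sym2 ι) :
    tp y e * (1 - tp y e) = (1 - Real.tanh (sm y e / 2) ^ 2) / 4 := by
  unfold tp
  ring

omit [Fintype ι] in
private theorem rt_Vr_le (E : Finset (Sym2 ι)) (y : ι → ℝ) (i : ι) : Vr E (tp y) i ≤ (dgE E i : ℝ) / 4 := by
  unfold Vr sw
  have h : ∀ e ∈ E.filter (fun e => i ∈ e), tp y e * (1 - tp y e) ≤ 1 / 4 := by
    intro e _
    rw [rt_tp_var]
    nlinarith [sq_nonneg (Real.tanh (sm y e / 2))]
  refine (Finset.sum_le_sum h).trans (le_of_eq ?_)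
  rw [Finset.sum_const, nsmul_eq_mul, dgE]
  ring

omit [Fintype ι] [DecidableEq ι] in
private theorem rt_sm_abs {y : ι → ℝ} {ρ : ℝ} (hy : ∀ i, |y i| ≤ ρ) (e : Sym2 ι) : |sm y e / 2| ≤ ρ := by
  induction e using Sym2.ind with
  | _ a b =>
    rw [sm_mk]
    have h1 := abs_le.mp (hy a)
    have h2 := abs_le.mp (hy b)
    rw [abs_le]
    constructor <;> linarith [h1.1, h1.2, h2.1, h2.2]

omit [Fintype ι] in
private theorem rt_le_Vr (E : Finset (Sym2 ι)) {y : ι → ℝ} {ρ : ℝ} (hy : ∀ i, |y i| ≤ ρ) (i : ι) :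
    (1 - ρ ^ 2) * (dgE E i : ℝ) / 4 ≤ Vr E (tp y) i := by
  unfold Vr sw
  have h : ∀ e ∈ E.filter (fun e => i ∈ e), (1 - ρ ^ 2) / 4 ≤ tp y e * (1 - tp y e) := by
    intro e _
    rw [rt_tp_var]
    have h1 := (rt_abs_tanh (sm y e / 2)).trans (rt_sm_abs hy e)
    have h2 : Real.tanh (sm y e / 2) ^ 2 ≤ ρ ^ 2 := by
      rw [← sq_abs]
      exact pow_le_pow_left₀ (abs_nonneg _) h1 2
    linarith
  refine (le_of_eq ?_).trans (Finset.sum_le_sum h)
  rw [Finset.sum_const, nsmul_eq_mul, dgE]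
  ring

private theorem rt_exp_two {u : ℝ} (h0 : 0 ≤ u) (h1 : u ≤ 1 / 2) : 1 ≤ (1 - u) * Real.exp (2 * u) := by
  have h := Real.add_one_le_exp (2 * u)
  nlinarith [mul_le_mul_of_nonneg_left h (by linarith : (0 : ℝ) ≤ 1 - u)]

private theorem rt_sqrt_inv {V V' r : ℝ} (hV : 0 < V) (hV' : 0 < V') (hr : 0 ≤ r) (h : V ≤ r ^ 2 * V') :
    (Real.sqrt (2 * Real.pi * V'))⁻¹ ≤ r * (Real.sqrt (2 * Real.pi * V))⁻¹ := by
  have hp := Real.pi_pos
  have h1 : 0 < Real.sqrt (2 * Real.pi * V') := Real.sqrt_pos.mpr (by positivity)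
  have h2 : 0 < Real.sqrt (2 * Real.pi * V) := Real.sqrt_pos.mpr (by positivity)
  have h3 : Real.sqrt (2 * Real.pi * V) ≤ r * Real.sqrt (2 * Real.pi * V') := by
    rw [Real.sqrt_le_left (by positivity), mul_pow, Real.sq_sqrt (by positivity)]
    nlinarith
  rw [inv_eq_one_div, ← div_eq_mul_inv, div_le_div_iff₀ h1 h2, one_mul]
  exact h3

private theorem rt_GF {δ : ℝ} (hδ : 0 < δ) {E : Finset (Sym2 ι)} {T : Finset ι} {y y' : ι → ℝ} {ρ : ℝ}
    (hm : 0 < Fintype.card ι) (hy : ∀ i, |y i| ≤ ρ) (hy' : ∀ i, |y' i| ≤ ρ) (hρ : ρ ^ 2 ≤ 1 / 2)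
    (hdeg : ∀ i, δ * Fintype.card ι ≤ dgE E i) (hT : (T.card : ℝ) ≤ δ / 4 * Fintype.card ι) :
    GF (cutT E T) (tp y') ≤ 2 ^ T.card * Real.exp (Fintype.card ι * ρ ^ 2) * GF E (tp y) := by
  have hm' : (0 : ℝ) < Fintype.card ι := by exact_mod_cast hm
  have hone : ∀ i : ι, (Real.sqrt (2 * Real.pi * Vr (cutT E T) (tp y') i))⁻¹ ≤
      ((if i ∈ T then 2 else 1) * Real.exp (ρ ^ 2)) * (Real.sqrt (2 * Real.pi * Vr E (tp y) i))⁻¹ := by
    intro i
    have hd0 : 0 < (dgE E i : ℝ) := lt_of_lt_of_le (by positivity) (hdeg i)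
    have hV : 0 < Vr E (tp y) i := by
      refine lt_of_lt_of_le ?_ (rt_le_Vr E hy i)
      have : 0 < 1 - ρ ^ 2 := by linarith
      positivity
    have hdc : (dgE E i : ℝ) ≤ (if i ∈ T then 4 else 1) * dgE (cutT E T) i := by
      split_ifs with hi
      · have h1 : (dgE E i : ℝ) ≤ dgE (cutT E T) i + T.card := by exact_mod_cast rt_dgE_cut i
        have h2 := hdeg i
        nlinarith
      · unfold dgE
        rw [rt_dgE_cut_off hi, one_mul]
    have hd1 : 0 < (dgE (cutT E T) i : ℝ) := by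
      by_contra hcon
      have : (dgE (cutT E T) i : ℝ) = 0 := le_antisymm (not_lt.mp hcon) (Nat.cast_nonneg _)
      rw [this, mul_zero] at hdc
      linarith
    have hlow := rt_le_Vr (cutT E T) hy' i
    have hV' : 0 < Vr (cutT E T) (tp y') i := by
      refine lt_of_lt_of_le ?_ hlow
      have : 0 < 1 - ρ ^ 2 := by linarith
      positivity
    refine rt_sqrt_inv hV hV' (by split_ifs <;> positivity) ?_
    have hup := rt_Vr_le E y i
    have he := rt_exp_two (sq_nonneg ρ) hρ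
    have he2 : Real.exp (ρ ^ 2) ^ 2 = Real.exp (2 * ρ ^ 2) := by
      rw [← Real.exp_nat_mul]
      norm_num
    have hr2 : ((if i ∈ T then (2 : ℝ) else 1) * Real.exp (ρ ^ 2)) ^ 2 =
        (if i ∈ T then 4 else 1) * Real.exp (2 * ρ ^ 2) := by
      rw [mul_pow, he2]
      split_ifs <;> norm_num
    rw [hr2]
    have hq : (0 : ℝ) ≤ (if i ∈ T then (4 : ℝ) else 1) := by split_ifs <;> norm_num
    calc Vr E (tp y) i ≤ (dgE E i : ℝ) / 4 := hup
      _ ≤ ((if i ∈ T then 4 else 1) * dgE (cutT E T) i) / 4 := by linarith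
      _ = (if i ∈ T then 4 else 1) * (1 * (dgE (cutT E T) i : ℝ) / 4) := by ring
      _ ≤ (if i ∈ T then 4 else 1) * (((1 - ρ ^ 2) * Real.exp (2 * ρ ^ 2)) * (dgE (cutT E T) i : ℝ) / 4) := by
          refine mul_le_mul_of_nonneg_left ?_ hq
          have := mul_le_mul_of_nonneg_right he hd1.le
          linarith
      _ = (if i ∈ T then 4 else 1) * Real.exp (2 * ρ ^ 2) * ((1 - ρ ^ 2) * (dgE (cutT E T) i : ℝ) / 4) := by ring
      _ ≤ _ := mul_le_mul_of_nonneg_left hlow (mul_nonneg hq (Real.exp_pos _).le)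
  unfold GF
  refine (Finset.prod_le_prod (fun i _ => inv_nonneg.mpr (Real.sqrt_nonneg _)) fun i _ => hone i).trans (le_of_eq ?_)
  rw [Finset.prod_mul_distrib, Finset.prod_mul_distrib, Finset.prod_const, Finset.card_univ, ← Real.exp_nat_mul]
  congr 2
  rw [Finset.prod_ite, Finset.prod_const_one, mul_one, Finset.prod_const]
  congr 2
  ext i
  simp

theorem ratio (δ : ℝ) (hδ : 0 < δ) (hδ1 : δ ≤ 1) : ∃ C c₁ η : ℝ, ∃ m₀ : ℕ, 1 ≤ C ∧ 0 < c₁ ∧ 0 < η ∧
    ∀ (ι : Type) [Fintype ι] [DecidableEq ι] (E : Finset (Sym2 ι)) (t a : ι → ℤ) (X : ℝ) (T : Finset ι),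
      DN δ (δ / 16) E → m₀ ≤ Fintype.card ι → Even (∑ i, t i) → (∀ i, |(dgE E i : ℝ) / 2 - t i| ≤ X) →
      0 ≤ X → X ≤ η * Fintype.card ι → (T.card : ℝ) ≤ c₁ * Fintype.card ι → (∀ i, i ∉ T → a i = 0) →
      PD (cutT E T) (fun _ => 1 / 2) (fun i => t i - a i) ≤
        C ^ (T.card + 1) * Real.exp (C * (T.card + 1) * (X ^ 2 / Fintype.card ι)) * PD E (fun _ => 1 / 2) t := by
  obtain ⟨c, hc, hqr⟩ := qr_of_dn δ hδ
  obtain ⟨c2, hc2, hqr2⟩ := qr_of_dn (δ / 2) (by positivity)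
  obtain ⟨c₁, hc₁, -, hcut⟩ := dn_cut δ hδ hδ1
  obtain ⟨Cu, hCu, hupper⟩ := upper c2 hc2
  obtain ⟨c', η₀, m₀, hc', hη₀, hη₁, hlower⟩ := lower c hc
  obtain ⟨Ct, ηt, hCt, hηt, htilt⟩ := tilt_bound c hc
  refine ⟨2 + Cu / c' + Ct ^ 2, min c₁ (δ / 4), min (c / 4) (min ηt (η₀ / Ct)), max m₀ (⌈32 / δ⌉₊ + 1), ?_, ?_, ?_, ?_⟩
  · have : 0 < Cu / c' := by positivity
    nlinarith [sq_nonneg Ct]
  · exact lt_min hc₁ (by positivity)
  · exact lt_min (by positivity) (lt_min hηt (by positivity))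
  intro ι _ _ E t a X T hDN hm heven hx hX0 hXm hT ha
  have hm1 : m₀ ≤ Fintype.card ι := le_trans (le_max_left _ _) hm
  have hm2 : ⌈32 / δ⌉₊ + 1 ≤ Fintype.card ι := le_trans (le_max_right _ _) hm
  have hmpos : 0 < Fintype.card ι := by omega
  have hmR : (0 : ℝ) < Fintype.card ι := by exact_mod_cast hmpos
  have hm32 : 32 ≤ δ * Fintype.card ι := by
    have h1 : 32 / δ ≤ (Fintype.card ι : ℝ) := by
      refine (Nat.le_ceil _).trans ?_
      exact_mod_cast (by omega : ⌈32 / δ⌉₊ ≤ Fintype.card ι)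
    rw [div_le_iff₀ hδ] at h1
    linarith
  have : Nonempty ι := Fintype.card_pos_iff.mp hmpos
  have hX1 : X ≤ c / 4 * Fintype.card ι := hXm.trans (mul_le_mul_of_nonneg_right (min_le_left _ _) hmR.le)
  have hX2 : X ≤ ηt * Fintype.card ι := hXm.trans
    (mul_le_mul_of_nonneg_right ((min_le_right _ _).trans (min_le_left _ _)) hmR.le)
  have hX3 : X ≤ η₀ / Ct * Fintype.card ι := hXm.trans
    (mul_le_mul_of_nonneg_right ((min_le_right _ _).trans (min_le_right _ _)) hmR.le)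
  have hT1 : (T.card : ℝ) ≤ c₁ * Fintype.card ι := hT.trans (mul_le_mul_of_nonneg_right (min_le_left _ _) hmR.le)
  have hT2 : (T.card : ℝ) ≤ δ / 4 * Fintype.card ι := hT.trans (mul_le_mul_of_nonneg_right (min_le_right _ _) hmR.le)
  have hQ : QR c E := hqr ι E (dn_mono hDN (by linarith)) (by linarith)
  have hQ2 : QR c2 (cutT E T) := by
    refine hqr2 ι (cutT E T) ?_ (by linarith)
    have h := hcut ι E T hDN hT1
    have e1 : δ / 2 / 8 = δ / 16 := by ring
    rw [e1]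
    exact h
  obtain ⟨x, hxdef⟩ : ∃ x : ι → ℝ, x = fun i => (dgE E i : ℝ) / 2 - t i := ⟨_, rfl⟩
  have hxX : ∀ i, |x i| ≤ X := by
    intro i
    rw [hxdef]
    exact hx i
  obtain ⟨y, hy⟩ := tilt_exists hQ hxX (by nlinarith [mul_pos hc hmR])
  have hyb := (htilt ι E x y X hQ hX0 hX2 hxX hy).1
  obtain ⟨ρ, hρdef⟩ : ∃ ρ : ℝ, ρ = Ct * X / Fintype.card ι := ⟨_, rfl⟩
  rw [← hρdef] at hyb
  have hρ0 : 0 ≤ ρ := by
    rw [hρdef]
    positivity
  have hρη : ρ ≤ η₀ := by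
    rw [hρdef, div_le_iff₀ hmR]
    calc Ct * X ≤ Ct * (η₀ / Ct * Fintype.card ι) := mul_le_mul_of_nonneg_left hX3 hCt.le
      _ = η₀ * Fintype.card ι := by field_simp
  have hρ1 : ρ ≤ 1 / 10 := hρη.trans hη₁
  have hρ2 : ρ ^ 2 ≤ 1 / 2 := by nlinarith
  obtain ⟨y', hy'def⟩ : ∃ y' : ι → ℝ, y' = fun i => if i ∈ T then 0 else y i := ⟨_, rfl⟩
  have hyb' : ∀ i, |y' i| ≤ ρ := by
    intro i
    rw [hy'def]
    simp only
    split_ifs
    · rw [abs_zero]
      exact hρ0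
    · exact hyb i
  have htp : ∀ z : ι → ℝ, (∀ i, |z i| ≤ ρ) → ∀ e, |2 * tp z e - 1| ≤ ρ := by
    intro z hz e
    have h1 : 2 * tp z e - 1 = Real.tanh (sm z e / 2) := by
      unfold tp
      ring
    rw [h1]
    exact (rt_abs_tanh _).trans (rt_sm_abs hz e)
  have hnd := hDN.nd
  have hnd' : ∀ e ∈ cutT E T, ¬ e.IsDiag := hQ2.nd
  -- the two tilted probabilities
  have hU : PD (cutT E T) (tp y') (fun i => t i - a i) ≤ Cu * GF (cutT E T) (tp y') :=
    hupper ι (cutT E T) (tp y') _ hQ2 fun e _ => (htp y' hyb' e).trans hρ1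
  have hsw : ∀ i, sw E (tp y) i = t i := by
    intro i
    have h1 : sw E (tp y) i = (dgE E i : ℝ) / 2 + sw E (fun e => Real.tanh (sm y e / 2) / 2) i := by
      unfold sw dgE tp
      rw [← nsmul_one, div_eq_mul_inv, smul_mul_assoc, one_mul, ← Finset.sum_const, ← Finset.sum_add_distrib]
      refine Finset.sum_congr rfl fun e _ => ?_
      ring
    rw [h1, hy, hxdef]
    ring
  have hL : c' * GF E (tp y) ≤ PD E (tp y) t :=
    hlower ι E (tp y) t hQ hm1 (fun e _ => (htp y hyb e).trans hρη) hsw heven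
  have hG : GF (cutT E T) (tp y') ≤ 2 ^ T.card * Real.exp (Fintype.card ι * ρ ^ 2) * GF E (tp y) :=
    rt_GF hδ hmpos hyb hyb' hρ2 hDN.deg hT2
  -- the tilting identities
  have hid := tilt_id hnd y t
  have hid' := tilt_id hnd' y' (fun i => t i - a i)
  have hprodcut : ∏ e ∈ cutT E T, Real.cosh (sm y' e / 2) = ∏ e ∈ E, Real.cosh (sm y' e / 2) := by
    refine Finset.prod_subset Finset.sdiff_subset fun e he hne => ?_
    have hmem : e ∈ prs T := by
      by_contra h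
      exact hne (Finset.mem_sdiff.mpr ⟨he, h⟩)
    have hs : sm y' e = 0 := by
      induction e using Sym2.ind with
      | _ p q =>
        obtain ⟨hp, hq, _⟩ := mem_prs.mp hmem
        rw [sm_mk, hy'def]
        simp only
        rw [if_pos hp, if_pos hq, add_zero]
    rw [hs, zero_div, Real.cosh_zero]
  have hlin : ∑ i, y' i * ((dgE (cutT E T) i : ℝ) / 2 - ((t i - a i : ℤ) : ℝ)) = ∑ i, y' i * x i := by
    refine Finset.sum_congr rfl fun i _ => ?_
    by_cases hi : i ∈ T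
    · have h0 : y' i = 0 := by
        rw [hy'def]
        exact if_pos hi
      rw [h0, zero_mul, zero_mul]
    · have h1 : dgE (cutT E T) i = dgE E i := by
        unfold dgE
        rw [rt_dgE_cut_off hi]
      rw [h1, ha i hi, hxdef, sub_zero]
  rw [hprodcut, hlin] at hid'
  have hlin2 : ∑ i, y i * ((dgE E i : ℝ) / 2 - t i) = ∑ i, y i * x i := by rw [hxdef]
  rw [hlin2] at hid
  have hprod := rt_prod hnd x y y' hy
  have hquad : (∑ i, (dgE E i : ℝ) * (y' i - y i) ^ 2) / 4 ≤ T.card * (Fintype.card ι * ρ ^ 2) := by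
    have h1 : ∀ i, (dgE E i : ℝ) * (y' i - y i) ^ 2 ≤ if i ∈ T then Fintype.card ι * ρ ^ 2 else 0 := by
      intro i
      by_cases hi : i ∈ T
      · rw [if_pos hi]
        have h0 : y' i = 0 := by
          rw [hy'def]
          exact if_pos hi
        rw [h0, zero_sub, neg_sq]
        have h2 : (dgE E i : ℝ) ≤ Fintype.card ι := by exact_mod_cast rt_dgE_le E i
        have h3 : y i ^ 2 ≤ ρ ^ 2 := by
          rw [← sq_abs]
          exact pow_le_pow_left₀ (abs_nonneg _) (hyb i) 2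
        exact mul_le_mul h2 h3 (sq_nonneg _) hmR.le
      · rw [if_neg hi]
        have h0 : y' i = y i := by
          rw [hy'def]
          exact if_neg hi
        rw [h0, sub_self]
        norm_num
    have h2 : ∑ i, (dgE E i : ℝ) * (y' i - y i) ^ 2 ≤ T.card * (Fintype.card ι * ρ ^ 2) := by
      refine (Finset.sum_le_sum fun i _ => h1 i).trans (le_of_eq ?_)
      rw [Finset.sum_ite_mem, Finset.univ_inter, Finset.sum_const, nsmul_eq_mul]
    have h3 : 0 ≤ (T.card : ℝ) * (Fintype.card ι * ρ ^ 2) := by positivity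
    linarith
  -- assembly
  obtain ⟨Z, hZ⟩ : ∃ Z : ℝ, Z = (∏ e ∈ E, Real.cosh (sm y e / 2)) * Real.exp (∑ i, y i * x i) := ⟨_, rfl⟩
  have hZ0 : 0 ≤ Z := by
    rw [hZ]
    exact mul_nonneg (Finset.prod_nonneg fun e _ => (Real.cosh_pos _).le) (Real.exp_pos _).le
  rw [← hZ] at hid hprod
  have hP0 : 0 ≤ PD E (tp y) t := le_trans (mul_nonneg hc'.le (Finset.prod_nonneg fun i _ =>
    inv_nonneg.mpr (Real.sqrt_nonneg _))) hL
  have hPD' : PD (cutT E T) (tp y') (fun i => t i - a i) ≤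
      Cu / c' * (2 ^ T.card * Real.exp (Fintype.card ι * ρ ^ 2)) * PD E (tp y) t := by
    calc PD (cutT E T) (tp y') (fun i => t i - a i) ≤ Cu * GF (cutT E T) (tp y') := hU
      _ ≤ Cu * (2 ^ T.card * Real.exp (Fintype.card ι * ρ ^ 2) * GF E (tp y)) := mul_le_mul_of_nonneg_left hG hCu.le
      _ = Cu / c' * (2 ^ T.card * Real.exp (Fintype.card ι * ρ ^ 2)) * (c' * GF E (tp y)) := by field_simp
      _ ≤ _ := mul_le_mul_of_nonneg_left hL (by positivity)
  have hexp : (∏ e ∈ E, Real.cosh (sm y' e / 2)) * Real.exp (∑ i, y' i * x i) ≤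
      Z * Real.exp (T.card * (Fintype.card ι * ρ ^ 2)) :=
    hprod.trans (mul_le_mul_of_nonneg_left (Real.exp_le_exp.mpr hquad) hZ0)
  have hZ'0 : 0 ≤ (∏ e ∈ E, Real.cosh (sm y' e / 2)) * Real.exp (∑ i, y' i * x i) :=
    mul_nonneg (Finset.prod_nonneg fun e _ => (Real.cosh_pos _).le) (Real.exp_pos _).le
  rw [hid', hid]
  have hmr : (Fintype.card ι : ℝ) * ρ ^ 2 = Ct ^ 2 * (X ^ 2 / Fintype.card ι) := by
    rw [hρdef]
    field_simp
  have hW0 : 0 ≤ X ^ 2 / (Fintype.card ι : ℝ) := by positivity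
  have hK0 : 0 < Cu / c' := by positivity
  have hcoef : Real.exp (T.card * (Fintype.card ι * ρ ^ 2)) * (Cu / c' * (2 ^ T.card *
      Real.exp (Fintype.card ι * ρ ^ 2))) ≤ (2 + Cu / c' + Ct ^ 2) ^ (T.card + 1) *
        Real.exp ((2 + Cu / c' + Ct ^ 2) * (T.card + 1) * (X ^ 2 / Fintype.card ι)) := by
    have h1 : Real.exp (T.card * (Fintype.card ι * ρ ^ 2)) * Real.exp (Fintype.card ι * ρ ^ 2) ≤
        Real.exp ((2 + Cu / c' + Ct ^ 2) * (T.card + 1) * (X ^ 2 / Fintype.card ι)) := by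
      rw [← Real.exp_add, hmr]
      apply Real.exp_le_exp.mpr
      have h2 : (T.card : ℝ) * (Ct ^ 2 * (X ^ 2 / Fintype.card ι)) + Ct ^ 2 * (X ^ 2 / Fintype.card ι) =
          Ct ^ 2 * ((T.card + 1) * (X ^ 2 / Fintype.card ι)) := by ring
      rw [h2, mul_assoc]
      refine mul_le_mul_of_nonneg_right (by linarith) (by positivity)
    have h3 : Cu / c' * 2 ^ T.card ≤ (2 + Cu / c' + Ct ^ 2) ^ (T.card + 1) := by
      rw [pow_succ, mul_comm]
      refine mul_le_mul (pow_le_pow_left₀ (by norm_num) (by nlinarith [sq_nonneg Ct]) _) (by nlinarith [sq_nonneg Ct])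
        hK0.le (by positivity)
    calc Real.exp (T.card * (Fintype.card ι * ρ ^ 2)) * (Cu / c' * (2 ^ T.card * Real.exp (Fintype.card ι * ρ ^ 2)))
        = (Cu / c' * 2 ^ T.card) * (Real.exp (T.card * (Fintype.card ι * ρ ^ 2)) *
            Real.exp (Fintype.card ι * ρ ^ 2)) := by ring
      _ ≤ _ := mul_le_mul h3 h1 (by positivity) (by positivity)
  calc (∏ e ∈ E, Real.cosh (sm y' e / 2)) * Real.exp (∑ i, y' i * x i) *
        PD (cutT E T) (tp y') (fun i => t i - a i)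
      ≤ (∏ e ∈ E, Real.cosh (sm y' e / 2)) * Real.exp (∑ i, y' i * x i) *
        (Cu / c' * (2 ^ T.card * Real.exp (Fintype.card ι * ρ ^ 2)) * PD E (tp y) t) :=
        mul_le_mul_of_nonneg_left hPD' hZ'0
    _ ≤ (Z * Real.exp (T.card * (Fintype.card ι * ρ ^ 2))) *
        (Cu / c' * (2 ^ T.card * Real.exp (Fintype.card ι * ρ ^ 2)) * PD E (tp y) t) :=
        mul_le_mul_of_nonneg_right hexp (by positivity)
    _ = (Real.exp (T.card * (Fintype.card ι * ρ ^ 2)) * (Cu / c' * (2 ^ T.card *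
          Real.exp (Fintype.card ι * ρ ^ 2)))) * (Z * PD E (tp y) t) := by ring
    _ ≤ _ := mul_le_mul_of_nonneg_right hcoef (mul_nonneg hZ0 hP0)

end PLR
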