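import Pool.Agent.PLR.Defs

/-!
# PLR.Tr: from vertex sets to subtypes

The map `Sym2.map Subtype.val` is an injection of `Sym2 {v // v ∈ S}` onto the pairs inside `S`; `Ex (1/2) r` of a function that depends only on the pairs inside `S` is `Ex` over `r ∩ prs S` (`Smo.Dep`; `Ex_insert` with a function that does not depend on `e`), which is the image of `Es S r`.
`dg c S v` counts `u ∈ S`, `u ≠ v`, `s(v,u) ∈ c`; for disjoint `c`, `h`: `dg (c ∪ h) S v = dg c S v + dg h S v`, and `dg h S v = dgE (h as a set of pairs of the subtype) v`.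
-/

set_option autoImplicit false

namespace PLR

open Finset Smo

variable {V : Type*} [DecidableEq V]

theorem dg_union {c h : Finset (Sym2 V)} (hd : Disjoint c h) (S : Finset V) (v : V) :
    dg (c ∪ h) S v = dg c S v + dg h S v := by
  unfold dg
  rw [← card_union_of_disjoint]
  · congr 1
    ext u
    rw [mem_nb, mem_union, mem_union, mem_nb, mem_nb]
    tauto
  · rw [disjoint_left]
    intro u h1 h2
    exact (disjoint_left.mp hd) (mem_nb.mp h1).2.2 (mem_nb.mp h2).2.2

/-- the inclusion of the pairs of the subtype -/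
def inc (S : Finset V) (e : Sym2 {v // v ∈ S}) : Sym2 V := Sym2.map Subtype.val e

theorem inc_mk (S : Finset V) (a b : {v // v ∈ S}) : inc S s(a, b) = s(a.1, b.1) := rfl

theorem inc_inj (S : Finset V) : Function.Injective (inc S) := Sym2.map.injective Subtype.val_injective

theorem mem_Es {S : Finset V} {r : Finset (Sym2 V)} {e : Sym2 {v // v ∈ S}} :
    e ∈ Es S r ↔ inc S e ∈ r ∧ ¬ e.IsDiag := by
  unfold Es inc
  rw [mem_filter]
  exact ⟨fun h => h.2, fun h => ⟨mem_univ _, h⟩⟩

theorem image_Es (S : Finset V) (r : Finset (Sym2 V)) : (Es S r).image (inc S) = r ∩ prs S := by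
  ext e
  induction e using Sym2.ind with
  | _ a b =>
    rw [mem_image, mem_inter, mem_prs]
    constructor
    · rintro ⟨e, he, h⟩
      induction e using Sym2.ind with
      | _ x y =>
        obtain ⟨h1, h2⟩ := mem_Es.mp he
        rw [h] at h1
        refine ⟨h1, ?_⟩
        rw [inc_mk] at h
        have hxy : x ≠ y := fun h' => h2 (by rw [h']; exact rfl)
        have hxy' : x.1 ≠ y.1 := fun h' => hxy (Subtype.ext h')
        rcases Sym2.eq_iff.mp h with ⟨h3, h4⟩ | ⟨h3, h4⟩
        · rw [← h3, ← h4]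
          exact ⟨x.2, y.2, hxy'⟩
        · rw [← h3, ← h4]
          exact ⟨y.2, x.2, hxy'.symm⟩
    · rintro ⟨h1, ha, hb, hab⟩
      refine ⟨s(⟨a, ha⟩, ⟨b, hb⟩), mem_Es.mpr ⟨h1, ?_⟩, rfl⟩
      intro h
      exact hab (congrArg Subtype.val (Sym2.mk_isDiag_iff.mp h))

/-- degrees in a set of pairs of the subtype -/
theorem dgE_image {S : Finset V} {α : Finset (Sym2 {v // v ∈ S})} (hα : ∀ e ∈ α, ¬ e.IsDiag) (v : {v // v ∈ S}) :
    dgE α v = dg (α.image (inc S)) S v.1 := by
  unfold dgE dg
  symm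
  have key : ∀ u (hu : u ∈ nb (α.image (inc S)) S v.1), s(v, ⟨u, (mem_nb.mp hu).1⟩) ∈ α := by
    intro u hu
    obtain ⟨e, he, h⟩ := mem_image.mp (mem_nb.mp hu).2.2
    have h1 : e = s(v, ⟨u, (mem_nb.mp hu).1⟩) := inc_inj S h
    rw [← h1]
    exact he
  apply card_bij fun u hu => s(v, ⟨u, (mem_nb.mp hu).1⟩)
  · intro u hu
    rw [mem_filter]
    exact ⟨key u hu, Sym2.mem_mk_left _ _⟩
  · intro u hu w hw h
    exact congrArg Subtype.val (Sym2.congr_right.mp h)
  · intro e he
    obtain ⟨he1, he2⟩ := mem_filter.mp he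
    obtain ⟨w, hw⟩ := Sym2.mem_iff_exists.mp he2
    subst hw
    have hwv : w.1 ≠ v.1 := by
      intro h
      apply hα _ he1
      rw [Sym2.mk_isDiag_iff]
      exact (Subtype.ext h).symm
    exact ⟨w.1, mem_nb.mpr ⟨w.2, hwv, mem_image.mpr ⟨_, he1, rfl⟩⟩, rfl⟩

theorem dg_inter (S : Finset V) (r : Finset (Sym2 V)) {v : V} (hv : v ∈ S) : dg (r ∩ prs S) S v = dg r S v := by
  unfold dg
  congr 1
  ext u
  rw [mem_nb, mem_nb, mem_inter, mem_prs]
  constructor
  · exact fun h => ⟨h.1, h.2.1, h.2.2.1⟩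
  · exact fun h => ⟨h.1, h.2.1, h.2.2, hv, h.1, h.2.1.symm⟩

theorem dgE_Es (S : Finset V) (r : Finset (Sym2 V)) (v : {v // v ∈ S}) : dgE (Es S r) v = dg r S v.1 := by
  rw [dgE_image (fun e he => (mem_Es.mp he).2) v, image_Es, dg_inter S r v.2]

theorem Ex_dep {E : Type*} [DecidableEq E] (p : E → ℝ) (B s : Finset E) :
    ∀ F : Finset E → ℝ, Dep B F → Ex p s F = Ex p (s ∩ B) F := by
  induction s using Finset.induction_on with
  | empty =>
    intro F _
    rw [empty_inter]
  | insert e s he ih =>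
    intro F hF
    by_cases heB : e ∈ B
    · rw [insert_inter_of_mem heB, Ex_insert p he, Ex_insert p (fun h => he (mem_inter.mp h).1), ih F hF,
        ih _ (hF.insert e)]
    · rw [insert_inter_of_notMem heB, Ex_insert p he, ← ih F hF]
      have h : Ex p s (fun α => F (insert e α)) = Ex p s F := Ex_congr p s fun α _ => hF.insert_of_notMem heB α
      rw [h]
      ring

theorem Ex_image {E F : Type*} [DecidableEq E] [DecidableEq F] (p : E → ℝ) {φ : F → E}
    (hφ : Function.Injective φ) (s : Finset F) :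
    ∀ G : Finset E → ℝ, Ex p (s.image φ) G = Ex (fun f => p (φ f)) s (fun α => G (α.image φ)) := by
  induction s using Finset.induction_on with
  | empty =>
    intro G
    rw [image_empty, Ex_empty, Ex_empty, image_empty]
  | insert e s he ih =>
    intro G
    have h1 : φ e ∉ s.image φ := by
      intro h
      obtain ⟨x, hx, hxe⟩ := mem_image.mp h
      rw [hφ hxe] at hx
      exact he hx
    rw [image_insert, Ex_insert p h1, Ex_insert _ he, ih, ih]
    have h2 : (fun α : Finset F => G (insert (φ e) (α.image φ))) = fun α : Finset F => G ((insert e α).image φ) := by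
      funext α
      rw [image_insert]
    rw [h2]

theorem Ex_reg {c r : Finset (Sym2 V)} (hd : Disjoint c r) (S : Finset V) (k : ℕ) :
    Ex (fun _ => 1 / 2) r (fun h => ind (∀ v ∈ S, dg (c ∪ h) S v = k)) =
      PD (Es S r) (fun _ => 1 / 2) (fun v => (k : ℤ) - dg c S v.1) := by
  have h1 : Ex (fun _ => 1 / 2) r (fun h => ind (∀ v ∈ S, dg (c ∪ h) S v = k)) =
      Ex (fun _ => 1 / 2) r (fun h => ind (∀ v ∈ S, dg c S v + dg h S v = k)) := by
    apply Ex_congr
    intro α hα
    have h : (∀ v ∈ S, dg (c ∪ α) S v = k) = (∀ v ∈ S, dg c S v + dg α S v = k) := by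
      apply propext
      apply forall₂_congr
      intro v _
      rw [dg_union (disjoint_of_subset_right hα hd)]
    rw [h]
  have h2 : Dep (prs S) (fun h => ind (∀ v ∈ S, dg c S v + dg h S v = k)) := by
    intro α
    show ind (∀ v ∈ S, dg c S v + dg α S v = k) = ind (∀ v ∈ S, dg c S v + dg (α ∩ prs S) S v = k)
    have h : (∀ v ∈ S, dg c S v + dg α S v = k) = (∀ v ∈ S, dg c S v + dg (α ∩ prs S) S v = k) := by
      apply propext
      apply forall₂_congr
      intro v hv
      rw [dg_inter S α hv]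
    rw [h]
  rw [h1, Ex_dep _ (prs S) r _ h2, ← image_Es, Ex_image _ (inc_inj S)]
  unfold PD
  apply Ex_congr
  intro α hα
  have h : (∀ v ∈ S, dg c S v + dg (α.image (inc S)) S v = k) =
      (∀ i : {v // v ∈ S}, (dgE α i : ℤ) = (k : ℤ) - dg c S i.1) := by
    apply propext
    constructor
    · intro h i
      have h3 := h i.1 i.2
      rw [← dgE_image (fun e he => (mem_Es.mp (hα he)).2) i] at h3
      rw [← h3]
      push_cast
      ring
    · intro h v hv
      have h3 := h ⟨v, hv⟩
      rw [dgE_image (fun e he => (mem_Es.mp (hα he)).2) ⟨v, hv⟩] at h3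
      have h4 : ((dg c S v + dg (α.image (inc S)) S v : ℕ) : ℤ) = (k : ℤ) := by
        push_cast
        rw [h3]
        ring
      exact_mod_cast h4
  show ind (∀ v ∈ S, dg c S v + dg (α.image (inc S)) S v = k) = _
  rw [h]

theorem Es_sdiff (S T : Finset V) (r : Finset (Sym2 V)) :
    Es S (r \ prs T) = cutT (Es S r) (univ.filter fun v : {v // v ∈ S} => v.1 ∈ T) := by
  unfold cutT
  ext e
  induction e using Sym2.ind with
  | _ a b =>
    rw [mem_Es, mem_sdiff, mem_sdiff, mem_Es, inc_mk, mem_prs, mem_prs, mem_filter, mem_filter, Sym2.mk_isDiag_iff]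
    have h1 : a.1 = b.1 ↔ a = b := ⟨fun h => Subtype.ext h, fun h => congrArg Subtype.val h⟩
    have h2 := mem_univ a
    have h3 := mem_univ b
    rw [ne_eq, ne_eq, h1]
    tauto

/-- the sum of the targets is even if `k` is -/
theorem even_targets {c : Finset (Sym2 V)} (S : Finset V) {k : ℕ} (hk : Even k) :
    Even (∑ v : {v // v ∈ S}, ((k : ℤ) - dg c S v.1)) := by
  rw [sum_sub_distrib]
  apply Even.sub
  · rw [sum_const, nsmul_eq_mul]
    apply Even.mul_left
    exact_mod_cast hk
  · have h : ∑ v : {v // v ∈ S}, (dg c S v.1 : ℤ) = ((∑ v ∈ S, dg c S v : ℕ) : ℤ) := by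
      rw [Finset.sum_coe_sort S (fun v => (dg c S v : ℤ))]
      push_cast
      rfl
    rw [h]
    exact_mod_cast even_sum_dg S c

end PLR
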