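import Pool.Agent.PLR.Four
import Pool.Agent.PLR.ChiU
import Pool.Agent.PLR.Jsp

/-!
# PLR.Upper: upper bound for the probability of a degree vector

`PD_fourier`, `norm_chi_le` with `w e = p e (1 - p e) ∈ [6/25, 1/4]`: `PD ≤ (2π)^(-m) ∫_box exp(-∑ w nrm^2/2)`. Outside the two cubes `jsp`. On `box ∩ cube (1/4)`: `|θ_i| ≤ 1/4`, so `nrm (sm θ e) = |sm θ e|` and the integral is at most
`GI (QM E w ∅) 1` (`qm_form`), bounded by `gi_le` with `M = ∅` (`offM E ∅ = E`). On `box ∩ cubeP` the same after `integral_shift_real`. `(2π)^(-m) ∏ √(2π/V_i) = ∏ (√(2π V_i))⁻¹ = GF E p`.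
-/

set_option autoImplicit false

namespace PLR

open Finset Smo

open MeasureTheory

section

variable {ι : Type*}

/-- The integrand. -/
private noncomputable def UpG (E : Finset (Sym2 ι)) (w : Sym2 ι → ℝ) (θ : ι → ℝ) : ℝ :=
  Real.exp (-(∑ e ∈ E, w e * nrm (sm θ e) ^ 2) / 2)

private theorem Up_meas_sm (e : Sym2 ι) : Measurable fun θ : ι → ℝ => sm θ e := by
  induction e with
  | h i j =>
    simp only [sm_mk]
    exact (measurable_pi_apply i).add (measurable_pi_apply j)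

private theorem Up_meas (E : Finset (Sym2 ι)) (w : Sym2 ι → ℝ) : Measurable (UpG E w) := by
  unfold UpG
  refine Real.measurable_exp.comp (Measurable.div_const (Measurable.neg ?_) 2)
  exact Finset.measurable_fun_sum E fun e _ =>
    ((measurable_nrm.comp (Up_meas_sm e)).pow_const 2).const_mul (w e)

private theorem Up_pos (E : Finset (Sym2 ι)) (w : Sym2 ι → ℝ) (θ : ι → ℝ) : 0 < UpG E w θ :=
  Real.exp_pos _

private theorem Up_le_one {E : Finset (Sym2 ι)} {w : Sym2 ι → ℝ} (hw : ∀ e ∈ E, 0 ≤ w e)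
    (θ : ι → ℝ) : UpG E w θ ≤ 1 := by
  unfold UpG
  rw [Real.exp_le_one_iff]
  have h1 : 0 ≤ ∑ e ∈ E, w e * nrm (sm θ e) ^ 2 :=
    Finset.sum_nonneg fun e he => mul_nonneg (hw e he) (sq_nonneg _)
  linarith

/-- The integrand is periodic. -/
private theorem Up_per (E : Finset (Sym2 ι)) (w : Sym2 ι → ℝ) (θ : ι → ℝ) (n : ι → ℤ) :
    UpG E w (fun i => θ i + 2 * Real.pi * n i) = UpG E w θ := by
  unfold UpG
  congr 3
  refine Finset.sum_congr rfl fun e _ => ?_
  congr 2
  induction e with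
  | h i j =>
    rw [sm_mk, sm_mk, show θ i + 2 * Real.pi * n i + (θ j + 2 * Real.pi * n j) =
      θ i + θ j + 2 * Real.pi * ((n i + n j : ℤ) : ℝ) by
        push_cast
        ring, nrm_add_int]

/-- The integrand is invariant under the translation by `π`. -/
private theorem Up_shift (E : Finset (Sym2 ι)) (w : Sym2 ι → ℝ) (θ : ι → ℝ) :
    UpG E w (fun i => θ i + Real.pi) = UpG E w θ := by
  unfold UpG
  congr 3
  refine Finset.sum_congr rfl fun e _ => ?_
  congr 2
  induction e with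
  | h i j =>
    rw [sm_mk, sm_mk, show θ i + Real.pi + (θ j + Real.pi) =
      θ i + θ j + 2 * Real.pi * ((1 : ℤ) : ℝ) by
        push_cast
        ring, nrm_add_int]

variable [Fintype ι]

private theorem Up_cube (ρ : ℝ) : MeasurableSet (cube ι ρ) := by
  have h1 : cube ι ρ = ⋂ i, {θ : ι → ℝ | nrm (θ i) ≤ ρ} := by
    ext θ
    simp [cube]
  rw [h1]
  exact MeasurableSet.iInter fun i =>
    measurableSet_le (measurable_nrm.comp (measurable_pi_apply i)) measurable_const

private theorem Up_cubeP (ρ : ℝ) : MeasurableSet (cubeP ι ρ) := by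
  have h1 : cubeP ι ρ = ⋂ i, {θ : ι → ℝ | nrm (θ i - Real.pi) ≤ ρ} := by
    ext θ
    simp [cubeP]
  rw [h1]
  exact MeasurableSet.iInter fun i =>
    measurableSet_le (measurable_nrm.comp ((measurable_pi_apply i).sub_const _)) measurable_const

private theorem Up_box : MeasurableSet (box ι) :=
  MeasurableSet.univ_pi fun _ => measurableSet_Ioc

private theorem Up_vol : volume (box ι) ≠ ⊤ := by
  have h1 : volume (box ι) = ∏ _i : ι, ENNReal.ofReal (Real.pi - -Real.pi) :=
    Real.volume_pi_Ioc (a := fun _ => -Real.pi) (b := fun _ => Real.pi)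
  rw [h1]
  exact ENNReal.prod_ne_top fun _ _ => ENNReal.ofReal_ne_top

private theorem Up_int {E : Finset (Sym2 ι)} {w : Sym2 ι → ℝ} (hw : ∀ e ∈ E, 0 ≤ w e) :
    IntegrableOn (UpG E w) (box ι) :=
  Measure.integrableOn_of_bounded (M := 1) Up_vol (Up_meas E w).aestronglyMeasurable
    (Filter.Eventually.of_forall fun θ => by
      rw [Real.norm_of_nonneg (Up_pos E w θ).le]
      exact Up_le_one hw θ)

variable [DecidableEq ι]

/-- The cube at `π` contributes as much as the cube at `0`. -/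
private theorem Up_cubes (E : Finset (Sym2 ι)) (w : Sym2 ι → ℝ) (ρ : ℝ) :
    ∫ θ in box ι ∩ cubeP ι ρ, UpG E w θ = ∫ θ in box ι ∩ cube ι ρ, UpG E w θ := by
  have h1 : ∫ θ in box ι, (cubeP ι ρ).indicator (UpG E w) θ =
      ∫ θ in box ι ∩ cubeP ι ρ, UpG E w θ := by
    rw [setIntegral_indicator (Up_cubeP ρ)]
  have h2 : ∫ θ in box ι, (cube ι ρ).indicator (UpG E w) θ =
      ∫ θ in box ι ∩ cube ι ρ, UpG E w θ := by
    rw [setIntegral_indicator (Up_cube ρ)]
  rw [← h1, ← h2, ← integral_shift_real ((cubeP ι ρ).indicator (UpG E w))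
    ((Up_meas E w).indicator (Up_cubeP ρ))]
  · congr 1
    funext θ
    have h3 : (fun i => θ i + Real.pi) ∈ cubeP ι ρ ↔ θ ∈ cube ι ρ := by
      simp [cubeP, cube]
    by_cases h4 : θ ∈ cube ι ρ
    · rw [Set.indicator_of_mem (h3.2 h4), Set.indicator_of_mem h4, Up_shift]
    · rw [Set.indicator_of_notMem (fun h => h4 (h3.1 h)), Set.indicator_of_notMem h4]
  · intro θ n
    have h3 : (fun i => θ i + 2 * Real.pi * n i) ∈ cubeP ι ρ ↔ θ ∈ cubeP ι ρ := by
      have h5 : ∀ i, nrm (θ i + 2 * Real.pi * n i - Real.pi) = nrm (θ i - Real.pi) := by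
        intro i
        rw [show θ i + 2 * Real.pi * n i - Real.pi = θ i - Real.pi + 2 * Real.pi * n i by ring,
          nrm_add_int]
      simp [cubeP, h5]
    by_cases h4 : θ ∈ cubeP ι ρ
    · rw [Set.indicator_of_mem (h3.2 h4), Set.indicator_of_mem h4, Up_per]
    · rw [Set.indicator_of_notMem (fun h => h4 (h3.1 h)), Set.indicator_of_notMem h4]

end

/-- The cube at `0`. -/
private theorem Up_near {ι : Type} [Fintype ι] [DecidableEq ι] {c : ℝ} (hc : 0 < c)
    {E : Finset (Sym2 ι)} (h : QR c E) {w : Sym2 ι → ℝ}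
    (hw : ∀ e ∈ E, 6 / 25 ≤ w e ∧ w e ≤ 1 / 4) :
    ∫ θ in box ι ∩ cube ι (1 / 4), UpG E w θ ≤ GI (QM E w ∅) (fun _ => 1) := by
  have hpi := Real.pi_gt_three
  have hVpos : ∀ i, 0 < sw E w i := by
    intro i
    have hm : (0 : ℝ) < Fintype.card ι := by
      have : 0 < Fintype.card ι := Fintype.card_pos_iff.2 ⟨i⟩
      exact_mod_cast this
    have h1 := (sw_bounds h hw i).1
    have h2 : 0 < 6 / 25 * c * Fintype.card ι := by positivity
    linarith
  set f : (ι → ℝ) → ℝ := fun θ => (1 : ℝ) *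
    Real.exp (-(∑ i, ∑ j, QM E w ∅ i j * θ i * θ j) / 2) with hf
  have hGI : GI (QM E w ∅) (fun _ => 1) = ∫ θ, f θ := rfl
  have hint : Integrable f := by
    by_contra hcon
    have h1 := (gi_ge hc h hw).2
    rw [hGI, integral_undef hcon] at h1
    have h2 : 0 < ∏ i, Real.sqrt (2 * Real.pi / sw E w i) :=
      Finset.prod_pos fun i _ => Real.sqrt_pos.2 (by have := hVpos i; positivity)
    linarith
  have hcong : ∫ θ in box ι ∩ cube ι (1 / 4), UpG E w θ =
      ∫ θ in box ι ∩ cube ι (1 / 4), f θ := by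
    refine setIntegral_congr_fun (Up_box.inter (Up_cube _)) fun θ hθ => ?_
    have hθi : ∀ i, |θ i| ≤ 1 / 4 := by
      intro i
      have h1 : θ i ∈ Set.Ioc (-Real.pi) Real.pi := hθ.1 i (Set.mem_univ i)
      have h2 : |θ i| ≤ Real.pi := abs_le.2 ⟨h1.1.le, h1.2⟩
      rw [← nrm_eq_abs h2]
      exact hθ.2 i
    show Real.exp (-(∑ e ∈ E, w e * nrm (sm θ e) ^ 2) / 2) = f θ
    rw [hf]
    show _ = (1 : ℝ) * Real.exp (-(∑ i, ∑ j, QM E w ∅ i j * θ i * θ j) / 2)
    rw [one_mul, qm_form h.nd, Finset.sum_empty, add_zero]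
    congr 3
    refine Finset.sum_congr rfl fun e _ => ?_
    congr 1
    have h3 : |sm θ e| ≤ Real.pi := by
      induction e with
      | h i j =>
        rw [sm_mk]
        have h4 := abs_add_le (θ i) (θ j)
        have h5 := hθi i
        have h6 := hθi j
        linarith
    rw [nrm_eq_abs h3, sq_abs]
  rw [hcong, hGI]
  exact setIntegral_le_integral hint (Filter.Eventually.of_forall fun θ => by
    rw [hf]
    show 0 ≤ (1 : ℝ) * Real.exp _
    positivity)

theorem upper (c : ℝ) (hc : 0 < c) : ∃ C : ℝ, 0 < C ∧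
    ∀ (ι : Type) [Fintype ι] [Nonempty ι] [DecidableEq ι] (E : Finset (Sym2 ι)) (p : Sym2 ι → ℝ) (t : ι → ℤ), QR c E →
      (∀ e ∈ E, |2 * p e - 1| ≤ 1 / 10) → PD E p t ≤ C * GF E p := by
  obtain ⟨C1, hC1, h1⟩ := jsp c hc
  obtain ⟨C2, hC2, h2⟩ := gi_le c hc
  refine ⟨C1 + 2 * C2, by linarith, ?_⟩
  intro ι _ _ _ E p t hE hp
  have hpi := Real.pi_pos
  set w : Sym2 ι → ℝ := fun e => p e * (1 - p e) with hwdef
  have hw : ∀ e ∈ E, 6 / 25 ≤ w e ∧ w e ≤ 1 / 4 := by
    intro e he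
    have h3 := abs_le.1 (hp e he)
    have h4 : 0 ≤ (1 / 10 - (2 * p e - 1)) * (1 / 10 + (2 * p e - 1)) :=
      mul_nonneg (by linarith) (by linarith)
    rw [hwdef]
    show 6 / 25 ≤ p e * (1 - p e) ∧ p e * (1 - p e) ≤ 1 / 4
    constructor
    · nlinarith
    · nlinarith [sq_nonneg (2 * p e - 1)]
  have hw0 : ∀ e ∈ E, 0 ≤ w e := fun e he => by linarith [(hw e he).1]
  have hm1 : (1 : ℝ) ≤ Fintype.card ι := by
    have : 1 ≤ Fintype.card ι := Fintype.card_pos
    exact_mod_cast this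
  have hVpos : ∀ i, 0 < sw E w i := by
    intro i
    have h3 := (sw_bounds hE hw i).1
    have h4 : 0 < 6 / 25 * c * Fintype.card ι := by positivity
    linarith
  set P : ℝ := ∏ i, Real.sqrt (2 * Real.pi / sw E w i) with hP
  have hP0 : 0 < P := Finset.prod_pos fun i _ => Real.sqrt_pos.2 (by
    have := hVpos i
    positivity)
  -- the integral of the majorant
  have hint : IntegrableOn (UpG E w) (box ι) := Up_int hw0
  have hnear : ∫ θ in box ι ∩ cube ι (1 / 4), UpG E w θ ≤ C2 * P := by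
    refine (Up_near hc hE hw).trans ?_
    have h3 := (h2 ι E w ∅ hE hw (by
      rw [Finset.card_empty, Nat.cast_zero]
      positivity)).2
    have h4 : offM E (∅ : Finset ι) = E := by
      ext e
      simp [offM]
    rw [h4, Finset.card_empty, zero_add, pow_one, pow_zero, mul_one] at h3
    exact h3
  have hbox : ∫ θ in box ι, UpG E w θ ≤ (C1 + 2 * C2) * P := by
    have hcu := Up_cube (ι := ι) (1 / 4)
    have hcp := Up_cubeP (ι := ι) (1 / 4)
    have e1 := integral_inter_add_sdiff (hcu.union hcp) hint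
    have e2 : ∫ θ in box ι ∩ (cube ι (1 / 4) ∪ cubeP ι (1 / 4)), UpG E w θ ≤
        (∫ θ in box ι ∩ cube ι (1 / 4), UpG E w θ) +
          ∫ θ in box ι ∩ cubeP ι (1 / 4), UpG E w θ := by
      have hsub : IntegrableOn (UpG E w) (box ι ∩ (cube ι (1 / 4) ∪ cubeP ι (1 / 4))) :=
        hint.mono_set Set.inter_subset_left
      have e3 := integral_inter_add_sdiff hcu hsub
      have e4 : (box ι ∩ (cube ι (1 / 4) ∪ cubeP ι (1 / 4))) ∩ cube ι (1 / 4) =
          box ι ∩ cube ι (1 / 4) := by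
        ext θ
        simp only [Set.mem_inter_iff, Set.mem_union]
        tauto
      have e5 : ∫ θ in (box ι ∩ (cube ι (1 / 4) ∪ cubeP ι (1 / 4))) \ cube ι (1 / 4),
          UpG E w θ ≤ ∫ θ in box ι ∩ cubeP ι (1 / 4), UpG E w θ := by
        refine setIntegral_mono_set (hint.mono_set Set.inter_subset_left)
          (Filter.Eventually.of_forall fun θ => (Up_pos E w θ).le) ?_
        refine Filter.Eventually.of_forall fun θ hθ => ?_
        obtain ⟨⟨hb, hcc⟩, hn⟩ := hθ
        rcases hcc with hcc | hcc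
        · exact absurd hcc hn
        · exact ⟨hb, hcc⟩
      rw [e4] at e3
      linarith
    have e6 := Up_cubes E w (1 / 4)
    have e7 : ∫ θ in box ι \ (cube ι (1 / 4) ∪ cubeP ι (1 / 4)), UpG E w θ ≤
        C1 / Fintype.card ι * P := h1 ι E w hE hw
    have e8 : C1 / Fintype.card ι * P ≤ C1 * P := by
      refine mul_le_mul_of_nonneg_right ?_ hP0.le
      exact div_le_self hC1.le hm1
    have e9 : (C1 + 2 * C2) * P = C1 * P + (C2 * P + C2 * P) := by ring
    rw [e9]
    linarith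
  -- Fourier inversion
  have hF := PD_fourier hE.nd p t
  have hnorm : ‖∫ θ in box ι, (∏ e ∈ E, chi (p e) (sm θ e)) *
      Complex.exp (-(Complex.I * ∑ i, (t i : ℂ) * (θ i : ℂ)))‖ ≤ ∫ θ in box ι, UpG E w θ := by
    refine norm_integral_le_of_norm_le hint (Filter.Eventually.of_forall fun θ => ?_)
    have e1 : ‖Complex.exp (-(Complex.I * ∑ i, (t i : ℂ) * (θ i : ℂ)))‖ = 1 := by
      rw [show -(Complex.I * ∑ i, (t i : ℂ) * (θ i : ℂ)) =
        ((-(∑ i, (t i : ℝ) * θ i) : ℝ) : ℂ) * Complex.I by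
          push_cast
          ring]
      exact Complex.norm_exp_ofReal_mul_I _
    rw [norm_mul, e1, mul_one, norm_prod]
    calc ∏ e ∈ E, ‖chi (p e) (sm θ e)‖
        ≤ ∏ e ∈ E, Real.exp (-(p e * (1 - p e) * nrm (sm θ e) ^ 2 / 2)) :=
          Finset.prod_le_prod (fun e _ => norm_nonneg _) fun e he => norm_chi_le (hp e he) _
      _ = Real.exp (∑ e ∈ E, -(p e * (1 - p e) * nrm (sm θ e) ^ 2 / 2)) :=
          (Real.exp_sum _ _).symm
      _ = UpG E w θ := by
          unfold UpG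
          congr 1
          rw [Finset.sum_neg_distrib, ← Finset.sum_div, neg_div]
  have hPD : PD E p t ≤ ((2 * Real.pi) ^ Fintype.card ι)⁻¹ * ((C1 + 2 * C2) * P) := by
    calc PD E p t ≤ |PD E p t| := le_abs_self _
      _ = ‖(PD E p t : ℂ)‖ := by rw [Complex.norm_real, Real.norm_eq_abs]
      _ = ((2 * Real.pi) ^ Fintype.card ι)⁻¹ * ‖∫ θ in box ι, (∏ e ∈ E, chi (p e) (sm θ e)) *
            Complex.exp (-(Complex.I * ∑ i, (t i : ℂ) * (θ i : ℂ)))‖ := by
          rw [hF, norm_mul, norm_inv, Complex.norm_real, Real.norm_of_nonneg (by positivity)]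
      _ ≤ _ := by
          refine mul_le_mul_of_nonneg_left (hnorm.trans hbox) (by positivity)
  refine hPD.trans (le_of_eq ?_)
  have hGF : ((2 * Real.pi) ^ Fintype.card ι)⁻¹ * P = GF E p := by
    have e1 : ((2 * Real.pi) ^ Fintype.card ι)⁻¹ = ∏ _i : ι, (2 * Real.pi)⁻¹ := by
      rw [Finset.prod_const, Finset.card_univ, inv_pow]
    rw [e1, hP, ← Finset.prod_mul_distrib]
    unfold GF
    refine Finset.prod_congr rfl fun i _ => ?_
    have hV : 0 < Vr E p i := hVpos i
    show (2 * Real.pi)⁻¹ * Real.sqrt (2 * Real.pi / Vr E p i) = _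
    have h2pi : 0 < 2 * Real.pi := by positivity
    rw [Real.sqrt_div h2pi.le, Real.sqrt_mul h2pi.le]
    have e2 : Real.sqrt (2 * Real.pi) * Real.sqrt (2 * Real.pi) = 2 * Real.pi :=
      Real.mul_self_sqrt h2pi.le
    have e3 : Real.sqrt (2 * Real.pi) ≠ 0 := (Real.sqrt_pos.2 h2pi).ne'
    have e4 : Real.sqrt (Vr E p i) ≠ 0 := (Real.sqrt_pos.2 hV).ne'
    have e5 : (2 * Real.pi)⁻¹ = (Real.sqrt (2 * Real.pi))⁻¹ * (Real.sqrt (2 * Real.pi))⁻¹ := by
      rw [← mul_inv, e2]
    rw [e5, mul_inv, mul_assoc]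
    congr 1
    rw [div_eq_mul_inv, ← mul_assoc, inv_mul_cancel₀ e3, one_mul]
  rw [← hGF]
  ring

end PLR
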