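import Pool.Agent.PLR.GSix

/-!
# PLR.VarB: bounds for variances from a lower bound of the form. `A ≥ a I` implies `A⁻¹ ≤ a⁻¹ I`: with `x = A⁻¹ u`: `a |x|^2 ≤ x A x = x·u ≤ |x||u|`. Cauchy-Schwarz for the form `A⁻¹`.
-/

set_option autoImplicit false

namespace PLR

open Finset Smo

variable {ι : Type*} [Fintype ι] [DecidableEq ι]

private theorem vb_cv_eq (A : Matrix ι ι ℝ) (u u' : ι → ℝ) :
    cv A u u' = ∑ i, u i * (A⁻¹.mulVec u') i := by
  unfold cv Matrix.mulVec dotProduct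
  refine Finset.sum_congr rfl fun i _ => ?_
  rw [Finset.mul_sum]
  exact Finset.sum_congr rfl fun j _ => by ring

private theorem vb_vr_eq (A : Matrix ι ι ℝ) (u : ι → ℝ) : vr A u = cv A u u := rfl

private theorem vb_form {A : Matrix ι ι ℝ} (hA : A.PosDef) (u : ι → ℝ) :
    ∑ i, ∑ j, A i j * (A⁻¹.mulVec u) i * (A⁻¹.mulVec u) j = vr A u := by
  have hdet : IsUnit A.det := (ne_of_gt hA.det_pos).isUnit
  have h1 : A.mulVec (A⁻¹.mulVec u) = u := by
    rw [Matrix.mulVec_mulVec, Matrix.mul_nonsing_inv A hdet, Matrix.one_mulVec]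
  rw [vb_vr_eq, vb_cv_eq]
  set x := A⁻¹.mulVec u with hx
  have h2 : ∀ i, ∑ j, A i j * x i * x j = x i * u i := by
    intro i
    have h3 : u i = ∑ j, A i j * x j := by
      have := congrFun h1 i
      rw [← this]
      rfl
    rw [h3, Finset.mul_sum]
    exact Finset.sum_congr rfl fun j _ => by ring
  rw [Finset.sum_congr rfl fun i _ => h2 i]
  exact Finset.sum_congr rfl fun i _ => by ring

private theorem vb_nonneg {A : Matrix ι ι ℝ} (hA : A.PosDef) (u : ι → ℝ) : 0 ≤ vr A u := by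
  have h := hA.inv.posSemidef.dotProduct_mulVec_nonneg u
  rw [vb_vr_eq, vb_cv_eq]
  simpa [dotProduct] using h

private theorem vb_symm {A : Matrix ι ι ℝ} (hA : A.PosDef) (u u' : ι → ℝ) :
    cv A u u' = cv A u' u := by
  have hs : ∀ i j, A⁻¹ i j = A⁻¹ j i := by
    intro i j
    have h := hA.inv.isHermitian.apply i j
    simpa using h.symm
  unfold cv
  rw [Finset.sum_comm]
  refine Finset.sum_congr rfl fun i _ => Finset.sum_congr rfl fun j _ => ?_
  rw [hs j i]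
  ring

theorem vr_le {A : Matrix ι ι ℝ} (hA : A.PosDef) {a : ℝ} (ha : 0 < a)
    (hlow : ∀ x : ι → ℝ, a * ∑ i, x i ^ 2 ≤ ∑ i, ∑ j, A i j * x i * x j) (u : ι → ℝ) :
    0 ≤ vr A u ∧ vr A u ≤ (∑ i, u i ^ 2) / a := by
  have h0 := vb_nonneg hA u
  refine ⟨h0, ?_⟩
  have h1 := hlow (A⁻¹.mulVec u)
  rw [vb_form hA u] at h1
  have h2 : (vr A u) ^ 2 ≤ (∑ i, u i ^ 2) * ∑ i, (A⁻¹.mulVec u) i ^ 2 := by
    rw [vb_vr_eq, vb_cv_eq]
    exact Finset.sum_mul_sq_le_sq_mul_sq _ _ _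
  have h3 : 0 ≤ ∑ i, u i ^ 2 := Finset.sum_nonneg fun i _ => sq_nonneg _
  rw [le_div_iff₀ ha]
  rcases h0.eq_or_lt with h4 | h4
  · rw [← h4]
    simpa using h3
  · have h5 : vr A u * (vr A u * a) ≤ vr A u * ∑ i, u i ^ 2 := by
      calc vr A u * (vr A u * a) = (vr A u) ^ 2 * a := by ring
        _ ≤ ((∑ i, u i ^ 2) * ∑ i, (A⁻¹.mulVec u) i ^ 2) * a := by
            exact mul_le_mul_of_nonneg_right h2 ha.le
        _ = (∑ i, u i ^ 2) * (a * ∑ i, (A⁻¹.mulVec u) i ^ 2) := by ring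
        _ ≤ (∑ i, u i ^ 2) * vr A u := mul_le_mul_of_nonneg_left h1 h3
        _ = vr A u * ∑ i, u i ^ 2 := by ring
    exact le_of_mul_le_mul_left h5 h4

theorem cv_sq_le {A : Matrix ι ι ℝ} (hA : A.PosDef) (u u' : ι → ℝ) : cv A u u' ^ 2 ≤ vr A u * vr A u' := by
  have h : ∀ t : ℝ, 0 ≤ vr A u' * (t * t) + 2 * cv A u u' * t + vr A u := by
    intro t
    have h1 := vb_nonneg hA (fun i => u i + t * u' i)
    have h2 : vr A (fun i => u i + t * u' i) =
        vr A u' * (t * t) + (cv A u u' + cv A u' u) * t + vr A u := by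
      unfold vr cv
      rw [Finset.sum_mul, ← Finset.sum_add_distrib, Finset.sum_mul, ← Finset.sum_add_distrib,
        ← Finset.sum_add_distrib]
      refine Finset.sum_congr rfl fun i _ => ?_
      rw [Finset.sum_mul, ← Finset.sum_add_distrib, Finset.sum_mul, ← Finset.sum_add_distrib,
        ← Finset.sum_add_distrib]
      exact Finset.sum_congr rfl fun j _ => by ring
    rw [h2, ← vb_symm hA u u'] at h1
    linarith
  have h3 := discrim_le_zero h
  unfold discrim at h3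
  nlinarith [h3]

/-- `A = ∑ w_e u_e u_eᵀ` implies `∑ w_e c(u_e, u)^2 = v(u)`; only the inequality is needed -/
theorem sum_cv_sq {κ : Type*} {A : Matrix ι ι ℝ} (hA : A.PosDef) (F : Finset κ) (w : κ → ℝ) (U : κ → ι → ℝ)
    (hw : ∀ x : ι → ℝ, ∑ e ∈ F, w e * (∑ i, U e i * x i) ^ 2 ≤ ∑ i, ∑ j, A i j * x i * x j) (u : ι → ℝ) :
    ∑ e ∈ F, w e * cv A (U e) u ^ 2 ≤ vr A u := by
  have h := hw (A⁻¹.mulVec u)
  rw [vb_form hA u] at h
  refine le_trans (le_of_eq ?_) h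
  exact Finset.sum_congr rfl fun e _ => by rw [vb_cv_eq]

end PLR
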